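import Pool.Agent.H14.NB.StNB
import Pool.Agent.H42.Q1.Small
import Pool.Agent.H28.Q1.Bulk
import Pool.Agent.H28.Q1.InvW
import Pool.Agent.H28.Q1.InvD
import Pool.Agent.Q1.M3.Step

set_option autoImplicit false
open Set Topology Filter
open Pool.Agent.H81.Q1

/-! # The exploration does not come close to `b` before it meets the barrier -/

namespace Pool.Agent.H14.NB

open Pool.Agent.H75.Perc (Co Pr IsUnit4 vx Ad)
open Pool.Agent.H75.Four (eu ev)
open Pool.Agent.H75.TwoArm (plab fi du)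
open Pool.Agent.H69.Q1 (vx_cor DEnv)
open Pool.Agent.Q1.M3
open Pool.Agent.H28.Q1 (Inv OneType one_type_dist refine_both dist_cor_succ inv_toDEnv odd_toDEnv)
open Pool.Agent.H65.Dom (Dec dec_half)
open Pool.Agent.H42.Q1 (exists_cells fat_sub_cfat)

/-- **N-lemma, general form.** `K` contains the vertex of `β`; `vx α` is joined to `vx β` by labels
inside `K` and labels far from `p`. Then the exploration does not come close to `p` before it meets
`star K`, except with small probability. -/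
theorem nlem_gen {X : DEnv} (hI : Inv X) (hE : ∀ e ∈ X.E, (e.1 + e.2) % 2 = 1) {δ0 : ℝ}
    (hDec : ∀ N : ℤ, Dec (fun _ => 1 / 2) δ0 N) {δ : ℝ} (hδ : 0 < δ) (p : ℂ) {d : ℝ} {k : ℕ}
    (hd : 10000 * (4 ^ k * δ) ≤ d) {K P : Finset (ℤ × ℤ)} (hP : P ⊆ X.E ∪ X.W)
    (hfar : ∀ e ∈ P, d + 2 * δ < dist (pt δ (eu e)) p ∧ d + 2 * δ < dist (pt δ (ev e)) p)
    (hco : Co (P ∪ (kap K ∩ (X.E ∪ X.W))) (vx X.α) (vx X.β)) (hβ : vx X.β ∈ K)
    (hα : d ≤ dist (pt δ (vx X.α)) p) :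
    Pr X.E (fun ω => ∃ i, (∀ j < i, plab (X.cor ω j) ∉ star K) ∧
      dist (pt δ (vx (X.cor ω i))) p ≤ d / (1000 * 4 ^ k)) ≤ 2 * (1 - δ0) ^ k := by
  classical
  refine (Pool.Agent.H75.Perc.Pr_mono (fun S hS h => ?_)).trans
    (one_type_dist hE hDec hδ p (d := d) (k := k) hd)
  obtain ⟨i, hi, hdist⟩ := h
  have h4 : (1 : ℝ) ≤ 4 ^ k := one_le_pow₀ (by norm_num)
  have hd0 : 0 < d := by nlinarith
  have hη : d / (1000 * 4 ^ k) < d := by
    rw [div_lt_iff₀ (by positivity)]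
    nlinarith
  -- `i` is before the end
  have hilen : i ≤ X.len S := by
    by_contra hcon
    push Not at hcon
    refine hi (X.len S) hcon ?_
    rw [X.cor_len hS]
    exact mem_star.2 ⟨_, hβ, plab_star1 _⟩
  have hstep : ∀ t, |dist (pt δ (vx (X.cor S (t + 1)))) p - dist (pt δ (vx (X.cor S t))) p| ≤
      2 * δ := fun t => by
    refine (abs_dist_sub_le _ _ _).trans ?_
    rw [dist_comm]
    exact dist_cor_succ _ hδ S t
  obtain ⟨a2, b2, k1, k2, k3, k4, k5⟩ := refine_both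
    (f := fun t => dist (pt δ (vx (X.cor S t))) p) hstep hη (Nat.zero_le i)
    (Or.inr ⟨by simpa using hα, hdist⟩)
  refine ⟨a2, b2, k2.le, ?_, ?_⟩
  · rcases k4 with h | h
    · exact Or.inl h
    · exact Or.inr h
  unfold OneType
  by_contra hcon
  rw [not_or] at hcon
  push Not at hcon
  obtain ⟨⟨i1, i2, i3, i4⟩, j1, j2, j3, j4⟩ := hcon
  refine j4 (hI.one_type' hS (P := P ∪ (kap K ∩ (X.E ∪ X.W)))
    (Finset.union_subset hP Finset.inter_subset_right) hco (i0 := a2) (j0 := b2) (by omega) ?_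
    i2 i3 j2 j3 i4)
  intro t ht1 ht2 ht3
  rcases Finset.mem_union.1 ht3 with h | h
  · have h5 := hfar _ h
    have h6 := (k5 t ht1 ht2.le).2
    have h7 := plab_star1 (X.cor S t)
    have h8 := (mem_star1_iff (odd_star1 h7)).1 h7
    rcases h8 with h8 | h8
    · rw [h8] at h6; linarith [h5.1]
    · rw [h8] at h6; linarith [h5.2]
  · refine hi t (by omega) ?_
    have h5 := (Finset.mem_inter.1 h).1
    unfold kap at h5
    exact (Finset.mem_filter.1 h5).1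

variable {D : Set ℂ} {a b : ℂ} {A₁ A₂ : Set ℂ}

lemma not_mem_of_arcs (hDo : IsOpen D) (hA : IsArcs D a b A₁ A₂) : a ∉ D ∧ b ∉ D := by
  have h1 : ∀ x ∈ ({a, b} : Set ℂ), x ∉ D := by
    intro x hx
    rw [← hA.inter] at hx
    have h2 : x ∈ frontier D := by rw [← hA.union]; exact Or.inl hx.1
    rw [hDo.frontier_eq] at h2
    exact h2.2
  exact ⟨h1 a (by simp), h1 b (by simp)⟩

/-- A label of `kap N` has its ends in `N`. -/
lemma kap_ends {N : Finset (ℤ × ℤ)} {e : ℤ × ℤ} (h : e ∈ kap N) : eu e ∈ N ∧ ev e ∈ N := by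
  unfold kap at h
  exact (Finset.mem_filter.1 h).2

/-- **The start of the domain and a cell** are joined far from `b`. -/
theorem route_α (hD : IsJordanDomain D) (hab : a ≠ b) (hA : IsArcs D a b A₁ A₂)
    (A : Approx D a b A₁ A₂) (o : ℂ) {q : Cell} (hq : cfat o q ⊆ D) :
    ∃ s > 0, ∀ᶠ n in atTop, ∃ P : Finset (ℤ × ℤ), P ⊆ LabE (A.X n) ∧
      (∀ e ∈ P, s < dist (pt (A.δ n) (eu e)) b ∧ s < dist (pt (A.δ n) (ev e)) b) ∧
      s < dist (pt (A.δ n) (A.X n).α.1) b ∧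
      ∃ v ∈ verts (A.δ n) o q, Co P (A.X n).α.1 v := by
  classical
  have hab' : 0 < dist a b := dist_pos.2 hab
  obtain ⟨G, hGc, hGD, hG⟩ := reach_α hD.1 hD.2.2.1 hD.2.1.nonempty hab hA A
    (show 0 < dist a b / 4 by positivity)
  set G' : Set ℂ := G ∪ cfat o q with hG'
  have hG'c : IsCompact G' := hGc.union (isCompact_cfat o q)
  have hG'D : G' ⊆ D := union_subset (fun z hz => (hGD hz).1) hq
  obtain ⟨k1, hk1⟩ := exists_cells hD.1 hD.2.1.isPreconnected hG'c hG'D o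
  obtain ⟨C, hC1, hC2, hC3⟩ := hk1 k1 le_rfl
  have hLD : cun o C ⊆ D := iUnion₂_subset fun q hq => (hC1 q hq).2
  have hbD : b ∉ cun o C := fun h => (not_mem_of_arcs hD.1 hA).2 (hLD h)
  obtain ⟨r1, hr10, hr1⟩ : ∃ r1 > 0, ∀ z ∈ cun o C, r1 ≤ dist z b := by
    have h1 : (cun o C)ᶜ ∈ 𝓝 b := (isCompact_cun o C).isClosed.isOpen_compl.mem_nhds hbD
    obtain ⟨r1, h2, h3⟩ := Metric.mem_nhds_iff.1 h1
    refine ⟨r1, h2, fun z hz => ?_⟩
    by_contra h4
    push Not at h4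
    exact h3 (Metric.mem_ball.2 h4) hz
  refine ⟨min (r1 / 2) (dist a b / 4), lt_min (by positivity) (by positivity), ?_⟩
  set s := min (r1 / 2) (dist a b / 4) with hs
  have hs1 : s ≤ r1 / 2 := min_le_left _ _
  have hs2 : s ≤ dist a b / 4 := min_le_right _ _
  have e3 : ∀ᶠ n in atTop, dist (pt (A.δ n) (A.X n).α.1) a < dist a b / 4 :=
    (Metric.tendsto_nhds.1 A.limα) _ (by positivity)
  have e4 := connN_Vn A (fun q hq => (hC1 q hq).2) hC3
  have e5 : ∀ᶠ n in atTop, A.δ n < mesh (q.1 + 1) := A.lim.eventually_lt_const (mesh_pos _)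
  filter_upwards [hG, e3, e4, e5] with n h1 h2 h3 h5
  have hδ := A.pos n
  obtain ⟨N, hN1, hN2, hN3, w, hw, hwG⟩ := h1
  -- a vertex of the cell
  obtain ⟨v, hv⟩ := Pool.Agent.H42.Q1.verts_nonempty (o := o) hδ h5 (le_refl q.1)
  have hvC : v ∈ Vn (A.δ n) o C := by
    have g1 : pt (A.δ n) v ∈ cfat o q := fat_sub_cfat o q ((mem_verts hδ).1 hv)
    obtain ⟨q', h6, h7⟩ := hC2 _ (Or.inr g1)
    exact Finset.mem_biUnion.2 ⟨q', h6, (mem_verts hδ).2 h7⟩
  have hwC : w ∈ Vn (A.δ n) o C := by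
    obtain ⟨q', h6, h7⟩ := hC2 _ (Or.inl hwG)
    exact Finset.mem_biUnion.2 ⟨q', h6, (mem_verts hδ).2 h7⟩
  have hfarC : ∀ u ∈ Vn (A.δ n) o C, s < dist (pt (A.δ n) u) b := by
    intro u hu
    have := hr1 _ (Vn_cun hδ hu)
    linarith
  have hfarN : ∀ u : ℤ × ℤ, pt (A.δ n) u ∈ Metric.ball a (dist a b / 4) →
      s < dist (pt (A.δ n) u) b := by
    intro u hu
    rw [Metric.mem_ball] at hu
    have h6 := dist_triangle a (pt (A.δ n) u) b
    rw [dist_comm a (pt (A.δ n) u)] at h6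
    linarith
  refine ⟨(kap N ∩ LabE (A.X n)) ∪ (kap (Vn (A.δ n) o C) ∩ LabE (A.X n)),
    Finset.union_subset Finset.inter_subset_right Finset.inter_subset_right, ?_, hfarN _ h2, v, hv,
    ?_⟩
  · intro e he
    rcases Finset.mem_union.1 he with h6 | h6
    · have h7 := kap_ends (Finset.mem_inter.1 h6).1
      exact ⟨hfarN _ (hN3 _ h7.1), hfarN _ (hN3 _ h7.2)⟩
    · have h7 := kap_ends (Finset.mem_inter.1 h6).1
      exact ⟨hfarC _ h7.1, hfarC _ h7.2⟩
  · exact ((hN2 _ hN1 w hw).mono Finset.subset_union_left).trans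
      ((h3 w hwC v hvC).mono Finset.subset_union_right)

/-- **N-lemma for the initial domain.** -/
theorem nlem0 (hD : IsJordanDomain D) (hab : a ≠ b) (hA : IsArcs D a b A₁ A₂)
    {A : Approx D a b A₁ A₂} {r0 : ℝ} (B : Base A r0) {ε : ℝ} (hε : 0 < ε) :
    ∃ r' > 0, ∀ᶠ n in atTop, Pr (X0 A n).E (fun ω => ∃ i,
      (∀ j < i, plab ((X0 A n).cor ω j) ∉ star (B.N n)) ∧
      dist (pt (A.δ n) (vx ((X0 A n).cor ω i))) b < r') ≤ ε := by
  classical
  have hqb : cfat B.o B.qb ⊆ D := (B.subQ 0 _ B.qb_mem).trans inter_subset_left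
  obtain ⟨s, hs0, hs⟩ := route_α hD hab hA A B.o hqb
  obtain ⟨δ0, hDec⟩ := dec_half
  have hδ0 := (hDec 0).2.1
  have hδ1 := (hDec 0).2.2.1
  obtain ⟨k, hk⟩ : ∃ k : ℕ, 2 * (1 - δ0) ^ k ≤ ε := by
    obtain ⟨k, hk⟩ := exists_pow_lt_of_lt_one (show (0 : ℝ) < ε / 2 by positivity)
      (by linarith : 1 - δ0 < 1)
    exact ⟨k, by linarith⟩
  set d := s / 2 with hd
  have hd0 : 0 < d := by positivity
  refine ⟨d / (1000 * 4 ^ k), by positivity, ?_⟩
  have e1 : ∀ᶠ n in atTop, A.δ n < d / (10000 * 4 ^ k) := A.lim.eventually_lt_const (by positivity)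
  have e2 : ∀ᶠ n in atTop, A.δ n < d / 4 := A.lim.eventually_lt_const (by positivity)
  obtain ⟨N0, hN0⟩ := eventually_atTop.1 (B.hN 0)
  filter_upwards [hs, e1, e2, B.hN 0, B.conn, B.beta] with n h1 h2 h3 h4 h5 h6
  have hδ := A.pos n
  obtain ⟨P, hP1, hP2, hP3, v, hv, hPv⟩ := h1
  obtain ⟨N', hN', -⟩ := h4
  have hvN : v ∈ B.N n := by
    rw [hN']
    exact Finset.mem_union_left _ (Finset.mem_biUnion.2 ⟨_, B.qb_mem, hv⟩)
  have hEW : (X0 A n).E ∪ (X0 A n).W = LabE (A.X n) := E_union_W (A.X n)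
  have h2' : 10000 * (4 ^ k * A.δ n) ≤ d := by
    rw [lt_div_iff₀ (by positivity)] at h2
    linarith
  refine (Pool.Agent.H75.Perc.Pr_mono (fun S hS h => ?_)).trans
    ((nlem_gen (inv_toDEnv (A.X n)) (odd_toDEnv (A.X n)) hDec hδ b h2' (K := B.N n) (P := P)
      ?_ ?_ ?_ h6 ?_).trans hk)
  · obtain ⟨i, hi1, hi2⟩ := h
    exact ⟨i, hi1, hi2.le⟩
  · change P ⊆ (X0 A n).E ∪ (X0 A n).W
    rw [hEW]; exact hP1
  · intro e he
    have h7 := hP2 e he
    constructor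
    · linarith [h7.1]
    · linarith [h7.2]
  · rw [show vx (A.X n).toDEnv.α = (A.X n).α.1 by rw [toDEnv_α, vx_cor]]
    refine Co.trans ((hPv).mono Finset.subset_union_left) ?_
    exact (h5 v hvN _ h6).mono Finset.subset_union_right
  · rw [show vx (A.X n).toDEnv.α = (A.X n).α.1 by rw [toDEnv_α, vx_cor]]
    linarith

end Pool.Agent.H14.NB
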