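import Pool.Agent.H14.NB.Main
import Pool.Agent.Q1.M3.Iface

set_option autoImplicit false
open Set Topology Filter
open Pool.Agent.H81.Q1

/-! # [NB] -/

namespace Pool.Agent.H14.NB

open Pool.Agent.H75.Perc (Co IsUnit4 vx Ad)
open Pool.Agent.H69.Q1 (vx_cor EL WL)
open Pool.Agent.Q1.M3

lemma E_union_W (X : DDomain) : X.toDEnv.E ∪ X.toDEnv.W = LabE X := by
  rw [toDEnv_E, toDEnv_W]
  ext l
  rw [Finset.mem_union, Pool.Agent.H69.Q1.mem_EL, Pool.Agent.H69.Q1.mem_WL, mem_LabE]
  constructor
  · rintro (⟨e, he, h⟩ | ⟨e, he, h⟩)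
    · exact ⟨e, X.free_sub he, h⟩
    · exact ⟨e, X.arc_sub he, h⟩
  · rintro ⟨e, he, h⟩
    by_cases h1 : e ∈ X.arc
    · exact Or.inr ⟨e, h1, h⟩
    · exact Or.inl ⟨e, ⟨he, h1⟩, h⟩

/-- **[NB]** Bases exist in Jordan domains. -/
theorem stNB {D : Set ℂ} {a b : ℂ} {A₁ A₂ : Set ℂ} (hJ : IsJordanDomain D) (hab : a ≠ b)
    (hA : IsArcs D a b A₁ A₂) (A : Approx D a b A₁ A₂) : StNB A := by
  intro r0 hr0
  obtain ⟨o, ho⟩ := exists_generic A.δ
  obtain ⟨qb, Q, r, N, h1, h2, h3, h4, h5, h6, h7, h8, h9, h10⟩ := exists_data hJ hab hA A hr0 o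
  exact ⟨{ o := o
           gen := ho
           qb := qb
           Q := Q
           qb_mem := h1
           mono := h2
           connQ := h3
           subQ := h4
           r := r
           rlim := h5
           rpos := h6
           N := N
           hN := fun M => (h7 M).mono fun n ⟨N', e1, e2, _⟩ => ⟨N', e1, e2⟩
           sub := h8
           conn := h9.mono fun n hn u hu v hv => by
             unfold X0
             rw [E_union_W]
             exact hn u hu v hv
           beta := h10.mono fun n hn => by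
             unfold X0
             rw [toDEnv_β, vx_cor]
             exact hn }⟩

end Pool.Agent.H14.NB
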