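import Pool.Agent.H14.NB.StOne0
import Pool.Agent.H42.Q1.OneD
import Pool.Agent.Q1.M3.Asm.Top

set_option autoImplicit false

/-! # Q1 from the convergence of the crossing probabilities of grid polygons -/

namespace Pool.Agent.H14.NB

open Pool.Agent.Q1.M5 (StC3)

/-- **Q1 from `StC3`.** -/
theorem Q1_of_StC3 (hC3 : StC3) : Pool.Agent.H81.Q1.Q1 :=
  Pool.Agent.Q1.M3.Asm.Q1_of_C3
    (fun _ hD _ _ _ _ _ hA _ _ hr B k0 _ => Pool.Agent.H42.Q1.stOne B hD hA hr k0)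
    (fun _ hD _ _ _ _ hab hA _ _ hr B k0 _ => stOne0 hD hab hA B hr k0) hC3

end Pool.Agent.H14.NB
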