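import Pool.Agent.H14.NB.Lat
import Pool.Agent.H14.Jordan.Bridge
import Pool.Agent.H42.Q1.Cells
import Pool.Agent.H42.Q1.Route

set_option autoImplicit false
open Set Topology Filter
open Pool.Agent.H81.Q1

/-! # Barriers of cells near the end point -/

namespace Pool.Agent.H14.NB

open Pool.Agent.H75.Perc (Co IsUnit4 vx Ad)
open Pool.Agent.H75.Four (eu ev)
open Pool.Agent.H69.Q1 (isUnit_of_adj vx_cor)
open Pool.Agent.Q1.M3
open Pool.Agent.H42.Q1 (exists_cells fat_sub_cfat route RB)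

/-! ### Elementary tools -/

/-- A diagonal choice. -/
lemma diag {P : ℕ → ℕ → Prop} (h : ∀ M, ∀ᶠ n in atTop, P M n) :
    ∃ m : ℕ → ℕ, Tendsto m atTop atTop ∧ ∀ᶠ n in atTop, P (m n) n := by
  classical
  have h1 : ∀ M, ∃ a, ∀ n, a ≤ n → P M n := fun M => eventually_atTop.1 (h M)
  choose a ha using h1
  refine ⟨fun n => Nat.findGreatest (fun M => ∀ j ≤ M, a j ≤ n) n, ?_, ?_⟩
  · rw [tendsto_atTop]
    intro M
    have h2 : ∀ᶠ n in atTop, ∀ j ∈ Finset.range (M + 1), a j ≤ n := by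
      rw [Finset.eventually_all]
      exact fun j _ => eventually_ge_atTop (a j)
    filter_upwards [h2, eventually_ge_atTop M] with n h3 h4
    exact Nat.le_findGreatest h4 fun j hj => h3 j (Finset.mem_range.2 (by omega))
  · filter_upwards [eventually_ge_atTop (a 0)] with n hn
    refine ha _ _ ?_
    have h2 := Nat.findGreatest_spec (P := fun M => ∀ j ≤ M, a j ≤ n) (m := 0) (Nat.zero_le n)
      (fun j hj => by rw [Nat.le_zero.1 hj]; exact hn)
    exact h2 _ le_rfl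

/-- A generic offset. -/
lemma exists_generic (δ : ℕ → ℝ) : ∃ o : ℂ, ∀ (n k : ℕ) (m j : ℤ),
    o.re + m * mesh k ≠ δ n * j ∧ o.im + m * mesh k ≠ δ n * j := by
  set f : ℕ × ℕ × ℤ × ℤ → ℝ := fun p => δ p.1 * p.2.2.2 - p.2.2.1 * mesh p.2.1 with hf
  have hc : (range f).Countable := countable_range f
  obtain ⟨x, hx⟩ := (hc.dense_compl ℝ).nonempty
  have key : ∀ (n k : ℕ) (m j : ℤ), x + m * mesh k ≠ δ n * j := by
    intro n k m j h
    apply hx
    refine ⟨(n, k, m, j), ?_⟩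
    simp only [hf]
    linarith
  exact ⟨⟨x, x⟩, fun n k m j => ⟨key n k m j, key n k m j⟩⟩

/-! ### Cells and vertices -/

/-- Edges inside a compact set are edges of the domain. -/
lemma kap_sub {X : DDomain} {δ : ℝ} {K : Set ℂ} (hf : edges {v | pt δ v ∈ K} ⊆ X.E)
    {N : Finset (ℤ × ℤ)} (hN : ∀ v ∈ N, pt δ v ∈ K) : kap N ⊆ LabE X := by
  intro e he
  have ho : (e.1 + e.2) % 2 = 1 := by
    unfold kap at he
    exact odd_star (Finset.mem_filter.1 he).1
  rw [mem_kap_iff ho] at he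
  have h1 : s(eu e, ev e) ∈ edges {v | pt δ v ∈ K} := by
    refine ⟨?_, ?_⟩
    · rw [SimpleGraph.mem_edgeSet]
      change |(eu e).1 - (ev e).1| + |(eu e).2 - (ev e).2| = 1
      simp only [eu, ev]
      rcases Int.emod_two_eq_zero_or_one e.1 with h2 | h2
      · have h3 : e.1 / 2 - (e.1 + 1) / 2 = 0 := by omega
        have h4 : e.2 / 2 - (e.2 + 1) / 2 = -1 := by omega
        rw [h3, h4]; decide
      · have h3 : e.1 / 2 - (e.1 + 1) / 2 = -1 := by omega
        have h4 : e.2 / 2 - (e.2 + 1) / 2 = 0 := by omega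
        rw [h3, h4]; decide
    · intro v hv
      rcases Sym2.mem_iff.1 hv with rfl | rfl
      · exact hN _ he.1
      · exact hN _ he.2
  have h2 := hf h1
  rw [mem_LabE]
  refine ⟨_, h2, ?_⟩
  rw [Pool.Agent.H69.Q1.lb_mk]
  simp only [eu, ev, Prod.ext_iff, Prod.fst_add, Prod.snd_add]
  omega

/-- The union of the closed fat cells of a family. -/
def cun (o : ℂ) (C : Finset Cell) : Set ℂ := ⋃ q ∈ C, cfat o q

lemma isCompact_cfat (o : ℂ) (q : Cell) : IsCompact (cfat o q) := by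
  have h1 : IsClosed (cfat o q) := by
    unfold cfat
    refine (isClosed_le continuous_const Complex.continuous_re).inter
      ((isClosed_le Complex.continuous_re continuous_const).inter
      ((isClosed_le continuous_const Complex.continuous_im).inter
      (isClosed_le Complex.continuous_im continuous_const)))
  refine Metric.isCompact_of_isClosed_isBounded h1 ?_
  rw [Metric.isBounded_iff]
  exact ⟨4 * mesh q.1, fun z hz w hw => Pool.Agent.H42.Q1.dist_cfat hz hw⟩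

lemma isCompact_cun (o : ℂ) (C : Finset Cell) : IsCompact (cun o C) :=
  C.isCompact_biUnion fun q _ => isCompact_cfat o q

lemma Vn_cun {δ : ℝ} (hδ : 0 < δ) {o : ℂ} {C : Finset Cell} {v : ℤ × ℤ} (h : v ∈ Vn δ o C) :
    pt δ v ∈ cun o C := by
  obtain ⟨q, hq, hv⟩ := Finset.mem_biUnion.1 h
  exact mem_iUnion₂.2 ⟨q, hq, fat_sub_cfat o q ((mem_verts hδ).1 hv)⟩

/-- Connected families of cells have connected sets of vertices. -/
lemma connN_Vn {D : Set ℂ} {a b : ℂ} {A₁ A₂ : Set ℂ} (A : Approx D a b A₁ A₂) {o : ℂ}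
    {C : Finset Cell} (hD : ∀ q ∈ C, cfat o q ⊆ D)
    (hC : ∀ q ∈ C, ∀ q' ∈ C, Relation.ReflTransGen (fun x y => AdjC o x y ∧ x ∈ C ∧ y ∈ C) q q') :
    ∀ᶠ n in atTop, ConnN (A.X n) (Vn (A.δ n) o C) := by
  classical
  have hcD : cun o C ⊆ D := iUnion₂_subset hD
  set k := C.sup (fun q => q.1) with hk
  have hkC : ∀ q ∈ C, q.1 ≤ k := fun q hq => Finset.le_sup (f := fun q : Cell => q.1) hq
  have e1 : ∀ᶠ n in atTop, A.δ n < mesh (k + 1) := A.lim.eventually_lt_const (mesh_pos _)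
  filter_upwards [A.fill _ (isCompact_cun o C) hcD, e1] with n h1 h2
  have hδ := A.pos n
  have hsub : kap (Vn (A.δ n) o C) ⊆ LabE (A.X n) := kap_sub h1.2 fun v hv => Vn_cun hδ hv
  intro u hu v hv
  obtain ⟨q, hq, huq⟩ := Finset.mem_biUnion.1 hu
  obtain ⟨q', hq', hvq⟩ := Finset.mem_biUnion.1 hv
  rw [Finset.inter_eq_left.2 hsub]
  have hno : ∀ w, ¬ RB (0 : ℤ) (-1) 0 (-1) w := by
    rintro w ⟨g1, g2, -, -⟩
    omega
  have h1k : (((-1 : ℤ) - 0 : ℤ) : ℝ) + 2 < mesh (k + 1) / A.δ n := by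
    rw [lt_div_iff₀ hδ]; push_cast; linarith
  exact route hδ h2 hkC h1k h1k
    (fun q hq v hv _ => Finset.mem_biUnion.2 ⟨q, hq, hv⟩) hq (hC q hq q' hq') huq (hno u) hvq
    (hno v)

end Pool.Agent.H14.NB
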