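import Pool.Agent.H14.NB.Iso0
import Pool.Agent.H21.Q1.Root2

set_option autoImplicit false

/-! # The initial environment has the property `InvL` -/

namespace Pool.Agent.H14.NB

open Pool.Agent.H21.Q1 (InvL)
open Pool.Agent.H81.Q1 (DDomain Approx)
open Pool.Agent.Q1.M3 (X0)

theorem invL_toDEnv (X : DDomain) : InvL X.toDEnv := by
  intro g g' hg h1 h2
  obtain ⟨c, hc, hc'⟩ := corner_face_plab hg
  have h3 : Pool.Agent.H77.Q1.lbf g g' = Pool.Agent.H75.TwoArm.plab c := by rw [hc']; rfl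
  rw [← hc]
  refine clJ_of_not_mem ?_
  rw [Finset.mem_union, not_or, ← h3]
  exact ⟨h1, h2⟩

theorem invL0 {D : Set ℂ} {a b : ℂ} {A₁ A₂ : Set ℂ} (A : Approx D a b A₁ A₂) (n : ℕ) :
    InvL (X0 A n) := invL_toDEnv (A.X n)

end Pool.Agent.H14.NB
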