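import Pool.Agent.H14.NB.NLem0
import Pool.Agent.Q1.M3.FreeEv

set_option autoImplicit false
open Set Topology Filter
open Pool.Agent.H81.Q1

/-! # The start of the initial domain: fine cells near `a` and the way to them -/

namespace Pool.Agent.H14.NB

open Pool.Agent.H75.Perc (Co Pr IsUnit4 vx Ad)
open Pool.Agent.H75.Four (eu ev)
open Pool.Agent.H69.Q1 (vx_cor)
open Pool.Agent.Q1.M3
open Pool.Agent.H42.Q1 (exists_cells fat_sub_cfat)
open Pool.Agent.H14.Jordan (local_joined)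

/-- The first entrance of a path in a set of vertices. -/
lemma enter_path {L : Finset (ℤ × ℤ)} {V : ℤ × ℤ → Prop} {x y : ℤ × ℤ} (hx : ¬ V x) (hy : V y)
    (h : Co L x y) : ∃ (T : Finset (ℤ × ℤ)) (u w : ℤ × ℤ), T ⊆ L ∧
      (∀ e ∈ T, ¬ V (eu e) ∧ ¬ V (ev e)) ∧ Co T x u ∧ ¬ V u ∧ V w ∧ IsUnit4 (w - u) ∧ u + w ∈ L := by
  classical
  set T := L.filter (fun e => ¬ V (eu e) ∧ ¬ V (ev e)) with hT
  have key : ∀ z, Co L x z → (¬ V z ∧ Co T x z) ∨ ∃ u w, Co T x u ∧ ¬ V u ∧ V w ∧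
      IsUnit4 (w - u) ∧ u + w ∈ L := by
    intro z hz
    induction hz with
    | refl => exact Or.inl ⟨hx, Co.refl _ _⟩
    | @tail b c _ hbc ih =>
      rcases ih with ⟨h1, h2⟩ | h1
      · by_cases hc : V c
        · exact Or.inr ⟨b, c, h2, h1, hc, hbc.1, hbc.2⟩
        · refine Or.inl ⟨hc, h2.tail ⟨hbc.1, ?_⟩⟩
          rw [hT, Finset.mem_filter]
          refine ⟨hbc.2, ?_⟩
          obtain ⟨-, h4⟩ := Pool.Agent.H42.Q1.ends_add hbc.1
          rcases h4 with ⟨h5, h6⟩ | ⟨h5, h6⟩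
          · rw [h5, h6]; exact ⟨h1, hc⟩
          · rw [h5, h6]; exact ⟨hc, h1⟩
      · exact Or.inr h1
  rcases key y h with ⟨h1, -⟩ | ⟨u, w, h1⟩
  · exact absurd hy h1
  · exact ⟨T, u, w, Finset.filter_subset _ _, fun e he => (Finset.mem_filter.1 he).2, h1.1, h1.2.1,
      h1.2.2.1, h1.2.2.2.1, h1.2.2.2.2⟩

variable {D : Set ℂ} {a b : ℂ} {A₁ A₂ : Set ℂ}

/-- **Fine cells near `a`.** For every `ρ` there is a point `za` of `D` such that for all fine levels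
there is a connected family of cells in `D` near `a` which contains `za`, joined to the cell `q` by
cells of the level in `D`, and such that the start of the lattice domains is joined to the family
near `a`. -/
theorem tip_cells (hJ : IsJordanDomain D) (hab : a ≠ b) (hA : IsArcs D a b A₁ A₂)
    (A : Approx D a b A₁ A₂) {ρ : ℝ} (hρ : 0 < ρ) (o : ℂ) {q : Cell} (hq : cfat o q ⊆ D) :
    ∃ (za : ℂ) (K1 : ℕ), ∀ K, K1 ≤ K → ∃ F : Finset Cell,
      (∀ c ∈ F, c.1 = K ∧ cfat o c ⊆ D ∩ Metric.ball a ρ) ∧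
      (∀ c ∈ F, ∀ c' ∈ F, Relation.ReflTransGen (fun x y => AdjC o x y ∧ x ∈ F ∧ y ∈ F) c c') ∧
      (∃ c ∈ F, za ∈ fat o c) ∧
      (∀ c ∈ F, ConnC o (fun x => cfat o x ⊆ D) q K c) ∧
      ∀ᶠ n in atTop, ∃ N : Finset (ℤ × ℤ), (A.X n).α.1 ∈ N ∧ ConnN (A.X n) N ∧
        (∀ v ∈ N, pt (A.δ n) v ∈ Metric.ball a ρ) ∧ ∃ v ∈ N, v ∈ Vn (A.δ n) o F := by
  classical
  obtain ⟨s, hs0, hs⟩ := local_joined hJ a hρ
  obtain ⟨G, hGc, hGD, hG⟩ := reach_α hJ.1 hJ.2.2.1 hJ.2.1.nonempty hab hA A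
    (show 0 < min s ρ from lt_min hs0 hρ)
  obtain ⟨za, hza⟩ : G.Nonempty := by
    obtain ⟨n, N, -, -, -, v, -, hv⟩ := hG.exists
    exact ⟨_, hv⟩
  have hball : ∀ z ∈ G, z ∈ D ∧ dist z a < s ∧ dist z a < ρ := by
    intro z hz
    have h1 := hGD hz
    have h2 : dist z a < min s ρ := h1.2
    exact ⟨h1.1, h2.trans_le (min_le_left _ _), h2.trans_le (min_le_right _ _)⟩
  -- the component near `a`
  have hop : IsOpen (D ∩ Metric.ball a ρ) := hJ.1.inter Metric.isOpen_ball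
  have hU : IsOpen (connectedComponentIn (D ∩ Metric.ball a ρ) za) := hop.connectedComponentIn
  have hsub : G ⊆ connectedComponentIn (D ∩ Metric.ball a ρ) za := by
    intro z hz
    have e1 := hball za hza
    have e2 := hball z hz
    obtain ⟨γ, hγ⟩ := hs za e1.1 z e2.1 e1.2.1 e2.2.1
    have g1 : IsPreconnected (range γ) := isPreconnected_range γ.continuous
    have g2 : range γ ⊆ D ∩ Metric.ball a ρ := range_subset_iff.2 hγ
    exact g1.subset_connectedComponentIn ⟨0, γ.source⟩ g2 ⟨1, γ.target⟩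
  obtain ⟨k1, hk1⟩ := exists_cells hU isPreconnected_connectedComponentIn hGc hsub o
  -- the way to `q`
  have hG' : IsCompact ({za} ∪ cfat o q) := isCompact_singleton.union (isCompact_cfat o q)
  have hG'D : {za} ∪ cfat o q ⊆ D :=
    union_subset (singleton_subset_iff.2 (hball za hza).1) hq
  obtain ⟨k2, hk2⟩ := exists_cells hJ.1 hJ.2.1.isPreconnected hG' hG'D o
  refine ⟨za, max k1 k2, fun K hK => ?_⟩
  obtain ⟨F, hF1, hF2, hF3⟩ := hk1 K (le_trans (le_max_left _ _) hK)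
  obtain ⟨F', hF1', hF2', hF3'⟩ := hk2 K (le_trans (le_max_right _ _) hK)
  have hFD : ∀ c ∈ F, c.1 = K ∧ cfat o c ⊆ D ∩ Metric.ball a ρ := fun c hc =>
    ⟨(hF1 c hc).1, (hF1 c hc).2.trans (connectedComponentIn_subset _ _)⟩
  obtain ⟨c0, hc0, hzc0⟩ := hF2 za hza
  obtain ⟨c1, hc1, hzc1⟩ := hF2' za (Or.inl rfl)
  -- a cell of the second family which meets `q`
  obtain ⟨c2, hc2, hc2q⟩ : ∃ c2 ∈ F', AdjC o c2 q := by
    have g1 := center_mem o q
    set z0 : ℂ := ⟨o.re + (q.2.1 + 1 / 2) * mesh q.1, o.im + (q.2.2 + 1 / 2) * mesh q.1⟩ with hz0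
    obtain ⟨c2, hc2, hz⟩ := hF2' z0 (Or.inr g1)
    refine ⟨c2, hc2, z0, hz, ?_⟩
    have hm := mesh_pos q.1
    refine ⟨?_, ?_, ?_, ?_⟩ <;> simp only [hz0] <;> nlinarith
  have h2 : ConnC o (fun x => cfat o x ⊆ D) q K c1 := by
    have g := hF3' c1 hc1 c2 hc2
    refine ⟨c2, ?_, (hF1' c2 hc2).1, (hF1' c2 hc2).2, hc2q⟩
    exact Relation.ReflTransGen.mono
      (fun x y hxy => ⟨hxy.1, (hF1' x hxy.2.1).1, (hF1' x hxy.2.1).2⟩) _ _ g
  have h3 : ConnC o (fun x => cfat o x ⊆ D) q K c0 :=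
    ConnC.cons (hFD c0 hc0).1 ((hFD c0 hc0).2.trans inter_subset_left) ⟨za, hzc0, hzc1⟩ h2
  refine ⟨F, hFD, hF3, ⟨c0, hc0, hzc0⟩, ?_, ?_⟩
  · intro c hc
    have g := hF3 c hc c0 hc0
    induction g using Relation.ReflTransGen.head_induction_on with
    | refl => exact h3
    | head hxy _ ih =>
      exact ConnC.cons (hFD _ hxy.2.1).1 ((hFD _ hxy.2.1).2.trans inter_subset_left) hxy.1
        (ih hxy.2.2)
  · filter_upwards [hG] with n hn
    obtain ⟨N, e1, e2, e3, v, hv, hvG⟩ := hn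
    refine ⟨N, e1, e2, fun w hw => Metric.ball_subset_ball (min_le_right _ _) (e3 w hw), v, hv, ?_⟩
    obtain ⟨q', hq', hxq⟩ := hF2 _ hvG
    exact Finset.mem_biUnion.2 ⟨q', hq', (mem_verts (A.pos n)).2 hxq⟩

/-- The labels at the vertices of the cells in `D` are free for large `n`. -/
lemma free_cells (hDo : IsOpen D) (hA : IsArcs D a b A₁ A₂) (A : Approx D a b A₁ A₂) (o : ℂ)
    {F : Finset Cell} (hF : ∀ c ∈ F, cfat o c ⊆ D) :
    ∀ᶠ n in atTop, ∀ c ∈ F, Free D (A.δ n) o (X0 A n).E c := by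
  have hAf : A₁ ⊆ frontier D := by rw [← hA.union]; exact subset_union_left
  filter_upwards [free_ev_compact hDo hAf hA.conn₁.nonempty A (isCompact_cun o F)
    (iUnion₂_subset hF)] with n h1 c hc
  refine ⟨hF c hc, fun e he => ?_⟩
  obtain ⟨v, hv, h5⟩ := mem_star.1 he
  exact h1 v (Vn_cun (A.pos n) (Finset.mem_biUnion.2 ⟨c, hc, hv⟩)) h5

end Pool.Agent.H14.NB
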