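import Pool.Agent.H14.NB.Tip0

set_option autoImplicit false
open Set Topology Filter
open Pool.Agent.H81.Q1

/-! # Fine cells near `a`, with a way to the cell `q` away from `b` -/

namespace Pool.Agent.H14.NB

open Pool.Agent.H75.Perc (Co Pr IsUnit4 vx Ad)
open Pool.Agent.H75.Four (eu ev)
open Pool.Agent.H69.Q1 (vx_cor)
open Pool.Agent.Q1.M3
open Pool.Agent.H42.Q1 (exists_cells fat_sub_cfat exists_connected_compact)
open Pool.Agent.H14.Jordan (local_joined)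

/-- Chain relation in a family. -/
def Ch (o : ℂ) (F : Finset Cell) (c c' : Cell) : Prop :=
  Relation.ReflTransGen (fun x y => AdjC o x y ∧ x ∈ F ∧ y ∈ F) c c'

lemma Ch.mono {o : ℂ} {F G : Finset Cell} (h : F ⊆ G) {c c' : Cell} (hc : Ch o F c c') :
    Ch o G c c' :=
  Relation.ReflTransGen.mono (fun _ _ hxy => ⟨hxy.1, h hxy.2.1, h hxy.2.2⟩) _ _ hc

lemma ch_union {o : ℂ} {F F' : Finset Cell} (h : ∀ c ∈ F, ∀ c' ∈ F, Ch o F c c')
    (h' : ∀ c ∈ F', ∀ c' ∈ F', Ch o F' c c') {c0 c1 : Cell} (h0 : c0 ∈ F) (h1 : c1 ∈ F')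
    (h01 : AdjC o c0 c1) : ∀ c ∈ F ∪ F', ∀ c' ∈ F ∪ F', Ch o (F ∪ F') c c' := by
  have e1 : Ch o (F ∪ F') c0 c1 := Relation.ReflTransGen.single
    ⟨h01, Finset.mem_union_left _ h0, Finset.mem_union_right _ h1⟩
  have e2 : Ch o (F ∪ F') c1 c0 := by
    refine Relation.ReflTransGen.single
      ⟨?_, Finset.mem_union_right _ h1, Finset.mem_union_left _ h0⟩
    unfold AdjC at h01 ⊢
    rwa [inter_comm]
  have e3 : ∀ c ∈ F ∪ F', Ch o (F ∪ F') c c0 ∧ Ch o (F ∪ F') c0 c := by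
    intro c hc
    rcases Finset.mem_union.1 hc with hc | hc
    · exact ⟨(h c hc c0 h0).mono Finset.subset_union_left,
        (h c0 h0 c hc).mono Finset.subset_union_left⟩
    · exact ⟨Relation.ReflTransGen.trans ((h' c hc c1 h1).mono Finset.subset_union_right) e2,
        Relation.ReflTransGen.trans e1 ((h' c1 h1 c hc).mono Finset.subset_union_right)⟩
  intro c hc c' hc'
  exact Relation.ReflTransGen.trans (e3 c hc).1 (e3 c' hc').2

variable {D : Set ℂ} {a b : ℂ} {A₁ A₂ : Set ℂ}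

/-- **Fine cells near `a` and a way to `q` away from `b`.** -/
theorem tip_cells2 (hJ : IsJordanDomain D) (hab : a ≠ b) (hA : IsArcs D a b A₁ A₂)
    (A : Approx D a b A₁ A₂) (o : ℂ) {q : Cell} (hq : cfat o q ⊆ D) :
    ∃ s > 0, s ≤ dist a b / 4 ∧ ∀ ρ > 0, ∃ K1 : ℕ, ∀ K, K1 ≤ K → ∃ F G : Finset Cell,
      F ⊆ G ∧ F.Nonempty ∧
      (∀ c ∈ G, c.1 = K ∧ cfat o c ⊆ D ∧ ∀ z ∈ cfat o c, s < dist z b) ∧
      (∀ c ∈ F, cfat o c ⊆ Metric.ball a ρ) ∧
      (∀ c ∈ F, ∀ c' ∈ F, Ch o F c c') ∧ (∀ c ∈ G, ∀ c' ∈ G, Ch o G c c') ∧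
      (∃ c ∈ G, AdjC o c q) ∧
      ∀ᶠ n in atTop, ∃ N : Finset (ℤ × ℤ), (A.X n).α.1 ∈ N ∧ ConnN (A.X n) N ∧
        (∀ v ∈ N, pt (A.δ n) v ∈ Metric.ball a ρ) ∧ ∃ v ∈ N, v ∈ Vn (A.δ n) o F := by
  classical
  have hab' : 0 < dist a b := dist_pos.2 hab
  set ρs := dist a b / 4 with hρs
  have hρs0 : 0 < ρs := by positivity
  obtain ⟨s0, hs00, hs0⟩ := local_joined hJ a hρs0
  -- a point near `a`
  obtain ⟨zs, hzs, hzsa⟩ : ∃ z ∈ D, dist z a < s0 := by
    obtain ⟨G, -, hGD, hG⟩ := reach_α hJ.1 hJ.2.2.1 hJ.2.1.nonempty hab hA A hs00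
    obtain ⟨n, N, -, -, -, v, -, hv⟩ := hG.exists
    exact ⟨_, (hGD hv).1, (hGD hv).2⟩
  -- a compact connected set which contains the point and the cell
  obtain ⟨K', hK'c, hK'p, hK'sub, hK'D⟩ := exists_connected_compact hJ.1 hJ.2.1.isPreconnected
    (isCompact_singleton.union (isCompact_cfat o q))
    (union_subset (singleton_subset_iff.2 hzs) hq)
  obtain ⟨s1, hs10, hs1⟩ : ∃ s1 > 0, ∀ z ∈ K', 2 * s1 ≤ dist z b := by
    have h1 : K'ᶜ ∈ 𝓝 b := hK'c.isClosed.isOpen_compl.mem_nhds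
      fun h => (not_mem_of_arcs hJ.1 hA).2 (hK'D h)
    obtain ⟨r1, h2, h3⟩ := Metric.mem_nhds_iff.1 h1
    refine ⟨r1 / 2, by positivity, fun z hz => ?_⟩
    by_contra h4
    push Not at h4
    exact h3 (Metric.mem_ball.2 (by linarith)) hz
  set s := min s1 ρs with hs
  have hs_0 : 0 < s := lt_min hs10 hρs0
  have hsl : s ≤ s1 := min_le_left _ _
  have hsr : s ≤ ρs := min_le_right _ _
  refine ⟨s, hs_0, hsr, fun ρ hρ => ?_⟩
  set ρ' := min ρ ρs with hρ'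
  have hρ'0 : 0 < ρ' := lt_min hρ hρs0
  have hρ'1 : ρ' ≤ ρ := min_le_left _ _
  have hρ'2 : ρ' ≤ ρs := min_le_right _ _
  obtain ⟨s2, hs20, hs2⟩ := local_joined hJ a hρ'0
  obtain ⟨G0, hGc, hGD, hG⟩ := reach_α hJ.1 hJ.2.2.1 hJ.2.1.nonempty hab hA A
    (show 0 < min (min s2 s0) ρ' from lt_min (lt_min hs20 hs00) hρ'0)
  obtain ⟨za, hza⟩ : G0.Nonempty := by
    obtain ⟨n, N, -, -, -, v, -, hv⟩ := hG.exists
    exact ⟨_, hv⟩
  have hball : ∀ z ∈ G0, z ∈ D ∧ dist z a < s2 ∧ dist z a < s0 ∧ dist z a < ρ' := by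
    intro z hz
    have h1 := hGD hz
    have h2 : dist z a < min (min s2 s0) ρ' := h1.2
    exact ⟨h1.1, h2.trans_le ((min_le_left _ _).trans (min_le_left _ _)),
      h2.trans_le ((min_le_left _ _).trans (min_le_right _ _)), h2.trans_le (min_le_right _ _)⟩
  -- the component near `a`
  have hop : IsOpen (D ∩ Metric.ball a ρ') := hJ.1.inter Metric.isOpen_ball
  have hsub : G0 ⊆ connectedComponentIn (D ∩ Metric.ball a ρ') za := by
    intro z hz
    have e1 := hball za hza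
    have e2 := hball z hz
    obtain ⟨γ, hγ⟩ := hs2 za e1.1 z e2.1 e1.2.1 e2.2.1
    have g1 : IsPreconnected (range γ) := isPreconnected_range γ.continuous
    have g2 : range γ ⊆ D ∩ Metric.ball a ρ' := range_subset_iff.2 hγ
    exact g1.subset_connectedComponentIn ⟨0, γ.source⟩ g2 ⟨1, γ.target⟩
  obtain ⟨k1, hk1⟩ := exists_cells hop.connectedComponentIn isPreconnected_connectedComponentIn
    hGc hsub o
  -- the component away from `b`
  have hop2 : IsOpen (D ∩ {w | s < dist w b}) :=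
    hJ.1.inter (isOpen_lt continuous_const (continuous_id.dist continuous_const))
  have hW1 : K' ⊆ connectedComponentIn (D ∩ {w | s < dist w b}) zs := by
    refine hK'p.subset_connectedComponentIn (hK'sub (Or.inl rfl)) fun z hz => ⟨hK'D hz, ?_⟩
    have := hs1 z hz
    change s < dist z b
    linarith
  have hballb : ∀ z ∈ Metric.ball a ρs, s < dist z b := by
    intro z hz
    rw [Metric.mem_ball] at hz
    have h6 := dist_triangle a z b
    rw [dist_comm a z] at h6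
    linarith
  have hW2 : za ∈ connectedComponentIn (D ∩ {w | s < dist w b}) zs := by
    have e1 := hball za hza
    obtain ⟨γ, hγ⟩ := hs0 zs hzs za e1.1 hzsa e1.2.2.1
    have g1 : IsPreconnected (range γ) := isPreconnected_range γ.continuous
    have g2 : range γ ⊆ D ∩ {w | s < dist w b} :=
      range_subset_iff.2 fun t => ⟨(hγ t).1, hballb _ (hγ t).2⟩
    exact g1.subset_connectedComponentIn ⟨0, γ.source⟩ g2 ⟨1, γ.target⟩
  obtain ⟨k2, hk2⟩ := exists_cells hop2.connectedComponentIn isPreconnected_connectedComponentIn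
    (isCompact_singleton.union (isCompact_cfat o q))
    (union_subset (singleton_subset_iff.2 hW2) ((subset_union_right.trans hK'sub).trans hW1)) o
  refine ⟨max k1 k2, fun K hK => ?_⟩
  obtain ⟨F, hF1, hF2, hF3⟩ := hk1 K (le_trans (le_max_left _ _) hK)
  obtain ⟨F', hF1', hF2', hF3'⟩ := hk2 K (le_trans (le_max_right _ _) hK)
  have hFD : ∀ c ∈ F, c.1 = K ∧ cfat o c ⊆ D ∩ Metric.ball a ρ' := fun c hc =>
    ⟨(hF1 c hc).1, (hF1 c hc).2.trans (connectedComponentIn_subset _ _)⟩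
  have hFD' : ∀ c ∈ F', c.1 = K ∧ cfat o c ⊆ D ∩ {w | s < dist w b} := fun c hc =>
    ⟨(hF1' c hc).1, (hF1' c hc).2.trans (connectedComponentIn_subset _ _)⟩
  obtain ⟨c0, hc0, hzc0⟩ := hF2 za hza
  obtain ⟨c1, hc1, hzc1⟩ := hF2' za (Or.inl rfl)
  -- a cell of the second family which meets `q`
  obtain ⟨c2, hc2, hc2q⟩ : ∃ c2 ∈ F', AdjC o c2 q := by
    have g1 := center_mem o q
    set z0 : ℂ := ⟨o.re + (q.2.1 + 1 / 2) * mesh q.1, o.im + (q.2.2 + 1 / 2) * mesh q.1⟩ with hz0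
    obtain ⟨c2, hc2, hz⟩ := hF2' z0 (Or.inr g1)
    refine ⟨c2, hc2, z0, hz, ?_⟩
    have hm := mesh_pos q.1
    refine ⟨?_, ?_, ?_, ?_⟩ <;> simp only [hz0] <;> nlinarith
  refine ⟨F, F ∪ F', Finset.subset_union_left, ⟨c0, hc0⟩, ?_, ?_, hF3,
    ch_union hF3 hF3' hc0 hc1 ⟨za, hzc0, hzc1⟩, ⟨c2, Finset.mem_union_right _ hc2, hc2q⟩, ?_⟩
  · intro c hc
    rcases Finset.mem_union.1 hc with hc | hc
    · refine ⟨(hFD c hc).1, (hFD c hc).2.trans inter_subset_left, fun z hz => hballb z ?_⟩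
      exact Metric.ball_subset_ball hρ'2 ((hFD c hc).2 hz).2
    · exact ⟨(hFD' c hc).1, (hFD' c hc).2.trans inter_subset_left, fun z hz => ((hFD' c hc).2 hz).2⟩
  · intro c hc z hz
    exact Metric.ball_subset_ball hρ'1 ((hFD c hc).2 hz).2
  · filter_upwards [hG] with n hn
    obtain ⟨N, e1, e2, e3, v, hv, hvG⟩ := hn
    refine ⟨N, e1, e2, fun w hw => Metric.ball_subset_ball ((min_le_right _ _).trans hρ'1)
      (e3 w hw), v, hv, ?_⟩
    obtain ⟨q', hq', hxq⟩ := hF2 _ hvG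
    exact Finset.mem_biUnion.2 ⟨q', hq', (mem_verts (A.pos n)).2 hxq⟩

end Pool.Agent.H14.NB
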