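import Pool.Agent.H14.NB.Tied0
import Pool.Agent.H14.NB.Tip1
import Pool.Agent.H14.NB.InvL0
import Pool.Agent.Q1.M3.Pg.Ok
import Pool.Agent.H53.Q1.J20.Expl
import Pool.Agent.Q1.M3.HistConv
import Pool.Agent.Q1.M3.Conc

set_option autoImplicit false
open Finset Filter Topology

/-! # The first step: existence of tip sides for large `n` -/

namespace Pool.Agent.H14.NB

open Pool.Agent.H75.Perc Pool.Agent.H75.TwoArm Pool.Agent.H75.Four Pool.Agent.H99.NC
open Pool.Agent.H69.Q1 Pool.Agent.H39.Q1 Pool.Agent.H28.Q1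
open Pool.Agent.Q1.M3 Pool.Agent.Q1.M3.Pg
open Pool.Agent.H75.TwoArm.StrandAux hiding vx_nxC
open Pool.Agent.Q1.M4 (Adj4 Conn4 Good IsSide inV inRect nextSide tail head)
open Pool.Agent.H21.Q1 (Sol Wt InvL)
open Pool.Agent.H81.Q1 (pt DDomain Approx IsJordanDomain IsArcs)

/-- The visible cells of level `K` for large `n`. -/
noncomputable def UC (D : Set ℂ) (o : ℂ) (qb : Cell) (K : ℕ) : Finset Cell :=
  open Classical in (cells D o K).filter (fun q => ConnC o (fun x => cfat o x ⊆ D) qb K q)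

section

variable {D : Set ℂ} {a b : ℂ} {A₁ A₂ : Set ℂ}

lemma uk_const (hDo : IsOpen D) (hD : Bornology.IsBounded D) (hA : IsArcs D a b A₁ A₂)
    (A : Approx D a b A₁ A₂) (o : ℂ) (qb : Cell) (K : ℕ) :
    ∀ᶠ n in atTop, Uk D (A.δ n) o qb K (X0 A n).E = UC D o qb K := by
  classical
  filter_upwards [free_cells hDo hA A o (F := cells D o K)
    (fun c hc => ((mem_cells hD).1 hc).2)] with n h4
  unfold Uk UC
  refine Finset.filter_congr fun q hq => ?_
  rw [vis_iff]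
  constructor
  · intro h
    exact h.mono fun x hx => hx.1
  · intro h
    refine ConnC.mono' (fun x hx hS => h4 x ?_) h
    rw [mem_cells hD]
    exact ⟨hx, hS⟩

lemma gpt_dist (o : ℂ) (K : ℕ) {r : ℤ} {c c' : ℤ × ℤ} (h : NB r c c') :
    dist (gpt o K c') (gpt o K c) ≤ 2 * r * mesh (K + 1) := by
  have hm := mesh_pos (K + 1)
  rw [Complex.dist_eq]
  refine (Complex.norm_le_abs_re_add_abs_im _).trans ?_
  have e1 : (gpt o K c' - gpt o K c).re = ((c'.1 - c.1 : ℤ) : ℝ) * mesh (K + 1) := by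
    rw [Complex.sub_re]; unfold gpt; push_cast; ring
  have e2 : (gpt o K c' - gpt o K c).im = ((c'.2 - c.2 : ℤ) : ℝ) * mesh (K + 1) := by
    rw [Complex.sub_im]; unfold gpt; push_cast; ring
  rw [e1, e2, abs_mul, abs_mul, abs_of_pos hm]
  have g1 : |((c'.1 - c.1 : ℤ) : ℝ)| ≤ r := by
    rw [← Int.cast_abs]; exact_mod_cast h.1
  have g2 : |((c'.2 - c.2 : ℤ) : ℝ)| ≤ r := by
    rw [← Int.cast_abs]; exact_mod_cast h.2
  nlinarith

/-- a unit cell near the box of a vertex -/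
lemma near_dist {δ : ℝ} (o : ℂ) (K : ℕ) {r : ℤ} {v c : ℤ × ℤ} (h : NB r (box δ o K v) c) :
    dist (gpt o K c) (pt δ v) ≤ (2 * r + 2) * mesh (K + 1) := by
  have h1 := gpt_dist o K h
  have h2 := box_dist (δ := δ) o K v
  have h3 := dist_triangle_right (gpt o K c) (pt δ v) (gpt o K (box δ o K v))
  linarith

lemma gpt_mem {o : ℂ} {K : ℕ} {q : Cell} (hq : q.1 ≤ K) {c : ℤ × ℤ} (hc : c ∈ fc K q) :
    gpt o K c ∈ cfat o q := corner_mem hq hc

end

/-- A chain of cells from `c0` to the family leaves the region at the family. -/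
lemma exists_xy {d : SD} {c0 c' : ℤ × ℤ} {S : Set (ℤ × ℤ)}
    (hS : ∀ c ∈ S, c ∈ d.P ∧ c ∉ fc d.K d.B) (hc0 : c0 ∈ S) (hc0' : c0 ∉ d.H2)
    (hJ : J4 S c0 c') (hc' : c' ∈ flat d.K d.C) :
    ∃ x ∈ comp (d.P \ d.H2) c0, ∃ y ∈ flat d.K d.C, Adj4 x y := by
  have hsub : flat d.K d.C ⊆ d.H2 := fun x hx => mem_union_left _ hx
  have hc0m : c0 ∈ d.P \ d.H2 := mem_sdiff.2 ⟨(hS _ hc0).1, hc0'⟩
  have h1 : c0 ∈ {c : ℤ × ℤ | c ∉ flat d.K d.C} := fun h2 => hc0' (hsub h2)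
  have h2 : c' ∉ {c : ℤ × ℤ | c ∉ flat d.K d.C} := fun h3 => h3 hc'
  obtain ⟨a, b, haS, haT, hbS, hbT, hab, hJ'⟩ := hJ.exit h1 h2 hc0
  have hbF : b ∈ flat d.K d.C := not_not.1 hbT
  have hR : ∀ c, J4 (S ∩ {c : ℤ × ℤ | c ∉ flat d.K d.C}) c0 c → c ∈ comp (d.P \ d.H2) c0 := by
    intro c hc
    induction hc with
    | refl => exact self_mem_comp hc0m
    | @tail x y hx hxy ih =>
      obtain ⟨hxy1, hyS, hyT⟩ := hxy
      refine comp_adj ih (mem_sdiff.2 ⟨(hS y hyS).1, fun hy2 => ?_⟩) hxy1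
      have hy3 : y ∈ flat d.K d.C ∪ (fc d.K d.B ∩ d.P) := hy2
      rcases mem_union.1 hy3 with h5 | h5
      · exact hyT h5
      · exact (hS y hyS).2 (mem_inter.1 h5).1
  exact ⟨a, hR a hJ', b, hbF, hab⟩

section

variable {D : Set ℂ} {a b : ℂ} {A₁ A₂ : Set ℂ} {A : Approx D a b A₁ A₂} {r0 : ℝ}

/-- Parameters: box at `b` and a point in it. -/
structure Par0 (B : Base A r0) (s1 : ℝ) (M : ℕ) (BB : Cell) (z : ℂ) : Prop where
  hz : z ∈ fat B.o BB
  hzq : ∃ q ∈ B.Q M, z ∈ fat B.o q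
  hbB : b ∈ fat B.o BB
  hr : Metric.ball b (B.r M) ⊆ fat B.o BB
  hs : cfat B.o BB ⊆ Metric.ball b s1

/-- The data of the first step (for large `n`). -/
noncomputable def dC (B : Base A r0) (K : ℕ) (C : Finset Cell) (M : ℕ) (BB : Cell) (z : ℂ)
    (s : (ℤ × ℤ) × ℤ) : SD where
  K := K
  U := UC D B.o B.qb K
  C := C ∪ B.Q M
  B := BB
  b0 := ucel B.o K z
  s := s

/-- The vertices of the target. -/
noncomputable def KvC (B : Base A r0) (C : Finset Cell) (n : ℕ) : Finset (ℤ × ℤ) :=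
  Vn (A.δ n) B.o C ∪ B.N n

lemma mkSD_eq (B : Base A r0) {K n : ℕ} (h : Uk D (A.δ n) B.o B.qb K (X0 A n).E = UC D B.o B.qb K)
    (C : Finset Cell) (M : ℕ) (BB : Cell) (z : ℂ) (s : (ℤ × ℤ) × ℤ) :
    mkSD B K (A.δ n) (X0 A n).E C M BB z s = dC B K C M BB z s := by
  unfold mkSD dC; rw [h]

/-- The target is connected. -/
lemma kv_conn (B : Base A r0) (M : ℕ) {C : Finset Cell}
    (hC : ∀ q ∈ C, cfat B.o q ⊆ D) (hL : Lev B.o B.qb C) :
    ∀ᶠ n in atTop, ∀ u ∈ KvC B C n, ∀ v ∈ KvC B C n,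
      Co (kap (KvC B C n) ∩ ((X0 A n).E ∪ (X0 A n).W)) u v := by
  have hqb : B.qb ∈ C ∪ B.Q M := mem_union_right _ (qb_mem_Q B M)
  have hch : ∀ q ∈ C ∪ B.Q M, Ch B.o (C ∪ B.Q M) q B.qb := by
    intro q hq
    rcases mem_union.1 hq with h | h
    · exact reach_of_conn hqb (fun x hx => mem_union_left _ hx.head.2) (hL q h)
    · exact base_reach B subset_union_right h
  have hsym : ∀ q, Ch B.o (C ∪ B.Q M) q B.qb → Ch B.o (C ∪ B.Q M) B.qb q := by
    intro q h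
    induction h using Relation.ReflTransGen.head_induction_on with
    | refl => exact Relation.ReflTransGen.refl
    | head hxy _ ih =>
      refine Relation.ReflTransGen.tail ih ⟨?_, hxy.2.2, hxy.2.1⟩
      have := hxy.1
      unfold AdjC at this ⊢
      rwa [Set.inter_comm]
  have e1 := connN_Vn A (o := B.o) (C := C ∪ B.Q M)
    (fun q hq => by
      rcases mem_union.1 hq with h | h
      · exact hC q h
      · exact (B.subQ M q h).trans Set.inter_subset_left)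
    (fun q hq q' hq' => Relation.ReflTransGen.trans (hch q hq) (hsym q' (hch q' hq')))
  have e5 : ∀ᶠ n in atTop, A.δ n < mesh (B.qb.1 + 1) := A.lim.eventually_lt_const (mesh_pos _)
  filter_upwards [e1, B.hN M, B.conn, e5] with n h1 h2 h3 h5
  obtain ⟨N', hN', -⟩ := h2
  obtain ⟨v0, hv0⟩ := Pool.Agent.H42.Q1.verts_nonempty (o := B.o) (A.pos n) h5 (le_refl B.qb.1)
  have hv0N : v0 ∈ B.N n := by
    rw [hN']
    exact mem_union_left _ (mem_Vn.2 ⟨_, qb_mem_Q B M, hv0⟩)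
  have hv0V : v0 ∈ Vn (A.δ n) B.o (C ∪ B.Q M) := mem_Vn.2 ⟨_, hqb, hv0⟩
  have hsub1 : Vn (A.δ n) B.o (C ∪ B.Q M) ⊆ KvC B C n := by
    unfold KvC
    rw [Vn_union, hN', ← union_assoc]
    exact subset_union_left
  have hsub2 : B.N n ⊆ KvC B C n := subset_union_right
  have kap_mono : ∀ {S T : Finset (ℤ × ℤ)}, S ⊆ T → kap S ⊆ kap T := by
    intro S T hST e he
    unfold kap at he ⊢
    rw [mem_filter] at he ⊢
    exact ⟨star_mono hST he.1, hST he.2.1, hST he.2.2⟩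
  have hco : ∀ u ∈ KvC B C n, Co (kap (KvC B C n) ∩ ((X0 A n).E ∪ (X0 A n).W)) u v0 := by
    intro u hu
    rcases mem_union.1 hu with h | h
    · have hu' : u ∈ Vn (A.δ n) B.o (C ∪ B.Q M) := Vn_mono subset_union_left h
      have h6 := h1 u hu' v0 hv0V
      refine h6.mono ?_
      rw [show (X0 A n).E ∪ (X0 A n).W = _ from E_union_W (A.X n)]
      exact inter_subset_inter (kap_mono hsub1) (subset_refl _)
    · refine (h3 u h v0 hv0N).mono ?_
      exact inter_subset_inter (kap_mono hsub2) (subset_refl _)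
  intro u hu v hv
  exact (hco u hu).trans (hco v hv).symm

/-- The tip side `s` and the tip path of the `n`-th domain. -/
structure TipOk (B : Base A r0) (K : ℕ) (C : Finset Cell) (M : ℕ) (BB : Cell) (z : ℂ) (ρ : ℝ)
    (c0 : ℤ × ℤ) (n : ℕ) (s : (ℤ × ℤ) × ℤ) (τ A' : Finset (ℤ × ℤ)) (p0 : ℕ) : Prop where
  mem : s.1 ∈ comp ((dC B K C M BB z s).P \ (dC B K C M BB z s).H2) c0
  tied : Tied (dC B K C M BB z s) B.o (A.δ n) (X0 A n) (X0 A n) (KvC B C n) τ A' p0
  hτ : ∀ v, Vl τ v → dist (pt (A.δ n) v) a < ρ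
  hA : ∀ e ∈ A', dist (pt (A.δ n) (eu e)) a < ρ ∧ dist (pt (A.δ n) (ev e)) a < ρ
  near : dist (gpt B.o K s.1) a < ρ

lemma star1_nf {E : Finset (ℤ × ℤ)} {v : ℤ × ℤ} (h : ¬ Pool.Agent.H53.Q1.NF E v) :
    star1 v ⊆ E := not_not.1 h

/-- **Existence of tip sides.** -/
theorem tip0 (hD : IsJordanDomain D) (hab : a ≠ b) (hA : IsArcs D a b A₁ A₂) (B : Base A r0) :
    ∃ s1 > 0, s1 ≤ dist a b / 4 ∧ ∀ (M : ℕ) (BB : Cell) (z : ℂ), Par0 B s1 M BB z → ∀ k : ℕ,
      ∃ ρ0 > 0, ∀ ρ > 0, ρ ≤ ρ0 → ∃ K1, ∀ K, K1 ≤ K → ∃ c0 : ℤ × ℤ, ∀ C : Finset Cell,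
        (∀ q ∈ C, q.1 ≤ k ∧ cfat B.o q ⊆ D) → Lev B.o B.qb C →
        (∀ s, c0 ∈ (dC B K C M BB z s).P \ (dC B K C M BB z s).H2) ∧
        (∀ s : (ℤ × ℤ) × ℤ, s.1 ∈ (dC B K C M BB z s).P → s.1 ∉ (dC B K C M BB z s).H2 →
          outc s ∉ (dC B K C M BB z s).P → (dC B K C M BB z s).Ok) ∧
        ∀ᶠ n in atTop, ∃ s τ A' p0, TipOk B K C M BB z ρ c0 n s τ A' p0 := by
  classical
  have hab' : 0 < dist a b := dist_pos.2 hab
  have hDb := hD.2.2.1
  obtain ⟨haD, hbD⟩ := not_mem_of_arcs hD.1 hA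
  have hqb : cfat B.o B.qb ⊆ D := (B.subQ 0 _ B.qb_mem).trans Set.inter_subset_left
  obtain ⟨s1, hs10, hs14, hs1⟩ := tip_cells2 hD hab hA A B.o hqb
  refine ⟨s1, hs10, hs14, fun M BB z hP k => ?_⟩
  have hQD : ∀ q ∈ B.Q M, cfat B.o q ⊆ D := fun q hq =>
    (B.subQ M q hq).trans Set.inter_subset_left
  set CM := cellsLe D B.o 0 k ∪ B.Q M with hCM
  have hCMD : ∀ q ∈ CM, cfat B.o q ⊆ D := by
    intro q hq
    rcases mem_union.1 hq with h | h
    · exact ((mem_cellsLe hDb).1 h).2.2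
    · exact hQD q h
  obtain ⟨sa, hsa0, hsa⟩ := exists_dist CM hCMD haD
  have hBBa : ∀ w ∈ cfat B.o BB, dist a b / 2 ≤ dist w a := by
    intro w hw
    have h1 := hP.hs hw
    rw [Metric.mem_ball] at h1
    have h2 := dist_triangle a w b
    rw [dist_comm a w] at h2
    linarith
  set da := min sa (dist a b / 2) with hda
  have hda0 : 0 < da := lt_min hsa0 (by positivity)
  have hda1 : da ≤ sa := min_le_left _ _
  have hda2 : da ≤ dist a b / 2 := min_le_right _ _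
  refine ⟨da / 4, by positivity, fun ρ hρ hρ0 => ?_⟩
  obtain ⟨K2, hK2⟩ := hs1 (ρ / 2) (by positivity)
  have hbf : b ∈ frontier D := by
    rw [← hA.union]
    have : b ∈ A₁ ∩ A₂ := by rw [hA.inter]; simp
    exact Or.inl this.1
  obtain ⟨K3, hK3⟩ := mkSD_ok B hD hbf hP.hz hP.hzq hP.hbB
  obtain ⟨L, hL⟩ := exists_lev B M
  obtain ⟨K4, hK4⟩ : ∃ K4 : ℕ, 16 * mesh (K4 + 1) ≤ ρ := by
    obtain ⟨k, hk⟩ := exists_pow_lt_of_lt_one (show 0 < ρ / 16 by positivity)
      (show (1 / 3 : ℝ) < 1 by norm_num)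
    refine ⟨k, ?_⟩
    unfold mesh
    have : (1 / 3 : ℝ) ^ (k + 1) ≤ (1 / 3) ^ k := pow_le_pow_of_le_one (by norm_num) (by norm_num)
      (by omega)
    linarith
  refine ⟨max (max K2 K3) (max (max L (BB.1 + 1)) (max (k + 1) K4)), fun K hK => ?_⟩
  have k1 : K2 ≤ K := (le_max_left _ _).trans ((le_max_left _ _).trans hK)
  have k2 : K3 ≤ K := (le_max_right _ _).trans ((le_max_left _ _).trans hK)
  have k3 : max (max L (BB.1 + 1)) (max (k + 1) K4) ≤ K := (le_max_right _ _).trans hK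
  have k4 : L ≤ K := (le_max_left _ _).trans ((le_max_left _ _).trans k3)
  have k5 : BB.1 + 1 ≤ K := (le_max_right _ _).trans ((le_max_left _ _).trans k3)
  have k6 : k + 1 ≤ K := (le_max_left _ _).trans ((le_max_right _ _).trans k3)
  have k7 : K4 ≤ K := (le_max_right _ _).trans ((le_max_right _ _).trans k3)
  have hmesh : 16 * mesh (K + 1) ≤ ρ := by
    have : mesh (K + 1) ≤ mesh (K4 + 1) := by
      unfold mesh
      exact pow_le_pow_of_le_one (by norm_num) (by norm_num) (by omega)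
    linarith
  have hmp := mesh_pos (K + 1)
  obtain ⟨F, G, hFG, ⟨f0, hf0⟩, hG1, hF1, hFc, hGc, ⟨c2, hc2, hc2q⟩, hN⟩ := hK2 K k1
  -- the visible cells contain the chain
  have hGU : G ⊆ UC D B.o B.qb K := by
    intro c hc
    unfold UC
    rw [mem_filter, mem_cells hDb]
    refine ⟨⟨(hG1 c hc).1, (hG1 c hc).2.1⟩, c2, ?_, (hG1 c2 hc2).1, (hG1 c2 hc2).2.1, hc2q⟩
    exact Relation.ReflTransGen.mono
      (fun x y hxy => ⟨hxy.1, (hG1 x hxy.2.1).1, (hG1 x hxy.2.1).2.1⟩) _ _ (hGc c hc c2 hc2)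
  have hlevG : ∀ q ∈ G, q.1 ≤ K := fun q hq => (hG1 q hq).1.le
  have hGconn : Conn4 (flat K G : Set (ℤ × ℤ)) :=
    conn_flat (o := B.o) hlevG (qb := c2) fun q hq => hGc q hq c2 hc2
  have hFconn : Conn4 (flat K F : Set (ℤ × ℤ)) :=
    conn_flat (o := B.o) (fun q hq => hlevG q (hFG hq)) (qb := f0) fun q hq => hFc q hq f0 hf0
  set c0 : ℤ × ℤ := (lo (K - f0.1) f0.2.1, lo (K - f0.1) f0.2.2) with hc0
  have hc0F : c0 ∈ flat K F := fc_subset_flat hf0 (fc_ne K f0)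
  refine ⟨c0, fun C hC hLev => ?_⟩
  have hCsub : C ∪ B.Q M ⊆ CM := by
    rw [hCM]
    refine union_subset_union (fun q hq => ?_) (subset_refl _)
    rw [mem_cellsLe hDb]
    exact ⟨Nat.zero_le _, (hC q hq).1, (hC q hq).2⟩
  have hlevC : ∀ q ∈ C ∪ B.Q M, q.1 ≤ K := by
    intro q hq
    rcases mem_union.1 hq with h | h
    · have := (hC q h).1; omega
    · have := hL q h; omega
  -- cells of the target are far from `a`
  have hH2far : ∀ s, ∀ c ∈ (dC B K C M BB z s).H2, da ≤ dist (gpt B.o K c) a := by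
    intro s c hc
    have hc' : c ∈ flat K (C ∪ B.Q M) ∪ (fc K BB ∩ (dC B K C M BB z s).P) := hc
    rcases mem_union.1 hc' with h | h
    · obtain ⟨q, hq, hcq⟩ := mem_flat.1 h
      exact hda1.trans (hsa q (hCsub hq) _ (gpt_mem (hlevC q hq) hcq))
    · exact hda2.trans (hBBa _ (gpt_mem (by omega) (mem_inter.1 h).1))
  have hFP : ∀ s, ∀ c ∈ flat K F, c ∈ (dC B K C M BB z s).P \ (dC B K C M BB z s).H2 := by
    intro s c hc
    refine mem_sdiff.2 ⟨?_, fun h => ?_⟩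
    · exact flat_sub_PP (U := UC D B.o B.qb K) (C := C ∪ B.Q M)
        (subset_union_left) (flat_mono (hFG.trans hGU) hc)
    · have h1 := hH2far s c h
      obtain ⟨q, hq, hcq⟩ := mem_flat.1 hc
      have h2 := hF1 q hq (gpt_mem (hlevG q (hFG hq)) hcq)
      rw [Metric.mem_ball] at h2
      linarith
  have hok : ∀ s : (ℤ × ℤ) × ℤ, s.1 ∈ (dC B K C M BB z s).P → s.1 ∉ (dC B K C M BB z s).H2 →
      outc s ∉ (dC B K C M BB z s).P → (dC B K C M BB z s).Ok := by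
    intro s g1 g2 g3
    obtain ⟨n, hn⟩ := (uk_const hD.1 hDb hA A B.o B.qb K).exists
    have h1 := hK3 K k2 (A.δ n) (X0 A n).E C
      (fun q hq => ⟨by have := (hC q hq).1; omega, (hC q hq).2⟩) hLev s
    rw [mkSD_eq B hn] at h1
    exact h1 g1 g2 g3
  refine ⟨fun s => hFP s c0 hc0F, hok, ?_⟩
  have e2 := free_cells hD.1 hA A B.o hCMD
  have e5 := kv_conn B M (fun q hq => (hC q hq).2) hLev
  have e7 : ∀ᶠ n in atTop, A.δ n < min (mesh (K + 1) / 5) (ρ / 2) :=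
    A.lim.eventually_lt_const (lt_min (by positivity) (by positivity))
  filter_upwards [uk_const hD.1 hDb hA A B.o B.qb K, e2, B.hN M, B.beta, e5, hN, e7]
    with n g1 g2 g3 g4 g5 g6 g7
  have hδ := A.pos n
  have g7a : A.δ n < mesh (K + 1) / 5 := g7.trans_le (min_le_left _ _)
  have g7b : A.δ n < ρ / 2 := g7.trans_le (min_le_right _ _)
  have hgen : Gen2 K B.o (A.δ n) := Pool.Agent.H53.Q1.Base_gen2 B K n
  obtain ⟨N', hN', hN'b⟩ := g3
  obtain ⟨N, hNα, hNc, hNa, v0, hv0, hv0F⟩ := g6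
  set s : (ℤ × ℤ) × ℤ := (c0, 0) with hs
  -- vertices of the target are far from `a`
  have hKfar : ∀ v ∈ KvC B C n, da ≤ dist (pt (A.δ n) v) a := by
    intro v hv
    have key : ∀ q ∈ CM, v ∈ verts (A.δ n) B.o q → da ≤ dist (pt (A.δ n) v) a := by
      intro q hq hvq
      exact hda1.trans (hsa q hq _ (Pool.Agent.H42.Q1.fat_sub_cfat _ _ ((mem_verts hδ).1 hvq)))
    rcases mem_union.1 hv with h | h
    · obtain ⟨q, hq, hvq⟩ := mem_Vn.1 h
      exact key q (hCsub (mem_union_left _ hq)) hvq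
    · rw [hN'] at h
      rcases mem_union.1 h with h | h
      · obtain ⟨q, hq, hvq⟩ := mem_Vn.1 h
        exact key q (mem_union_right _ hq) hvq
      · have h1 := hP.hr (hN'b v h)
        exact hda2.trans (hBBa _ (Pool.Agent.H42.Q1.fat_sub_cfat _ _ h1))
  have hαX : vx (X0 A n).α = (A.X n).α.1 := by
    change vx (A.X n).toDEnv.α = _
    rw [Pool.Agent.H81.Q1.toDEnv_α, vx_cor]
  have hNa' : ∀ v ∈ N, dist (pt (A.δ n) v) a < ρ / 2 := fun v hv => Metric.mem_ball.1 (hNa v hv)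
  have hNK : ∀ v ∈ N, ∀ e ∈ star1 v, e ∉ star (KvC B C n) := by
    intro v hv e he he'
    obtain ⟨w, hw, hew⟩ := mem_star.1 he'
    have h1 := dist_of_star1 hδ hew he
    have h2 := hKfar w hw
    have h3 := hNa' v hv
    have h4 := dist_triangle (pt (A.δ n) w) (pt (A.δ n) v) a
    linarith
  have hCE : star (Vn (A.δ n) B.o (C ∪ B.Q M)) ⊆ (X0 A n).E := by
    intro e he
    obtain ⟨v, hv, hev⟩ := mem_star.1 he
    obtain ⟨q, hq, hvq⟩ := mem_Vn.1 hv
    exact (g2 q (hCsub hq)).2 (star1_sub_star hvq hev)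
  have hfree : ∀ v, box (A.δ n) B.o K v ∈ (dC B K C M BB z s).P → star1 v ⊆ (X0 A n).E := by
    intro v hv
    apply star1_nf
    intro hnf
    have h1 := Pool.Agent.H53.Q1.box_notMem_PP (K := K) (o := B.o) (δ := A.δ n) (D := D)
      (qb := B.qb) (C := C ∪ B.Q M) hDb hδ (by linarith) hgen hlevC hCE hnf
      (Pool.Agent.H53.Q1.toInf_init (A.X n) hnf)
    rw [g1] at h1
    exact h1 hv
  -- the way to the family
  have hway : ∃ x ∈ comp ((dC B K C M BB z s).P \ (dC B K C M BB z s).H2)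
      (box (A.δ n) B.o K v0), ∃ y ∈ flat (dC B K C M BB z s).K (dC B K C M BB z s).C,
      Adj4 x y := by
    obtain ⟨q, hq, hvq⟩ := mem_Vn.1 hv0F
    have h6 : box (A.δ n) B.o K v0 ∈ flat K F := mem_flat.2 ⟨q, hq,
      (mem_verts_iff hδ hgen (hlevG q (hFG hq))).1 hvq⟩
    obtain ⟨c', hc'1, hc'2⟩ := adjC_meet (o := B.o) (hlevG c2 hc2)
      (hlevC B.qb (mem_union_right _ (qb_mem_Q B M))) hc2q
    have h7 : c' ∈ flat K G := fc_subset_flat hc2 hc'1
    refine exists_xy (d := dC B K C M BB z s) (S := (flat K G : Set (ℤ × ℤ))) ?_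
      (by exact_mod_cast flat_mono hFG h6) (mem_sdiff.1 (hFP s _ h6)).2
      (hGconn _ (by exact_mod_cast flat_mono hFG h6) _ (by exact_mod_cast h7))
      (fc_subset_flat (mem_union_right _ (qb_mem_Q B M)) hc'2)
    intro c hc
    have hc' : c ∈ flat K G := by exact_mod_cast hc
    refine ⟨flat_sub_PP (U := UC D B.o B.qb K) (C := C ∪ B.Q M) subset_union_left
      (flat_mono hGU hc'), fun hcB => ?_⟩
    obtain ⟨g, hg, hcg⟩ := mem_flat.1 hc'
    have h8 := (hG1 g hg).2.2 _ (gpt_mem (hlevG g hg) hcg)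
    have h9 := hP.hs (gpt_mem (o := B.o) (q := BB) (K := K) (by omega) hcB)
    rw [Metric.mem_ball] at h9
    linarith
  obtain ⟨s', τ, A', p0, h1, h2, h3, h4, w, hw, h5⟩ := tied0 (d := dC B K C M BB z s) (o := B.o)
    (δ := A.δ n) (Y := X0 A n) (Kv := KvC B C n) (N := N) (v0 := v0)
    (inv_toDEnv (A.X n)) (odd_toDEnv (A.X n)) (invL0 A n)
    (by
      rw [hαX]
      intro h
      have h1 := hKfar _ h
      have h2 := hNa' _ hNα
      linarith)
    (mem_union_right _ g4) g5 hok ⟨hδ, by change 5 * A.δ n ≤ mesh (K + 1); linarith, hgen⟩ hfree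
    (by
      intro v hv hvP
      change box (A.δ n) B.o K v ∈ flat K (C ∪ B.Q M) ∪ (fc K BB ∩ (dC B K C M BB z s).P)
      have key : ∀ q ∈ C ∪ B.Q M, v ∈ verts (A.δ n) B.o q →
          box (A.δ n) B.o K v ∈ flat K (C ∪ B.Q M) := fun q hq hvq =>
        mem_flat.2 ⟨q, hq, (mem_verts_iff hδ hgen (hlevC q hq)).1 hvq⟩
      rcases mem_union.1 hv with h | h
      · obtain ⟨q, hq, hvq⟩ := mem_Vn.1 h
        exact mem_union_left _ (key q (mem_union_left _ hq) hvq)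
      · rw [hN'] at h
        rcases mem_union.1 h with h | h
        · obtain ⟨q, hq, hvq⟩ := mem_Vn.1 h
          exact mem_union_left _ (key q (mem_union_right _ hq) hvq)
        · refine mem_union_right _ (mem_inter.2 ⟨?_, hvP⟩)
          exact (mem_verts_iff hδ hgen (by omega)).1 ((mem_verts hδ).2 (hP.hr (hN'b v h))))
    (by
      intro v hv
      obtain ⟨q, hq, hvq⟩ := mem_flat.1 hv
      have h1 := (mem_verts_iff hδ hgen (hlevC q hq)).2 hvq
      rcases mem_union.1 hq with h | h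
      · exact mem_union_left _ (mem_Vn.2 ⟨q, h, h1⟩)
      · refine mem_union_right _ ?_
        rw [hN']
        exact mem_union_left _ (mem_Vn.2 ⟨q, h, h1⟩))
    (Pool.Agent.H53.Q1.Base_nf_tip B (k0 := 0) (n := n) (ω := ∅) (empty_subset _) 0)
    (by rw [hαX]; exact hNα)
    (by
      rw [show (X0 A n).E ∪ (X0 A n).W = _ from E_union_W (A.X n)]
      exact hNc)
    hv0
    (by
      obtain ⟨q, hq, hvq⟩ := mem_Vn.1 hv0F
      exact (mem_sdiff.1 (hFP s _ (mem_flat.2 ⟨q, hq,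
        (mem_verts_iff hδ hgen (hlevG q (hFG hq))).1 hvq⟩))).1)
    (by
      intro v hv c hc hcH
      have h1 := hH2far s c hcH
      have h2 := near_dist (δ := A.δ n) B.o K hc
      have h3 := hNa' v hv
      have h4 := dist_triangle (gpt B.o K c) (pt (A.δ n) v) a
      push_cast at h2
      linarith)
    hNK hway
  · have hv0c : box (A.δ n) B.o K v0 ∈ comp ((dC B K C M BB z s).P \ (dC B K C M BB z s).H2) c0 := by
      obtain ⟨q, hq, hvq⟩ := mem_Vn.1 hv0F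
      have h6 : box (A.δ n) B.o K v0 ∈ flat K F := mem_flat.2 ⟨q, hq,
        (mem_verts_iff hδ hgen (hlevG q (hFG hq))).1 hvq⟩
      exact subset_comp hFconn (fun c hc => hFP s c hc) hc0F h6
    refine ⟨s', τ, A', p0, ?_, h2, ?_, ?_, ?_⟩
    · have h6 : s'.1 ∈ comp ((dC B K C M BB z s).P \ (dC B K C M BB z s).H2)
          (box (A.δ n) B.o K v0) := h1
      rw [comp_eq (hFP s c0 hc0F) hv0c] at h6
      exact h6
    · intro v hv
      have := hNa' v (h3 v hv)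
      linarith
    · intro e he
      obtain ⟨v, hv, hev⟩ := h4 e he
      have ho := odd_star1 hev
      have h6 := dist_of_star1 hδ ((mem_star1_iff ho).2 (Or.inl rfl)) hev
      have h7 := dist_of_star1 hδ ((mem_star1_iff ho).2 (Or.inr rfl)) hev
      have h8 := hNa' v hv
      constructor
      · have h9 := dist_triangle (pt (A.δ n) (eu e)) (pt (A.δ n) v) a
        linarith
      · have h9 := dist_triangle (pt (A.δ n) (ev e)) (pt (A.δ n) v) a
        linarith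
    · have h6 : NB 1 (outc s') s'.1 := (NB.of_adj ⟨_, rfl⟩).symm
      have h7 : NB 3 (box (A.δ n) B.o K w) s'.1 := h5.symm.trans h6
      have h8 := near_dist (δ := A.δ n) B.o K h7
      have h9 := hNa' w hw
      have h10 := dist_triangle (gpt B.o K s'.1) (pt (A.δ n) w) a
      push_cast at h8
      linarith

end

end Pool.Agent.H14.NB
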