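import Pool.Agent.H14.NB.BoxTop
import Pool.Agent.H14.NB.J0a

set_option autoImplicit false
open Set Topology Filter

/-! # The filled region is locally connected at a boundary point

`pp_avoid` : two boxes of the filled region away from `b` are joined in it away from `b`, with a
distance which does not depend on the level. -/

namespace Pool.Agent.H14.NB

open Pool.Agent.Q1.M3
open Pool.Agent.Q1.M3.Pg (J4 NB rect_conn4 adj4_symm flat PP fill mem_flat Ext mem_fill ext_of_far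
  bd coreOf InCore inCore_coreOf inCore_fc mem_fc_fine zconn subset_fill fc exists_PP)
open Pool.Agent.Q1.M4 (Adj4 Conn4)
open Pool.Agent.H28.Q1 (cbx exists_cols cbx_sub not_mem_fill ext_boxes)
open Pool.Agent.H75.Perc (dir_cases)
open Pool.Agent.H81.Q1 (IsJordanDomain Approx IsArcs)
open Pool.Agent.H14.Jordan (joinedIn_of_preconnected janiszewski joined_outside_ball)

section

variable {D : Set ℂ} {a b : ℂ} {A₁ A₂ : Set ℂ} {o : ℂ} {K : ℕ} {U C : Finset Cell}

/-- **The closed boxes of the filled region lie in `D`.** -/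
theorem pp_sub (hD : IsJordanDomain D) (hlev : ∀ q ∈ U ∪ C, q.1 ≤ K)
    (hUC : ∀ q ∈ U ∪ C, cfat o q ⊆ D) {c : ℤ × ℤ} (hc : c ∈ PP K U C) : cbx o K c ⊆ D := by
  intro x hx
  by_contra hxD
  have hm := mesh_pos (K + 1)
  set F := flat K (U ∪ C) with hF
  have hout : ∀ y ∈ Dᶜ, ∀ e, y ∈ cbx o K e → e ∉ F := by
    intro y hy e he heF
    obtain ⟨q, hq, h1⟩ := mem_flat.1 heF
    exact hy (hUC q hq (cbx_sub (hlev q hq) h1 he))
  -- a far point
  obtain ⟨R, hR⟩ := hD.2.2.1.subset_closedBall (0 : ℂ)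
  obtain ⟨r, hr⟩ := exists_int_gt ((|R| + |o.re| + 1) / mesh (K + 1))
  set r' : ℤ := max r ((bd F : ℤ) + 1) with hr'
  have h1 : (|R| + |o.re| + 1) < (r' : ℝ) * mesh (K + 1) := by
    rw [div_lt_iff₀ hm] at hr
    have h2 : (r : ℝ) ≤ r' := by exact_mod_cast le_max_left _ _
    have := mul_le_mul_of_nonneg_right h2 hm.le
    linarith
  have hy0 : gpt o K (r', 0) ∈ Dᶜ := by
    intro h
    have h2 := hR h
    rw [Metric.mem_closedBall, dist_zero_right] at h2
    have h3 := Complex.abs_re_le_norm (gpt o K (r', 0))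
    have h4 : (gpt o K (r', 0)).re = o.re + r' * mesh (K + 1) := rfl
    have h5 := le_abs_self (gpt o K (r', 0)).re
    have h6 := neg_abs_le o.re
    have h7 := le_abs_self R
    rw [h4] at h3 h5
    linarith
  have h2 : J4 ((F : Set (ℤ × ℤ))ᶜ) (r', 0) c := by
    refine j4_of_preconnected (o := o) (K := K)
      (Pool.Agent.H14.Jordan.compl_connected hD).isPreconnected (y := gpt o K (r', 0)) (y' := x)
      ?_ hy0 hxD (gpt_mem_cbx _ _ _) hx ?_
    · intro y hy e e' _ he' _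
      exact fun h => hout y hy e' he' (by exact_mod_cast h)
    · exact fun h => hout _ hy0 _ (gpt_mem_cbx _ _ _) (by exact_mod_cast h)
  have h3 : ((r', 0) : ℤ × ℤ) ∉ fill F := by
    rw [mem_fill, not_not]
    refine ext_of_far (Or.inl ?_)
    have h4 : (bd F : ℤ) + 1 ≤ r' := le_max_right _ _
    have h5 := le_abs_self r'
    simp only
    omega
  exact not_mem_fill h2 h3 (fun x hx h => hx (by exact_mod_cast h)) hc

/-- **Dead boxes in the plane.** -/
theorem pp_dead (hD : IsJordanDomain D) (A : Approx D a b A₁ A₂) {qb : Cell}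
    (hqb : cfat o qb ⊆ D) (hU : ∀ q ∈ U, q.1 = K) (hC : ∀ q ∈ C, q.1 < K)
    (hUC : ∀ q ∈ U ∪ C, cfat o q ⊆ D)
    (h2 : ∀ c ∈ flat K U, ∀ c', Adj4 c c' → c' ∉ PP K U C → ¬ cfat o (coreOf K c') ⊆ D)
    (h3 : ∀ c ∈ flat K C, ∀ c', Adj4 c c' → c' ∈ PP K U C) {c c' : ℤ × ℤ}
    (hc : c ∈ PP K U C) (hcc' : Adj4 c c') (hc' : c' ∉ PP K U C) :
    ∃ z, J4 {x | x ∉ PP K U C ∧ NB 8 c' x} c' z ∧ ¬ cbx o K z ⊆ D := by
  classical
  have hlev : ∀ q ∈ U ∪ C, q.1 ≤ K := by
    intro q hq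
    rcases Finset.mem_union.1 hq with h | h
    · exact (hU q h).le
    · exact (hC q h).le
  have hc'F : c' ∉ flat K (U ∪ C) := fun h => hc' (subset_fill _ h)
  set q' := coreOf K c' with hq'
  have hq'1 : q'.1 = K := rfl
  have hcore : InCore q' c' := inCore_coreOf K c'
  have hqD : ¬ cfat o q' ⊆ D := by
    obtain ⟨q, hq, h4, -⟩ := exists_PP hc hcc' hc'
    rcases Finset.mem_union.1 hq with h | h
    · exact h2 c (mem_flat.2 ⟨q, h, h4⟩) c' hcc' hc'
    · exact absurd (h3 c (mem_flat.2 ⟨q, h, h4⟩) c' hcc') hc'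
  obtain ⟨R, k1, ⟨x, hxR, hxq⟩, k2, k3, -⟩ := ext_boxes hD.2.2.1 hD.1 hD.2.1.nonempty
    (Pool.Agent.H14.Jordan.frontier_subset_ext hD) A hqb (K := K) (q := q') rfl hqD
  set Z0 := fc K q' \ flat K (U ∪ C) with hZ0
  have hc'Z0 : c' ∈ Z0 := Finset.mem_sdiff.2 ⟨inCore_fc hq'1 hcore, hc'F⟩
  have hconn : Conn4 (Z0 : Set (ℤ × ℤ)) := zconn hU hC hq'1 hcore hc'F
  have hZ0F : ∀ x ∈ Z0, x ∉ flat K (U ∪ C) := fun x hx => (Finset.mem_sdiff.1 hx).2
  have hRF : ∀ y ∈ R, y ∉ flat K (U ∪ C) := by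
    intro y hy h
    obtain ⟨p, hp, h5⟩ := mem_flat.1 h
    exact k2 y hy ((cbx_sub (hlev p hp) h5).trans (hUC p hp))
  have hxZ0 : x ∈ Z0 := Finset.mem_sdiff.2 ⟨hxq, hRF x hxR⟩
  have hcn : Conn4 ((Z0 ∪ R : Finset (ℤ × ℤ)) : Set (ℤ × ℤ)) := by
    rw [Finset.coe_union]
    exact Pool.Agent.Q1.M3.Pg.Conn4.union hconn k1 ⟨x, hxZ0, x, hxR, Or.inl rfl⟩
  have hc'Z : c' ∈ Z0 ∪ R := Finset.mem_union_left _ hc'Z0
  have hZF : ∀ y ∈ Z0 ∪ R, y ∉ flat K (U ∪ C) := by
    intro y hy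
    rcases Finset.mem_union.1 hy with h | h
    · exact hZ0F y h
    · exact hRF y h
  have hJ := hcn c' hc'Z x (Finset.mem_union_left _ hxZ0)
  refine ⟨x, J4.mono ?_ hJ, k2 x hxR⟩
  intro y hy
  have hy' : y ∈ Z0 ∪ R := by exact_mod_cast hy
  refine ⟨not_mem_fill (hcn c' hc'Z y hy') hc' hZF, ?_⟩
  rcases Finset.mem_union.1 hy' with h | h
  · have h1 := (mem_fc_fine hq'1).1 (Finset.mem_sdiff.1 h).1
    unfold InCore at hcore
    unfold NB
    rw [abs_le, abs_le]
    omega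
  · have h1 := k3 y h
    unfold InCore at hcore
    unfold NB
    rw [abs_le, abs_le]
    omega

/-- the square of boxes -/
noncomputable def sqr (r : ℤ) (c : ℤ × ℤ) : Finset (ℤ × ℤ) :=
  Finset.Ico (c.1 - r) (c.1 + r + 1) ×ˢ Finset.Ico (c.2 - r) (c.2 + r + 1)

lemma mem_sqr {r : ℤ} {c x : ℤ × ℤ} : x ∈ sqr r c ↔ NB r c x := by
  unfold sqr NB
  rw [Finset.mem_product, Finset.mem_Ico, Finset.mem_Ico, abs_le, abs_le]
  omega

/-- two boxes with points at a small distance -/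
lemma nb_of_dist {x y : ℂ} {c d : ℤ × ℤ} (hx : x ∈ cbx o K c) (hy : y ∈ cbx o K d) {r : ℤ}
    (h : dist x y ≤ r * mesh (K + 1)) : NB (r + 1) c d := by
  have hm := mesh_pos (K + 1)
  obtain ⟨⟨a1, a2⟩, a3, a4⟩ := hx
  obtain ⟨⟨b1, b2⟩, b3, b4⟩ := hy
  have e1 := (Complex.abs_re_le_norm (x - y)).trans ((Complex.dist_eq x y).symm.le.trans h)
  have e2 := (Complex.abs_im_le_norm (x - y)).trans ((Complex.dist_eq x y).symm.le.trans h)
  rw [Complex.sub_re, abs_le] at e1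
  rw [Complex.sub_im, abs_le] at e2
  have key : ∀ u v : ℤ, (u : ℝ) * mesh (K + 1) ≤ (v + r + 1) * mesh (K + 1) → u ≤ v + r + 1 := by
    intro u v huv
    have := le_of_mul_le_mul_right huv hm
    exact_mod_cast this
  have f1 := key c.1 d.1 (by nlinarith)
  have f2 := key d.1 c.1 (by nlinarith)
  have f3 := key c.2 d.2 (by nlinarith)
  have f4 := key d.2 c.2 (by nlinarith)
  unfold NB
  rw [abs_le, abs_le]
  omega

/-- points in boxes at a small distance -/
lemma dist_of_nb {x y : ℂ} {c d : ℤ × ℤ} (hx : x ∈ cbx o K c) (hy : y ∈ cbx o K d) {r : ℤ}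
    (h : NB r c d) : dist x y ≤ 2 * ((r + 1) * mesh (K + 1)) := by
  have hm := mesh_pos (K + 1)
  obtain ⟨⟨a1, a2⟩, a3, a4⟩ := hx
  obtain ⟨⟨b1, b2⟩, b3, b4⟩ := hy
  obtain ⟨h1, h2⟩ := h
  rw [abs_le] at h1 h2
  have key : ∀ u v : ℤ, u ≤ v + r → (u : ℝ) * mesh (K + 1) ≤ (v + r) * mesh (K + 1) := by
    intro u v huv
    exact mul_le_mul_of_nonneg_right (by exact_mod_cast huv) hm.le
  have f1 := key c.1 d.1 (by omega)
  have f2 := key d.1 c.1 (by omega)
  have f3 := key c.2 d.2 (by omega)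
  have f4 := key d.2 c.2 (by omega)
  rw [Complex.dist_eq]
  refine (Complex.norm_le_abs_re_add_abs_im _).trans ?_
  have e1 : |(x - y).re| ≤ (r + 1) * mesh (K + 1) := by
    rw [Complex.sub_re, abs_le]
    constructor <;> nlinarith
  have e2 : |(x - y).im| ≤ (r + 1) * mesh (K + 1) := by
    rw [Complex.sub_im, abs_le]
    constructor <;> nlinarith
  linarith

lemma comp_closed {F : Set ℂ} (hF : IsClosed F) (x : ℂ) : IsClosed (connectedComponentIn F x) := by
  by_cases hx : x ∈ F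
  · refine isClosed_of_closure_subset ?_
    exact isPreconnected_connectedComponentIn.closure.subset_connectedComponentIn
      (subset_closure (mem_connectedComponentIn hx))
      (closure_minimal (connectedComponentIn_subset _ _) hF)
  · rw [connectedComponentIn_eq_empty hx]; exact isClosed_empty

/-- **The filled region is locally connected at `b`**, uniformly in the level. -/
theorem pp_avoid (hD : IsJordanDomain D) (A : Approx D a b A₁ A₂) (hb : b ∈ frontier D)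
    {ρ2 : ℝ} (hρ2 : 0 < ρ2) : ∃ ρ1 > 0, ρ1 ≤ ρ2 / 4 ∧ ∀ (o : ℂ) (K : ℕ) (U C : Finset Cell)
      (qb : Cell), 4 * mesh (K + 1) ≤ ρ1 → cfat o qb ⊆ D → (∀ q ∈ U, q.1 = K) →
      (∀ q ∈ C, q.1 < K) → (∀ q ∈ U ∪ C, cfat o q ⊆ D) →
      (∀ c ∈ flat K U, ∀ c', Adj4 c c' → c' ∉ PP K U C → ¬ cfat o (coreOf K c') ⊆ D) →
      (∀ c ∈ flat K C, ∀ c', Adj4 c c' → c' ∈ PP K U C) → Conn4 (PP K U C : Set (ℤ × ℤ)) →
      ∀ c ∈ PP K U C, ∀ c' ∈ PP K U C, ρ2 < dist (cpt o K c) b → ρ2 < dist (cpt o K c') b →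
      J4 {x | x ∈ PP K U C ∧ ρ1 ≤ dist (gpt o K x) b} c c' := by
  classical
  obtain ⟨η0, hη00, hη0'⟩ := ext_lc hD hb hρ2
  set η := min η0 ρ2 with hη
  have hη_0 : 0 < η := lt_min hη00 hρ2
  have hη1 : η ≤ η0 := min_le_left _ _
  have hη2 : η ≤ ρ2 := min_le_right _ _
  refine ⟨η / 16, by positivity, by linarith, ?_⟩
  intro o K U C qb hmesh hqb hU hC hUC h2 h3 hcon c hc c' hc' hcb hc'b
  set ρ1 := η / 16 with hρ1
  have hm := mesh_pos (K + 1)
  set m := mesh (K + 1) with hmd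
  set P := PP K U C with hP
  have hlev : ∀ q ∈ U ∪ C, q.1 ≤ K := by
    intro q hq
    rcases Finset.mem_union.1 hq with h | h
    · exact (hU q h).le
    · exact (hC q h).le
  have hPD : ∀ x ∈ P, cbx o K x ⊆ D := fun x hx => pp_sub hD hlev hUC hx
  have hbD : b ∉ D := by
    rw [hD.1.frontier_eq] at hb
    exact hb.2
  set bb := bxo o K b with hbb
  have hbbm : b ∈ cbx o K bb := mem_bxo o K b
  have hbbP : bb ∉ P := fun h => hbD (hPD bb h hbbm)
  -- radii
  set r : ℤ := ⌈2 * ρ1 / m⌉ + 1 with hr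
  have hr1 : 2 * ρ1 ≤ (r - 1) * m := by
    have := Int.le_ceil (2 * ρ1 / m)
    rw [div_le_iff₀ hm] at this
    rw [hr]; push_cast
    linarith
  have hr2 : (r : ℝ) * m ≤ 2 * ρ1 + 2 * m := by
    have := (Int.ceil_lt_add_one (2 * ρ1 / m)).le
    rw [hr]; push_cast
    have h5 : (⌈2 * ρ1 / m⌉ : ℝ) * m ≤ (2 * ρ1 / m + 1) * m := mul_le_mul_of_nonneg_right this hm.le
    rw [add_mul, div_mul_cancel₀ _ hm.ne'] at h5
    linarith
  set r2 : ℤ := ⌈ρ2 / m⌉ + 20 with hr2d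
  have hr2a : ρ2 ≤ (r2 - 20) * m := by
    have := Int.le_ceil (ρ2 / m)
    rw [div_le_iff₀ hm] at this
    rw [hr2d]; push_cast
    linarith
  have hrr2 : r + 8 ≤ r2 := by
    have h5 : (r : ℝ) * m ≤ (r2 - 8) * m := by nlinarith
    have h6 := le_of_mul_le_mul_right h5 hm
    have : (r : ℝ) + 8 ≤ r2 := by linarith
    exact_mod_cast this
  -- the finite set of boxes
  set Λ := P.biUnion (sqr 1) ∪ sqr r2 bb with hΛ
  set A' : Set ℂ := ⋃ x ∈ Λ \ P, cbx o K x with hA'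
  have hA'c : IsCompact A' := (Λ \ P).isCompact_biUnion fun x _ => cbx_compact o K x
  have hmemA : ∀ x, x ∉ P → NB r2 bb x → cbx o K x ⊆ A' := by
    intro x hx hxb y hy
    rw [hA', mem_iUnion₂]
    exact ⟨x, Finset.mem_sdiff.2 ⟨Finset.mem_union_right _ (mem_sqr.2 hxb), hx⟩, hy⟩
  have hDA : ∀ y ∈ Dᶜ, dist y b ≤ ρ2 → y ∈ A' := by
    intro y hy hyb
    have h5 := mem_bxo o K y
    refine hmemA (bxo o K y) (fun h => hy (hPD _ h h5)) ?_ h5
    have h6 := nb_of_dist (r := r2 - 1) hbbm h5 (by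
      rw [dist_comm]; push_cast
      nlinarith)
    rwa [sub_add_cancel] at h6
  have hbA : b ∈ A' := hDA b hbD (by rw [dist_self]; exact hρ2.le)
  set E2 := connectedComponentIn (A' ∩ Metric.closedBall b ρ2) b with hE2
  have hE2s : E2 ⊆ A' ∩ Metric.closedBall b ρ2 := connectedComponentIn_subset _ _
  have hE2c : IsCompact E2 := by
    refine (hA'c.inter_right Metric.isClosed_closedBall).of_isClosed_subset
      (comp_closed (hA'c.isClosed.inter Metric.isClosed_closedBall) b) hE2s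
  have hbE : b ∈ A' ∩ Metric.closedBall b ρ2 := ⟨hbA, Metric.mem_closedBall_self hρ2.le⟩
  -- the main claim
  have hclaim : ∀ x ∈ A', dist x b ≤ 2 * ρ1 → x ∈ E2 := by
    intro x hx hxb
    rw [hA', mem_iUnion₂] at hx
    obtain ⟨d, hd, hxd⟩ := hx
    have hdP := (Finset.mem_sdiff.1 hd).2
    have hdN : NB r bb d := by
      have h6 := nb_of_dist (r := r - 1) hbbm hxd (by
        rw [dist_comm]; push_cast
        linarith)
      rwa [sub_add_cancel] at h6
    -- a chain to a box which is not contained in `D`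
    obtain ⟨z, hz1, hz2⟩ : ∃ z, J4 {x | x ∉ P ∧ NB (r + 8) bb x} d z ∧ ¬ cbx o K z ⊆ D := by
      by_cases hex : ∃ c1, J4 {x | x ∉ P ∧ NB r bb x} d c1 ∧ ∃ c2 ∈ P, Adj4 c2 c1
      · obtain ⟨c1, h5, c2, h6, h7⟩ := hex
        obtain ⟨h8, h9⟩ := J4.mem h5 (show d ∈ {x | x ∉ P ∧ NB r bb x} from ⟨hdP, hdN⟩)
        obtain ⟨z, h10, h11⟩ := pp_dead hD A hqb hU hC hUC h2 h3 h6 h7 h8
        refine ⟨z, (J4.mono ?_ h5).trans (J4.mono ?_ h10), h11⟩
        · rintro y ⟨h12, h13⟩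
          exact ⟨h12, h13.mono (by omega)⟩
        · rintro y ⟨h12, h13⟩
          exact ⟨h12, h9.trans h13⟩
      · push Not at hex
        refine ⟨bb, ?_, fun h => hbD (h hbbm)⟩
        have h5 : J4 (sqr r bb : Set (ℤ × ℤ)) d bb :=
          rect_conn4 d (by exact_mod_cast mem_sqr.2 hdN) bb
            (by
              have : 0 ≤ r := by
                obtain ⟨g1, -⟩ := hdN
                exact (abs_nonneg _).trans g1
              exact_mod_cast mem_sqr.2 (NB.refl this bb))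
        have h6 := h5.induct (P := fun x => J4 {x | x ∉ P ∧ NB r bb x} d x) (J4.refl _ _)
          (fun x y hx hxy hy => by
            refine hx.tail hxy ⟨fun hyP => hex x hx y hyP (adj4_symm hxy), ?_⟩
            exact mem_sqr.1 (by exact_mod_cast hy))
        refine J4.mono ?_ h6
        rintro y ⟨h12, h13⟩
        exact ⟨h12, h13.mono (by omega)⟩
    obtain ⟨y, hyz, hyD⟩ := not_subset.1 hz2
    obtain ⟨T1, t1, t2, t3, t4⟩ := pre_of_j4 (o := o) (K := K) hz1 ⟨hdP, hdN.mono (by omega)⟩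
    have hzN : NB (r + 8) bb z :=
      (J4.mem hz1 (show d ∈ {x | x ∉ P ∧ NB (r + 8) bb x} from ⟨hdP, hdN.mono (by omega)⟩)).2
    have hnear : ∀ w e, NB (r + 8) bb e → w ∈ cbx o K e → dist w b < η := by
      intro w e he hw
      have h5 := dist_of_nb hbbm hw he
      rw [dist_comm] at h5
      push_cast at h5
      have : 4 * m ≤ ρ1 := hmesh
      nlinarith
    obtain ⟨T2, s1, s2, s3, s4, s5⟩ := hη0' y hyD ((hnear y z hzN hyz).trans_le hη1)
    have hT1A : T1 ⊆ A' ∩ Metric.closedBall b ρ2 := by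
      intro w hw
      have h5 := t2 hw
      rw [mem_iUnion₂] at h5
      obtain ⟨e, ⟨he1, he2⟩, hwe⟩ := h5
      refine ⟨hmemA e he1 (he2.mono hrr2) hwe, ?_⟩
      rw [Metric.mem_closedBall]
      exact (hnear w e he2 hwe).le.trans hη2
    have hT2A : T2 ⊆ A' ∩ Metric.closedBall b ρ2 := fun w hw =>
      ⟨hDA w (s2 hw) (Metric.mem_closedBall.1 (s3 hw)), s3 hw⟩
    exact (t1.union y (t4 hyz) s4 s1).subset_connectedComponentIn (Or.inr s5)
      (union_subset hT1A hT2A) (Or.inl (t3 hxd))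
  set B' := Metric.closedBall b (2 * ρ1) ∪ E2 with hB'
  have hB'c : IsCompact B' := (isCompact_closedBall _ _).union hE2c
  have hB's : B' ⊆ Metric.closedBall b ρ2 :=
    union_subset (Metric.closedBall_subset_closedBall (by linarith)) (hE2s.trans inter_subset_right)
  have hAB : A' ∩ B' = E2 := by
    apply Subset.antisymm
    · rintro x ⟨h5, h6 | h6⟩
      · exact hclaim x h5 (Metric.mem_closedBall.1 h6)
      · exact h6
    · exact fun x hx => ⟨(hE2s hx).1, Or.inr hx⟩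
  obtain ⟨S, u1, u2, u3, u4⟩ := centre_of_j4 (o := o) (K := K)
    (hcon c (by exact_mod_cast hc) c' (by exact_mod_cast hc')) (by exact_mod_cast hc)
  have hSA : Disjoint S A' := by
    rw [disjoint_left]
    intro y hy hyA
    rw [hA', mem_iUnion₂] at hyA
    obtain ⟨e, he, hye⟩ := hyA
    exact (Finset.mem_sdiff.1 he).2 (by exact_mod_cast u2 y hy e hye)
  have j1 : JoinedIn A'ᶜ (cpt o K c) (cpt o K c') :=
    joinedIn_of_preconnected hA'c.isClosed u1 hSA u3 u4
  have j2 : JoinedIn B'ᶜ (cpt o K c) (cpt o K c') :=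
    (joined_outside_ball hρ2 hcb hc'b).mono (compl_subset_compl.2 hB's)
  obtain ⟨γ, hγ⟩ := janiszewski hA'c hB'c (by rw [hAB]; exact isPreconnected_connectedComponentIn)
    j1 j2
  have key : ∀ x, ρ2 < dist (cpt o K x) b → ρ1 ≤ dist (gpt o K x) b := by
    intro x hx
    have h5 := dist_triangle (cpt o K x) (gpt o K x) b
    have h6 := Metric.mem_closedBall.1 (cbx_bounded o K x (cpt_mem o K x))
    linarith
  refine j4_of_preconnected (o := o) (K := K) (isPreconnected_range γ.continuous)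
    (y := cpt o K c) (y' := cpt o K c') ?_ ⟨0, γ.source⟩ ⟨1, γ.target⟩ (cpt_mem o K c)
    (cpt_mem o K c') ⟨hc, key c hcb⟩
  rintro _ ⟨t, rfl⟩ d d' hd hd' ⟨hdP, -⟩
  have hno := hγ t
  rw [mem_compl_iff, mem_union, not_or] at hno
  constructor
  · by_contra hd'P
    apply hno.1
    rw [hA', mem_iUnion₂]
    refine ⟨d', Finset.mem_sdiff.2 ⟨Finset.mem_union_left _ ?_, hd'P⟩, hd'⟩
    rw [Finset.mem_biUnion]
    refine ⟨d, hdP, mem_sqr.2 ?_⟩
    have := nb_of_dist (r := 0) hd hd' (by rw [dist_self]; simp)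
    simpa using this
  · have h5 : 2 * ρ1 < dist (γ t) b := by
      by_contra h
      push Not at h
      exact hno.2 (Or.inl (Metric.mem_closedBall.2 h))
    have h6 := Metric.mem_closedBall.1 (cbx_bounded o K d' hd')
    have h7 := dist_triangle (γ t) (gpt o K d') b
    linarith

end

end Pool.Agent.H14.NB
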