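import Pool.Agent.H28.Q1.Dead
import Pool.Agent.H14.Jordan.Bridge

set_option autoImplicit false
open Set Topology Filter

/-! # Boxes and connected sets of the plane

`j4_of_preconnected` : the boxes which meet a connected set are joined. `pre_of_j4` : a chain of boxes
gives a connected set. `ext_lc` : local connectivity of the complement of a Jordan domain. -/

namespace Pool.Agent.H14.NB

open Pool.Agent.Q1.M3
open Pool.Agent.Q1.M3.Pg (J4 NB rect_conn4 adj4_symm)
open Pool.Agent.Q1.M4 (Adj4 Conn4)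
open Pool.Agent.H28.Q1 (cbx exists_cols)
open Pool.Agent.H75.Perc (dir_cases)
open Pool.Agent.H81.Q1 (IsJordanDomain)

/-- the box of a point -/
noncomputable def bxo (o : ℂ) (K : ℕ) (y : ℂ) : ℤ × ℤ :=
  (⌊(y.re - o.re) / mesh (K + 1)⌋, ⌊(y.im - o.im) / mesh (K + 1)⌋)

lemma mem_bxo (o : ℂ) (K : ℕ) (y : ℂ) : y ∈ cbx o K (bxo o K y) := by
  have hm := mesh_pos (K + 1)
  have key : ∀ t x0 : ℝ, x0 + (⌊(t - x0) / mesh (K + 1)⌋ : ℤ) * mesh (K + 1) ≤ t ∧
      t ≤ x0 + ((⌊(t - x0) / mesh (K + 1)⌋ : ℤ) + 1) * mesh (K + 1) := by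
    intro t x0
    have h1 := Int.floor_le ((t - x0) / mesh (K + 1))
    have h2 := (Int.lt_floor_add_one ((t - x0) / mesh (K + 1))).le
    rw [le_div_iff₀ hm] at h1
    rw [div_le_iff₀ hm] at h2
    constructor <;> linarith
  exact ⟨key y.re o.re, key y.im o.im⟩

/-- The boxes at a point: a rectangle of boxes. -/
lemma exists_rect (o : ℂ) (K : ℕ) (y : ℂ) : ∃ R : Finset (ℤ × ℤ), Conn4 (R : Set (ℤ × ℤ)) ∧
    (∀ c, c ∈ R ↔ y ∈ cbx o K c) ∧ ∀ᶠ y' in 𝓝 y, bxo o K y' ∈ R := by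
  have hm := mesh_pos (K + 1)
  obtain ⟨a1, b1, e1, he1, p1, p2, p3⟩ := exists_cols hm o.re y.re
  obtain ⟨a2, b2, e2, he2, r1, r2, r3⟩ := exists_cols hm o.im y.im
  refine ⟨Finset.Ico a1 b1 ×ˢ Finset.Ico a2 b2, rect_conn4, fun c => ?_, ?_⟩
  · rw [Finset.mem_product, Finset.mem_Ico, Finset.mem_Ico]
    constructor
    · rintro ⟨⟨h1, h2⟩, h3, h4⟩
      exact ⟨p1 _ h1 h2, r1 _ h3 h4⟩
    · rintro ⟨⟨h1, h2⟩, h3, h4⟩
      obtain ⟨x, g1, g2, g3, g4⟩ := p3 c.1 (c.1 + 1) (by omega) h1 (by push_cast; exact h2)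
      obtain ⟨x', g5, g6, g7, g8⟩ := r3 c.2 (c.2 + 1) (by omega) h3 (by push_cast; exact h4)
      have e1 : x = c.1 := by omega
      have e2 : x' = c.2 := by omega
      rw [← e1, ← e2]
      exact ⟨⟨g1, g2⟩, g5, g6⟩
  · have h1 : ∀ᶠ y' in 𝓝 y, |y'.re - y.re| < e1 := by
      have : ∀ᶠ y' in 𝓝 y, dist y'.re y.re < e1 :=
        (Complex.continuous_re.tendsto y).eventually (Metric.ball_mem_nhds _ he1)
      exact this
    have h2 : ∀ᶠ y' in 𝓝 y, |y'.im - y.im| < e2 := by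
      have : ∀ᶠ y' in 𝓝 y, dist y'.im y.im < e2 :=
        (Complex.continuous_im.tendsto y).eventually (Metric.ball_mem_nhds _ he2)
      exact this
    filter_upwards [h1, h2] with y' g1 g2
    rw [Finset.mem_product, Finset.mem_Ico, Finset.mem_Ico]
    exact ⟨p2 _ g1, r2 _ g2⟩

/-- **The boxes at the points of a connected set are joined.** -/
theorem j4_of_preconnected {o : ℂ} {K : ℕ} {S : Set ℂ} (hS : IsPreconnected S)
    {F : Set (ℤ × ℤ)} (hF : ∀ y ∈ S, ∀ c c', y ∈ cbx o K c → y ∈ cbx o K c' → c ∈ F → c' ∈ F)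
    {y y' : ℂ} (hy : y ∈ S) (hy' : y' ∈ S) {c c' : ℤ × ℤ} (hc : y ∈ cbx o K c)
    (hc' : y' ∈ cbx o K c') (hcF : c ∈ F) : J4 F c c' := by
  classical
  -- boxes at the same point are joined
  have same : ∀ x ∈ S, ∀ d d' : ℤ × ℤ, x ∈ cbx o K d → x ∈ cbx o K d' → d ∈ F → J4 F d d' := by
    intro x hx d d' hd hd' hdF
    obtain ⟨R, h1, h2, -⟩ := exists_rect o K x
    have h3 : (R : Set (ℤ × ℤ)) ⊆ F := fun e he => hF x hx d e hd ((h2 e).1 he) hdF
    exact J4.mono h3 (h1 d ((h2 d).2 hd) d' ((h2 d').2 hd'))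
  set f : ℂ → Bool := fun x => decide (J4 F c (bxo o K x)) with hf
  have hcont : ContinuousOn f S := by
    intro x hx
    obtain ⟨R, h1, h2, h3⟩ := exists_rect o K x
    have h4 : ∀ᶠ x' in 𝓝[S] x, f x' = f x := by
      filter_upwards [h3.filter_mono nhdsWithin_le_nhds] with x' hx'
      have g1 : x ∈ cbx o K (bxo o K x') := (h2 _).1 hx'
      have g2 := mem_bxo o K x
      rw [hf]
      simp only [decide_eq_decide]
      constructor
      · intro h
        exact h.trans (same x hx _ _ g1 g2 (J4.mem h hcF))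
      · intro h
        exact h.trans (same x hx _ _ g2 g1 (J4.mem h hcF))
    exact (continuousWithinAt_const (b := f x)).congr_of_eventuallyEq h4 rfl
  have h1 : f y = f y' := hS.constant hcont hy hy'
  have h2 : f y = true := by
    rw [hf]
    simp only [decide_eq_true_eq]
    exact same y hy _ _ hc (mem_bxo o K y) hcF
  have h3 : J4 F c (bxo o K y') := by
    rw [h2, hf] at h1
    simpa using h1.symm
  exact h3.trans (same y' hy' _ _ (mem_bxo o K y') hc' (J4.mem h3 hcF))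

lemma cbx_convex (o : ℂ) (K : ℕ) (c : ℤ × ℤ) : Convex ℝ (cbx o K c) := by
  have h : cbx o K c = (Complex.reLm ⁻¹' Icc (o.re + c.1 * mesh (K + 1))
      (o.re + (c.1 + 1) * mesh (K + 1))) ∩ (Complex.imLm ⁻¹' Icc (o.im + c.2 * mesh (K + 1))
      (o.im + (c.2 + 1) * mesh (K + 1))) := by
    ext z; rfl
  rw [h]
  exact ((convex_Icc _ _).linear_preimage _).inter ((convex_Icc _ _).linear_preimage _)

lemma cbx_closed (o : ℂ) (K : ℕ) (c : ℤ × ℤ) : IsClosed (cbx o K c) := by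
  have h : cbx o K c = (Complex.re ⁻¹' Icc (o.re + c.1 * mesh (K + 1))
      (o.re + (c.1 + 1) * mesh (K + 1))) ∩ (Complex.im ⁻¹' Icc (o.im + c.2 * mesh (K + 1))
      (o.im + (c.2 + 1) * mesh (K + 1))) := by
    ext z; rfl
  rw [h]
  exact (isClosed_Icc.preimage Complex.continuous_re).inter
    (isClosed_Icc.preimage Complex.continuous_im)

lemma cbx_bounded (o : ℂ) (K : ℕ) (c : ℤ × ℤ) : cbx o K c ⊆
    Metric.closedBall (gpt o K c) (2 * mesh (K + 1)) := by
  rintro z ⟨⟨h1, h2⟩, h3, h4⟩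
  rw [Metric.mem_closedBall, Complex.dist_eq]
  refine (Complex.norm_le_abs_re_add_abs_im _).trans ?_
  have e1 : |(z - gpt o K c).re| ≤ mesh (K + 1) := by
    rw [Complex.sub_re, abs_le]
    unfold gpt
    simp only
    constructor <;> linarith [mesh_pos (K + 1)]
  have e2 : |(z - gpt o K c).im| ≤ mesh (K + 1) := by
    rw [Complex.sub_im, abs_le]
    unfold gpt
    simp only
    constructor <;> linarith [mesh_pos (K + 1)]
  linarith

lemma cbx_compact (o : ℂ) (K : ℕ) (c : ℤ × ℤ) : IsCompact (cbx o K c) :=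
  Metric.isCompact_of_isClosed_isBounded (cbx_closed o K c)
    (Metric.isBounded_closedBall.subset (cbx_bounded o K c))

lemma gpt_mem_cbx (o : ℂ) (K : ℕ) (c : ℤ × ℤ) : gpt o K c ∈ cbx o K c := by
  have hm := mesh_pos (K + 1)
  unfold gpt
  refine ⟨⟨le_refl _, ?_⟩, le_refl _, ?_⟩ <;> simp only <;> linarith

/-- neighbouring boxes have a common point -/
lemma cbx_adj (o : ℂ) (K : ℕ) {c c' : ℤ × ℤ} (h : Adj4 c c') :
    (cbx o K c ∩ cbx o K c').Nonempty := by
  have hm := mesh_pos (K + 1)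
  obtain ⟨k, rfl⟩ := h
  rcases dir_cases k with ⟨-, e⟩ | ⟨-, e⟩ | ⟨-, e⟩ | ⟨-, e⟩ <;> rw [e]
  · refine ⟨⟨o.re + (c.1 + 1) * mesh (K + 1), o.im + c.2 * mesh (K + 1)⟩, ?_, ?_⟩ <;>
      refine ⟨⟨?_, ?_⟩, ?_, ?_⟩ <;> simp only [Prod.fst_add, Prod.snd_add] <;> push_cast <;> linarith
  · refine ⟨⟨o.re + c.1 * mesh (K + 1), o.im + (c.2 + 1) * mesh (K + 1)⟩, ?_, ?_⟩ <;>
      refine ⟨⟨?_, ?_⟩, ?_, ?_⟩ <;> simp only [Prod.fst_add, Prod.snd_add] <;> push_cast <;> linarith
  · refine ⟨⟨o.re + c.1 * mesh (K + 1), o.im + c.2 * mesh (K + 1)⟩, ?_, ?_⟩ <;>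
      refine ⟨⟨?_, ?_⟩, ?_, ?_⟩ <;> simp only [Prod.fst_add, Prod.snd_add] <;> push_cast <;> linarith
  · refine ⟨⟨o.re + c.1 * mesh (K + 1), o.im + c.2 * mesh (K + 1)⟩, ?_, ?_⟩ <;>
      refine ⟨⟨?_, ?_⟩, ?_, ?_⟩ <;> simp only [Prod.fst_add, Prod.snd_add] <;> push_cast <;> linarith

/-- **A chain of boxes gives a connected set.** -/
theorem pre_of_j4 {o : ℂ} {K : ℕ} {F : Set (ℤ × ℤ)} {c c' : ℤ × ℤ} (h : J4 F c c') (hc : c ∈ F) :
    ∃ T : Set ℂ, IsPreconnected T ∧ T ⊆ ⋃ x ∈ F, cbx o K x ∧ cbx o K c ⊆ T ∧ cbx o K c' ⊆ T := by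
  have := h.induct (P := fun x => x ∈ F ∧ ∃ T : Set ℂ, IsPreconnected T ∧
    T ⊆ ⋃ x ∈ F, cbx o K x ∧ cbx o K c ⊆ T ∧ cbx o K x ⊆ T)
    ⟨hc, cbx o K c, (cbx_convex o K c).isPreconnected, subset_iUnion₂_of_subset c hc subset_rfl,
      subset_rfl, subset_rfl⟩ ?_
  · exact this.2
  · rintro x y ⟨hx, T, h1, h2, h3, h4⟩ hxy hy
    refine ⟨hy, T ∪ cbx o K y, ?_, union_subset h2 (subset_iUnion₂_of_subset y hy subset_rfl),
      h3.trans subset_union_left, subset_union_right⟩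
    obtain ⟨p, hp1, hp2⟩ := cbx_adj o K hxy
    exact h1.union p (h4 hp1) hp2 (cbx_convex o K y).isPreconnected

/-- the centre of a box -/
noncomputable def cpt (o : ℂ) (K : ℕ) (c : ℤ × ℤ) : ℂ :=
  ⟨o.re + (c.1 + 1 / 2) * mesh (K + 1), o.im + (c.2 + 1 / 2) * mesh (K + 1)⟩

lemma cpt_mem (o : ℂ) (K : ℕ) (c : ℤ × ℤ) : cpt o K c ∈ cbx o K c := by
  have hm := mesh_pos (K + 1)
  unfold cpt
  refine ⟨⟨?_, ?_⟩, ?_, ?_⟩ <;> simp only <;> linarith

lemma col_uniq {m x0 t : ℝ} (hm : 0 < m) {u v w : ℤ} (h1 : x0 + u * m < t)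
    (h2 : t < x0 + w * m) (h3 : x0 + v * m ≤ t) (h4 : t ≤ x0 + (v + 1) * m) : u ≤ v ∧ v < w := by
  constructor
  · have : (u : ℝ) * m < (v + 1) * m := by linarith
    have h5 := lt_of_mul_lt_mul_right this hm.le
    have : (u : ℝ) < ((v + 1 : ℤ) : ℝ) := by push_cast; exact h5
    have h6 : u < v + 1 := by exact_mod_cast this
    omega
  · have : (v : ℝ) * m < w * m := by linarith
    have h5 := lt_of_mul_lt_mul_right this hm.le
    exact_mod_cast h5

/-- **The centres of a chain of boxes** are joined away from the other boxes. -/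
theorem centre_of_j4 {o : ℂ} {K : ℕ} {F : Set (ℤ × ℤ)} {c c' : ℤ × ℤ} (h : J4 F c c')
    (hc : c ∈ F) : ∃ T : Set ℂ, IsPreconnected T ∧ (∀ y ∈ T, ∀ x, y ∈ cbx o K x → x ∈ F) ∧
      cpt o K c ∈ T ∧ cpt o K c' ∈ T := by
  have hm := mesh_pos (K + 1)
  have hcen : ∀ x y : ℤ × ℤ, cpt o K x ∈ cbx o K y → y = x := by
    rintro ⟨x1, x2⟩ ⟨y1, y2⟩ ⟨⟨h1, h2⟩, h3, h4⟩
    unfold cpt at h1 h2 h3 h4
    simp only at h1 h2 h3 h4
    obtain ⟨g1, g2⟩ := col_uniq hm (u := x1) (w := x1 + 1) (v := y1)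
      (by linarith) (by push_cast; linarith) h1 h2
    obtain ⟨g3, g4⟩ := col_uniq hm (u := x2) (w := x2 + 1) (v := y2)
      (by linarith) (by push_cast; linarith) h3 h4
    ext
    · simp only; omega
    · simp only; omega
  have := h.induct (P := fun x => x ∈ F ∧ ∃ T : Set ℂ, IsPreconnected T ∧
    (∀ y ∈ T, ∀ x, y ∈ cbx o K x → x ∈ F) ∧ cpt o K c ∈ T ∧ cpt o K x ∈ T)
    ⟨hc, {cpt o K c}, isPreconnected_singleton, ?_, rfl, rfl⟩ ?_
  · exact this.2
  · rintro y rfl x hx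
    rw [hcen _ _ hx]; exact hc
  · rintro x y ⟨hx, T, h1, h2, h3, h4⟩ hxy hy
    refine ⟨hy, T ∪ segment ℝ (cpt o K x) (cpt o K y), ?_, ?_, Or.inl h3,
      Or.inr (right_mem_segment _ _ _)⟩
    · exact h1.union _ h4 (left_mem_segment _ _ _) (convex_segment _ _).isPreconnected
    · rintro p (hp | hp) q hq
      · exact h2 p hp q hq
      · obtain ⟨t, ht, rfl⟩ := (segment_eq_image' ℝ (cpt o K x) (cpt o K y) ▸ hp :
          p ∈ (fun θ : ℝ => cpt o K x + θ • (cpt o K y - cpt o K x)) '' Icc (0 : ℝ) 1)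
        obtain ⟨⟨g1, g2⟩, g3, g4⟩ := hq
        obtain ⟨k, rfl⟩ := hxy
        simp only [Complex.add_re, Complex.add_im, Complex.real_smul, Complex.mul_re,
          Complex.mul_im, Complex.ofReal_re, Complex.ofReal_im, Complex.sub_re, Complex.sub_im,
          zero_mul, sub_zero, add_zero] at g1 g2 g3 g4
        have ht0 := ht.1
        have ht1 := ht.2
        have htm : 0 ≤ t * mesh (K + 1) := by positivity
        have htm' : t * mesh (K + 1) ≤ mesh (K + 1) := by nlinarith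
        have hF : q = x ∨ q = x + Pool.Agent.H75.Perc.dir k := by
          rcases dir_cases k with ⟨-, e⟩ | ⟨-, e⟩ | ⟨-, e⟩ | ⟨-, e⟩ <;> rw [e] at g1 g2 g3 g4 ⊢ <;>
            unfold cpt at g1 g2 g3 g4 <;>
            simp only [Prod.fst_add, Prod.snd_add] at g1 g2 g3 g4 <;>
            push_cast at g1 g2 g3 g4
          · obtain ⟨f1, f2⟩ := col_uniq hm (u := x.1) (w := x.1 + 2) (v := q.1)
              (by nlinarith) (by push_cast; nlinarith) g1 g2
            obtain ⟨f3, f4⟩ := col_uniq hm (u := x.2) (w := x.2 + 1) (v := q.2)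
              (by nlinarith) (by push_cast; nlinarith) g3 g4
            rcases (by omega : q.1 = x.1 ∨ q.1 = x.1 + 1) with f | f
            · left; ext <;> omega
            · right; ext <;> simp only [Prod.fst_add, Prod.snd_add] <;> omega
          · obtain ⟨f1, f2⟩ := col_uniq hm (u := x.1) (w := x.1 + 1) (v := q.1)
              (by nlinarith) (by push_cast; nlinarith) g1 g2
            obtain ⟨f3, f4⟩ := col_uniq hm (u := x.2) (w := x.2 + 2) (v := q.2)
              (by nlinarith) (by push_cast; nlinarith) g3 g4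
            rcases (by omega : q.2 = x.2 ∨ q.2 = x.2 + 1) with f | f
            · left; ext <;> omega
            · right; ext <;> simp only [Prod.fst_add, Prod.snd_add] <;> omega
          · obtain ⟨f1, f2⟩ := col_uniq hm (u := x.1 - 1) (w := x.1 + 1) (v := q.1)
              (by push_cast; nlinarith) (by push_cast; nlinarith) g1 g2
            obtain ⟨f3, f4⟩ := col_uniq hm (u := x.2) (w := x.2 + 1) (v := q.2)
              (by nlinarith) (by push_cast; nlinarith) g3 g4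
            rcases (by omega : q.1 = x.1 ∨ q.1 = x.1 - 1) with f | f
            · left; ext <;> omega
            · right; ext <;> simp only [Prod.fst_add, Prod.snd_add] <;> omega
          · obtain ⟨f1, f2⟩ := col_uniq hm (u := x.1) (w := x.1 + 1) (v := q.1)
              (by nlinarith) (by push_cast; nlinarith) g1 g2
            obtain ⟨f3, f4⟩ := col_uniq hm (u := x.2 - 1) (w := x.2 + 1) (v := q.2)
              (by push_cast; nlinarith) (by push_cast; nlinarith) g3 g4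
            rcases (by omega : q.2 = x.2 ∨ q.2 = x.2 - 1) with f | f
            · left; ext <;> omega
            · right; ext <;> simp only [Prod.fst_add, Prod.snd_add] <;> omega
        rcases hF with rfl | rfl
        · exact hx
        · exact hy

/-- **Local connectivity of the complement** of a Jordan domain at a boundary point. -/
theorem ext_lc {D : Set ℂ} (hD : IsJordanDomain D) {b : ℂ} (hb : b ∈ frontier D) {r : ℝ}
    (hr : 0 < r) : ∃ η > 0, ∀ y ∈ Dᶜ, dist y b < η → ∃ T : Set ℂ, IsPreconnected T ∧ T ⊆ Dᶜ ∧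
      T ⊆ Metric.closedBall b r ∧ y ∈ T ∧ b ∈ T := by
  obtain ⟨ρ, h⟩ := Pool.Agent.H14.Jordan.exists_loop hD
  obtain ⟨e1, e2, e3, -⟩ := h.exterior
  have hfc := h.frontier_subset_closure_exterior
  obtain ⟨δ, hδ, hj⟩ := Pool.Agent.H14.Jordan.ulc h.loop e1 e2.isPreconnected e3
    (show 0 < r / 2 by positivity)
  set η := min (δ / 2) (r / 2) with hη
  have hη0 : 0 < η := by positivity
  have m1 : η ≤ δ / 2 := min_le_left _ _
  have m2 : η ≤ r / 2 := min_le_right _ _
  obtain ⟨x0, hx0, hx0b⟩ : ∃ x0 ∈ (closure D)ᶜ, dist x0 b < η := by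
    obtain ⟨x, hx, h1⟩ := Metric.mem_closure_iff.1 (hfc hb) η hη0
    exact ⟨x, hx, by rwa [dist_comm]⟩
  have hclE : closure (closure D)ᶜ ⊆ Dᶜ := by
    refine closure_minimal (compl_subset_compl.2 subset_closure) ?_
    exact hD.1.isClosed_compl
  have hsub : ∀ x ∈ (closure D)ᶜ, dist x b < η →
      x ∈ connectedComponentIn ((closure D)ᶜ ∩ Metric.ball b r) x0 := by
    intro x hx hxb
    obtain ⟨γ, hγ⟩ := hj x0 hx0 x hx (by
      have := dist_triangle_right x0 x b
      linarith)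
    refine (isPreconnected_range γ.continuous).subset_connectedComponentIn ⟨0, γ.source⟩ ?_
      ⟨1, γ.target⟩
    rintro _ ⟨t, rfl⟩
    refine ⟨(hγ t).1, ?_⟩
    have h1 := Metric.mem_ball.1 (hγ t).2
    rw [Metric.mem_ball]
    have := dist_triangle (γ t) x0 b
    linarith
  refine ⟨η, hη0, fun y hy hyb => ?_⟩
  have hT : ∀ y ∈ Dᶜ, dist y b < η →
      y ∈ closure (connectedComponentIn ((closure D)ᶜ ∩ Metric.ball b r) x0) := by
    intro y hy hyb
    have h1 : y ∈ closure (closure D)ᶜ := by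
      by_cases h2 : y ∈ closure D
      · refine hfc ?_
        rw [hD.1.frontier_eq]
        exact ⟨h2, hy⟩
      · exact subset_closure h2
    rw [Metric.mem_closure_iff] at h1 ⊢
    intro ε hε
    obtain ⟨x, hx, hxy⟩ := h1 (min ε (η - dist y b)) (lt_min hε (by linarith))
    refine ⟨x, hsub x hx ?_, hxy.trans_le (min_le_left _ _)⟩
    have h3 := hxy.trans_le (min_le_right _ _)
    have := dist_triangle_left x b y
    linarith
  refine ⟨closure (connectedComponentIn ((closure D)ᶜ ∩ Metric.ball b r) x0),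
    isPreconnected_connectedComponentIn.closure, ?_, ?_, hT y hy hyb, hT b ?_ ?_⟩
  · exact (closure_mono ((connectedComponentIn_subset _ _).trans inter_subset_left)).trans hclE
  · refine (closure_mono ((connectedComponentIn_subset _ _).trans inter_subset_right)).trans ?_
    exact Metric.closure_ball_subset_closedBall
  · rw [hD.1.frontier_eq] at hb
    exact hb.2
  · rw [dist_self]; exact hη0

end Pool.Agent.H14.NB
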