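import Pool.Agent.H14.NB.J0c

set_option autoImplicit false
open Finset Filter Topology

/-! # The first step: tip sides, ties and one tip side for all `n`

`j0_main` : for large `n` there is a tip side `s` of the first step with the ties `Tied`, and the
crossing probabilities for `s` are close to those for a side `s0` which does not depend on `n`. -/

namespace Pool.Agent.H14.NB

open Pool.Agent.H75.Perc Pool.Agent.H75.TwoArm Pool.Agent.H75.Four Pool.Agent.H99.NC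
open Pool.Agent.H69.Q1 Pool.Agent.H39.Q1 Pool.Agent.H28.Q1
open Pool.Agent.Q1.M3 Pool.Agent.Q1.M3.Pg
open Pool.Agent.H75.TwoArm.StrandAux hiding vx_nxC
open Pool.Agent.Q1.M4 (Adj4 Conn4 Good IsSide inV inRect nextSide tail head Eqv isSide_iter)
open Pool.Agent.H21.Q1 (Sol Wt InvL Dcy exists_Dcy)
open Pool.Agent.H81.Q1 (pt DDomain Approx IsJordanDomain IsArcs)

section

variable {D : Set ℂ} {a b : ℂ} {A₁ A₂ : Set ℂ} {A : Approx D a b A₁ A₂} {r0 : ℝ}

/-- The target is far from `a`. -/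
lemma far_data (hD : IsJordanDomain D) (hab : a ≠ b) (hA : IsArcs D a b A₁ A₂) (B : Base A r0)
    {s1 : ℝ} (hs14 : s1 ≤ dist a b / 4) {M : ℕ} {BB : Cell} {z : ℂ} (hP : Par0 B s1 M BB z)
    (k : ℕ) : ∃ da > 0, ∃ L, ∀ K, L ≤ K → ∀ C : Finset Cell,
      (∀ q ∈ C, q.1 ≤ k ∧ cfat B.o q ⊆ D) →
      (∀ s, ∀ c ∈ (dC B K C M BB z s).H2, da ≤ dist (gpt B.o K c) a) ∧
      ∀ᶠ n in atTop, ∀ v ∈ KvC B C n, da ≤ dist (pt (A.δ n) v) a := by
  have hab' : 0 < dist a b := dist_pos.2 hab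
  have hDb := hD.2.2.1
  obtain ⟨haD, hbD⟩ := not_mem_of_arcs hD.1 hA
  have hQD : ∀ q ∈ B.Q M, cfat B.o q ⊆ D := fun q hq =>
    (B.subQ M q hq).trans Set.inter_subset_left
  set CM := cellsLe D B.o 0 k ∪ B.Q M with hCM
  have hCMD : ∀ q ∈ CM, cfat B.o q ⊆ D := by
    intro q hq
    rcases mem_union.1 hq with h | h
    · exact ((mem_cellsLe hDb).1 h).2.2
    · exact hQD q h
  obtain ⟨sa, hsa0, hsa⟩ := exists_dist CM hCMD haD
  have hBBa : ∀ w ∈ cfat B.o BB, dist a b / 2 ≤ dist w a := by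
    intro w hw
    have h1 := hP.hs hw
    rw [Metric.mem_ball] at h1
    have h2 := dist_triangle a w b
    rw [dist_comm a w] at h2
    linarith
  obtain ⟨L, hL⟩ := exists_lev B M
  refine ⟨min sa (dist a b / 2), lt_min hsa0 (by positivity),
    max (max L (BB.1 + 1)) (k + 1), fun K hK C hC => ?_⟩
  have k4 : L ≤ K := (le_max_left _ _).trans ((le_max_left _ _).trans hK)
  have k5 : BB.1 + 1 ≤ K := (le_max_right _ _).trans ((le_max_left _ _).trans hK)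
  have k6 : k + 1 ≤ K := (le_max_right _ _).trans hK
  have hCsub : C ∪ B.Q M ⊆ CM := by
    rw [hCM]
    refine union_subset_union (fun q hq => ?_) (subset_refl _)
    rw [mem_cellsLe hDb]
    exact ⟨Nat.zero_le _, (hC q hq).1, (hC q hq).2⟩
  have hlevC : ∀ q ∈ C ∪ B.Q M, q.1 ≤ K := by
    intro q hq
    rcases mem_union.1 hq with h | h
    · have := (hC q h).1; omega
    · have := hL q h; omega
  constructor
  · intro s c hc
    have hc' : c ∈ flat K (C ∪ B.Q M) ∪ (fc K BB ∩ (dC B K C M BB z s).P) := hc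
    rcases mem_union.1 hc' with h | h
    · obtain ⟨q, hq, hcq⟩ := mem_flat.1 h
      exact (min_le_left _ _).trans (hsa q (hCsub hq) _ (gpt_mem (hlevC q hq) hcq))
    · exact (min_le_right _ _).trans (hBBa _ (gpt_mem (by omega) (mem_inter.1 h).1))
  · filter_upwards [B.hN M] with n g3
    obtain ⟨N', hN', hN'b⟩ := g3
    have hδ := A.pos n
    intro v hv
    have key : ∀ q ∈ CM, v ∈ verts (A.δ n) B.o q → sa ≤ dist (pt (A.δ n) v) a := by
      intro q hq hvq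
      exact hsa q hq _ (Pool.Agent.H42.Q1.fat_sub_cfat _ _ ((mem_verts hδ).1 hvq))
    rcases mem_union.1 hv with h | h
    · obtain ⟨q, hq, hvq⟩ := mem_Vn.1 h
      exact (min_le_left _ _).trans (key q (hCsub (mem_union_left _ hq)) hvq)
    · rw [hN'] at h
      rcases mem_union.1 h with h | h
      · obtain ⟨q, hq, hvq⟩ := mem_Vn.1 h
        exact (min_le_left _ _).trans (key q (mem_union_right _ hq) hvq)
      · have h1 := hP.hr (hN'b v h)
        exact (min_le_right _ _).trans (hBBa _ (Pool.Agent.H42.Q1.fat_sub_cfat _ _ h1))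

/-- (DC) for one level. -/
def StDead (B : Base A r0) (K : ℕ) : Prop := ∀ᶠ n in atTop, ∀ E ⊆ (X0 A n).E, ∀ C : Finset Cell,
  (∀ q ∈ C, q.1 < K ∧ cfat B.o q ⊆ D ∧ star (verts (A.δ n) B.o q) ⊆ E) →
  ∀ c c', Adj4 c c' → c ∈ flat K (Uk D (A.δ n) B.o B.qb K E) →
    c' ∉ PP K (Uk D (A.δ n) B.o B.qb K E) C →
    DeadAt K B.o (A.δ n) (PP K (Uk D (A.δ n) B.o B.qb K E) C) E c'

lemma exists_mesh {r : ℝ} (hr : 0 < r) : ∃ K0 : ℕ, ∀ K, K0 ≤ K → mesh (K + 1) ≤ r := by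
  obtain ⟨k, hk⟩ := exists_pow_lt_of_lt_one hr (show (1 / 3 : ℝ) < 1 by norm_num)
  refine ⟨k, fun K hK => ?_⟩
  unfold mesh
  have : (1 / 3 : ℝ) ^ (K + 1) ≤ (1 / 3) ^ k := pow_le_pow_of_le_one (by norm_num) (by norm_num)
    (by omega)
  linarith

lemma TipOk.mono {B : Base A r0} {K : ℕ} {C : Finset Cell} {M : ℕ} {BB : Cell} {z : ℂ} {ρ ρ' : ℝ}
    (h : ρ ≤ ρ') {c0 : ℤ × ℤ} {n : ℕ} {s : (ℤ × ℤ) × ℤ} {τ A' : Finset (ℤ × ℤ)} {p0 : ℕ}
    (hT : TipOk B K C M BB z ρ c0 n s τ A' p0) : TipOk B K C M BB z ρ' c0 n s τ A' p0 :=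
  ⟨hT.mem, hT.tied, fun v hv => (hT.hτ v hv).trans_le h,
    fun e he => ⟨(hT.hA e he).1.trans_le h, (hT.hA e he).2.trans_le h⟩, hT.near.trans_le h⟩

/-- **The first step.** -/
theorem j0_main (hD : IsJordanDomain D) (hab : a ≠ b) (hA : IsArcs D a b A₁ A₂) (B : Base A r0)
    (hDC : ∀ K, StDead B K) :
    ∃ s1 > 0, s1 ≤ dist a b / 4 ∧ ∀ (M : ℕ) (BB : Cell) (z : ℂ), Par0 B s1 M BB z → ∀ k : ℕ,
      ∀ ρ > 0, ∀ ε > 0, ∃ K1, ∀ K, K1 ≤ K → ∀ C : Finset Cell,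
        (∀ q ∈ C, q.1 ≤ k ∧ cfat B.o q ⊆ D) → Lev B.o B.qb C →
        ∃ s0 : (ℤ × ℤ) × ℤ, ∀ᶠ n in atTop, ∃ s τ A' p0,
          Tied (mkSD B K (A.δ n) (X0 A n).E C M BB z s) B.o (A.δ n) (X0 A n) (X0 A n)
            (Vn (A.δ n) B.o C ∪ B.N n) τ A' p0 ∧
          (∀ v, Vl τ v → dist (pt (A.δ n) v) a < ρ) ∧
          (∀ e ∈ A', dist (pt (A.δ n) (eu e)) a < ρ ∧ dist (pt (A.δ n) (ev e)) a < ρ) ∧
          dist (gpt B.o K s.1) a < ρ ∧
          (mkSD B K (A.δ n) (X0 A n).E C M BB z s0).Ok ∧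
          SameRun (mkSD B K (A.δ n) (X0 A n).E C M BB z s)
            (mkSD B K (A.δ n) (X0 A n).E C M BB z s0) ∧
          ∀ j, |(mkSD B K (A.δ n) (X0 A n).E C M BB z s).gg (LX K B.o.re (A.δ n))
              (LX K B.o.im (A.δ n)) j - (mkSD B K (A.δ n) (X0 A n).E C M BB z s0).gg
              (LX K B.o.re (A.δ n)) (LX K B.o.im (A.δ n)) j| ≤ ε := by
  classical
  have hab' : 0 < dist a b := dist_pos.2 hab
  have hDb := hD.2.2.1
  obtain ⟨s1, hs10, hs14, hs1⟩ := tip0 hD hab hA B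
  refine ⟨s1, hs10, hs14, fun M BB z hP k ρ hρ ε hε => ?_⟩
  obtain ⟨ρ0, hρ00, hρ0⟩ := hs1 M BB z hP k
  obtain ⟨da, hda0, L, hda⟩ := far_data hD hab hA B hs14 hP k
  obtain ⟨κ, hκ⟩ := exists_Dcy
  obtain ⟨kk, hkk⟩ := exists_pow_lt_of_lt_one hε (by linarith [hκ.1] : 1 - κ < 1)
  have h4 : (1 : ℝ) ≤ 4 ^ kk := one_le_pow₀ (by norm_num)
  set ρ1 := min (da / (32 * 4 ^ kk)) (dist a b / 8) with hρ1
  have hρ10 : 0 < ρ1 := lt_min (by positivity) (by positivity)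
  have hρ1a : ρ1 ≤ da / (32 * 4 ^ kk) := min_le_left _ _
  have hρ1b : ρ1 ≤ dist a b / 8 := min_le_right _ _
  have hρ1c : 4 ^ kk * (2 * ρ1) ≤ da / 16 := by
    rw [le_div_iff₀ (by positivity)] at hρ1a
    linarith
  have hρ1d : ρ1 ≤ da / 32 := by
    have : 1 * (2 * ρ1) ≤ 4 ^ kk * (2 * ρ1) := mul_le_mul_of_nonneg_right h4 (by positivity)
    linarith
  obtain ⟨d1, hd10, hap⟩ := arcs_apart' hDb hA hρ10
  set ρ' := min (min ρ ρ0) (ρ1 / 2) with hρ'
  have hρ'0 : 0 < ρ' := lt_min (lt_min hρ hρ00) (by positivity)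
  have hρ'1 : ρ' ≤ ρ := (min_le_left _ _).trans (min_le_left _ _)
  have hρ'2 : ρ' ≤ ρ0 := (min_le_left _ _).trans (min_le_right _ _)
  have hρ'3 : ρ' ≤ ρ1 / 2 := min_le_right _ _
  obtain ⟨K2, hK2⟩ := hρ0 ρ' hρ'0 hρ'2
  obtain ⟨K3, hK3⟩ := exists_mesh (r := min (min (ρ1 / 100) (d1 / 100)) (da / 100))
    (lt_min (lt_min (by positivity) (by positivity)) (by positivity))
  refine ⟨max (max K2 K3) (max L (k + 1)), fun K hK C hC hLev => ?_⟩
  have k1 : K2 ≤ K := (le_max_left _ _).trans ((le_max_left _ _).trans hK)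
  have k2 : K3 ≤ K := (le_max_right _ _).trans ((le_max_left _ _).trans hK)
  have k3 : L ≤ K := (le_max_left _ _).trans ((le_max_right _ _).trans hK)
  have k4 : k + 1 ≤ K := (le_max_right _ _).trans ((le_max_right _ _).trans hK)
  have hmp := mesh_pos (K + 1)
  have hm := hK3 K k2
  have hm1 : mesh (K + 1) ≤ ρ1 / 100 := hm.trans ((min_le_left _ _).trans (min_le_left _ _))
  have hm2 : mesh (K + 1) ≤ d1 / 100 := hm.trans ((min_le_left _ _).trans (min_le_right _ _))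
  have hm3 : mesh (K + 1) ≤ da / 100 := hm.trans (min_le_right _ _)
  obtain ⟨c0, hc0'⟩ := hK2 K k1
  obtain ⟨hc0, hok, htip⟩ := hc0' C hC hLev
  obtain ⟨hfar, hkfar⟩ := hda K k3 C hC
  -- the facts for large `n`
  have hCD : ∀ q ∈ C ∪ B.Q M, cfat B.o q ⊆ D := by
    intro q hq
    rcases mem_union.1 hq with h | h
    · exact (hC q h).2
    · exact (B.subQ M q h).trans Set.inter_subset_left
  have hEv : ∀ᶠ n in atTop, EvN B K C M BB z ρ' da d1 c0 n := by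
    have e1 : ∀ᶠ n in atTop, A.δ n < mesh (K + 1) / 5 :=
      A.lim.eventually_lt_const (by positivity)
    have e2 := (Metric.tendsto_nhds.1 A.limα) ρ' hρ'0
    filter_upwards [e1, e2, A.wired d1 hd10, A.dual d1 hd10, hkfar, hDC K,
      uk_const hD.1 hDb hA A B.o B.qb K, free_cells hD.1 hA A B.o hCD, htip]
      with n g1 g2 g3 g4 g5 g6 g7 g8 g9
    refine ⟨by linarith, g3, g4, ?_, g5, ?_⟩
    · have hαX : vx (X0 A n).α = (A.X n).α.1 := by
        change vx (A.X n).toDEnv.α = _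
        rw [Pool.Agent.H81.Q1.toDEnv_α, vx_cor]
      rw [hαX]
      exact g2
    · intro s t ht hto
      obtain ⟨s', τ, A', p0, hT⟩ := g9
      have h1 := comp_subset _ _ ht.1
      obtain ⟨h2, h3⟩ := mem_sdiff.1 h1
      obtain ⟨q, hq, hcq, -⟩ := exists_O (K := K) (U := UC D B.o B.qb K) (C := C ∪ B.Q M)
        (B := BB) h2 h3 ⟨t.2 - 1, rfl⟩ hto
      have h4 := g6 (X0 A n).E (subset_refl _) (C ∪ B.Q M) (fun q hq =>
        ⟨hT.tied.ok.lev.hC q hq, (g8 q hq).1, (g8 q hq).2⟩) t.1 (outc t) ⟨t.2 - 1, rfl⟩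
      rw [g7] at h4
      exact h4 (mem_flat.2 ⟨q, hq, hcq⟩) hto
  obtain ⟨n', hE', s0, τ', A'', p0', hT'⟩ := (hEv.and htip).exists
  refine ⟨s0, ?_⟩
  have e1 : ∀ᶠ n in atTop, A.δ n < da / (32 * 4 ^ kk) :=
    A.lim.eventually_lt_const (by positivity)
  filter_upwards [hEv, htip, uk_const hD.1 hDb hA A B.o B.qb K, e1] with n hE hTn g7 g8
  obtain ⟨s, τ, A', p0, hT⟩ := hTn
  have hδ := A.pos n
  have hk : 4 ^ kk * (2 * ρ1 + 3 * A.δ n) + A.δ n ≤ da / 4 := by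
    have h5 : 4 ^ kk * A.δ n ≤ da / 32 := by
      rw [lt_div_iff₀ (by positivity)] at g8
      linarith
    have h6 : 1 * A.δ n ≤ 4 ^ kk * A.δ n := mul_le_mul_of_nonneg_right h4 hδ.le
    have h7 : (4 : ℝ) ^ kk * (2 * ρ1 + 3 * A.δ n) = 4 ^ kk * (2 * ρ1) + 3 * (4 ^ kk * A.δ n) := by
      ring
    rw [h7]
    linarith
  refine ⟨s, τ, A', p0, ?_, ?_, ?_, hT.near.trans_le hρ'1, ?_, ?_, ?_⟩
  · rw [mkSD_eq B g7]; exact hT.tied
  · exact fun v hv => (hT.hτ v hv).trans_le hρ'1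
  · exact fun e he => ⟨(hT.hA e he).1.trans_le hρ'1, (hT.hA e he).2.trans_le hρ'1⟩
  · rw [mkSD_eq B g7]; exact hT'.tied.ok
  · rw [mkSD_eq B g7, mkSD_eq B g7]
    have hR : (dC B K C M BB z s).R = comp ((dC B K C M BB z s).P \ (dC B K C M BB z s).H2) c0 :=
      comp_eq (hc0 s) hT.mem
    have hR' : (dC B K C M BB z s0).R =
        comp ((dC B K C M BB z s).P \ (dC B K C M BB z s).H2) c0 :=
      comp_eq (hc0 s0) hT'.mem
    rcases two_orders hT hT' hc0 with ⟨m, hm, he⟩ | ⟨m, hm, he⟩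
    · exact same_run (d := dC B K C M BB z s) (s' := s0) hT.tied.ok hT'.tied.ok
        (hR'.trans hR.symm) hm he hT.run
    · exact (same_run (d := dC B K C M BB z s0) (s' := s) hT'.tied.ok hT.tied.ok
        (hR.trans hR'.symm) hm he hT'.run).symm
  · intro j
    rw [mkSD_eq B g7, mkSD_eq B g7]
    refine le_trans ?_ hkk.le
    rcases two_orders hT hT' hc0 with ⟨m, hm, he⟩ | ⟨m, hm, he⟩
    · exact pair_one hE hE' hc0 hT hT' hfar (ρ1 := ρ1) (d1 := d1) (by linarith) (by linarith)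
        (by linarith) hap (by linarith) hm he hκ hδ hE.small hk j
    · rw [abs_sub_comm]
      exact pair_one hE' hE hc0 hT' hT hfar (ρ1 := ρ1) (d1 := d1) (by linarith) (by linarith)
        (by linarith) hap (by linarith) hm he hκ hδ hE.small hk j

end

end Pool.Agent.H14.NB
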