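import Pool.Agent.H14.NB.BoxLC
import Pool.Agent.H14.NB.J0

set_option autoImplicit false
open Finset Filter Topology

/-! # The channel of the first step

`chan0` : the tip side is joined to the run away from `b`. -/

namespace Pool.Agent.H14.NB

open Pool.Agent.H75.Perc Pool.Agent.H75.TwoArm Pool.Agent.H75.Four Pool.Agent.H99.NC
open Pool.Agent.H69.Q1 Pool.Agent.H39.Q1 Pool.Agent.H28.Q1
open Pool.Agent.Q1.M3 Pool.Agent.Q1.M3.Pg
open Pool.Agent.H75.TwoArm.StrandAux hiding vx_nxC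
open Pool.Agent.Q1.M4 (Adj4 Conn4 Good IsSide inV inRect nextSide tail head Eqv isSide_iter)
open Pool.Agent.H21.Q1 (Sol Wt InvL)
open Pool.Agent.H81.Q1 (pt DDomain Approx IsJordanDomain IsArcs)
open Pool.Agent.H42.Q1 (exists_cells)

section

variable {D : Set ℂ} {a b : ℂ} {A₁ A₂ : Set ℂ} {A : Approx D a b A₁ A₂} {r0 : ℝ}

/-- the centre of a box in a fat cell -/
lemma fc_of_cpt {o : ℂ} {K : ℕ} {q : Cell} (hq : q.1 ≤ K) {c : ℤ × ℤ}
    (h : cpt o K c ∈ fat o q) : c ∈ fc K q := by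
  have hm := mesh_pos (K + 1)
  obtain ⟨h1, h2, h3, h4⟩ := h
  obtain ⟨e1, e2⟩ := mesh_lo hq q.2.1
  obtain ⟨e3, e4⟩ := mesh_lo hq q.2.2
  rw [e1] at h1
  rw [e2] at h2
  rw [e3] at h3
  rw [e4] at h4
  obtain ⟨⟨f1, f2⟩, f3, f4⟩ := cpt_mem o K c
  obtain ⟨g1, g2⟩ := col_uniq hm h1 h2 f1 f2
  obtain ⟨g3, g4⟩ := col_uniq hm h3 h4 f3 f4
  rw [mem_fc]
  exact ⟨⟨g1, g2⟩, g3, g4⟩

/-- **Boxes near a fixed family are visible.** -/
lemma cover0 (hD : IsJordanDomain D) (B : Base A r0) {CM : Finset Cell}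
    (hCM : ∀ q ∈ CM, cfat B.o q ⊆ D) : ∃ K0, ∀ K, K0 ≤ K → ∀ q ∈ CM, q.1 ≤ K →
      ∀ c ∈ fc K q, ∀ c', NB 1 c c' → c' ∈ flat K (UC D B.o B.qb K) := by
  classical
  have hDb := hD.2.2.1
  have hqb : cfat B.o B.qb ⊆ D := (B.subQ 0 _ B.qb_mem).trans Set.inter_subset_left
  obtain ⟨s, hs, h1⟩ := (isCompact_cun B.o CM).exists_cthickening_subset_open hD.1
    (Set.iUnion₂_subset hCM)
  set G := Metric.cthickening s (cun B.o CM) ∪ cfat B.o B.qb with hG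
  have hGc : IsCompact G := (isCompact_cun B.o CM).cthickening.union (isCompact_cfat _ _)
  obtain ⟨k1, hk1⟩ := exists_cells hD.1 hD.2.1.isPreconnected hGc (Set.union_subset h1 hqb) B.o
  obtain ⟨k2, hk2⟩ := exists_mesh (r := s / 4) (by positivity)
  refine ⟨max k1 k2, fun K hK q hq hqK c hc c' hcc' => ?_⟩
  obtain ⟨F, f1, f2, f3⟩ := hk1 K ((le_max_left _ _).trans hK)
  have hm := hk2 K ((le_max_right _ _).trans hK)
  have hmp := mesh_pos (K + 1)
  -- the family is visible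
  have hFU : ∀ p ∈ F, p ∈ UC D B.o B.qb K := by
    intro p hp
    obtain ⟨p2, hp2, hz⟩ := f2 _ (Or.inr (center_mem B.o B.qb))
    unfold UC
    rw [mem_filter, mem_cells hDb]
    refine ⟨f1 p hp, p2, ?_, (f1 p2 hp2).1, (f1 p2 hp2).2, ?_⟩
    · exact Relation.ReflTransGen.mono
        (fun x y hxy => ⟨hxy.1, (f1 x hxy.2.1).1, (f1 x hxy.2.1).2⟩) _ _ (f3 p hp p2 hp2)
    · refine ⟨_, hz, ?_⟩
      have hm := mesh_pos B.qb.1
      refine ⟨?_, ?_, ?_, ?_⟩ <;> simp only <;> nlinarith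
  have h2 : dist (cpt B.o K c') (gpt B.o K c) ≤ s := by
    have h3 := dist_of_nb (gpt_mem_cbx B.o K c) (cpt_mem B.o K c') hcc'
    rw [dist_comm]
    push_cast at h3
    linarith
  have h3 : cpt B.o K c' ∈ G := by
    left
    exact Metric.mem_cthickening_of_dist_le _ _ _ _
      (Set.mem_iUnion₂.2 ⟨q, hq, gpt_mem hqK hc⟩) h2
  obtain ⟨p, hp, hcp⟩ := f2 _ h3
  exact mem_flat.2 ⟨p, hFU p hp, fc_of_cpt (f1 p hp).1.le hcp⟩

/-- Cells next to the visible cells. -/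
lemma uc_dead (hD : IsJordanDomain D) (B : Base A r0) {K : ℕ} {C : Finset Cell} :
    ∀ c ∈ flat K (UC D B.o B.qb K), ∀ c', Adj4 c c' → c' ∉ PP K (UC D B.o B.qb K) C →
      ¬ cfat B.o (coreOf K c') ⊆ D := by
  classical
  intro c hc c' hcc' hc' h
  have hDb := hD.2.2.1
  apply hc'
  refine flat_sub_PP (F := UC D B.o B.qb K) subset_union_left ?_
  have hq'1 : (coreOf K c').1 = K := rfl
  have hcore : InCore (coreOf K c') c' := inCore_coreOf K c'
  refine mem_flat.2 ⟨coreOf K c', ?_, inCore_fc hq'1 hcore⟩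
  obtain ⟨q, hq, hcq⟩ := mem_flat.1 hc
  have hcq' : c ∈ fc K (coreOf K c') := by
    obtain ⟨h1, h2⟩ := NB.of_adj hcc'
    refine fc_of_adj_core hq'1 hcore ?_ ?_
    · rw [abs_sub_comm]; exact h1
    · rw [abs_sub_comm]; exact h2
  unfold UC at hq ⊢
  rw [mem_filter, mem_cells hDb] at hq ⊢
  exact ⟨⟨hq'1, h⟩, ConnC.cons hq'1 h (adjC_of_fc hq'1.le hq.1.1.le hcq' hcq) hq.2⟩

/-- **The channel of the first step.** -/
theorem chan0 (hD : IsJordanDomain D) (hab : a ≠ b) (hA : IsArcs D a b A₁ A₂) (B : Base A r0) :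
    ∃ ρK > 0, 2 * ρK ≤ dist a b ∧ ∀ (M k : ℕ), ∃ K1, ∀ K, K1 ≤ K → ∀ C : Finset Cell,
      (∀ q ∈ C, q.1 ≤ k ∧ cfat B.o q ⊆ D) → ∀ (BB : Cell) (z : ℂ) (s : (ℤ × ℤ) × ℤ),
      BB.1 ≤ K → cfat B.o BB ⊆ Metric.ball b ρK → (dC B K C M BB z s).Ok →
      dist (gpt B.o K s.1) a < dist a b / 4 →
      ∃ (S : Set (ℤ × ℤ)) (m : ℕ), (dC B K C M BB z s).n1 ≤ m ∧ m < (dC B K C M BB z s).n2 ∧
        s.1 ∈ S ∧ J4 (S ∩ ((dC B K C M BB z s).R : Set (ℤ × ℤ))) s.1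
          ((dC B K C M BB z s).sid m).1 ∧
        ∀ (δ : ℝ) (v : ℤ × ℤ), (∃ q ∈ S, |(box δ B.o K v).1 - q.1| ≤ 3 ∧
          |(box δ B.o K v).2 - q.2| ≤ 3) → ρK ≤ dist (pt δ v) b := by
  classical
  have hab' : 0 < dist a b := dist_pos.2 hab
  have hDb := hD.2.2.1
  obtain ⟨haD, hbD⟩ := not_mem_of_arcs hD.1 hA
  have hqb : cfat B.o B.qb ⊆ D := (B.subQ 0 _ B.qb_mem).trans Set.inter_subset_left
  have hbf : b ∈ frontier D := by
    rw [← hA.union]
    have : b ∈ A₁ ∩ A₂ := by rw [hA.inter]; simp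
    exact Or.inl this.1
  obtain ⟨sb, hsb0, hsb⟩ := exists_dist {B.qb} (fun q hq => by
    rw [mem_singleton.1 hq]; exact hqb) hbD
  set ρ2 := min (sb / 2) (dist a b / 4) with hρ2
  have hρ20 : 0 < ρ2 := by positivity
  have q1 : ρ2 ≤ sb / 2 := min_le_left _ _
  have q2 : ρ2 ≤ dist a b / 4 := min_le_right _ _
  obtain ⟨ρ1, hρ10, hρ12, hmain⟩ := pp_avoid hD A hbf hρ20
  refine ⟨ρ1 / 2, by positivity, by linarith, fun M k => ?_⟩
  set CM := cellsLe D B.o 0 k ∪ B.Q M with hCM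
  have hQD : ∀ q ∈ B.Q M, cfat B.o q ⊆ D := fun q hq =>
    (B.subQ M q hq).trans Set.inter_subset_left
  have hCMD : ∀ q ∈ CM, cfat B.o q ⊆ D := by
    intro q hq
    rcases mem_union.1 hq with h | h
    · exact ((mem_cellsLe hDb).1 h).2.2
    · exact hQD q h
  obtain ⟨K2, hK2⟩ := cover0 hD B hCMD
  obtain ⟨K3, hK3⟩ := exists_mesh (r := ρ1 / 32) (by positivity)
  refine ⟨max K2 K3, fun K hK C hC BB z s hBK hBB hok hs => ?_⟩
  have hm := hK3 K ((le_max_right _ _).trans hK)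
  have hmp := mesh_pos (K + 1)
  have hlev := hok.lev
  have hCsub : C ∪ B.Q M ⊆ CM := by
    rw [hCM]
    refine union_subset_union (fun q hq => ?_) (subset_refl _)
    rw [mem_cellsLe hDb]
    exact ⟨Nat.zero_le _, (hC q hq).1, (hC q hq).2⟩
  have hqbC : B.qb ∈ C ∪ B.Q M := mem_union_right _ (qb_mem_Q B M)
  have hqbK : B.qb.1 < K := hlev.hC _ hqbC
  set P := (dC B K C M BB z s).P with hP
  have hPP : P = PP K (UC D B.o B.qb K) (C ∪ B.Q M) := rfl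
  set c1 : ℤ × ℤ := (lo (K - B.qb.1) B.qb.2.1, lo (K - B.qb.1) B.qb.2.2) with hc1
  have hc1q : c1 ∈ fc K B.qb := fc_ne K B.qb
  have hc1C : c1 ∈ flat K (C ∪ B.Q M) := fc_subset_flat hqbC hc1q
  have hc1P : c1 ∈ P := flat_sub_PP (F := C ∪ B.Q M) subset_union_right hc1C
  have hcpt : ∀ c, dist (cpt B.o K c) (gpt B.o K c) ≤ 2 * mesh (K + 1) := fun c =>
    Metric.mem_closedBall.1 (cbx_bounded B.o K c (cpt_mem B.o K c))
  have hJ := hmain B.o K (UC D B.o B.qb K) (C ∪ B.Q M) B.qb (by linarith) hqb hlev.hU hlev.hC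
    (by
      intro q hq
      rcases mem_union.1 hq with h | h
      · unfold UC at h
        rw [mem_filter, mem_cells hDb] at h
        exact h.1.2
      · exact hCMD q (hCsub h))
    (uc_dead hD B)
    (by
      intro c hc c' hcc'
      obtain ⟨q, hq, hcq⟩ := mem_flat.1 hc
      refine flat_sub_PP (F := UC D B.o B.qb K) subset_union_left ?_
      exact hK2 K ((le_max_left _ _).trans hK) q (hCsub hq) (hlev.hC q hq).le c hcq c'
        (NB.of_adj hcc'))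
    hok.conP s.1 hok.tipP c1 hc1P
    (by
      have h1 := hcpt s.1
      have h2 := dist_triangle a (gpt B.o K s.1) b
      have h3 := dist_triangle_left (gpt B.o K s.1) b (cpt B.o K s.1)
      rw [dist_comm a (gpt B.o K s.1)] at h2
      linarith)
    (by
      have h1 := hcpt c1
      have h2 := hsb B.qb (mem_singleton_self _) _ (gpt_mem hqbK.le hc1q)
      have h3 := dist_triangle_left (gpt B.o K c1) b (cpt B.o K c1)
      linarith)
  -- the first box of the target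
  set S : Set (ℤ × ℤ) := {c | ρ1 ≤ dist (gpt B.o K c) b} with hS
  have hsS : s.1 ∈ S := by
    have h2 := dist_triangle a (gpt B.o K s.1) b
    rw [dist_comm a (gpt B.o K s.1)] at h2
    change ρ1 ≤ dist (gpt B.o K s.1) b
    linarith
  obtain ⟨x, y, hx1, hx2, hy1, hy2, hxy, hJx⟩ := hJ.exit
    (T := {c | c ∉ (dC B K C M BB z s).H2}) hok.tipH
    (fun h => h (mem_union_left _ hc1C)) ⟨hok.tipP, hsS⟩
  have hyH : y ∈ (dC B K C M BB z s).H2 := not_not.1 hy2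
  have hyC : y ∈ flat K (C ∪ B.Q M) := by
    have h1 : y ∈ flat K (C ∪ B.Q M) ∪ (fc K BB ∩ P) := hyH
    rcases mem_union.1 h1 with h | h
    · exact h
    · exfalso
      have h2 := hBB (gpt_mem (o := B.o) hBK (mem_inter.1 h).1)
      rw [Metric.mem_ball] at h2
      have h3 : ρ1 ≤ dist (gpt B.o K y) b := hy1.2
      linarith
  have hR : ∀ c, J4 ({x | x ∈ PP K (UC D B.o B.qb K) (C ∪ B.Q M) ∧
      ρ1 ≤ dist (gpt B.o K x) b} ∩ {c | c ∉ (dC B K C M BB z s).H2}) s.1 c →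
      c ∈ (dC B K C M BB z s).R ∧ J4 (S ∩ ((dC B K C M BB z s).R : Set (ℤ × ℤ))) s.1 c := by
    intro c hc
    induction hc with
    | refl => exact ⟨hok.side.1, J4.refl _ _⟩
    | @tail x y hx hxy ih =>
      obtain ⟨hxy1, ⟨hyP, hyS⟩, hyT⟩ := hxy
      have h1 : y ∈ (dC B K C M BB z s).R :=
        comp_adj ih.1 (mem_sdiff.2 ⟨hyP, hyT⟩) hxy1
      exact ⟨h1, ih.2.tail hxy1 ⟨hyS, by exact_mod_cast h1⟩⟩
  obtain ⟨hxR, hxJ⟩ := hR x hJx
  have hyR : y ∉ (dC B K C M BB z s).R := fun h => (mem_sdiff.1 (SD.R_sub h)).2 hyH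
  obtain ⟨m, hm1, hm2, hm3⟩ := SD.exists_side hok hxR hyR hxy
  obtain ⟨h5, h6⟩ := (hok.mark.run m hm1).1 (by rw [hm3]; exact hok.flat_sub hyC)
  refine ⟨S, m, h5, h6, hsS, ?_, fun δ v hv => ?_⟩
  · have h7 : ((dC B K C M BB z s).sid m).1 = x := hm2
    rw [h7]; exact hxJ
  · obtain ⟨q, hq, h7, h8⟩ := hv
    have h9 : NB 3 (box δ B.o K v) q := by
      unfold NB
      rw [abs_sub_comm, abs_sub_comm q.2]
      exact ⟨h7, h8⟩
    have h10 := near_dist (δ := δ) B.o K h9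
    have h11 : ρ1 ≤ dist (gpt B.o K q) b := hq
    have h12 := dist_triangle (gpt B.o K q) (pt δ v) b
    push_cast at h10
    linarith

end

end Pool.Agent.H14.NB
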