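import Pool.Agent.Q1.M3.Pg.Ctx
import Pool.Agent.Q1.M3.Step
import Pool.Agent.H42.Q1.Route

set_option autoImplicit false
open Finset

/-! # The context of a step from a path of labels

`ctx_of_path` : a path of labels from the tip to the region `G`, away from the target `K`, gives the
context `Ctx` of a step: the labels on its left are found by the exploration which follows it. -/

namespace Pool.Agent.H14.NB

open Pool.Agent.H75.Perc Pool.Agent.H75.TwoArm Pool.Agent.H75.Four Pool.Agent.H99.NC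
open Pool.Agent.H69.Q1 Pool.Agent.H39.Q1 Pool.Agent.H28.Q1
open Pool.Agent.Q1.M3 Pool.Agent.Q1.M3.Pg
open Pool.Agent.H75.TwoArm.StrandAux hiding vx_nxC

/-- The corner with a given vertex and a given next label. -/
lemma exists_plab {v e : ℤ × ℤ} (h : e ∈ star1 v) : ∃ c, vx c = v ∧ plab c = e := by
  obtain ⟨x, y⟩ := v
  simp only [star1, mem_insert, mem_singleton] at h
  rcases h with rfl | rfl | rfl | rfl
  · refine ⟨(2 * x + 1, 2 * y + 1), ?_, ?_⟩
    · unfold vx; simp only [Prod.mk.injEq]; omega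
    · unfold plab; simp only
      rw [if_neg (by omega), if_neg (by omega)]
      simp
  · refine ⟨(2 * x, 2 * y), ?_, ?_⟩
    · unfold vx; simp only [Prod.mk.injEq]; omega
    · unfold plab; simp only
      rw [if_pos (by omega), if_pos (by omega)]
  · refine ⟨(2 * x, 2 * y + 1), ?_, ?_⟩
    · unfold vx; simp only [Prod.mk.injEq]; omega
    · unfold plab; simp only
      rw [if_neg (by omega), if_pos (by omega)]
  · refine ⟨(2 * x + 1, 2 * y), ?_, ?_⟩
    · unfold vx; simp only [Prod.mk.injEq]; omega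
    · unfold plab; simp only
      rw [if_pos (by omega), if_neg (by omega)]
      simp

/-- A corner is determined by its vertex and the label before it. -/
lemma vx_lab_inj {x y : ℤ × ℤ} (h : vx x = vx y) (hl : lab x = lab y) : x = y := by
  obtain ⟨e, he⟩ : ∃ e, lab y = e := ⟨_, rfl⟩
  have ho : (e.1 + e.2) % 2 = 1 := by rw [← he]; exact odd_lab y
  rw [he] at hl
  obtain ⟨-, -, -, -, o1, o2⟩ := opc_zu ho
  have hne : eu e ≠ ev e := by
    unfold eu ev
    intro h1
    rw [Prod.mk.injEq] at h1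
    omega
  rcases eq_zu_or_zv ho hl with h1 | h1 <;> rcases eq_zu_or_zv ho he with h2 | h2
  · exact h1.trans h2.symm
  · rw [h1, h2, o1, o2] at h
    exact absurd h hne
  · rw [h1, h2, o1, o2] at h
    exact absurd h.symm hne
  · exact h1.trans h2.symm

section

variable {Y : DEnv} {K G τ1 : Finset (ℤ × ℤ)} {u w h0 : ℤ × ℤ}

lemma vl_of_star1 {T : Finset (ℤ × ℤ)} {e v : ℤ × ℤ} (he : e ∈ T) (hv : e ∈ star1 v) : Vl T v :=
  ⟨e, he, (mem_star1_iff (odd_star1 hv)).1 hv⟩

/-- **The context of a step from a path.** -/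
theorem ctx_of_path (hI : Inv Y) (oddE : ∀ e ∈ Y.E, (e.1 + e.2) % 2 = 1)
    (hα : vx Y.α ∉ K) (hβ : vx Y.β ∈ K)
    (conn : ∀ u ∈ K, ∀ v ∈ K, Co (kap K ∩ (Y.E ∪ Y.W)) u v)
    (fresh : ∀ u, Vl G u → star1 u ⊆ Y.E) (GE : G ⊆ Y.E) (Gst : ∀ e ∈ G, e ∉ star K)
    (Gconn : ∀ u v, Vl G u → Vl G v → Co G u v)
    (hp : h0 ∈ perp K) (hv : ∃ x, (x = eu h0 ∨ x = ev h0) ∧ Vl G x)
    (τE : τ1 ⊆ Y.E ∪ Y.W) (τG : ∀ u, Vl τ1 u → ¬ Vl G u) (hαG : ¬ Vl G (vx Y.α))
    (hst : ∀ v, (v = vx Y.α ∨ Vl τ1 v) → ∀ e ∈ star1 v, e ∉ star K)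
    (hco : Co τ1 (vx Y.α) u) (hw : Vl G w) (huw : IsUnit4 (w - u)) :
    ∃ a0 A, Ctx Y K G (insert (u + w) τ1) A a0 ∧ plab a0 = u + w ∧ vx a0 = w ∧
      ∀ e ∈ A, ∃ v, (v = vx Y.α ∨ Vl τ1 v) ∧ e ∈ star1 v := by
  classical
  set e1 := u + w with he1
  -- elementary facts
  have oddW : ∀ e ∈ Y.W, (e.1 + e.2) % 2 = 1 := by
    intro e he
    obtain ⟨m, hm0, hm⟩ := hI.back'
    obtain ⟨-, -, -, -, h4⟩ := hm ∅ (empty_subset _)
    obtain ⟨k, -, hk⟩ := h4 _ he
    rw [← hk]
    exact odd_plab _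
  have hu : u = vx Y.α ∨ Vl τ1 u := by
    rcases Relation.ReflTransGen.cases_tail hco with h | ⟨x, -, h1, h2⟩
    · exact Or.inl h
    · right
      obtain ⟨h4, h5⟩ := Pool.Agent.H42.Q1.ends_add h1
      refine ⟨x + u, h2, ?_⟩
      rcases h5 with ⟨-, h5⟩ | ⟨h5, -⟩
      · exact Or.inr h5.symm
      · exact Or.inl h5.symm
  have huG : ¬ Vl G u := by
    rcases hu with h | h
    · rw [h]; exact hαG
    · exact τG _ h
  have he1w : e1 ∈ star1 w := by
    obtain ⟨h4, h5⟩ := Pool.Agent.H42.Q1.ends_add huw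
    rw [mem_star1_iff h4]
    rcases h5 with ⟨-, h5⟩ | ⟨h5, -⟩
    · exact Or.inr h5.symm
    · exact Or.inl h5.symm
  have he1u : e1 ∈ star1 u := by
    obtain ⟨h4, h5⟩ := Pool.Agent.H42.Q1.ends_add huw
    rw [mem_star1_iff h4]
    rcases h5 with ⟨h5, -⟩ | ⟨-, h5⟩
    · exact Or.inl h5.symm
    · exact Or.inr h5.symm
  have he1E : e1 ∈ Y.E := fresh w hw he1w
  have hne : u ≠ w := fun h => huG (h ▸ hw)
  have he1G : e1 ∉ G := by
    intro h
    exact huG (vl_of_star1 h he1u)
  have he1τ : e1 ∉ τ1 := fun h => τG w (vl_of_star1 h he1w) hw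
  have hSK : ∀ v, (v = vx Y.α ∨ Vl τ1 v) → v ∉ K := by
    intro v h1 h2
    exact hst v h1 (2 * v.1 + 1, 2 * v.2) (by simp [star1]) (star1_sub_star h2 (by simp [star1]))
  have hSG : ∀ v, (v = vx Y.α ∨ Vl τ1 v) → ¬ Vl G v := by
    rintro v (h1 | h1)
    · rw [h1]; exact hαG
    · exact τG v h1
  have hGK : ∀ x, Vl G x → x ∉ K := by
    rintro x ⟨g, hg, hx⟩ hxK
    have ho := oddE g (GE hg)
    exact Gst g hg (star1_sub_star hxK ((mem_star1_iff ho).2 hx))
  have hh0 : (h0.1 + h0.2) % 2 = 1 := by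
    unfold perp at hp
    exact odd_star (mem_sdiff.1 hp).1
  obtain ⟨x0, hx0, hx0G⟩ := hv
  have hh0E : h0 ∈ Y.E := fresh x0 hx0G ((mem_star1_iff hh0).2 hx0)
  -- the set which joins the two ends
  set P : Finset (ℤ × ℤ) := insert e1 τ1 ∪ G ∪ {h0} ∪ (kap K ∩ (Y.E ∪ Y.W)) with hP
  have hP1 : insert e1 τ1 ⊆ P := fun e he => mem_union_left _ (mem_union_left _ (mem_union_left _ he))
  have hP2 : G ⊆ P := fun e he => mem_union_left _ (mem_union_left _ (mem_union_right _ he))
  have hP3 : {h0} ⊆ P := fun e he => mem_union_left _ (mem_union_right _ he)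
  set ω : Finset (ℤ × ℤ) := P ∩ Y.E with hω
  have hωE : ω ⊆ Y.E := inter_subset_right
  have hPE : P ⊆ Y.E ∪ Y.W := by
    rw [hP]
    refine union_subset (union_subset (union_subset ?_ ?_) ?_) inter_subset_right
    · exact insert_subset (mem_union_left _ he1E) τE
    · exact GE.trans subset_union_left
    · exact singleton_subset_iff.2 (mem_union_left _ hh0E)
  have hPω : P ⊆ ω ∪ Y.W := by
    intro e he
    rcases mem_union.1 (hPE he) with h | h
    · exact mem_union_left _ (mem_inter.2 ⟨he, h⟩)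
    · exact mem_union_right _ h
  set L : Finset (ℤ × ℤ) := ω ∪ Y.W with hL
  have hcoP : Co P (vx Y.α) (vx Y.β) := by
    have s1 : Co P (vx Y.α) u := hco.mono fun e he => hP1 (mem_insert_of_mem he)
    have s2 : Co P u w := Relation.ReflTransGen.single ⟨huw, hP1 (mem_insert_self _ _)⟩
    have s3 : Co P w x0 := (Gconn w x0 hw hx0G).mono hP2
    obtain ⟨y0, hy0, hy0K⟩ : ∃ y0, (y0 = eu h0 ∨ y0 = ev h0) ∧ y0 ∈ K := by
      rcases (mem_perp_iff hh0).1 hp with h | h
      · exact ⟨_, Or.inl rfl, h.1⟩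
      · exact ⟨_, Or.inr rfl, h.2⟩
    have hxy : x0 ≠ y0 := fun h => hGK x0 hx0G (h ▸ hy0K)
    have s4 : Co P x0 y0 := by
      have g1 : Co {h0} (eu h0) (ev h0) := by
        refine Relation.ReflTransGen.single ⟨?_, ?_⟩
        · unfold IsUnit4 eu ev
          simp only [Prod.mk_sub_mk, Prod.mk.injEq]
          omega
        · have : eu h0 + ev h0 = h0 := by
            unfold eu ev
            simp only [Prod.mk_add_mk, Prod.ext_iff]
            omega
          rw [this]; exact mem_singleton_self _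
      have g2 : Co P (eu h0) (ev h0) := g1.mono hP3
      rcases hx0 with rfl | rfl <;> rcases hy0 with rfl | rfl
      · exact absurd rfl hxy
      · exact g2
      · exact g2.symm
      · exact absurd rfl hxy
    have s5 : Co P y0 (vx Y.β) := (conn y0 hy0K _ hβ).mono fun e he => by
      rw [hP]; exact mem_union_right _ he
    exact (((s1.trans s2).trans s3).trans s4).trans s5
  -- the first time at which the exploration leaves the path
  set S : ℤ × ℤ → Prop := fun v => v = vx Y.α ∨ Vl τ1 v with hS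
  have hex : ∃ i, ¬ S (vx (Y.cor ω i)) := by
    refine ⟨Y.len ω, fun h => ?_⟩
    rw [Y.cor_len hωE] at h
    exact hSK _ h hβ
  obtain ⟨hi1, hi2⟩ : ¬ S (vx (Y.cor ω (Nat.find hex))) ∧
      ∀ m < Nat.find hex, S (vx (Y.cor ω m)) :=
    ⟨Nat.find_spec hex, fun m hm => not_not.1 (Nat.find_min hex hm)⟩
  have hilen : Nat.find hex ≤ Y.len ω := Nat.find_min' hex (fun h => by
    rw [Y.cor_len hωE] at h
    exact hSK _ h hβ)
  generalize Nat.find hex = i1 at hi1 hi2 hilen
  obtain ⟨t1, rfl⟩ : ∃ t1, i1 = t1 + 1 := by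
    rcases Nat.eq_zero_or_pos i1 with h | h
    · exfalso
      rw [h] at hi1
      exact hi1 (Or.inl rfl)
    · exact ⟨i1 - 1, by omega⟩
  have hSt : S (vx (Y.cor ω t1)) := hi2 t1 (by omega)
  set e := plab (Y.cor ω t1) with he
  have hsuc : Y.cor ω (t1 + 1) = pv L (Y.cor ω t1) := Y.cor_succ ω t1
  have heL : e ∈ L := by
    by_contra h
    have h1 := (fi_of_closed (L := L) h).1
    rw [← hsuc] at h1
    exact hi1 (h1 ▸ hSt)
  have hs1 : e ∈ star1 (vx (Y.cor ω t1)) := plab_star1 _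
  have hs2 : e ∈ star1 (vx (Y.cor ω (t1 + 1))) := by
    rw [hsuc]; exact plab_star1_pv _ _
  have hei : e = e1 := by
    have h1 : e ∈ P := by
      rcases mem_union.1 heL with h | h
      · exact (mem_inter.1 h).1
      · exact hI.no_wired' hωE hPω hcoP (by omega) h
    have hnst : e ∉ star K := hst _ hSt e hs1
    rw [hP, mem_union, mem_union, mem_union, mem_insert, mem_singleton] at h1
    rcases h1 with ((h1 | h1) | h1) | h1
    · rcases h1 with h1 | h1
      · exact h1
      · exact absurd (Or.inr (vl_of_star1 h1 hs2)) hi1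
    · exact absurd (vl_of_star1 h1 hs1) (hSG _ hSt)
    · exfalso
      apply hnst
      rw [h1]
      unfold perp at hp
      exact (mem_sdiff.1 hp).1
    · exfalso
      apply hnst
      have h2 := (mem_inter.1 h1).1
      unfold kap at h2
      exact (mem_filter.1 h2).1
  have hnev : vx (Y.cor ω t1) ≠ vx (Y.cor ω (t1 + 1)) := fun h => hi1 (h ▸ hSt)
  -- the two ends
  have hvt : vx (Y.cor ω (t1 + 1)) = w := by
    rw [hei] at hs1 hs2
    have ho := odd_star1 hs1
    rw [mem_star1_iff ho] at hs1 hs2 he1u he1w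
    have hwt : vx (Y.cor ω t1) ≠ w := fun h => hSG _ hSt (h ▸ hw)
    rcases hs1 with h1 | h1 <;> rcases hs2 with h2 | h2 <;> rcases he1w with h3 | h3 <;>
      first
      | exact absurd (h1.trans h2.symm) hnev
      | exact absurd (h1.trans h3.symm) hwt
      | exact h2.trans h3.symm
  obtain ⟨a0, ha1, ha2⟩ := exists_plab he1w
  have hcz : cz G a0 0 = Y.cor ω (t1 + 1) := by
    have e0 : cz G a0 0 = pv G a0 := rfl
    rw [e0]
    have h1 : plab a0 ∉ G := by rw [ha2]; exact he1G
    refine vx_lab_inj ?_ ?_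
    · rw [← (fi_of_closed h1).1, ha1, hvt]
    · rw [lab_pv, ha2, hsuc, lab_pv, ← hei]
  have hface : fi (Y.cor ω (t1 + 1)) = fi (Y.cor ω t1) := by
    rw [hsuc]
    exact (vx_of_open (L := L) heL).2.symm
  -- the labels on the left
  set A : Finset (ℤ × ℤ) := (Y.metE ω 0 t1 ∩ Y.E) \ L with hA
  have hAE : A ⊆ Y.E := sdiff_subset.trans inter_subset_right
  have hAL : Disjoint A L := disjoint_sdiff_self_left
  have hAS : ∀ e ∈ A, ∃ v, S v ∧ e ∈ star1 v := by
    intro e he
    have h1 := (mem_inter.1 (mem_sdiff.1 he).1).1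
    obtain ⟨k, ⟨-, hk⟩, rfl⟩ := Y.mem_metE.1 h1
    exact ⟨_, hi2 k (by omega), plab_star1 _⟩
  have hτL : insert e1 τ1 ⊆ L := hP1.trans hPω
  have hGL : G ⊆ L := hP2.trans hPω
  have her : (insert e1 τ1).erase e1 = τ1 := erase_insert he1τ
  refine ⟨a0, A, ?_, ha2, ha1, hAS⟩
  refine
    { inv := hI
      oddE := oddE
      alpha := hα
      beta := hβ
      conn := conn
      fresh := fresh
      GE := GE
      Gst := Gst
      Gconn := fun x hx => by rw [ha1]; exact Gconn w x hw hx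
      a0G := by rw [ha1]; exact hw
      e1G := by rw [ha2]; exact he1G
      e1τ := by rw [ha2]; exact mem_insert_self _ _
      τE := insert_subset (mem_union_left _ he1E) τE
      τst := ?_
      τG := ?_
      left := ?_
      AE := hAE
      Aτ := hAL.mono_right hτL
      AG := hAL.mono_right hGL
      Ast := ?_
      leftd := ?_ }
  · intro e he
    rcases mem_insert.1 he with rfl | h
    · exact hst u hu _ he1u
    · have h1 : (e.1 + e.2) % 2 = 1 := by
        rcases mem_union.1 (τE h) with h2 | h2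
        · exact oddE e h2
        · exact oddW e h2
      exact hst (eu e) (Or.inr ⟨e, h, Or.inl rfl⟩) e ((mem_star1_iff h1).2 (Or.inl rfl))
  · rw [ha2, her]
    exact τG
  · intro x hx hxw
    rw [ha2] at hx ⊢
    rw [her]
    rw [ha1] at hxw
    have ho := odd_star1 he1w
    rw [mem_star1_iff ho] at he1w he1u
    have hxu : x = u := by
      rcases hx with h1 | h1 <;> rcases he1w with h2 | h2 <;> rcases he1u with h3 | h3
      · exact h1.trans h3.symm
      · exact absurd (h1.trans h2.symm) hxw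
      · exact h1.trans h3.symm
      · exact absurd (h3.trans h2.symm) hne
      · exact absurd (h3.trans h2.symm) hne
      · exact h1.trans h3.symm
      · exact absurd (h1.trans h2.symm) hxw
      · exact h1.trans h3.symm
    rw [hxu]
    exact hco
  · intro e he
    obtain ⟨v, h1, h2⟩ := hAS e he
    exact hst v h1 e h2
  · refine ⟨Y.metE ω 0 t1, ?_⟩
    rw [hcz, hface]
    have h1 := Y.side_dual ω (Nat.zero_le t1)
    refine h1.mono (du_sub_of fun e he h2 => ?_)
    intro h3
    obtain ⟨h4, h5⟩ := mem_sdiff.1 h3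
    rcases mem_union.1 h4 with h6 | h6
    · exact h5 (mem_sdiff.2 ⟨mem_inter.2 ⟨he, h6⟩, h2⟩)
    · exact h2 (mem_union_right _ h6)

end

end Pool.Agent.H14.NB
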