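import Pool.Agent.Q1.M3.Pg.Ctr
import Pool.Agent.H28.Q1.Inv

set_option autoImplicit false
open Finset

/-! # Entrances of a lattice polygon

An outward label of a lattice polygon is met once by the contour; it belongs to a position on one of
the sides. -/

namespace Pool.Agent.H14.NB

open Pool.Agent.H75.Perc Pool.Agent.H75.TwoArm Pool.Agent.H75.Four Pool.Agent.H99.NC
open Pool.Agent.H75.TwoArm.StrandAux hiding vx_nxC
open Pool.Agent.H49.Q1 (gcell gs mem_gs)
open Pool.Agent.H28.Q1 (fi_of_closed)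
open Pool.Agent.Q1.M4 (Adj4 Conn4 Good IsSide inV inRect nextSide tail head)
open Pool.Agent.Q1.M3.Pg
open Pool.Agent.H5.Q1

variable {Q : Finset (ℤ × ℤ)} {X Y : ℤ → ℤ} {s : (ℤ × ℤ) × ℤ}

lemma vl_VE {G : Finset (ℤ × ℤ)} (hodd : ∀ e ∈ G, (e.1 + e.2) % 2 = 1) {u : ℤ × ℤ} (h : Vl G u) :
    u ∈ VE G := by
  obtain ⟨e, he, hu⟩ := h
  obtain ⟨h1, h2⟩ := mem_VE he
  have ho := hodd e he
  obtain ⟨a, b⟩ := e
  simp only at ho
  rcases (by omega : a % 2 = 0 ∨ a % 2 = 1) with h3 | h3
  · have e1 : in1 (a, b) = (a, b + 1) := by unfold in1; simp [h3]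
    have e2 : in2 (a, b) = (a + 1, b) := by unfold in2; simp [h3]
    have f1 : vx (in1 (a, b)) = ev (a, b) := by
      rw [e1]; unfold vx ev; refine Prod.ext ?_ ?_ <;> simp only <;> omega
    have f2 : vx (in2 (a, b)) = eu (a, b) := by
      rw [e2]; unfold vx eu; refine Prod.ext ?_ ?_ <;> simp only <;> omega
    rw [f1] at h1
    rw [f2] at h2
    rcases hu with rfl | rfl
    · exact h2
    · exact h1
  · have e1 : in1 (a, b) = (a, b) := by unfold in1; simp [h3]
    have e2 : in2 (a, b) = (a + 1, b + 1) := by unfold in2; simp [h3]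
    have f1 : vx (in1 (a, b)) = eu (a, b) := by
      rw [e1]; rfl
    have f2 : vx (in2 (a, b)) = ev (a, b) := by
      rw [e2]; rfl
    rw [f1] at h1
    rw [f2] at h2
    rcases hu with rfl | rfl
    · exact h1
    · exact h2

/-- The contour started at another side. -/
lemma CC_shift (hX : StrictMono X) (hY : StrictMono Y) (hs : IsSide Q s) (n p : ℕ) :
    CC Q X Y (sd Q s n) p = CC Q X Y s (SS Q X Y s n + p) := by
  have h1 := (walk_iter hX hY hs n).1
  rw [EF_LF_eq_gs hX hY] at h1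
  unfold Pool.Agent.Q1.M3.Pg.CC
  rw [add_comm, Function.iterate_add_apply, h1]
  rfl

/-- **Entrances.** The corner `a0` of the polygon before the outward label `plab a0` has a position
`0 < p0 ≤ SS 1` on one of the sides. -/
theorem exists_entry (hQ : Good Q) (hX : StrictMono X) (hY : StrictMono Y) (hs : IsSide Q s) {N : ℕ}
    (hper : (nextSide Q)^[N] s = (s.1, s.2 + 4)) {a0 : ℤ × ℤ} (hv : Vl (gs X Y Q) (vx a0))
    (he : plab a0 ∉ gs X Y Q) : ∃ n < N, ∃ p0, 0 < p0 ∧ p0 ≤ SS Q X Y (sd Q s n) 1 ∧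
      CC Q X Y (sd Q s n) p0 = a0 ∧ ∃ j ≤ slen X Y (sd Q s n), vx a0 = sp X Y (sd Q s n) j := by
  classical
  set c1 := pv (gs X Y Q) a0 with hc1
  have hvx : vx c1 = vx a0 := (fi_of_closed he).1.symm
  have hbd : Bd (gs X Y Q) c1 := by
    refine ⟨?_, ?_⟩
    · rw [hvx]; exact vl_VE (fun e he => odd_gs he) hv
    · rw [hc1, lab_pv]; exact he
  have hz : Out (EF (LF Q X Y)) c1 := by
    rw [EF_LF_eq_gs hX hY]; exact hbd.out
  have hO := orb_SS hQ hX hY hs hper
  have hin := (domG_grid hQ hX hY).out_loop (out_sc hQ hX hY hs) hz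
  obtain ⟨i, hi, hiz⟩ := (hO.inOrb_iff c1).1 hin
  have key : ∀ M : ℕ, i < SS Q X Y s M → ∃ n < M, SS Q X Y s n ≤ i ∧ i < SS Q X Y s (n + 1) := by
    intro M
    induction M with
    | zero => intro h; unfold SS at h; simp at h
    | succ M ih =>
      intro h
      by_cases h1 : i < SS Q X Y s M
      · obtain ⟨n, hn, h2⟩ := ih h1
        exact ⟨n, by omega, h2⟩
      · exact ⟨M, by omega, by omega, h⟩
  obtain ⟨n, hn, h1, h2⟩ := key N hi
  rw [EF_LF_eq_gs hX hY] at hiz
  have hCi : CC Q X Y s i = c1 := hiz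
  have hSS1 : SS Q X Y (sd Q s n) 1 = stp Q X Y (sd Q s n) := by
    have := SS_succ (Q := Q) (X := X) (Y := Y) (sd Q s n) 0
    unfold SS at this ⊢
    simp
  rw [SS_succ] at h2
  have h2' : i < SS Q X Y s n + stp Q X Y (sd Q s n) := h2
  refine ⟨n, hn, i + 1 - SS Q X Y s n, by omega, by omega, ?_, ?_⟩
  · rw [CC_shift hX hY hs, show SS Q X Y s n + (i + 1 - SS Q X Y s n) = i + 1 by omega]
    have e1 : CC Q X Y s (i + 1) = nx (gs X Y Q) (CC Q X Y s i) := Function.iterate_succ_apply' _ _ _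
    rw [e1, hCi, hc1, nx_pv]
  · rw [← hvx]
    have hp := slen_pos hX hY (sd Q s n)
    unfold stp at h2'
    by_cases h3 : i - SS Q X Y s n < 2 * slen X Y (sd Q s n)
    · by_cases h4 : (i - SS Q X Y s n) % 2 = 0
      · refine ⟨(i - SS Q X Y s n) / 2, by omega, ?_⟩
        have h5 := CC_second (Q := Q) hX hY hs n (j := (i - SS Q X Y s n) / 2) (by omega)
        have e : SS Q X Y s n + 2 * ((i - SS Q X Y s n) / 2) = i := by omega
        rw [e, hCi] at h5
        rw [h5, vx_oc]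
      · refine ⟨(i - SS Q X Y s n) / 2 + 1, by omega, ?_⟩
        have h5 := CC_first (Q := Q) hX hY hs n (j := (i - SS Q X Y s n) / 2) (by omega)
        have e : SS Q X Y s n + (2 * ((i - SS Q X Y s n) / 2) + 1) = i := by omega
        rw [e, hCi] at h5
        rw [h5, vx_oc]
    · have ht := tn_cast (Q := Q) (sd Q s n)
      refine ⟨slen X Y (sd Q s n), le_rfl, ?_⟩
      rcases nextSide_snd (Q := Q) (sd Q s n) with h4 | h4 | h4
      · omega
      · omega
      · have h5 := (walk_middle hX hY hs n h4).1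
        have e : SS Q X Y s n + 2 * slen X Y (sd Q s n) = i := by omega
        have e' : SS Q X Y s n + 2 * slen X Y ((nextSide Q)^[n] s) = i := e
        rw [e', EF_LF_eq_gs hX hY] at h5
        have h6 : c1 = oc (gp X Y (head (sd Q s n))) ((sd Q s n).2 + 1) := hiz.symm.trans h5
        rw [h6, vx_oc, sp_len hX hY]

end Pool.Agent.H14.NB
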