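import Pool.Agent.H14.NB.OutL
import Pool.Agent.H42.Q1.Route

set_option autoImplicit false
open Set Topology Filter
open Pool.Agent.H81.Q1

/-! # The initial domain: no small crosscut outside the zones of the marked points -/

namespace Pool.Agent.H14.NB

open Pool.Agent.H75.Perc (Co CoX IsUnit4 vx Ad)
open Pool.Agent.H75.Four (eu ev)
open Pool.Agent.H75.TwoArm (plab fi du)
open Pool.Agent.H69.Q1 (vx_cor EL WL mem_EL mem_WL fi_cor plab_cor cor_surjective corner_edge_mem lb)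
open Pool.Agent.H28.Q1 (ClJ)
open Pool.Agent.Q1.M3 (X0)
open Pool.Agent.H42.Q1 (RB)

lemma unit4_cases {z z' : ℤ × ℤ} (h : IsUnit4 (z' - z)) :
    (z'.1 = z.1 + 1 ∧ z'.2 = z.2) ∨ (z'.1 = z.1 ∧ z'.2 = z.2 + 1) ∨
    (z'.1 = z.1 - 1 ∧ z'.2 = z.2) ∨ (z'.1 = z.1 ∧ z'.2 = z.2 - 1) := by
  unfold IsUnit4 at h
  simp only [Prod.ext_iff, Prod.fst_sub, Prod.snd_sub] at h
  omega

/-- The corner of the face `z` whose next label is the one between the faces `z` and `z'`. -/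
lemma corner_face_plab {z z' : ℤ × ℤ} (h : IsUnit4 (z' - z)) :
    ∃ c, fi c = z ∧ plab c = z + z' - (1, 1) := by
  have h1 := unit4_cases h
  obtain ⟨i, j⟩ := z
  obtain ⟨i', j'⟩ := z'
  simp only at h1
  have key : ∀ a b : ℤ, (((a + 1) / 2 = i ∧ (b + 1) / 2 = j) ∧
      ((b % 2 = 0 ∧ a % 2 = 0 ∧ a - 1 = i + i' - 1 ∧ b = j + j' - 1) ∨
      (b % 2 = 0 ∧ a % 2 = 1 ∧ a - 1 = i + i' - 1 ∧ b - 1 = j + j' - 1) ∨
      (b % 2 = 1 ∧ a % 2 = 0 ∧ a = i + i' - 1 ∧ b = j + j' - 1) ∨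
      (b % 2 = 1 ∧ a % 2 = 1 ∧ a = i + i' - 1 ∧ b - 1 = j + j' - 1))) →
      ∃ c, fi c = (i, j) ∧ plab c = (i, j) + (i', j') - (1, 1) := by
    rintro a b ⟨h2, h3⟩
    refine ⟨(a, b), ?_, ?_⟩
    · unfold fi
      simp only [Prod.mk.injEq]
      exact h2
    · unfold plab
      simp only [Prod.mk_add_mk, Prod.mk_sub_mk]
      rcases h3 with ⟨h3, h4, h5, h6⟩ | ⟨h3, h4, h5, h6⟩ | ⟨h3, h4, h5, h6⟩ | ⟨h3, h4, h5, h6⟩
      · rw [if_pos h3, if_pos h4, h6, h5]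
      · rw [if_pos h3, if_neg (by omega), h6, h5]
      · rw [if_neg (by omega), if_pos h4, h6, h5]
      · rw [if_neg (by omega), if_neg (by omega), h6, h5]
  rcases h1 with ⟨h1, h2⟩ | ⟨h1, h2⟩ | ⟨h1, h2⟩ | ⟨h1, h2⟩
  · exact key (2 * i) (2 * j - 1) (by omega)
  · exact key (2 * i) (2 * j) (by omega)
  · exact key (2 * i - 1) (2 * j) (by omega)
  · exact key (2 * i - 1) (2 * j - 1) (by omega)

section

variable {X : DDomain}

lemma faceStep_of_dstep {g g' : ℤ × ℤ} (h : IsUnit4 (g' - g)) (hl : g + g' - (1, 1) ∉ LabE X) :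
    faceStep X.E (g.1 - 1, g.2 - 1) (g'.1 - 1, g'.2 - 1) := by
  have key : ∀ u v : ℤ × ℤ, v = u + (1, 0) ∨ v = u + (0, 1) → u + v = g + g' - (1, 1) →
      s(u, v) ∉ X.E := by
    intro u v h1 h2 h3
    refine hl ?_
    rw [← h2]
    exact (lb_mem_LabE X (subZ2 X h3)).2 h3
  have h1 := unit4_cases h
  obtain ⟨i, j⟩ := g
  obtain ⟨i', j'⟩ := g'
  simp only at h1
  unfold faceStep
  simp only
  rcases h1 with ⟨rfl, rfl⟩ | ⟨rfl, rfl⟩ | ⟨rfl, rfl⟩ | ⟨rfl, rfl⟩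
  · refine Or.inl ⟨by simp, key _ _ (Or.inr (by simp)) ?_⟩
    ext <;> simp <;> ring
  · refine Or.inr (Or.inr (Or.inl ⟨by simp, key _ _ (Or.inl (by simp)) ?_⟩))
    ext <;> simp <;> ring
  · refine Or.inr (Or.inl ⟨by simp, key _ _ (Or.inr (by simp)) ?_⟩)
    ext <;> simp <;> ring
  · refine Or.inr (Or.inr (Or.inr ⟨by simp, key _ _ (Or.inl (by simp)) ?_⟩))
    ext <;> simp <;> ring

lemma mem_du_iff {F L : Finset (ℤ × ℤ)} {l : ℤ × ℤ} : l ∈ du F L ↔ l - (1, 1) ∈ F ∧ l - (1, 1) ∉ L := by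
  unfold du
  rw [Finset.mem_map]
  constructor
  · rintro ⟨e, he, rfl⟩
    have : (Pool.Agent.H75.TwoArm.sh1 e) - (1, 1) = e := by
      change (e.1 + 1, e.2 + 1) - (1, 1) = e
      ext <;> simp
    rw [this]
    exact Finset.mem_sdiff.1 he
  · intro h
    refine ⟨l - (1, 1), Finset.mem_sdiff.2 h, ?_⟩
    change ((l - (1, 1)).1 + 1, (l - (1, 1)).2 + 1) = l
    ext <;> simp

/-- Faces joined to the face of the tip off the domain are outside. -/
lemma outF_of_clJ {f : ℤ × ℤ} (h : ClJ X.toDEnv (fi X.toDEnv.α) f) :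
    OutF X.E (f.1 - 1, f.2 - 1) := by
  obtain ⟨F, hF⟩ := h.symm
  rw [E_union_W, toDEnv_α, fi_cor] at hF
  have h1 : OutF X.E X.α.face := X.outα
  have key : ∀ g, Co (du F (LabE X)) f g →
      Relation.ReflTransGen (faceStep X.E) (f.1 - 1, f.2 - 1) (g.1 - 1, g.2 - 1) := by
    intro g hg
    induction hg with
    | refl => exact Relation.ReflTransGen.refl
    | tail _ h2 ih =>
      refine ih.tail (faceStep_of_dstep h2.1 ?_)
      exact (mem_du_iff.1 h2.2).2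
  have h2 := key _ hF
  simp only [add_sub_cancel_right] at h2
  exact h1.of_path h2

/-- An outer face next to a free label is next to a vertex of the dual arc. -/
lemma dual_of_outer {z z' : ℤ × ℤ} (h : IsUnit4 (z' - z)) (hl : z + z' - (1, 1) ∈ X.toDEnv.E)
    (hz : ClJ X.toDEnv (fi X.toDEnv.α) z) : ∃ c ∈ X.dual, fi (Pool.Agent.H69.Q1.cor c) = z := by
  obtain ⟨x, h1, h2⟩ := corner_face_plab h
  obtain ⟨c, rfl⟩ := cor_surjective x
  have h3 := outF_of_clJ hz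
  rw [← h1, fi_cor] at h3
  simp only [add_sub_cancel_right] at h3
  have h4 : IsOuter X.E c := h3
  rw [toDEnv_E] at hl
  rw [plab_cor] at h2
  rw [← h2] at hl
  obtain ⟨e, he, hel⟩ := (mem_EL X).1 hl
  have h5 : c.edge = e := (Pool.Agent.H69.Q1.lb_injOn (subZ2 X he.1) (corner_edge_mem c) hel).symm
  rw [← h5] at he
  have h6 := edge_V he.1
  refine ⟨c, ?_, h1⟩
  rcases outer_type h6.1 h4 with h7 | h7
  · exfalso
    refine he.2 ⟨he.1, c, Wc_wired h7, ?_, rfl⟩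
    rintro rfl
    obtain ⟨i, h8, h9⟩ := h7
    exact h8 i le_rfl h9.symm
  · exact Dc_dual h7

/-- An end of a wired label is near a vertex of the wired arc. -/
lemma wired_end {l y : ℤ × ℤ} (hl : l ∈ X.toDEnv.W) (hy : y = eu l ∨ y = ev l) :
    ∃ c ∈ X.wired, |y.1 - c.1.1| ≤ 1 ∧ |y.2 - c.1.2| ≤ 1 := by
  rw [toDEnv_W] at hl
  obtain ⟨e, ⟨h1, c, h2, h3, rfl⟩, rfl⟩ := (mem_WL X).1 hl
  refine ⟨c, h2, ?_⟩
  have h4 : lb c.edge = c.1 + (c.1 + dir c.2) := rfl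
  rw [h4] at hy
  have h5 := dir_abs c.2
  have h6 : dir c.2 = (1, 0) ∨ dir c.2 = (0, 1) ∨ dir c.2 = (-1, 0) ∨ dir c.2 = (0, -1) := by
    rcases Pool.Agent.H69.Q1.q_cases c.2 with h | h | h | h <;> rw [h]
    · exact Or.inl Pool.Agent.H69.Q1.dir_zero
    · exact Or.inr (Or.inl Pool.Agent.H69.Q1.dir_one)
    · exact Or.inr (Or.inr (Or.inl Pool.Agent.H69.Q1.dir_two))
    · exact Or.inr (Or.inr (Or.inr Pool.Agent.H69.Q1.dir_three))
  unfold eu ev at hy
  rw [abs_le, abs_le]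
  rcases h6 with h6 | h6 | h6 | h6 <;> rw [h6] at hy <;>
    simp only [Prod.ext_iff, Prod.fst_add, Prod.snd_add] at hy <;> omega

lemma enter {T W : Finset (ℤ × ℤ)} {In : ℤ × ℤ → Prop} {u v : ℤ × ℤ} (hu : ¬ In u) (hv : In v)
    (hT : ∀ t ∈ T, In (eu t) ∧ In (ev t)) (h : Co (T ∪ W) u v) :
    ∃ l ∈ W, ∃ y, In y ∧ (y = eu l ∨ y = ev l) := by
  by_contra hcon
  have key : ∀ w, Co (T ∪ W) u w → ¬ In w := by
    intro w hw
    induction hw with
    | refl => exact hu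
    | @tail x y _ hxy ih =>
      intro hy
      obtain ⟨h1, h2⟩ := hxy
      obtain ⟨h3, h4⟩ := Pool.Agent.H42.Q1.ends_add h1
      rcases Finset.mem_union.1 h2 with h5 | h5
      · rcases h4 with ⟨h6, h7⟩ | ⟨h6, h7⟩
        · exact ih (by rw [← h6]; exact (hT _ h5).1)
        · exact ih (by rw [← h7]; exact (hT _ h5).2)
      · refine hcon ⟨_, h5, y, hy, ?_⟩
        rcases h4 with ⟨h6, h7⟩ | ⟨h6, h7⟩
        · exact Or.inr h7.symm
        · exact Or.inl h6.symm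
  exact key v h hv

end

lemma last_step {E T : Finset (ℤ × ℤ)} {N : ℤ × ℤ → Prop} {z z' f : ℤ × ℤ} (hz : IsUnit4 (z' - z))
    (hzT : z + z' - (1, 1) ∈ E) (hN : N z) (hp : CoX (du E T) N z f) :
    N f ∧ ∃ f', IsUnit4 (f' - f) ∧ f + f' - (1, 1) ∈ E := by
  unfold CoX at hp
  induction hp with
  | refl => exact ⟨hN, z', hz, hzT⟩
  | @tail x y _ hxy ih =>
    refine ⟨hxy.2, x, ?_, ?_⟩
    · have := unit4_cases hxy.1.1
      unfold IsUnit4
      simp only [Prod.ext_iff, Prod.fst_sub, Prod.snd_sub]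
      omega
    · have h1 := (mem_du_iff.1 hxy.1.2).1
      rw [add_comm y x]
      exact h1

section

variable {D : Set ℂ} {a b : ℂ} {A₁ A₂ : Set ℂ}

lemma arcs_apart' (hDb : Bornology.IsBounded D) (hA : IsArcs D a b A₁ A₂) {ρ : ℝ} (hρ : 0 < ρ) :
    ∃ d : ℝ, 0 < d ∧ ∀ z, ρ ≤ dist z a → ρ ≤ dist z b →
      4 * d ≤ Metric.infDist z A₁ + Metric.infDist z A₂ := by
  have hfr : Bornology.IsBounded (frontier D) := hDb.closure.subset frontier_subset_closure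
  obtain ⟨R, hR⟩ := hfr.subset_closedBall a
  set K : Set ℂ := {z | ρ ≤ dist z a ∧ ρ ≤ dist z b} ∩ Metric.closedBall a (R + 4) with hK
  have hKc : IsCompact K := by
    refine (isCompact_closedBall a (R + 4)).inter_left ?_
    exact (isClosed_le continuous_const (continuous_id.dist continuous_const)).inter
      (isClosed_le continuous_const (continuous_id.dist continuous_const))
  obtain ⟨d, hd, h⟩ := arcs_apart hA hKc
    (fun h => by have := h.1.1; rw [dist_self] at this; linarith)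
    (fun h => by have := h.1.2; rw [dist_self] at this; linarith)
  refine ⟨min d 1, lt_min hd one_pos, fun z h1 h2 => ?_⟩
  by_cases hz : z ∈ Metric.closedBall a (R + 4)
  · have := h z ⟨⟨h1, h2⟩, hz⟩
    linarith [min_le_left d 1]
  · rw [Metric.mem_closedBall, not_le] at hz
    have h3 : A₁.Nonempty := hA.conn₁.nonempty
    have h4 : 4 ≤ Metric.infDist z A₁ := by
      refine (Metric.le_infDist h3).2 fun x hx => ?_
      have h5 : x ∈ frontier D := by rw [← hA.union]; exact Or.inl hx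
      have h6 := hR h5
      rw [Metric.mem_closedBall] at h6
      have h7 := dist_triangle z x a
      linarith
    have h5 : 0 ≤ Metric.infDist z A₂ := Metric.infDist_nonneg
    linarith [min_le_right d 1]

/-- two vertices of a small box -/
lemma dist_box {δ : ℝ} (hδ : 0 ≤ δ) {p q r s : ℤ} {D0 : ℝ} (h1 : δ * ((q - p : ℤ) : ℝ) ≤ D0)
    (h2 : δ * ((s - r : ℤ) : ℝ) ≤ D0) {u v : ℤ × ℤ} (hu : RB p q r s u) (hv : RB p q r s v) :
    dist (pt δ u) (pt δ v) ≤ 2 * D0 := by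
  rw [Complex.dist_eq]
  refine (Complex.norm_le_abs_re_add_abs_im _).trans ?_
  have e1 : (pt δ u - pt δ v).re = δ * ((u.1 - v.1 : ℤ) : ℝ) := by
    simp only [pt, Complex.sub_re]; push_cast; ring
  have e2 : (pt δ u - pt δ v).im = δ * ((u.2 - v.2 : ℤ) : ℝ) := by
    simp only [pt, Complex.sub_im]; push_cast; ring
  obtain ⟨a1, a2, a3, a4⟩ := hu
  obtain ⟨b1, b2, b3, b4⟩ := hv
  have g1 : |((u.1 - v.1 : ℤ) : ℝ)| ≤ ((q - p : ℤ) : ℝ) := by
    rw [← Int.cast_abs]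
    have : |u.1 - v.1| ≤ q - p := by rw [abs_le]; omega
    exact_mod_cast this
  have g2 : |((u.2 - v.2 : ℤ) : ℝ)| ≤ ((s - r : ℤ) : ℝ) := by
    rw [← Int.cast_abs]
    have : |u.2 - v.2| ≤ s - r := by rw [abs_le]; omega
    exact_mod_cast this
  rw [e1, e2, abs_mul, abs_mul, abs_of_nonneg hδ]
  have g3 := mul_le_mul_of_nonneg_left g1 hδ
  have g4 := mul_le_mul_of_nonneg_left g2 hδ
  linarith

/-- **No small crosscut in the initial domain** outside the zones of the marked points. -/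
theorem iso0 (hD : IsJordanDomain D) (hA : IsArcs D a b A₁ A₂) (A : Approx D a b A₁ A₂) {ρ : ℝ}
    (hρ : 0 < ρ) : ∃ D0 : ℝ, 0 < D0 ∧ ∀ᶠ n in atTop, ∀ p q r s : ℤ,
      A.δ n * ((q - p : ℤ) : ℝ) ≤ D0 → A.δ n * ((s - r : ℤ) : ℝ) ≤ D0 →
      (∀ v, RB p q r s v → ρ ≤ dist (pt (A.δ n) v) a ∧ ρ ≤ dist (pt (A.δ n) v) b) →
      ∀ T ⊆ (X0 A n).E, (∀ t ∈ T, RB p q r s (eu t) ∧ RB p q r s (ev t)) →
      (∀ t ∈ T, Co (T ∪ (X0 A n).W) (vx (X0 A n).β) (eu t)) → ∀ z z' f : ℤ × ℤ,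
      IsUnit4 (z' - z) → z + z' - (1, 1) ∈ T → RB (p + 1) q (r + 1) s z →
      CoX (du (X0 A n).E ∅) (RB (p + 1) q (r + 1) s) z f →
      ClJ (X0 A n) (fi (X0 A n).α) f → False := by
  obtain ⟨d, hd, hap⟩ := arcs_apart' hD.2.2.1 hA hρ
  refine ⟨d / 4, by linarith, ?_⟩
  have hlim : ∀ᶠ n in atTop, A.δ n < d / 4 := by
    have := A.lim.eventually (gt_mem_nhds (show (0 : ℝ) < d / 4 by linarith))
    exact this
  have hβ : ∀ᶠ n in atTop, dist (pt (A.δ n) (A.X n).β.1) b < ρ :=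
    A.limβ.eventually (Metric.ball_mem_nhds b hρ)
  filter_upwards [hlim, hβ, A.wired d hd, A.dual d hd] with n h1 h2 h3 h4 p q r s hx hy hfar T hT
    hTI hTv z z' f hz hzT hNz hp hf
  have hδ := (A.pos n).le
  set X := A.X n with hX
  have e0 : X0 A n = X.toDEnv := rfl
  rw [e0] at hT hTv hp hf
  set t := z + z' - (1, 1) with ht
  -- the wired side
  have hβ' : ¬ RB p q r s (vx X.toDEnv.β) := by
    intro h
    rw [toDEnv_β, vx_cor] at h
    have := (hfar _ h).2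
    linarith
  obtain ⟨l, hl, y, hy1, hy2⟩ := enter hβ' (hTI t hzT).1 hTI (hTv t hzT)
  obtain ⟨c, hc, hc1, hc2⟩ := wired_end hl hy2
  have h5 := h3 c hc
  have h6 : dist (pt (A.δ n) y) (pt (A.δ n) c.1) ≤ 2 * A.δ n := dist_pt_le hδ hc1 hc2
  have h7 : Metric.infDist (pt (A.δ n) y) A₁ ≤ Metric.infDist (pt (A.δ n) c.1) A₁ +
      dist (pt (A.δ n) y) (pt (A.δ n) c.1) := Metric.infDist_le_infDist_add_dist
  -- the dual side
  obtain ⟨hNf, f', hf1, hf2⟩ := last_step hz (hT hzT) hNz hp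
  obtain ⟨c', hc', hfc⟩ := dual_of_outer hf1 hf2 hf
  have h8 := h4 c' hc'
  have h9 : RB p q r s c'.1 := by
    rw [← hfc] at hNf
    rw [← vx_cor c']
    generalize Pool.Agent.H69.Q1.cor c' = w at hNf
    obtain ⟨w1, w2⟩ := w
    unfold RB fi at hNf
    unfold RB vx
    simp only at hNf ⊢
    omega
  have h10 := dist_box hδ hx hy hy1 h9
  have h11 : Metric.infDist (pt (A.δ n) y) A₂ ≤ Metric.infDist (pt (A.δ n) c'.1) A₂ +
      dist (pt (A.δ n) y) (pt (A.δ n) c'.1) := Metric.infDist_le_infDist_add_dist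
  have h12 := hap _ (hfar _ hy1).1 (hfar _ hy1).2
  linarith

end

end Pool.Agent.H14.NB
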