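import Pool.Agent.H78.Q1.RootId
import Pool.Agent.H78.Q1.Wired
import Pool.Agent.H21.Q1.CompTwo
import Pool.Agent.Q1.M3.Pg.Tied
import Pool.Agent.Q1.M3.Pg.Chan
import Pool.Agent.H42.Q1.Route

set_option autoImplicit false
open Finset

/-! # The crossing probability depends little on sides near a point -/

namespace Pool.Agent.H14.NB

open Pool.Agent.H75.Perc Pool.Agent.H75.TwoArm Pool.Agent.H75.Four
open Pool.Agent.H49.Q1 (gs mem_gs CJ)
open Pool.Agent.Q1.M4 (Adj4 Conn4 Good IsSide inV inRect nextSide PType Eqv isSide_iter)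
open Pool.Agent.Q1.M5 (sV sL WL EL TV CT CI)
open Pool.Agent.H78.Q1 (mem_sL_iff mem_WL sV_eqv WL_sub)
open Pool.Agent.H42.Q1 (ends_add)
open Pool.Agent.H21.Q1 (Dcy)

/-- The type `T'` has a smaller wired arc. -/
structure Less (T T' : PType) : Prop where
  Q : T'.Q = T.Q
  N : T'.N = T.N
  side : ∀ n, Eqv (T'.side n) (T.side n)
  m : T.m ≤ T'.m

variable {T T' : PType} {X Y : ℤ → ℤ}

lemma Less.sV (h : Less T T') {n : ℕ} {v : ℤ × ℤ} :
    sV X Y (T'.side n) v ↔ sV X Y (T.side n) v :=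
  ⟨fun hv => sV_eqv (h.side n) hv, fun hv => sV_eqv (h.side n).symm hv⟩

lemma Less.sL (h : Less T T') {n : ℕ} {e : ℤ × ℤ} :
    e ∈ sL X Y (T'.side n) ↔ e ∈ sL X Y (T.side n) := by
  rw [mem_sL_iff, mem_sL_iff, h.sV, h.sV]

lemma Less.WL (h : Less T T') : WL T' X Y ⊆ WL T X Y := by
  intro e he
  obtain ⟨n, h1, h2, h3⟩ := mem_WL.1 he
  exact mem_WL.2 ⟨n, h.m.trans h1, h.N ▸ h2, h.sL.1 h3⟩

lemma Less.TV (h : Less T T') {v : ℤ × ℤ} (hv : TV T' X Y v) : TV T X Y v := by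
  obtain ⟨n, h1, h2, h3⟩ := hv
  exact ⟨n, h.m.trans h1, h.N ▸ h2, h.sV.1 h3⟩

lemma Less.EL (h : Less T T') : EL T X Y ⊆ EL T' X Y := by
  unfold Pool.Agent.Q1.M5.EL
  rw [h.Q]
  exact sdiff_subset_sdiff (subset_refl _) h.WL

/-- The arm. -/
lemma Less.arm (h : Less T T') {i h' : ℕ} {ω : Finset (ℤ × ℤ)}
    (h1 : CI T X Y i h' (ω ∩ Pool.Agent.Q1.M5.EL T X Y)) (h2 : ¬ CI T' X Y i h' ω) :
    ∃ u v, (∃ n, T.m ≤ n ∧ n < T'.m ∧ Pool.Agent.Q1.M5.sV X Y (T.side n) u) ∧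
      (∃ n, i ≤ n ∧ n < h' ∧ Pool.Agent.Q1.M5.sV X Y (T.side n) v) ∧ Co ω u v := by
  classical
  obtain ⟨n0, hn1, hn2, v, hv, t, ht, hco⟩ := h1
  have hCT : ¬ CT T' X Y v ω := fun h3 => h2 ⟨n0, hn1, hn2, v, h.sV.2 hv, h3⟩
  -- the first vertex on the additional wired sides
  have key : ∀ y, Co ((ω ∩ Pool.Agent.Q1.M5.EL T X Y) ∪ Pool.Agent.Q1.M5.WL T X Y) v y →
      Co (ω ∪ Pool.Agent.Q1.M5.WL T' X Y) v y ∨
      ∃ x, (∃ n, T.m ≤ n ∧ n < T'.m ∧ Pool.Agent.Q1.M5.sV X Y (T.side n) x) ∧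
        Co (ω ∪ Pool.Agent.Q1.M5.WL T' X Y) v x := by
    intro y hy
    induction hy with
    | refl => exact Or.inl (Co.refl _ _)
    | @tail y z _ hyz ih =>
      rcases ih with ih | ih
      · rcases mem_union.1 hyz.2 with h3 | h3
        · exact Or.inl (ih.tail ⟨hyz.1, mem_union_left _ (mem_inter.1 h3).1⟩)
        · obtain ⟨n, g1, g2, g3⟩ := mem_WL.1 h3
          by_cases g4 : T'.m ≤ n
          · refine Or.inl (ih.tail ⟨hyz.1, mem_union_right _ ?_⟩)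
            exact mem_WL.2 ⟨n, g4, h.N.symm ▸ g2, h.sL.2 g3⟩
          · refine Or.inr ⟨y, ⟨n, g1, by omega, ?_⟩, ih⟩
            obtain ⟨-, g5, g6⟩ := mem_sL_iff.1 g3
            rcases (ends_add hyz.1).2 with ⟨g7, -⟩ | ⟨-, g7⟩
            · rwa [g7] at g5
            · rwa [g7] at g6
      · exact Or.inr ih
  obtain ⟨x, hx, hcox⟩ : ∃ x, (∃ n, T.m ≤ n ∧ n < T'.m ∧
      Pool.Agent.Q1.M5.sV X Y (T.side n) x) ∧ Co (ω ∪ Pool.Agent.Q1.M5.WL T' X Y) v x := by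
    rcases key t hco with h3 | h3
    · obtain ⟨n, g1, g2, g3⟩ := ht
      by_cases g4 : T'.m ≤ n
      · exact absurd ⟨t, ⟨n, g4, h.N.symm ▸ g2, h.sV.2 g3⟩, h3⟩ hCT
      · exact ⟨t, ⟨n, g1, by omega, g3⟩, h3⟩
    · exact h3
  refine ⟨x, v, hx, ⟨n0, hn1, hn2, hv⟩, ?_⟩
  have key2 : ∀ y, Co (ω ∪ Pool.Agent.Q1.M5.WL T' X Y) v y → Co ω v y := by
    intro y hy
    induction hy with
    | refl => exact Co.refl _ _
    | @tail y z hvy hyz ih =>
      rcases mem_union.1 hyz.2 with h3 | h3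
      · exact ih.tail ⟨hyz.1, h3⟩
      · exfalso
        apply hCT
        obtain ⟨n, g1, g2, g3⟩ := mem_WL.1 h3
        refine ⟨y, ⟨n, g1, g2, ?_⟩, hvy⟩
        obtain ⟨-, g5, g6⟩ := mem_sL_iff.1 g3
        rcases (ends_add hyz.1).2 with ⟨g7, -⟩ | ⟨-, g7⟩
        · rwa [g7] at g5
        · rwa [g7] at g6
  exact (key2 x hcox).symm

lemma odd_EL {e : ℤ × ℤ} (he : e ∈ EL T X Y) : (e.1 + e.2) % 2 = 1 := by
  have h1 := (mem_sdiff.1 he).1
  exact Pool.Agent.Q1.M3.Pg.odd_gs h1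

/-- **Comparison of two types** whose wired arcs differ near a point. -/
theorem cross_shift {δ : ℝ} (hδ : Dcy δ) (h : Less T T') {i h' k : ℕ} {c : ℤ × ℤ} {r : ℤ}
    (hr : 1 ≤ r)
    (near : ∀ n, T.m ≤ n → n < T'.m → ∀ v, sV X Y (T.side n) v → |v.1 - c.1| ≤ r ∧ |v.2 - c.2| ≤ r)
    (far : ∀ n, i ≤ n → n < h' → ∀ v, sV X Y (T.side n) v →
      4 ^ k * r ≤ |v.1 - c.1| ∨ 4 ^ k * r ≤ |v.2 - c.2|) :
    |Pr (EL T X Y) (CI T X Y i h') - Pr (EL T' X Y) (CI T' X Y i h')| ≤ (1 - δ) ^ k := by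
  classical
  have e1 : Pr (EL T X Y) (CI T X Y i h') =
      Pr (EL T' X Y) (fun ω => CI T X Y i h' (ω ∩ EL T X Y)) := (Pr_restrict h.EL _).symm
  rw [e1]
  have e2 : Pr (EL T' X Y) (fun ω => CI T X Y i h' (ω ∩ EL T X Y)) ≤
      Pr (EL T' X Y) (CI T' X Y i h') + (1 - δ) ^ k := by
    refine le_trans ?_ (add_le_add_right (hδ.2.2.1 (EL T' X Y) (fun e he => odd_EL he) c r hr k) _)
    refine le_trans (Pr_mono ?_) (Pr_or_le _ _ _)
    intro ω hω h1
    by_cases h2 : CI T' X Y i h' ω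
    · exact Or.inl h2
    · right
      obtain ⟨u, v, ⟨n, g1, g2, g3⟩, ⟨n', g4, g5, g6⟩, g7⟩ := h.arm h1 h2
      exact ⟨u, v, (near n g1 g2 u g3).1, (near n g1 g2 u g3).2, far n' g4 g5 v g6, g7⟩
  have e3 : Pr (EL T' X Y) (CI T' X Y i h') ≤
      Pr (EL T' X Y) (fun ω => CI T X Y i h' (ω ∩ EL T X Y)) := by
    refine Pr_mono ?_
    rintro ω hω ⟨n, h1, h2, v, hv, t, ht, hco⟩
    refine ⟨n, h1, h2, v, h.sV.1 hv, t, h.TV ht, hco.mono ?_⟩
    intro e he
    rcases mem_union.1 he with h3 | h3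
    · by_cases h4 : e ∈ WL T X Y
      · exact mem_union_right _ h4
      · refine mem_union_left _ (mem_inter.2 ⟨h3, mem_sdiff.2 ⟨?_, h4⟩⟩)
        have h5 := (mem_sdiff.1 (hω h3)).1
        rwa [h.Q] at h5
    · exact mem_union_right _ (h.WL h3)
  have e4 : 0 ≤ (1 - δ) ^ k := pow_nonneg (by linarith [hδ.2.1]) _
  rw [abs_le]
  constructor <;> linarith

/-! ### Walks from different sides -/

open Pool.Agent.Q1.M3.Pg

lemma walkN_eqv {Q : Finset (ℤ × ℤ)} {s s' : (ℤ × ℤ) × ℤ} {N : ℕ} (h : WalkN Q s N)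
    (he : Eqv s s') : WalkN Q s' N := by
  have hi : ∀ n, Eqv ((nextSide Q)^[n] s) ((nextSide Q)^[n] s') := fun n => he.iter' n
  refine ⟨h.three, ?_, ?_, ?_⟩
  · obtain ⟨h1, h2⟩ := he.iter (Q := Q) N
    rw [h.period] at h1 h2
    simp only at h1 h2
    refine Prod.ext ?_ ?_
    · simp only; rw [← h1, he.1]
    · simp only; omega
  · intro t ht
    obtain ⟨n, hn, h1, h2⟩ := h.all t ht
    refine ⟨n, hn, (hi n).1.symm.trans h1, ?_⟩
    have := (hi n).2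
    omega
  · intro n hn n' hn' h1 h2
    refine h.inj n hn n' hn' ((hi n).1.trans (h1.trans (hi n').1.symm)) ?_
    have := (hi n).2
    have := (hi n').2
    omega

lemma walkN_uniq {Q : Finset (ℤ × ℤ)} {s : (ℤ × ℤ) × ℤ} {N N' : ℕ} (h : WalkN Q s N)
    (h' : WalkN Q s N') : N = N' := by
  have key : ∀ {a b : ℕ}, WalkN Q s a → WalkN Q s b → ¬ a < b := by
    intro a b ha hb hab
    have h1 := ha.three
    have := hb.inj a hab 0 (by omega) (by rw [ha.period]; rfl) (by rw [ha.period]; simp)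
    omega
  rcases lt_trichotomy N N' with h1 | h1 | h1
  · exact absurd h1 (key h h')
  · exact h1
  · exact absurd h1 (key h' h)

lemma outc_eqv {s t : (ℤ × ℤ) × ℤ} (h : Eqv s t) : outc s = outc t := by
  unfold outc
  rw [h.1]
  congr 1
  exact Pool.Agent.Q1.M3.Pg.dir_congr (by have := h.2; omega)

/-- **Marks of the walk from another side** before the run. -/
lemma marks_shift {d : SD} {s' : (ℤ × ℤ) × ℤ} (h : d.Ok) (h' : ({d with s := s'} : SD).Ok)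
    (hR : ({d with s := s'} : SD).R = d.R) {m : ℕ} (hm : m < d.n1)
    (he : Eqv ((nextSide d.R)^[m] d.s) s') (hrun : d.n1 < d.n2) :
    ({d with s := s'} : SD).N = d.N ∧ ({d with s := s'} : SD).n1 = d.n1 - m ∧
      ({d with s := s'} : SD).n2 = d.n2 - m := by
  have M := h.mark
  have M' := h'.mark
  have hle := M.le'
  have hW : WalkN d.R s' d.N := walkN_eqv (M.walk.shift (a := m) (by omega)) he
  have hN : ({d with s := s'} : SD).N = d.N := by
    have := M'.walk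
    rw [hR] at this
    exact walkN_uniq this hW
  have hrun' : ∀ j < d.N, outc ((nextSide d.R)^[m + j] d.s) ∈ d.H ↔
      ({d with s := s'} : SD).n1 ≤ j ∧ j < ({d with s := s'} : SD).n2 := by
    intro j hj
    have h1 := M'.run j (by rw [hN]; exact hj)
    rw [hR] at h1
    have h2 : Eqv ((nextSide d.R)^[m + j] d.s) ((nextSide d.R)^[j] s') := by
      rw [add_comm m j, Function.iterate_add_apply]
      exact he.iter' j
    rw [outc_eqv h2]
    exact h1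
  have hlt : ∀ j, m + j < d.N → ((d.n1 ≤ m + j ∧ m + j < d.n2) ↔
      ({d with s := s'} : SD).n1 ≤ j ∧ j < ({d with s := s'} : SD).n2) := by
    intro j hj
    rw [← hrun' j (by omega), M.run (m + j) hj]
  have hge : ∀ j < d.N, d.N ≤ m + j →
      ¬ (({d with s := s'} : SD).n1 ≤ j ∧ j < ({d with s := s'} : SD).n2) := by
    intro j hj hj2
    rw [← hrun' j hj]
    have h2 : Eqv ((nextSide d.R)^[m + j] d.s) ((nextSide d.R)^[m + j - d.N] d.s) := by
      have h3 := iter_shift M.walk (m + j - d.N)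
      rw [show m + j - d.N + d.N = m + j by omega] at h3
      rw [h3]
      exact ⟨rfl, by simp⟩
    rw [outc_eqv h2, M.run (m + j - d.N) (by omega)]
    omega
  have hle' := M'.le
  have hle2' := M'.le'
  rw [hN] at hle2'
  refine ⟨hN, ?_, ?_⟩
  all_goals
    have a1 := hlt (d.n1 - m) (by omega)
    have a2 := hlt (d.n2 - 1 - m) (by omega)
    have a3 := hge ({d with s := s'} : SD).n1
    have a4 := hge (({d with s := s'} : SD).n2 - 1)
    have a5 := hlt ({d with s := s'} : SD).n1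
    have a6 := hlt (({d with s := s'} : SD).n2 - 1)
    omega

/-- **The crossing probabilities for two tip sides.** -/
theorem gg_shift {d : SD} {s' : (ℤ × ℤ) × ℤ} (h : d.Ok) (h' : ({d with s := s'} : SD).Ok)
    (hR : ({d with s := s'} : SD).R = d.R) {m : ℕ} (hm : m < d.n1)
    (he : Eqv ((nextSide d.R)^[m] d.s) s') (hrun : d.n1 < d.n2) (hn2 : d.n2 < d.N)
    {X Y : ℤ → ℤ} {δ : ℝ} (hδ : Dcy δ) {k : ℕ} {c : ℤ × ℤ} {r : ℤ} (hr : 1 ≤ r)
    (near : ∀ i < m, ∀ v, sV X Y ((nextSide d.R)^[i] d.s) v → |v.1 - c.1| ≤ r ∧ |v.2 - c.2| ≤ r)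
    (far : ∀ i, d.n1 ≤ i → i < d.n2 → ∀ v, sV X Y ((nextSide d.R)^[i] d.s) v →
      4 ^ k * r ≤ |v.1 - c.1| ∨ 4 ^ k * r ≤ |v.2 - c.2|) (j : ℕ) :
    |d.gg X Y j - ({d with s := s'} : SD).gg X Y j| ≤ (1 - δ) ^ k := by
  obtain ⟨e1, e2, e3⟩ := marks_shift h h' hR hm he hrun
  have e4 : 0 ≤ (1 - δ) ^ k := pow_nonneg (by linarith [hδ.2.1]) _
  have hh : ({d with s := s'} : SD).h = d.h := by
    change ({d with s := s'} : SD).n2 - ({d with s := s'} : SD).n1 = d.n2 - d.n1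
    rw [e2, e3]
    omega
  unfold SD.gg
  rw [hh]
  by_cases h0 : j = 0
  · simp only [h0, if_true, sub_self, abs_zero]; exact e4
  rw [if_neg h0, if_neg h0]
  by_cases h1 : d.h ≤ j
  · simp only [h1, if_true, sub_self, abs_zero]; exact e4
  rw [if_neg h1, if_neg h1]
  have c1 : d.Ok ∧ d.n1 < d.n2 ∧ d.n2 < d.N := ⟨h, hrun, hn2⟩
  have c2 : ({d with s := s'} : SD).Ok ∧ ({d with s := s'} : SD).n1 < ({d with s := s'} : SD).n2 ∧
      ({d with s := s'} : SD).n2 < ({d with s := s'} : SD).N :=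
    ⟨h', by rw [e2, e3]; omega, by rw [e3, e1]; omega⟩
  rw [dif_pos c1, dif_pos c2]
  have hside : ∀ n, Eqv ((c2.1.T c2.2.1).side n) ((h.T hrun).side n) := by
    intro n
    rw [SD.Ok.T_side, SD.Ok.T_side, hR, e2]
    have h2 : Eqv ((nextSide d.R)^[n + (d.n1 - m)] s') ((nextSide d.R)^[n + d.n1] d.s) := by
      rw [show n + d.n1 = n + (d.n1 - m) + m by omega,
        Function.iterate_add_apply (nextSide d.R) (n + (d.n1 - m)) m]
      exact (he.symm).iter' _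
    exact h2
  have hless : Less (h.T hrun) (c2.1.T c2.2.1) := by
    refine ⟨hR, e1, hside, ?_⟩
    change d.N - d.n1 ≤ ({d with s := s'} : SD).N - ({d with s := s'} : SD).n1
    rw [e1, e2]
    omega
  refine cross_shift (c := c) (r := r) hδ hless hr ?_ ?_
  · intro n g1 g2 v hv
    change d.N - d.n1 ≤ n at g1
    change n < ({d with s := s'} : SD).N - ({d with s := s'} : SD).n1 at g2
    rw [e1, e2] at g2
    refine near (n + d.n1 - d.N) (by omega) v (sV_eqv ?_ hv)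
    rw [SD.Ok.T_side]
    have h3 := iter_shift h.mark.walk (n + d.n1 - d.N)
    rw [show n + d.n1 - d.N + d.N = n + d.n1 by omega] at h3
    rw [h3]
    exact ⟨rfl, by simp⟩
  · intro n g1 g2 v hv
    rw [SD.Ok.T_side] at hv
    refine far (n + d.n1) (by omega) ?_ v hv
    have : d.h = d.n2 - d.n1 := rfl
    omega

end Pool.Agent.H14.NB
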