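import Pool.Agent.H14.NB.J0a
import Pool.Agent.H14.NB.Shift
import Pool.Agent.H14.NB.Iso0

set_option autoImplicit false
open Finset Filter Topology

/-! # The first step: sides between two tip sides are near `a` -/

namespace Pool.Agent.H14.NB

open Pool.Agent.H75.Perc Pool.Agent.H75.TwoArm Pool.Agent.H75.Four Pool.Agent.H99.NC
open Pool.Agent.H69.Q1 Pool.Agent.H39.Q1 Pool.Agent.H28.Q1
open Pool.Agent.Q1.M3 Pool.Agent.Q1.M3.Pg
open Pool.Agent.H75.TwoArm.StrandAux hiding vx_nxC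
open Pool.Agent.Q1.M4 (Adj4 Conn4 Good IsSide inV inRect nextSide tail head Eqv isSide_iter)
open Pool.Agent.H21.Q1 (Sol Wt InvL)
open Pool.Agent.H81.Q1 (pt DDomain Approx IsJordanDomain IsArcs)

section

variable {D : Set ℂ} {a b : ℂ} {A₁ A₂ : Set ℂ} {A : Approx D a b A₁ A₂} {r0 : ℝ}

/-- Facts about the `n`-th domain. -/
structure EvN (B : Base A r0) (K : ℕ) (C : Finset Cell) (M : ℕ) (BB : Cell) (z : ℂ) (ρ da d0 : ℝ)
    (c0 : ℤ × ℤ) (n : ℕ) : Prop where
  small : 5 * A.δ n ≤ mesh (K + 1)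
  wired : ∀ c ∈ (A.X n).wired, Metric.infDist (pt (A.δ n) c.1) A₁ < d0
  dual : ∀ c ∈ (A.X n).dual, Metric.infDist (pt (A.δ n) c.1) A₂ < d0
  alpha : dist (pt (A.δ n) (vx (X0 A n).α)) a < ρ
  kfar : ∀ v ∈ KvC B C n, da ≤ dist (pt (A.δ n) v) a
  dead : ∀ s t, IsSide (comp ((dC B K C M BB z s).P \ (dC B K C M BB z s).H2) c0) t →
    outc t ∉ (dC B K C M BB z s).P →
    DeadAt K B.o (A.δ n) (dC B K C M BB z s).P (X0 A n).E (outc t)

variable {B : Base A r0} {K : ℕ} {C : Finset Cell} {M : ℕ} {BB : Cell} {z : ℂ} {ρ da d0 : ℝ}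
  {c0 : ℤ × ℤ} {n : ℕ} {s : (ℤ × ℤ) × ℤ} {τ A' : Finset (ℤ × ℤ)} {p0 : ℕ}

/-- A side away from `a` and from the target. -/
structure Far0 (B : Base A r0) (K : ℕ) (ρ da : ℝ) (t : (ℤ × ℤ) × ℤ) : Prop where
  one : ρ + 30 * mesh (K + 1) ≤ dist (gpt B.o K t.1) a
  two : dist (gpt B.o K t.1) a + 30 * mesh (K + 1) ≤ da

lemma gpt_outc (B : Base A r0) (K : ℕ) (t : (ℤ × ℤ) × ℤ) :
    dist (gpt B.o K t.1) (gpt B.o K (outc t)) ≤ 2 * mesh (K + 1) := by
  have h6 : NB 1 (outc t) t.1 := (NB.of_adj ⟨_, rfl⟩).symm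
  have := gpt_dist B.o K h6
  push_cast at this
  linarith

/-- The hypotheses of the ties for a side away from `a`. -/
lemma far_fr (hE : EvN B K C M BB z ρ da d0 c0 n) (hc0 : c0 ∈ (dC B K C M BB z s).P \
    (dC B K C M BB z s).H2) (hT : TipOk B K C M BB z ρ c0 n s τ A' p0)
    (hfar : ∀ c ∈ (dC B K C M BB z s).H2, da ≤ dist (gpt B.o K c) a) {i : ℕ}
    (hi : i < (dC B K C M BB z s).N)
    (hoff : ¬ ((dC B K C M BB z s).n1 ≤ i ∧ i < (dC B K C M BB z s).n2))
    (hF : Far0 B K ρ da ((dC B K C M BB z s).sid i)) :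
    Fr K B.o (A.δ n) (dC B K C M BB z s).P (KvC B C n) τ A' (X0 A n).E
      ((dC B K C M BB z s).oc' i) := by
  have hmp := mesh_pos (K + 1)
  have ok := hT.tied.ok
  have hR : (dC B K C M BB z s).R = comp ((dC B K C M BB z s).P \ (dC B K C M BB z s).H2) c0 :=
    comp_eq hc0 hT.mem
  have hside : IsSide (dC B K C M BB z s).R ((dC B K C M BB z s).sid i) := isSide_iter ok.side i
  have hg := gpt_outc B K ((dC B K C M BB z s).sid i)
  have h1 := dist_triangle (gpt B.o K (outc ((dC B K C M BB z s).sid i)))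
    (gpt B.o K ((dC B K C M BB z s).sid i).1) a
  have h2 := dist_triangle (gpt B.o K ((dC B K C M BB z s).sid i).1)
    (gpt B.o K (outc ((dC B K C M BB z s).sid i))) a
  rw [dist_comm (gpt B.o K (outc ((dC B K C M BB z s).sid i)))
    (gpt B.o K ((dC B K C M BB z s).sid i).1)] at h1
  have e1 := hF.one
  have e2 := hF.two
  have hP : outc ((dC B K C M BB z s).sid i) ∉ (dC B K C M BB z s).P := by
    rcases ok.mark.out ok hi hoff with h | h
    · exact h
    · exfalso
      have h3 := hfar _ (mem_sdiff.1 h.1).1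
      have h4 : da ≤ dist (gpt B.o K (outc ((dC B K C M BB z s).sid i))) a := h3
      linarith
  have key : ∀ v, NB 8 (outc ((dC B K C M BB z s).sid i)) (box (A.δ n) B.o K v) →
      ρ ≤ dist (pt (A.δ n) v) a ∧ dist (pt (A.δ n) v) a < da := by
    intro v hv
    have h3 := near_dist (δ := A.δ n) B.o K hv.symm
    push_cast at h3
    have h4 := dist_triangle (pt (A.δ n) v) (gpt B.o K (outc ((dC B K C M BB z s).sid i))) a
    have h5 := dist_triangle (gpt B.o K (outc ((dC B K C M BB z s).sid i))) (pt (A.δ n) v) a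
    rw [dist_comm (pt (A.δ n) v) (gpt B.o K (outc ((dC B K C M BB z s).sid i)))] at h4
    constructor <;> linarith
  refine ⟨fun v hv hn => ?_, fun v hv hn => ?_, fun e he => ⟨fun hn => ?_, fun hn => ?_⟩, ?_⟩
  · exfalso
    have h3 := hE.kfar v hv
    have h4 := (key v hn).2
    linarith
  · have h3 := hT.hτ v hv
    have h4 := (key v hn).1
    linarith
  · have h3 := (hT.hA e he).1
    have h4 := (key _ hn).1
    linarith
  · have h3 := (hT.hA e he).2
    have h4 := (key _ hn).1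
    linarith
  · refine hE.dead s _ ?_ hP
    rw [← hR]
    exact hside

/-- **A wired side away from `a` is near the wired arc.** -/
lemma near_wired (hE : EvN B K C M BB z ρ da d0 c0 n) (hc0 : c0 ∈ (dC B K C M BB z s).P \
    (dC B K C M BB z s).H2) (hT : TipOk B K C M BB z ρ c0 n s τ A' p0)
    (hfar : ∀ c ∈ (dC B K C M BB z s).H2, da ≤ dist (gpt B.o K c) a) {i : ℕ} (hi0 : 0 < i)
    (hi : i < (dC B K C M BB z s).n1) (hF : Far0 B K ρ da ((dC B K C M BB z s).sid i)) :
    Metric.infDist (gpt B.o K ((dC B K C M BB z s).sid i).1) A₁ ≤ d0 + 30 * mesh (K + 1) := by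
  have hmp := mesh_pos (K + 1)
  have hδ := A.pos n
  have ok := hT.tied.ok
  have hs5 := hE.small
  have hiN : i < (dC B K C M BB z s).N := lt_of_lt_of_le hi
    (ok.mark.le.trans ok.mark.le')
  have hfr := far_fr hE hc0 hT hfar hiN (by omega) hF
  have hl := SD.three_ln hT.tied.fine i
  obtain ⟨T, hTn, hco⟩ := hT.tied.TA hi0 hi hfr (j := 1) (le_trans (by norm_num) hl)
  set c' := (dC B K C M BB z s).oc' i with hc'
  have hcc : c' = outc ((dC B K C M BB z s).sid i) := rfl
  have hg := gpt_outc B K ((dC B K C M BB z s).sid i)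
  have e1 := hF.one
  have e2 := hF.two
  have hpos : ∀ v, NB 10 c' (box (A.δ n) B.o K v) →
      dist (gpt B.o K ((dC B K C M BB z s).sid i).1) (pt (A.δ n) v) ≤ 24 * mesh (K + 1) := by
    intro v hv
    have h3 := near_dist (δ := A.δ n) B.o K hv.symm
    push_cast at h3
    have h4 := dist_triangle (gpt B.o K ((dC B K C M BB z s).sid i).1) (gpt B.o K c')
      (pt (A.δ n) v)
    rw [← hcc] at hg
    linarith
  obtain ⟨l, hl1, y, hy, hyl⟩ := enter (T := T) (W := Wt (X0 A n) (KvC B C n))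
    (In := fun v => NB 10 c' (box (A.δ n) B.o K v)) (u := vx (X0 A n).α)
    (v := (dC B K C M BB z s).pt' B.o (A.δ n) i 1)
    (by
      intro h
      have h1 := hpos _ h
      have h2 := hE.alpha
      have h3 := dist_triangle (gpt B.o K ((dC B K C M BB z s).sid i).1)
        (pt (A.δ n) (vx (X0 A n).α)) a
      linarith)
    (by
      have h1 := (SD.side_box' ok hT.tied.fine (n := i) (j := 1) one_pos
        (lt_of_lt_of_le (by norm_num) hl)).1
      have h2 : box (A.δ n) B.o K ((dC B K C M BB z s).pt' B.o (A.δ n) i 1) =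
        ((dC B K C M BB z s).sid i).1 := h1
      change NB 10 c' (box (A.δ n) B.o K ((dC B K C M BB z s).pt' B.o (A.δ n) i 1))
      rw [h2]
      have h6 : NB 1 (outc ((dC B K C M BB z s).sid i)) ((dC B K C M BB z s).sid i).1 :=
        (NB.of_adj ⟨_, rfl⟩).symm
      exact h6.mono (by norm_num))
    (fun e he => ⟨(hTn.near e he).1.mono (by norm_num), (hTn.near e he).2.mono (by norm_num)⟩)
    hco.symm
  have hlW : l ∈ (A.X n).toDEnv.W := Pool.Agent.H21.Q1.Wt_W hl1
  obtain ⟨c, hc, hc1, hc2⟩ := wired_end hlW hyl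
  have h5 := hE.wired c hc
  have h6 : dist (pt (A.δ n) y) (pt (A.δ n) c.1) ≤ 2 * A.δ n := dist_pt_le hδ.le hc1 hc2
  have h7 := hpos y hy
  have h8 : Metric.infDist (gpt B.o K ((dC B K C M BB z s).sid i).1) A₁ ≤
      Metric.infDist (pt (A.δ n) c.1) A₁ +
      dist (gpt B.o K ((dC B K C M BB z s).sid i).1) (pt (A.δ n) c.1) :=
    Metric.infDist_le_infDist_add_dist
  have h9 := dist_triangle (gpt B.o K ((dC B K C M BB z s).sid i).1) (pt (A.δ n) y)
    (pt (A.δ n) c.1)
  linarith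

/-- A corner of the face `fi w`. -/
lemma cf_corner {w v : ℤ × ℤ} (h : Cf (fi w) v) : |v.1 - (vx w).1| ≤ 1 ∧ |v.2 - (vx w).2| ≤ 1 := by
  obtain ⟨w1, w2⟩ := w
  obtain ⟨v1, v2⟩ := v
  unfold Cf fi at h
  unfold vx
  simp only at h ⊢
  rw [abs_le, abs_le]
  omega

/-- **A free side away from `a` is near the free arc.** -/
lemma near_dual (hE : EvN B K C M BB z ρ da d0 c0 n) (hc0 : c0 ∈ (dC B K C M BB z s).P \
    (dC B K C M BB z s).H2) (hT : TipOk B K C M BB z ρ c0 n s τ A' p0)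
    (hfar : ∀ c ∈ (dC B K C M BB z s).H2, da ≤ dist (gpt B.o K c) a) {i : ℕ}
    (hi : (dC B K C M BB z s).n2 ≤ i) (hiN : i < (dC B K C M BB z s).N)
    (hF : Far0 B K ρ da ((dC B K C M BB z s).sid i)) :
    Metric.infDist (gpt B.o K ((dC B K C M BB z s).sid i).1) A₂ ≤ d0 + 30 * mesh (K + 1) := by
  have hmp := mesh_pos (K + 1)
  have hδ := A.pos n
  have ok := hT.tied.ok
  have hs5 := hE.small
  have hfr := far_fr hE hc0 hT hfar hiN (by omega) hF
  have hl := SD.three_ln hT.tied.fine i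
  obtain ⟨T, hTn, g, hco, hcl⟩ := hT.tied.TL hi hiN hfr (j := 1)
    (lt_of_lt_of_le (by norm_num) hl)
  set c' := (dC B K C M BB z s).oc' i with hc'
  have hcc : c' = outc ((dC B K C M BB z s).sid i) := rfl
  have hg := gpt_outc B K ((dC B K C M BB z s).sid i)
  have hpos : ∀ v, NB 10 c' (box (A.δ n) B.o K v) →
      dist (gpt B.o K ((dC B K C M BB z s).sid i).1) (pt (A.δ n) v) ≤ 24 * mesh (K + 1) := by
    intro v hv
    have h3 := near_dist (δ := A.δ n) B.o K hv.symm
    push_cast at h3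
    have h4 := dist_triangle (gpt B.o K ((dC B K C M BB z s).sid i).1) (gpt B.o K c')
      (pt (A.δ n) v)
    rw [← hcc] at hg
    linarith
  -- a free label at the last face
  obtain ⟨x, hx1, hx2, hx3⟩ : ∃ x, IsUnit4 (x - g) ∧ g + x - (1, 1) ∈ (X0 A n).E ∧
      NB 10 c' (box (A.δ n) B.o K (eu (g + x - (1, 1)))) := by
    rcases Relation.ReflTransGen.cases_tail hco with h | ⟨x, -, h1, h2⟩
    · have e := ofc_succ (LX K B.o.re (A.δ n)) (LX K B.o.im (A.δ n))
        ((dC B K C M BB z s).sid i) 1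
      obtain ⟨f1, f2⟩ := e
      have hg' : g = ofc (LX K B.o.re (A.δ n)) (LX K B.o.im (A.δ n))
        ((dC B K C M BB z s).sid i) 1 := h
      have h2ln : 1 + 1 < (dC B K C M BB z s).ln B.o (A.δ n) i := lt_of_lt_of_le (by norm_num) hl
      have hbox := SD.side_box' ok hT.tied.fine (n := i) (j := 1 + 1) (by norm_num) h2ln
      have hbox1 : box (A.δ n) B.o K ((dC B K C M BB z s).pt' B.o (A.δ n) i (1 + 1)) =
        ((dC B K C M BB z s).sid i).1 := hbox.1
      have hbox2 : box (A.δ n) B.o K ((dC B K C M BB z s).pt' B.o (A.δ n) i (1 + 1) +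
        Pool.Agent.H75.Perc.dir (((dC B K C M BB z s).sid i).2 - 1)) = c' := hbox.2
      have hlab : g + ofc (LX K B.o.re (A.δ n)) (LX K B.o.im (A.δ n))
          ((dC B K C M BB z s).sid i) (1 + 1) - (1, 1) =
          (dC B K C M BB z s).pt' B.o (A.δ n) i (1 + 1) +
          ((dC B K C M BB z s).pt' B.o (A.δ n) i (1 + 1) +
            Pool.Agent.H75.Perc.dir (((dC B K C M BB z s).sid i).2 - 1)) := by
        rw [hg']
        exact f2.trans (outl_eq _ _)
      refine ⟨ofc (LX K B.o.re (A.δ n)) (LX K B.o.im (A.δ n))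
        ((dC B K C M BB z s).sid i) (1 + 1), by rw [hg']; exact f1, ?_, ?_⟩
      · rw [hlab]
        have hR1 : box (A.δ n) B.o (dC B K C M BB z s).K
            ((dC B K C M BB z s).pt' B.o (A.δ n) i (1 + 1)) ∈ (dC B K C M BB z s).R := by
          have : box (A.δ n) B.o (dC B K C M BB z s).K
            ((dC B K C M BB z s).pt' B.o (A.δ n) i (1 + 1)) =
            ((dC B K C M BB z s).sid i).1 := hbox.1
          rw [this]
          exact (isSide_iter ok.side i).1
        refine hT.tied.free.fresh _ hR1 ?_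
        have hu : IsUnit4 ((dC B K C M BB z s).pt' B.o (A.δ n) i (1 + 1) +
            Pool.Agent.H75.Perc.dir (((dC B K C M BB z s).sid i).2 - 1) -
            (dC B K C M BB z s).pt' B.o (A.δ n) i (1 + 1)) := by
          rw [add_sub_cancel_left]; exact isUnit4_dir _
        obtain ⟨h3, h4⟩ := Pool.Agent.H42.Q1.ends_add hu
        rw [mem_star1_iff h3]
        rcases h4 with ⟨h5, -⟩ | ⟨-, h5⟩
        · exact Or.inl h5.symm
        · exact Or.inr h5.symm
      · rw [hlab]
        have hu : IsUnit4 ((dC B K C M BB z s).pt' B.o (A.δ n) i (1 + 1) +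
            Pool.Agent.H75.Perc.dir (((dC B K C M BB z s).sid i).2 - 1) -
            (dC B K C M BB z s).pt' B.o (A.δ n) i (1 + 1)) := by
          rw [add_sub_cancel_left]; exact isUnit4_dir _
        obtain ⟨-, h4⟩ := Pool.Agent.H42.Q1.ends_add hu
        have h6 : NB 1 c' ((dC B K C M BB z s).sid i).1 := (NB.of_adj ⟨_, rfl⟩).symm
        rcases h4 with ⟨h5, -⟩ | ⟨h5, -⟩
        · rw [h5, hbox1]; exact h6.mono (by norm_num)
        · rw [h5, hbox2]; exact NB.refl (by norm_num) _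
    · have h3 := (mem_du_iff.1 h2).1
      refine ⟨x, ?_, ?_, ?_⟩
      · have := unit4_cases h1
        unfold IsUnit4
        simp only [Prod.ext_iff, Prod.fst_sub, Prod.snd_sub]
        omega
      · rw [add_comm g x]; exact hTn.sub h3
      · rw [add_comm g x]; exact (hTn.near _ h3).1.mono (by norm_num)
  obtain ⟨c, hc, hcg⟩ := dual_of_outer (X := A.X n) hx1 hx2 hcl
  have h5 := hE.dual c hc
  have hcf : Cf g (eu (g + x - (1, 1))) := (lf2_ends hx1).2.1
  rw [← hcg] at hcf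
  obtain ⟨h10, h11⟩ := cf_corner hcf
  rw [vx_cor, hcg] at h10 h11
  have h6 : dist (pt (A.δ n) (eu (g + x - (1, 1)))) (pt (A.δ n) c.1) ≤ 2 * A.δ n :=
    dist_pt_le hδ.le h10 h11
  have h7 := hpos _ hx3
  have h8 : Metric.infDist (gpt B.o K ((dC B K C M BB z s).sid i).1) A₂ ≤
      Metric.infDist (pt (A.δ n) c.1) A₂ +
      dist (gpt B.o K ((dC B K C M BB z s).sid i).1) (pt (A.δ n) c.1) :=
    Metric.infDist_le_infDist_add_dist
  have h9 := dist_triangle (gpt B.o K ((dC B K C M BB z s).sid i).1)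
    (pt (A.δ n) (eu (g + x - (1, 1)))) (pt (A.δ n) c.1)
  linarith

end

end Pool.Agent.H14.NB
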