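import Pool.Agent.H14.NB.J0b

set_option autoImplicit false
open Finset Filter Topology

/-! # The first step: comparison of two tip sides -/

namespace Pool.Agent.H14.NB

open Pool.Agent.H75.Perc Pool.Agent.H75.TwoArm Pool.Agent.H75.Four Pool.Agent.H99.NC
open Pool.Agent.H69.Q1 Pool.Agent.H39.Q1 Pool.Agent.H28.Q1
open Pool.Agent.Q1.M3 Pool.Agent.Q1.M3.Pg
open Pool.Agent.H75.TwoArm.StrandAux hiding vx_nxC
open Pool.Agent.Q1.M4 (Adj4 Conn4 Good IsSide inV inRect nextSide tail head Eqv isSide_iter)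
open Pool.Agent.H21.Q1 (Sol Wt InvL Dcy)
open Pool.Agent.H81.Q1 (pt DDomain Approx IsJordanDomain IsArcs)
open Pool.Agent.Q1.M5 (sV)

/-- Cells of consecutive sides are neighbours. -/
lemma next_cell (Q : Finset (ℤ × ℤ)) (s : (ℤ × ℤ) × ℤ) : NB 1 s.1 (nextSide Q s).1 := by
  obtain ⟨⟨a, b⟩, k⟩ := s
  unfold nextSide NB
  simp only
  split_ifs
  · simp only
    rcases dir_cases k with ⟨h0, e0⟩ | ⟨h0, e0⟩ | ⟨h0, e0⟩ | ⟨h0, e0⟩ <;>
    rcases dir_cases (k - 1) with ⟨h1, e1⟩ | ⟨h1, e1⟩ | ⟨h1, e1⟩ | ⟨h1, e1⟩ <;>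
    first
    | (exfalso; omega)
    | (rw [e0, e1]; simp)
  · simp only
    rcases dir_cases k with ⟨h0, e0⟩ | ⟨h0, e0⟩ | ⟨h0, e0⟩ | ⟨h0, e0⟩ <;> rw [e0] <;> simp
  · simp

section

variable {K : ℕ} {o : ℂ} {δ : ℝ}

lemma LX_near (hδ : 0 < δ) (h5 : 5 * δ ≤ mesh (K + 1)) {a : ℝ} {i x : ℤ} (h1 : LX K a δ i ≤ x)
    (h2 : x ≤ LX K a δ (i + 1)) : |δ * x - (a + i * mesh (K + 1))| ≤ 2 * mesh (K + 1) := by
  have hm := mesh_pos (K + 1)
  have e1 := (rnd_bounds (lty i) ((a + i * mesh (K + 1)) / δ)).1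
  have e2 := (rnd_bounds (lty (i + 1)) ((a + ((i + 1 : ℤ) : ℝ) * mesh (K + 1)) / δ)).2
  have h1' : ((LX K a δ i : ℤ) : ℝ) ≤ x := by exact_mod_cast h1
  have h2' : (x : ℝ) ≤ ((LX K a δ (i + 1) : ℤ) : ℝ) := by exact_mod_cast h2
  unfold LX at h1' h2'
  have e3 : (a + i * mesh (K + 1)) / δ - 1 ≤ x := e1.trans h1'
  have e4 : (x : ℝ) ≤ (a + ((i + 1 : ℤ) : ℝ) * mesh (K + 1)) / δ + 1 := h2'.trans e2
  have e5 : a + i * mesh (K + 1) ≤ (x + 1) * δ := by
    rw [← div_le_iff₀ hδ]; linarith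
  have e6 : (x - 1) * δ ≤ a + ((i + 1 : ℤ) : ℝ) * mesh (K + 1) := by
    rw [← le_div_iff₀ hδ]; linarith
  push_cast at e6
  rw [abs_le]
  constructor <;> nlinarith

/-- Vertices of a closed side are near the cell. -/
lemma sV_dist (hδ : 0 < δ) (h5 : 5 * δ ≤ mesh (K + 1)) {t : (ℤ × ℤ) × ℤ} {v : ℤ × ℤ}
    (h : sV (LX K o.re δ) (LX K o.im δ) t v) :
    dist (pt δ v) (gpt o K t.1) ≤ 4 * mesh (K + 1) := by
  obtain ⟨⟨⟨h1, h2⟩, h3, h4⟩, -⟩ := h
  have e1 := LX_near hδ h5 h1 h2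
  have e2 := LX_near hδ h5 h3 h4
  rw [Complex.dist_eq]
  refine (Complex.norm_le_abs_re_add_abs_im _).trans ?_
  have e3 : (pt δ v - gpt o K t.1).re = δ * v.1 - (o.re + t.1.1 * mesh (K + 1)) := by
    rw [Complex.sub_re]; rfl
  have e4 : (pt δ v - gpt o K t.1).im = δ * v.2 - (o.im + t.1.2 * mesh (K + 1)) := by
    rw [Complex.sub_im]; rfl
  rw [e3, e4]
  linarith

end

/-- A lattice box which contains the vertices near `a`. -/
lemma lat_arm {δ : ℝ} (hδ : 0 < δ) (a : ℂ) {k : ℕ} {R1 R2 : ℝ} (hR1 : 0 < R1)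
    (h : 4 ^ k * (R1 + 3 * δ) + δ ≤ R2 / 2) : ∃ (cc : ℤ × ℤ) (r : ℤ), 1 ≤ r ∧
      (∀ v : ℤ × ℤ, dist (pt δ v) a ≤ R1 → |v.1 - cc.1| ≤ r ∧ |v.2 - cc.2| ≤ r) ∧
      ∀ v : ℤ × ℤ, R2 ≤ dist (pt δ v) a → 4 ^ k * r ≤ |v.1 - cc.1| ∨ 4 ^ k * r ≤ |v.2 - cc.2| := by
  set cc : ℤ × ℤ := (⌊a.re / δ⌋, ⌊a.im / δ⌋) with hcc
  set r : ℤ := ⌈R1 / δ⌉ + 1 with hr
  have hr1 : (r : ℝ) ≤ R1 / δ + 2 := by
    have := Int.ceil_lt_add_one (R1 / δ)
    rw [hr]; push_cast; linarith
  have hr2 : R1 / δ + 1 ≤ (r : ℝ) := by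
    have := Int.le_ceil (R1 / δ)
    rw [hr]; push_cast; linarith
  have hr3 : 1 ≤ r := by
    have h1 : 0 ≤ R1 / δ := by positivity
    have h2 : (1 : ℝ) ≤ (r : ℝ) := by linarith
    exact_mod_cast h2
  have hfl : ∀ t : ℝ, |δ * ⌊t / δ⌋ - t| ≤ δ := by
    intro t
    have h1 := Int.floor_le (t / δ)
    have h2 := Int.lt_floor_add_one (t / δ)
    rw [le_div_iff₀ hδ] at h1
    rw [div_lt_iff₀ hδ] at h2
    rw [abs_le]
    constructor <;> nlinarith
  have f1 := hfl a.re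
  have f2 := hfl a.im
  refine ⟨cc, r, hr3, fun v hv => ?_, fun v hv => ?_⟩
  · have hv' : ‖pt δ v - a‖ ≤ R1 := by rw [← Complex.dist_eq]; exact hv
    have g1 := (Complex.abs_re_le_norm (pt δ v - a)).trans hv'
    have g2 := (Complex.abs_im_le_norm (pt δ v - a)).trans hv'
    have e1 : (pt δ v - a).re = δ * v.1 - a.re := by rw [Complex.sub_re]; rfl
    have e2 : (pt δ v - a).im = δ * v.2 - a.im := by rw [Complex.sub_im]; rfl
    rw [e1] at g1
    rw [e2] at g2
    have key : ∀ (x y : ℤ) (t : ℝ), |δ * x - t| ≤ R1 → |δ * y - t| ≤ δ → |x - y| ≤ r := by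
      intro x y t h1 h2
      have h3 : |δ * x - δ * y| ≤ R1 + δ := by
        have := abs_sub_le (δ * x) t (δ * y)
        rw [abs_sub_comm t] at this
        linarith
      rw [← mul_sub, abs_mul, abs_of_pos hδ] at h3
      have h4 : |(x : ℝ) - y| ≤ R1 / δ + 1 := by
        rw [div_add_one hδ.ne', le_div_iff₀ hδ]
        linarith
      have h5 : |(x : ℝ) - y| ≤ (r : ℝ) := h4.trans hr2
      exact_mod_cast h5
    exact ⟨key _ _ _ g1 f1, key _ _ _ g2 f2⟩
  · have h4 : R2 / 2 ≤ |δ * v.1 - a.re| ∨ R2 / 2 ≤ |δ * v.2 - a.im| := by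
      by_contra hcon
      rw [not_or, not_le, not_le] at hcon
      have g := Complex.norm_le_abs_re_add_abs_im (pt δ v - a)
      have e1 : (pt δ v - a).re = δ * v.1 - a.re := by rw [Complex.sub_re]; rfl
      have e2 : (pt δ v - a).im = δ * v.2 - a.im := by rw [Complex.sub_im]; rfl
      rw [e1, e2, ← Complex.dist_eq] at g
      linarith [hcon.1, hcon.2]
    have key : ∀ (x y : ℤ) (t : ℝ), R2 / 2 ≤ |δ * x - t| → |δ * y - t| ≤ δ →
        4 ^ k * r ≤ |x - y| := by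
      intro x y t h1 h2
      have h3 : R2 / 2 - δ ≤ |δ * x - δ * y| := by
        have := abs_sub_le (δ * x) (δ * y) t
        linarith
      rw [← mul_sub, abs_mul, abs_of_pos hδ] at h3
      have h5 : (4 : ℝ) ^ k * r ≤ |(x : ℝ) - y| := by
        have h6 : (4 : ℝ) ^ k * r * δ ≤ 4 ^ k * (R1 + 2 * δ) := by
          have h7 : (r : ℝ) * δ ≤ R1 + 2 * δ := by
            have := mul_le_mul_of_nonneg_right hr1 hδ.le
            rw [add_mul, div_mul_cancel₀ _ hδ.ne'] at this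
            exact this
          rw [mul_assoc]
          exact mul_le_mul_of_nonneg_left h7 (by positivity)
        have h8 : (4 : ℝ) ^ k * (R1 + 2 * δ) ≤ 4 ^ k * (R1 + 3 * δ) :=
          mul_le_mul_of_nonneg_left (by linarith) (by positivity)
        have h9 : (4 : ℝ) ^ k * r * δ ≤ δ * |(x : ℝ) - y| := by linarith
        rw [mul_comm δ] at h9
        exact le_of_mul_le_mul_right h9 hδ
      exact_mod_cast h5
    rcases h4 with h4 | h4
    · exact Or.inl (key _ _ _ h4 f1)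
    · exact Or.inr (key _ _ _ h4 f2)

section

variable {D : Set ℂ} {a b : ℂ} {A₁ A₂ : Set ℂ} {A : Approx D a b A₁ A₂} {r0 : ℝ}
  {B : Base A r0} {K : ℕ} {C : Finset Cell} {M : ℕ} {BB : Cell} {z : ℂ} {ρ da d0 : ℝ}
  {c0 : ℤ × ℤ} {n : ℕ} {s : (ℤ × ℤ) × ℤ} {τ A' : Finset (ℤ × ℤ)} {p0 : ℕ}
  {n' : ℕ} {s' : (ℤ × ℤ) × ℤ} {τ' A'' : Finset (ℤ × ℤ)} {p0' : ℕ}

/-- The run is not empty. -/
lemma TipOk.run (hT : TipOk B K C M BB z ρ c0 n s τ A' p0) :
    (dC B K C M BB z s).n1 < (dC B K C M BB z s).n2 := by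
  obtain ⟨m, h1, h2, -⟩ := hT.tied.run
  omega

/-- The run ends before the last side. -/
lemma TipOk.n2_lt (hT : TipOk B K C M BB z ρ c0 n s τ A' p0)
    (hfar : ∀ c ∈ (dC B K C M BB z s).H2, da ≤ dist (gpt B.o K c) a)
    (hρ : ρ + 30 * mesh (K + 1) ≤ da) :
    (dC B K C M BB z s).n2 < (dC B K C M BB z s).N := by
  have hmp := mesh_pos (K + 1)
  have ok := hT.tied.ok
  have h3 := ok.mark.walk.three
  rcases lt_or_eq_of_le ok.mark.le' with h | h
  · exact h
  exfalso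
  have hrun := hT.run
  have h1 := (ok.mark.run ((dC B K C M BB z s).N - 1) (by omega)).2 ⟨by omega, by omega⟩
  have h2 := hfar _ (SD.H_sub_H2 h1)
  have h4 := next_cell (dC B K C M BB z s).R
    ((nextSide (dC B K C M BB z s).R)^[(dC B K C M BB z s).N - 1] s)
  rw [← Function.iterate_succ_apply' (nextSide (dC B K C M BB z s).R)] at h4
  have h5 : ((dC B K C M BB z s).N - 1).succ = (dC B K C M BB z s).N := by omega
  rw [h5] at h4
  have h6 := ok.mark.walk.period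
  have h7 : (nextSide (dC B K C M BB z s).R)^[(dC B K C M BB z s).N] s = (s.1, s.2 + 4) := h6
  rw [h7] at h4
  have h8 := gpt_dist B.o K h4.symm
  have h9 := gpt_outc B K ((nextSide (dC B K C M BB z s).R)^[(dC B K C M BB z s).N - 1] s)
  have h10 := hT.near
  set x := (nextSide (dC B K C M BB z s).R)^[(dC B K C M BB z s).N - 1] s with hx
  have h11 : da ≤ dist (gpt B.o K (outc x)) a := h2
  have h12 := dist_triangle (gpt B.o K (outc x)) (gpt B.o K x.1) a
  have h13 := dist_triangle (gpt B.o K x.1) (gpt B.o K s.1) a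
  rw [dist_comm (gpt B.o K (outc x)) (gpt B.o K x.1)] at h12
  push_cast at h8
  linarith

/-- **Sides between two tip sides are near `a`.** -/
lemma between (hE : EvN B K C M BB z ρ da d0 c0 n) (hE' : EvN B K C M BB z ρ da d0 c0 n')
    (hc0 : ∀ s, c0 ∈ (dC B K C M BB z s).P \ (dC B K C M BB z s).H2)
    (hT : TipOk B K C M BB z ρ c0 n s τ A' p0)
    (hT' : TipOk B K C M BB z ρ c0 n' s' τ' A'' p0')
    (hfar : ∀ s, ∀ c ∈ (dC B K C M BB z s).H2, da ≤ dist (gpt B.o K c) a)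
    {ρ1 d1 : ℝ} (hρ1 : ρ + 30 * mesh (K + 1) ≤ ρ1) (hρda : ρ1 + 32 * mesh (K + 1) ≤ da)
    (hab : 2 * ρ1 + 2 * mesh (K + 1) ≤ dist a b)
    (hap : ∀ w, ρ1 ≤ dist w a → ρ1 ≤ dist w b →
      4 * d1 ≤ Metric.infDist w A₁ + Metric.infDist w A₂)
    (hd : d0 + 30 * mesh (K + 1) < 2 * d1) {m : ℕ} (hm : m < (dC B K C M BB z s).n1)
    (he : Eqv ((nextSide (dC B K C M BB z s).R)^[m] s) s') :
    ∀ i ≤ m, dist (gpt B.o K ((nextSide (dC B K C M BB z s).R)^[i] s).1) a < ρ1 := by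
  classical
  have hmp := mesh_pos (K + 1)
  have ok := hT.tied.ok
  have hrun := hT.run
  have hle' := ok.mark.le'
  by_contra hcon
  push Not at hcon
  obtain ⟨hi1, hi2⟩ := Nat.find_spec hcon
  have hmin : ∀ j < Nat.find hcon,
      ¬ (j ≤ m ∧ ρ1 ≤ dist (gpt B.o K ((nextSide (dC B K C M BB z s).R)^[j] s).1) a) :=
    fun j hj => Nat.find_min hcon hj
  generalize Nat.find hcon = i at hi1 hi2 hmin
  have hi0 : i ≠ 0 := by
    rintro rfl
    have h1 := hT.near
    have h2 : ρ1 ≤ dist (gpt B.o K s.1) a := hi2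
    linarith
  have him : i ≠ m := by
    rintro rfl
    have h1 := hT'.near
    rw [← he.1] at h1
    linarith
  obtain ⟨j, rfl⟩ := Nat.exists_eq_succ_of_ne_zero hi0
  have hj : dist (gpt B.o K ((nextSide (dC B K C M BB z s).R)^[j] s).1) a < ρ1 := by
    by_contra h
    push Not at h
    exact hmin j (Nat.lt_succ_self j) ⟨by omega, h⟩
  have hup : dist (gpt B.o K ((nextSide (dC B K C M BB z s).R)^[j + 1] s).1) a <
      ρ1 + 2 * mesh (K + 1) := by
    have h4 := next_cell (dC B K C M BB z s).R ((nextSide (dC B K C M BB z s).R)^[j] s)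
    rw [← Function.iterate_succ_apply' (nextSide (dC B K C M BB z s).R)] at h4
    have h5 := gpt_dist B.o K h4
    push_cast at h5
    have h6 := dist_triangle (gpt B.o K ((nextSide (dC B K C M BB z s).R)^[j + 1] s).1)
      (gpt B.o K ((nextSide (dC B K C M BB z s).R)^[j] s).1) a
    have h7 : dist (gpt B.o K ((nextSide (dC B K C M BB z s).R)^[j + 1] s).1)
      (gpt B.o K ((nextSide (dC B K C M BB z s).R)^[j] s).1) ≤ 2 * 1 * mesh (K + 1) := h5
    linarith
  have hlow : ρ1 ≤ dist (gpt B.o K ((nextSide (dC B K C M BB z s).R)^[j + 1] s).1) a := hi2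
  set w := gpt B.o K ((nextSide (dC B K C M BB z s).R)^[j + 1] s).1 with hw
  have hwb : ρ1 ≤ dist w b := by
    have := dist_triangle a w b
    rw [dist_comm a w] at this
    linarith
  have h1 := near_wired (i := j + 1) hE (hc0 s) hT (hfar s) (by omega) (by omega)
    ⟨hρ1.trans hlow, by
      change dist w a + 30 * mesh (K + 1) ≤ da
      linarith⟩
  have h1' : Metric.infDist w A₁ ≤ d0 + 30 * mesh (K + 1) := h1
  -- the same side in the other walk
  have hR : (dC B K C M BB z s).R = comp ((dC B K C M BB z s).P \ (dC B K C M BB z s).H2) c0 :=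
    comp_eq (hc0 s) hT.mem
  have hR' : (dC B K C M BB z s').R = comp ((dC B K C M BB z s).P \ (dC B K C M BB z s).H2) c0 :=
    comp_eq (hc0 s') hT'.mem
  have hRR : (dC B K C M BB z s').R = (dC B K C M BB z s).R := hR'.trans hR.symm
  obtain ⟨g1, g2, g3⟩ := marks_shift (d := dC B K C M BB z s) (s' := s') ok hT'.tied.ok hRR hm he
    hrun
  have g1' : (dC B K C M BB z s').N = (dC B K C M BB z s).N := g1
  have g3' : (dC B K C M BB z s').n2 = (dC B K C M BB z s).n2 - m := g3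
  have hEq : ((nextSide (dC B K C M BB z s').R)^[(dC B K C M BB z s).N - m + (j + 1)] s').1 =
      ((nextSide (dC B K C M BB z s).R)^[j + 1] s).1 := by
    rw [hRR]
    have e1 := (he.symm).iter' (Q := (dC B K C M BB z s).R)
      ((dC B K C M BB z s).N - m + (j + 1))
    rw [e1.1, ← Function.iterate_add_apply,
      show (dC B K C M BB z s).N - m + (j + 1) + m = j + 1 + (dC B K C M BB z s).N by omega]
    have e2 := iter_shift ok.mark.walk (j + 1)
    have e3 : (nextSide (dC B K C M BB z s).R)^[j + 1 + (dC B K C M BB z s).N] s =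
      (((nextSide (dC B K C M BB z s).R)^[j + 1] s).1,
        ((nextSide (dC B K C M BB z s).R)^[j + 1] s).2 + 4) := e2
    rw [e3]
  have hpos : gpt B.o K ((dC B K C M BB z s').sid ((dC B K C M BB z s).N - m + (j + 1))).1 = w := by
    rw [hw, ← hEq]
    rfl
  have h2 := near_dual (i := (dC B K C M BB z s).N - m + (j + 1)) hE' (hc0 s') hT' (hfar s')
    (by omega) (by omega)
    ⟨by rw [hpos]; exact hρ1.trans hlow, by rw [hpos]; linarith⟩
  rw [hpos] at h2
  have h3 := hap w hlow hwb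
  linarith

/-- **The crossing probabilities of two tip sides**, one order. -/
lemma pair_one (hE : EvN B K C M BB z ρ da d0 c0 n) (hE' : EvN B K C M BB z ρ da d0 c0 n')
    (hc0 : ∀ s, c0 ∈ (dC B K C M BB z s).P \ (dC B K C M BB z s).H2)
    (hT : TipOk B K C M BB z ρ c0 n s τ A' p0)
    (hT' : TipOk B K C M BB z ρ c0 n' s' τ' A'' p0')
    (hfar : ∀ s, ∀ c ∈ (dC B K C M BB z s).H2, da ≤ dist (gpt B.o K c) a)
    {ρ1 d1 : ℝ} (hρ1 : ρ + 30 * mesh (K + 1) ≤ ρ1) (hρda : ρ1 + 32 * mesh (K + 1) ≤ da)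
    (hab : 2 * ρ1 + 2 * mesh (K + 1) ≤ dist a b)
    (hap : ∀ w, ρ1 ≤ dist w a → ρ1 ≤ dist w b →
      4 * d1 ≤ Metric.infDist w A₁ + Metric.infDist w A₂)
    (hd : d0 + 30 * mesh (K + 1) < 2 * d1) {m : ℕ} (hm : m < (dC B K C M BB z s).n1)
    (he : Eqv ((nextSide (dC B K C M BB z s).R)^[m] s) s') {κ : ℝ} (hκ : Dcy κ) {k : ℕ}
    {δ : ℝ} (hδ : 0 < δ) (hδ5 : 5 * δ ≤ mesh (K + 1))
    (hk : 4 ^ k * (2 * ρ1 + 3 * δ) + δ ≤ da / 4) (j : ℕ) :
    |(dC B K C M BB z s).gg (LX K B.o.re δ) (LX K B.o.im δ) j -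
      (dC B K C M BB z s').gg (LX K B.o.re δ) (LX K B.o.im δ) j| ≤ (1 - κ) ^ k := by
  have hmp := mesh_pos (K + 1)
  have hbt := between hE hE' hc0 hT hT' hfar hρ1 hρda hab hap hd hm he
  have hρ10 : 0 < ρ1 := by
    have := hbt 0 (Nat.zero_le _)
    exact lt_of_le_of_lt dist_nonneg this
  have hR : (dC B K C M BB z s).R = comp ((dC B K C M BB z s).P \ (dC B K C M BB z s).H2) c0 :=
    comp_eq (hc0 s) hT.mem
  have hR' : (dC B K C M BB z s').R = comp ((dC B K C M BB z s).P \ (dC B K C M BB z s).H2) c0 :=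
    comp_eq (hc0 s') hT'.mem
  have hRR : (dC B K C M BB z s').R = (dC B K C M BB z s).R := hR'.trans hR.symm
  obtain ⟨cc, r, hr, hnear, hfa⟩ := lat_arm hδ a (k := k) (R1 := 2 * ρ1) (R2 := da / 2)
    (by positivity) (by linarith)
  have hmρ : 4 * mesh (K + 1) ≤ ρ1 := by
    have := hT.near
    have h0 : 0 ≤ ρ := dist_nonneg.trans this.le
    linarith
  have hρda' : ρ + 30 * mesh (K + 1) ≤ da := by linarith
  refine gg_shift (d := dC B K C M BB z s) (s' := s') (c := cc) (r := r) hT.tied.ok hT'.tied.ok hRR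
    hm he hT.run (hT.n2_lt (hfar s) hρda') hκ hr ?_ ?_ j
  · intro i hi v hv
    apply hnear
    have h1 := sV_dist hδ hδ5 hv
    have h2 := hbt i (by omega)
    have h3 := dist_triangle (pt δ v) (gpt B.o K ((nextSide (dC B K C M BB z s).R)^[i] s).1) a
    have h4 : dist (pt δ v) (gpt B.o K ((nextSide (dC B K C M BB z s).R)^[i] s).1) ≤
      4 * mesh (K + 1) := h1
    linarith
  · intro i hi1 hi2 v hv
    apply hfa
    have h1 : dist (pt δ v) (gpt B.o K ((nextSide (dC B K C M BB z s).R)^[i] s).1) ≤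
      4 * mesh (K + 1) := sV_dist hδ hδ5 hv
    have h2 := gpt_outc B K ((nextSide (dC B K C M BB z s).R)^[i] s)
    have ok := hT.tied.ok
    have h3 := (ok.mark.run i (by have := ok.mark.le'; omega)).2 ⟨hi1, hi2⟩
    have h4 : da ≤ dist (gpt B.o K (outc ((nextSide (dC B K C M BB z s).R)^[i] s))) a :=
      hfar s _ (SD.H_sub_H2 h3)
    set x := (nextSide (dC B K C M BB z s).R)^[i] s with hx
    have h5 := dist_triangle (gpt B.o K (outc x)) (gpt B.o K x.1) a
    have h6 := dist_triangle (gpt B.o K x.1) (pt δ v) a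
    rw [dist_comm (gpt B.o K (outc x)) (gpt B.o K x.1)] at h5
    rw [dist_comm (gpt B.o K x.1) (pt δ v)] at h6
    have h0 : 0 ≤ ρ := dist_nonneg.trans hT.near.le
    linarith

/-- Relation between the runs of two tip sides. -/
structure SameRun (d d' : SD) : Prop where
  h : d.h = d'.h
  side : ∀ m < d.h, Eqv ((nextSide d.R)^[d.n1 + m] d.s) ((nextSide d'.R)^[d'.n1 + m] d'.s)

lemma SameRun.symm {d d' : SD} (h : SameRun d d') : SameRun d' d :=
  ⟨h.h.symm, fun m hm => (h.side m (h.h ▸ hm)).symm⟩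

lemma same_run {d : SD} {s' : (ℤ × ℤ) × ℤ} (h : d.Ok) (h' : ({d with s := s'} : SD).Ok)
    (hR : ({d with s := s'} : SD).R = d.R) {m : ℕ} (hm : m < d.n1)
    (he : Eqv ((nextSide d.R)^[m] d.s) s') (hrun : d.n1 < d.n2) :
    SameRun d ({d with s := s'} : SD) := by
  obtain ⟨e1, e2, e3⟩ := marks_shift h h' hR hm he hrun
  refine ⟨?_, fun j _ => ?_⟩
  · change d.n2 - d.n1 = ({d with s := s'} : SD).n2 - ({d with s := s'} : SD).n1
    rw [e2, e3]
    omega
  · rw [hR, e2]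
    have h2 : Eqv ((nextSide d.R)^[d.n1 + j] d.s) ((nextSide d.R)^[d.n1 - m + j] s') := by
      rw [show d.n1 + j = d.n1 - m + j + m by omega,
        Function.iterate_add_apply (nextSide d.R) (d.n1 - m + j) m]
      exact he.iter' _
    exact h2

/-- Two tip sides: one is before the run in the walk from the other. -/
lemma two_orders (hT : TipOk B K C M BB z ρ c0 n s τ A' p0)
    (hT' : TipOk B K C M BB z ρ c0 n' s' τ' A'' p0')
    (hc0 : ∀ s, c0 ∈ (dC B K C M BB z s).P \ (dC B K C M BB z s).H2) :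
    (∃ m < (dC B K C M BB z s).n1, Eqv ((nextSide (dC B K C M BB z s).R)^[m] s) s') ∨
    (∃ m < (dC B K C M BB z s').n1, Eqv ((nextSide (dC B K C M BB z s').R)^[m] s') s) := by
  have ok := hT.tied.ok
  have ok' := hT'.tied.ok
  have hR : (dC B K C M BB z s).R = comp ((dC B K C M BB z s).P \ (dC B K C M BB z s).H2) c0 :=
    comp_eq (hc0 s) hT.mem
  have hR' : (dC B K C M BB z s').R = comp ((dC B K C M BB z s).P \ (dC B K C M BB z s).H2) c0 :=
    comp_eq (hc0 s') hT'.mem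
  have hRR : (dC B K C M BB z s').R = (dC B K C M BB z s).R := hR'.trans hR.symm
  set Q := (dC B K C M BB z s).R with hQ
  have W : WalkN Q s (dC B K C M BB z s).N := ok.mark.walk
  have W' : WalkN Q s' (dC B K C M BB z s').N := by
    have := ok'.mark.walk
    rw [hRR] at this
    exact this
  have hside' : IsSide Q s' := by
    have := ok'.side
    rw [hRR] at this
    exact this
  have hside : IsSide Q s := ok.side
  obtain ⟨m, hm, h1, h2⟩ := W.all s' hside'
  have he : Eqv ((nextSide Q)^[m] s) s' := ⟨h1, h2⟩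
  have hN : (dC B K C M BB z s').N = (dC B K C M BB z s).N :=
    walkN_uniq W' (walkN_eqv (W.shift hm) he)
  rcases Nat.lt_or_ge m (dC B K C M BB z s).n1 with h3 | h3
  · exact Or.inl ⟨m, h3, he⟩
  -- the tip side is not in the run
  have hP' : outc s' ∉ (dC B K C M BB z s).H := fun h4 => by
    have h5 : outc s' ∈ (dC B K C M BB z s').P :=
      (HH_sub_PP (H1_sub_HH h4 : outc s' ∈ (dC B K C M BB z s').H2))
    exact ok'.tipO h5
  have hmn : (dC B K C M BB z s).n2 ≤ m := by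
    by_contra h4
    push Not at h4
    apply hP'
    rw [← outc_eqv he]
    exact (ok.mark.run m hm).2 ⟨h3, h4⟩
  right
  have hrun := hT.run
  have he' : Eqv ((nextSide Q)^[(dC B K C M BB z s).N - m] s') s := by
    have e1 := (he.symm).iter' (Q := Q) ((dC B K C M BB z s).N - m)
    rw [← Function.iterate_add_apply,
      show (dC B K C M BB z s).N - m + m = (dC B K C M BB z s).N by omega, W.period] at e1
    exact e1.trans ⟨rfl, by simp⟩
  refine ⟨(dC B K C M BB z s).N - m, ?_, by rw [hRR]; exact he'⟩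
  -- a side of the run
  by_contra h4
  push Not at h4
  have h5 : outc ((nextSide Q)^[(dC B K C M BB z s).n1] s) ∈ (dC B K C M BB z s).H :=
    (ok.mark.run _ (by omega)).2 ⟨le_rfl, hrun⟩
  have h6 : Eqv ((nextSide Q)^[(dC B K C M BB z s).N - m + (dC B K C M BB z s).n1] s')
      ((nextSide Q)^[(dC B K C M BB z s).n1] s) := by
    rw [add_comm, Function.iterate_add_apply]
    exact he'.iter' _
  rw [← outc_eqv h6] at h5
  have h7 := ok'.mark.run ((dC B K C M BB z s).N - m + (dC B K C M BB z s).n1)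
    (by rw [hN]; omega)
  have h8 : (nextSide (dC B K C M BB z s').R)^[(dC B K C M BB z s).N - m +
      (dC B K C M BB z s).n1] (dC B K C M BB z s').s =
      (nextSide Q)^[(dC B K C M BB z s).N - m + (dC B K C M BB z s).n1] s' := by
    rw [hRR]; rfl
  rw [h8] at h7
  have h9 := h7.1 h5
  -- the tip side `s` would be in the run
  have h10 := ok'.mark.run ((dC B K C M BB z s).N - m)
    (by rw [hN]; omega)
  have h11 : (nextSide (dC B K C M BB z s').R)^[(dC B K C M BB z s).N - m]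
      (dC B K C M BB z s').s = (nextSide Q)^[(dC B K C M BB z s).N - m] s' := by
    rw [hRR]; rfl
  rw [h11, outc_eqv he'] at h10
  have h12 := h10.2 ⟨h4, by omega⟩
  have h13 : outc s ∈ (dC B K C M BB z s).P :=
    (HH_sub_PP (H1_sub_HH h12 : outc s ∈ (dC B K C M BB z s).H2))
  exact ok.tipO h13

end

end Pool.Agent.H14.NB
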