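import Pool.Agent.H14.NB.Orb
import Pool.Agent.Q1.M3.Defs

set_option autoImplicit false
open Set Topology Filter
open Pool.Agent.H81.Q1

/-! # The marked vertices are joined to the bulk near the marked points -/

namespace Pool.Agent.H14.NB

open Pool.Agent.H75.Perc (Co IsUnit4 vx Ad)
open Pool.Agent.H75.Four (eu ev)
open Pool.Agent.H69.Q1 (isUnit_of_adj vx_cor)
open Pool.Agent.Q1.M3 (kap mem_kap_iff)

/-- The same domain with the marks exchanged. -/
def _root_.Pool.Agent.H81.Q1.DDomain.swap (X : DDomain) : DDomain where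
  V := X.V
  E := X.E
  finV := X.finV
  subE := X.subE
  conn := X.conn
  noHole := X.noHole
  α := X.β
  β := X.α
  memα := X.memβ
  memβ := X.memα
  outα := X.outβ
  outβ := X.outα
  ne := X.ne.symm

/-- The same approximation with the marks exchanged. -/
def _root_.Pool.Agent.H81.Q1.Approx.swap {D : Set ℂ} {a b : ℂ} {A₁ A₂ : Set ℂ}
    (A : Approx D a b A₁ A₂) : Approx D b a A₂ A₁ where
  δ := A.δ
  X n := (A.X n).swap
  pos := A.pos
  lim := A.lim
  fill := A.fill
  sub := A.sub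
  limα := A.limβ
  limβ := A.limα
  wired := A.dual
  dual := A.wired

lemma isArcs_swap {D : Set ℂ} {a b : ℂ} {A₁ A₂ : Set ℂ} (h : IsArcs D a b A₁ A₂) :
    IsArcs D b a A₂ A₁ :=
  ⟨h.closed₂, h.closed₁, h.conn₂, h.conn₁, by rw [union_comm]; exact h.union,
    by rw [inter_comm, h.inter, pair_comm]⟩

/-! ### Connected sets of vertices -/

/-- `N` is connected by edges of the domain with both ends in `N`. -/
def ConnN (X : DDomain) (N : Finset (ℤ × ℤ)) : Prop :=
  ∀ u ∈ N, ∀ v ∈ N, Co (kap N ∩ LabE X) u v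

lemma lab_kap {N : Finset (ℤ × ℤ)} {u v : ℤ × ℤ} (hu : u ∈ N) (hv : v ∈ N)
    (h : IsUnit4 (v - u)) : u + v ∈ kap N := by
  have h0 := h
  unfold IsUnit4 at h
  simp only [Prod.ext_iff, Prod.fst_sub, Prod.snd_sub] at h
  have he : ((u + v).1 + (u + v).2) % 2 = 1 := by
    simp only [Prod.fst_add, Prod.snd_add]; omega
  rw [mem_kap_iff he]
  have : (eu (u + v) = u ∧ ev (u + v) = v) ∨ (eu (u + v) = v ∧ ev (u + v) = u) := by
    simp only [eu, ev, Prod.ext_iff, Prod.fst_add, Prod.snd_add]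
    omega
  rcases this with ⟨h1, h2⟩ | ⟨h1, h2⟩ <;> rw [h1, h2]
  · exact ⟨hu, hv⟩
  · exact ⟨hv, hu⟩

lemma unit_of_edge {X : DDomain} {u v : ℤ × ℤ} (h : s(u, v) ∈ X.E) : IsUnit4 (v - u) := by
  have h3 := isUnit_of_adj (subZ2 X h)
  unfold IsUnit4
  simp only [Prod.ext_iff, Prod.fst_sub, Prod.snd_sub, Prod.fst_add, Prod.snd_add] at h3 ⊢
  omega

lemma co_edge {X : DDomain} {N : Finset (ℤ × ℤ)} {u v : ℤ × ℤ} (hu : u ∈ N) (hv : v ∈ N)
    (h : s(u, v) ∈ X.E) : Co (kap N ∩ LabE X) u v :=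
  Relation.ReflTransGen.single ⟨unit_of_edge h, Finset.mem_inter.2
    ⟨lab_kap hu hv (unit_of_edge h), (lb_mem_LabE X (subZ2 X h)).2 h⟩⟩

lemma co_mono {X : DDomain} {N N' : Finset (ℤ × ℤ)} (h : N ⊆ N') {u v : ℤ × ℤ}
    (hc : Co (kap N ∩ LabE X) u v) : Co (kap N' ∩ LabE X) u v := by
  refine hc.mono ?_
  intro e he
  rw [Finset.mem_inter] at he ⊢
  refine ⟨?_, he.2⟩
  have ho := odd_LabE X he.2
  rw [mem_kap_iff ho] at he ⊢
  exact ⟨h he.1.1, h he.1.2⟩

lemma ConnN.union {X : DDomain} {N N' : Finset (ℤ × ℤ)} (h : ConnN X N) (h' : ConnN X N')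
    (hne : (N ∩ N').Nonempty) : ConnN X (N ∪ N') := by
  obtain ⟨w, hw⟩ := hne
  rw [Finset.mem_inter] at hw
  have key : ∀ u ∈ N ∪ N', Co (kap (N ∪ N') ∩ LabE X) u w := by
    intro u hu
    rcases Finset.mem_union.1 hu with h1 | h1
    · exact co_mono Finset.subset_union_left (h u h1 w hw.1)
    · exact co_mono Finset.subset_union_right (h' u h1 w hw.2)
  intro u hu v hv
  exact (key u hu).trans (key v hv).symm

/-- The vertices of a path. -/
lemma connN_path {X : DDomain} {c : ℕ → ℤ × ℤ}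
    (hc : ∀ t, c (t + 1) = c t ∨ s(c t, c (t + 1)) ∈ X.E) (m : ℕ) :
    ConnN X ((Finset.range (m + 1)).image c) := by
  have key : ∀ t ≤ m, Co (kap ((Finset.range (m + 1)).image c) ∩ LabE X) (c 0) (c t) := by
    intro t ht
    induction t with
    | zero => exact Co.refl _ _
    | succ t ih =>
      refine (ih (by omega)).trans ?_
      rcases hc t with h | h
      · rw [h]; exact Co.refl _ _
      · exact co_edge (Finset.mem_image_of_mem _ (Finset.mem_range.2 (by omega)))
          (Finset.mem_image_of_mem _ (Finset.mem_range.2 (by omega))) h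
  intro u hu v hv
  obtain ⟨s, hs, rfl⟩ := Finset.mem_image.1 hu
  obtain ⟨t, ht, rfl⟩ := Finset.mem_image.1 hv
  rw [Finset.mem_range] at hs ht
  exact (key s (by omega)).symm.trans (key t (by omega))

/-! ### Distances -/

lemma dist_pt_le {δ : ℝ} (hδ : 0 ≤ δ) {u v : ℤ × ℤ} (h1 : |u.1 - v.1| ≤ 1) (h2 : |u.2 - v.2| ≤ 1) :
    dist (pt δ u) (pt δ v) ≤ 2 * δ := by
  rw [Complex.dist_eq]
  refine (Complex.norm_le_abs_re_add_abs_im _).trans ?_
  have e1 : (pt δ u - pt δ v).re = δ * ((u.1 - v.1 : ℤ) : ℝ) := by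
    simp only [pt, Complex.sub_re]; push_cast; ring
  have e2 : (pt δ u - pt δ v).im = δ * ((u.2 - v.2 : ℤ) : ℝ) := by
    simp only [pt, Complex.sub_im]; push_cast; ring
  have g1 : |((u.1 - v.1 : ℤ) : ℝ)| ≤ 1 := by rw [← Int.cast_abs]; exact_mod_cast h1
  have g2 : |((u.2 - v.2 : ℤ) : ℝ)| ≤ 1 := by rw [← Int.cast_abs]; exact_mod_cast h2
  rw [e1, e2, abs_mul, abs_mul, abs_of_nonneg hδ]
  nlinarith

lemma dist_pt_dir {δ : ℝ} (hδ : 0 ≤ δ) (v : ℤ × ℤ) (q : ZMod 4) :
    dist (pt δ (v + dir q)) (pt δ v) ≤ 2 * δ := by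
  refine dist_pt_le hδ ?_ ?_
  · simp only [Prod.fst_add, add_sub_cancel_left]; exact (dir_abs q).1
  · simp only [Prod.snd_add, add_sub_cancel_left]; exact (dir_abs q).2

lemma dist_pt_edge {δ : ℝ} (hδ : 0 ≤ δ) {X : DDomain} {u v : ℤ × ℤ} (h : s(u, v) ∈ X.E) :
    dist (pt δ u) (pt δ v) ≤ 2 * δ := by
  have h1 := unit_of_edge h
  unfold IsUnit4 at h1
  simp only [Prod.ext_iff, Prod.fst_sub, Prod.snd_sub] at h1
  refine dist_pt_le hδ ?_ ?_ <;> rw [abs_le] <;> omega

/-- a zero of a sequence with small steps -/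
lemma small_value {f : ℕ → ℝ} {c : ℝ} (hf : ∀ t, |f (t + 1) - f t| ≤ c) (hc : 0 ≤ c) {i j : ℕ}
    (hij : i ≤ j) (hi : f i ≤ 0) (hj : 0 ≤ f j) : ∃ t, i ≤ t ∧ t ≤ j ∧ |f t| ≤ c := by
  classical
  have hex : ∃ t, i ≤ t ∧ 0 ≤ f t := ⟨j, hij, hj⟩
  obtain ⟨h1, h2⟩ : (i ≤ Nat.find hex ∧ 0 ≤ f (Nat.find hex)) ∧
      ∀ m < Nat.find hex, ¬ (i ≤ m ∧ 0 ≤ f m) := ⟨Nat.find_spec hex, fun m hm => Nat.find_min hex hm⟩
  have h3 : Nat.find hex ≤ j := Nat.find_min' hex ⟨hij, hj⟩
  set t := Nat.find hex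
  refine ⟨t, h1.1, h3, ?_⟩
  rcases eq_or_lt_of_le h1.1 with h4 | h4
  · have : f t = 0 := le_antisymm (by rw [← h4]; exact hi) h1.2
    rw [this, abs_zero]; exact hc
  · have h5 := h2 (t - 1) (by omega)
    have h6 : f (t - 1) < 0 := by
      by_contra h7
      exact h5 ⟨by omega, not_lt.1 h7⟩
    have h7 := hf (t - 1)
    rw [show t - 1 + 1 = t by omega, abs_le] at h7
    rw [abs_le]
    constructor
    · linarith [h1.2]
    · linarith

/-- a boundary point between a point outside and a point inside -/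
lemma exists_frontier {D : Set ℂ} {x y : ℂ} (hx : x ∉ D) (hy : y ∈ D) :
    ∃ z ∈ frontier D, dist x z ≤ dist x y := by
  have hS : IsPreconnected (segment ℝ x y) := (convex_segment x y).isPreconnected
  obtain ⟨z, hz, hz'⟩ : (segment ℝ x y ∩ frontier D).Nonempty := by
    by_contra hcon
    have hcov : segment ℝ x y ⊆ interior D ∪ interior Dᶜ := by
      intro z hz
      by_contra h
      rw [mem_union, not_or] at h
      refine hcon ⟨z, hz, ?_⟩
      rw [frontier_eq_closure_inter_closure, closure_compl]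
      refine ⟨?_, h.1⟩
      by_contra h1
      exact h.2 (by rw [interior_compl]; exact h1)
    have hdisj : Disjoint (interior D) (interior Dᶜ) :=
      (disjoint_compl_right (a := D)).mono interior_subset interior_subset
    rcases IsPreconnected.subset_or_subset isOpen_interior isOpen_interior hdisj hcov hS with h | h
    · exact hx (interior_subset (h (left_mem_segment ℝ x y)))
    · exact (interior_subset (h (right_mem_segment ℝ x y))) hy
  refine ⟨z, hz', ?_⟩
  have := dist_add_dist_of_mem_segment hz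
  have := dist_nonneg (x := z) (y := y)
  linarith

section

variable {D : Set ℂ} {a b : ℂ} {A₁ A₂ : Set ℂ}

/-- The arcs are apart away from `a` and `b`. -/
lemma arcs_apart (hA : IsArcs D a b A₁ A₂) {K : Set ℂ} (hK : IsCompact K) (ha : a ∉ K)
    (hb : b ∉ K) : ∃ d : ℝ, 0 < d ∧ ∀ z ∈ K, 4 * d ≤ Metric.infDist z A₁ + Metric.infDist z A₂ := by
  have hc1 : Continuous fun z => Metric.infDist z A₁ := Metric.continuous_infDist_pt A₁
  have hc2 : Continuous fun z => Metric.infDist z A₂ := Metric.continuous_infDist_pt A₂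
  rcases K.eq_empty_or_nonempty with h | h
  · exact ⟨1, one_pos, fun z hz => by rw [h] at hz; exact absurd hz (notMem_empty _)⟩
  · obtain ⟨z0, hz0, hmin⟩ := hK.exists_isMinOn h (hc1.add hc2).continuousOn
    have hpos : 0 < Metric.infDist z0 A₁ + Metric.infDist z0 A₂ := by
      have e1 : 0 ≤ Metric.infDist z0 A₁ := Metric.infDist_nonneg
      have e2 : 0 ≤ Metric.infDist z0 A₂ := Metric.infDist_nonneg
      rcases (add_nonneg e1 e2).lt_or_eq with h1 | h1
      · exact h1
      · exfalso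
        have e3 : Metric.infDist z0 A₁ = 0 := by linarith
        have e4 : Metric.infDist z0 A₂ = 0 := by linarith
        have e5 : z0 ∈ A₁ := (hA.closed₁.mem_iff_infDist_zero hA.conn₁.nonempty).2 e3
        have e6 : z0 ∈ A₂ := (hA.closed₂.mem_iff_infDist_zero hA.conn₂.nonempty).2 e4
        have e7 : z0 ∈ ({a, b} : Set ℂ) := by rw [← hA.inter]; exact ⟨e5, e6⟩
        rcases e7 with e8 | e8
        · rw [e8] at hz0; exact ha hz0
        · rw [mem_singleton_iff.1 e8] at hz0; exact hb hz0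
    refine ⟨(Metric.infDist z0 A₁ + Metric.infDist z0 A₂) / 4, by positivity, fun z hz => ?_⟩
    have : Metric.infDist z0 A₁ + Metric.infDist z0 A₂ ≤
      Metric.infDist z A₁ + Metric.infDist z A₂ := hmin hz
    linarith

/-- **`β` is joined to the bulk near `b`.** -/
theorem reach_β (hDo : IsOpen D) (hDb : Bornology.IsBounded D) (hDn : D.Nonempty) (hab : a ≠ b)
    (hA : IsArcs D a b A₁ A₂) (A : Approx D a b A₁ A₂) {r : ℝ} (hr : 0 < r) :
    ∃ G : Set ℂ, IsCompact G ∧ G ⊆ D ∩ Metric.ball b r ∧ ∀ᶠ n in atTop, ∃ N : Finset (ℤ × ℤ),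
      (A.X n).β.1 ∈ N ∧ ConnN (A.X n) N ∧ (∀ v ∈ N, pt (A.δ n) v ∈ Metric.ball b r) ∧
      ∃ v ∈ N, pt (A.δ n) v ∈ G := by
  classical
  have hab' : 0 < dist a b := dist_pos.2 hab
  set s : ℝ := min (r / 2) (dist a b / 2) with hs
  have hs0 : 0 < s := by positivity
  have hs1 : s ≤ r / 2 := min_le_left _ _
  have hs2 : s ≤ dist a b / 2 := min_le_right _ _
  have hcx : Continuous fun z : ℂ => dist z b := continuous_id.dist continuous_const
  have hKc : IsCompact {z : ℂ | s / 2 ≤ dist z b ∧ dist z b ≤ s} := by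
    refine Metric.isCompact_of_isClosed_isBounded ?_ ?_
    · exact (isClosed_le continuous_const hcx).inter (isClosed_le hcx continuous_const)
    · exact (Metric.isBounded_closedBall (x := b) (r := s)).subset fun z hz => hz.2
  obtain ⟨d, hd0, hd⟩ := arcs_apart hA hKc (by
    rintro ⟨h1, h2⟩; linarith) (by
    rintro ⟨h1, h2⟩; rw [dist_self] at h1; linarith)
  set G : Set ℂ := (closure D ∩ Metric.closedBall b s) ∩
    {z | d ≤ Metric.infDist z A₁ ∧ d ≤ Metric.infDist z A₂} with hG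
  have hc1 : Continuous fun z => Metric.infDist z A₁ := Metric.continuous_infDist_pt A₁
  have hc2 : Continuous fun z => Metric.infDist z A₂ := Metric.continuous_infDist_pt A₂
  have hGc : IsCompact G := ((hDb.isCompact_closure).inter_right
    Metric.isClosed_closedBall).inter_right
    ((isClosed_le continuous_const hc1).inter (isClosed_le continuous_const hc2))
  have hfr : ∀ z : ℂ, d ≤ Metric.infDist z A₁ → d ≤ Metric.infDist z A₂ → ∀ y ∈ frontier D,
      d ≤ dist z y := by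
    intro z h1 h2 y hy
    rw [← hA.union] at hy
    rcases hy with h3 | h3
    · exact h1.trans (Metric.infDist_le_dist_of_mem h3)
    · exact h2.trans (Metric.infDist_le_dist_of_mem h3)
  have hGD : G ⊆ D ∩ Metric.ball b r := by
    rintro z ⟨⟨h1, h2⟩, h3, h4⟩
    refine ⟨?_, ?_⟩
    · by_contra hz
      have h5 : z ∈ frontier D := by
        rw [hDo.frontier_eq]
        exact ⟨h1, hz⟩
      have h6 := hfr z h3 h4 z h5
      rw [dist_self] at h6
      linarith
    · rw [Metric.mem_closedBall] at h2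
      rw [Metric.mem_ball]
      linarith
  refine ⟨G, hGc, hGD, ?_⟩
  have e1 := A.wired d hd0
  have e2 := A.dual d hd0
  have e3 : ∀ᶠ n in atTop, A.δ n < min (d / 100) (s / 100) := A.lim.eventually_lt_const (by positivity)
  have e4 := A.sub (d / 2) (by positivity)
  have e5 : ∀ᶠ n in atTop, dist (pt (A.δ n) (A.X n).β.1) b < s / 2 :=
    (tendsto_iff_dist_tendsto_zero.1 A.limβ).eventually_lt_const (by positivity)
  have e6 : ∀ᶠ n in atTop, dist (pt (A.δ n) (A.X n).α.1) a < s / 2 :=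
    (tendsto_iff_dist_tendsto_zero.1 A.limα).eventually_lt_const (by positivity)
  filter_upwards [e1, e2, e3, e4, e5, e6] with n h1 h2 h3 h4 h5 h6
  have hδ := A.pos n
  have hδd : A.δ n < d / 100 := lt_of_lt_of_le h3 (min_le_left _ _)
  have hδs : A.δ n < s / 100 := lt_of_lt_of_le h3 (min_le_right _ _)
  set P : ℤ × ℤ → Prop := fun v => dist (pt (A.δ n) v) b < s with hP
  obtain ⟨c, i, j, hij, hc0, hcV, hcs, hci, hcj, hcf⟩ := exists_crossing (X := A.X n) (P := P)
    (by simp only [hP]; linarith)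
    (by
      intro q
      simp only [hP]
      have g1 := dist_triangle (pt (A.δ n) ((A.X n).β.1 + dir q)) (pt (A.δ n) (A.X n).β.1) b
      have g2 := dist_pt_dir hδ.le (A.X n).β.1 q
      linarith)
    (by
      simp only [hP]
      have g1 := dist_triangle_left a b (pt (A.δ n) (A.X n).α.1)
      linarith)
  set q : ℕ → ℂ := fun t => pt (A.δ n) (c t).1 with hq
  have hstep : ∀ t, dist (q t) (q (t + 1)) ≤ 2 * A.δ n := by
    intro t
    rcases hcs t with h | h
    · simp only [hq, h, dist_self]; positivity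
    · exact dist_pt_edge hδ.le h
  set f : ℕ → ℝ := fun t => Metric.infDist (q t) A₁ - Metric.infDist (q t) A₂ with hf
  have hfs : ∀ t, |f (t + 1) - f t| ≤ 4 * A.δ n := by
    intro t
    have e1 := Metric.infDist_le_infDist_add_dist (s := A₁) (x := q (t + 1)) (y := q t)
    have e2 := Metric.infDist_le_infDist_add_dist (s := A₁) (x := q t) (y := q (t + 1))
    have e3 := Metric.infDist_le_infDist_add_dist (s := A₂) (x := q (t + 1)) (y := q t)
    have e4 := Metric.infDist_le_infDist_add_dist (s := A₂) (x := q t) (y := q (t + 1))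
    have e5 := hstep t
    rw [dist_comm (q (t + 1)) (q t)] at e1 e3
    rw [abs_le]
    simp only [hf]
    constructor <;> linarith
  have hK : ∀ t, i ≤ t → t ≤ j → s / 2 ≤ dist (q t) b ∧ dist (q t) b ≤ s := by
    intro t ht1 ht2
    have g0 : dist (q t) b < s := (hcV t).2
    refine ⟨?_, g0.le⟩
    obtain ⟨w, hw, hwP⟩ := hcf t ht1 ht2
    simp only [hP, not_lt] at hwP
    have g1 := Fv_near hw
    have g2 := dist_pt_le hδ.le g1.1 g1.2
    have g3 := dist_triangle (pt (A.δ n) w) (pt (A.δ n) (c t).1) b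
    have g4 : dist (q t) b = dist (pt (A.δ n) (c t).1) b := rfl
    linarith
  have hfi : f i ≤ 0 := by
    have g1 := hd _ (hK i le_rfl hij)
    have g2 := h1 _ hci
    simp only [hf]
    have g3 : Metric.infDist (q i) A₁ < d := g2
    linarith
  have hfj : 0 ≤ f j := by
    have g1 := hd _ (hK j hij le_rfl)
    have g2 := h2 _ hcj
    simp only [hf]
    have g3 : Metric.infDist (q j) A₂ < d := g2
    linarith
  obtain ⟨t, ht1, ht2, ht3⟩ := small_value hfs (by positivity) hij hfi hfj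
  have g3 := hd _ (hK t ht1 ht2)
  have g4 := abs_le.1 ht3
  simp only [hf] at g4
  have g5 : d ≤ Metric.infDist (q t) A₁ := by linarith
  have g6 : d ≤ Metric.infDist (q t) A₂ := by linarith
  have g7 : q t ∈ D := by
    by_contra hnD
    obtain ⟨y, hy, hy'⟩ := (Metric.infDist_lt_iff hDn).1 (h4 _ (hcV t).1)
    obtain ⟨z, hz, hz'⟩ := exists_frontier hnD hy
    have := hfr (q t) g5 g6 z hz
    have h5 : dist (q t) y < d / 2 := hy'
    linarith
  refine ⟨(Finset.range (t + 1)).image (fun t => (c t).1), ?_, ?_, ?_, (c t).1, ?_, ?_⟩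
  · rw [← hc0]
    exact Finset.mem_image.2 ⟨0, Finset.mem_range.2 (by omega), rfl⟩
  · exact connN_path (c := fun t => (c t).1) hcs t
  · intro v hv
    obtain ⟨u, -, rfl⟩ := Finset.mem_image.1 hv
    rw [Metric.mem_ball]
    have : dist (pt (A.δ n) (c u).1) b < s := (hcV u).2
    linarith
  · exact Finset.mem_image.2 ⟨t, Finset.mem_range.2 (by omega), rfl⟩
  · exact ⟨⟨subset_closure g7, (hK t ht1 ht2).2⟩, g5, g6⟩

/-- **`α` is joined to the bulk near `a`.** -/
theorem reach_α (hDo : IsOpen D) (hDb : Bornology.IsBounded D) (hDn : D.Nonempty) (hab : a ≠ b)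
    (hA : IsArcs D a b A₁ A₂) (A : Approx D a b A₁ A₂) {r : ℝ} (hr : 0 < r) :
    ∃ G : Set ℂ, IsCompact G ∧ G ⊆ D ∩ Metric.ball a r ∧ ∀ᶠ n in atTop, ∃ N : Finset (ℤ × ℤ),
      (A.X n).α.1 ∈ N ∧ ConnN (A.X n) N ∧ (∀ v ∈ N, pt (A.δ n) v ∈ Metric.ball a r) ∧
      ∃ v ∈ N, pt (A.δ n) v ∈ G :=
  reach_β hDo hDb hDn hab.symm (isArcs_swap hA) A.swap hr

end

end Pool.Agent.H14.NB
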