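import Pool.Agent.H14.NB.Cells

set_option autoImplicit false
open Set Topology Filter
open Pool.Agent.H81.Q1

/-! # Existence of bases -/

namespace Pool.Agent.H14.NB

open Pool.Agent.H75.Perc (Co IsUnit4 vx Ad)
open Pool.Agent.H69.Q1 (isUnit_of_adj vx_cor)
open Pool.Agent.Q1.M3
open Pool.Agent.H42.Q1 (exists_cells fat_sub_cfat)
open Pool.Agent.H14.Jordan (local_joined)

variable {D : Set ℂ} {a b : ℂ} {A₁ A₂ : Set ℂ}

/-- Radii and compact sets near `b`. -/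
lemma exists_radii (hJ : IsJordanDomain D) (hab : a ≠ b) (hA : IsArcs D a b A₁ A₂)
    (A : Approx D a b A₁ A₂) {r0 : ℝ} (hr0 : 0 < r0) :
    ∃ (ρ t : ℕ → ℝ) (G : ℕ → Set ℂ), (∀ M, 0 < ρ M) ∧ (∀ M, ρ (M + 1) ≤ ρ M) ∧ ρ 0 = r0 ∧
      Tendsto ρ atTop (𝓝 0) ∧ (∀ M, t M ≤ ρ M) ∧ (∀ M, IsCompact (G M)) ∧
      (∀ M, (G M).Nonempty) ∧
      (∀ M, G M ∪ G (M + 1) ⊆ D ∩ Metric.ball b (ρ M)) ∧
      (∀ M, ∀ z ∈ G M ∪ G (M + 1), ∀ w ∈ G M ∪ G (M + 1),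
        JoinedIn (D ∩ Metric.ball b (ρ M)) z w) ∧
      ∀ M, ∀ᶠ n in atTop, ∃ N : Finset (ℤ × ℤ),
        (A.X n).β.1 ∈ N ∧ ConnN (A.X n) N ∧ (∀ v ∈ N, pt (A.δ n) v ∈ Metric.ball b (t M)) ∧
        ∃ v ∈ N, pt (A.δ n) v ∈ G M := by
  classical
  set ρ : ℕ → ℝ := fun M => r0 * (1 / ((M : ℝ) + 1)) with hρ
  have hρ0 : ∀ M, 0 < ρ M := fun M => by simp only [hρ]; positivity
  have h1 : ∀ M, ∃ s > 0, ∀ z ∈ D, ∀ w ∈ D, dist z b < s → dist w b < s →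
      JoinedIn (D ∩ Metric.ball b (ρ M)) z w := fun M => local_joined hJ b (hρ0 M)
  choose s hs0 hs using h1
  -- decreasing radii
  set t : ℕ → ℝ := fun M => min (ρ M) ((Finset.range (M + 1)).inf' ⟨0, by simp⟩ s) with ht
  have ht0 : ∀ M, 0 < t M := by
    intro M
    refine lt_min (hρ0 M) ?_
    rw [Finset.lt_inf'_iff]
    exact fun j _ => hs0 j
  have hts : ∀ M j, j ≤ M → t M ≤ s j := fun M j hj =>
    (min_le_right _ _).trans (Finset.inf'_le _ (Finset.mem_range.2 (by omega)))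
  have htρ : ∀ M, t M ≤ ρ M := fun M => min_le_left _ _
  have h2 : ∀ M, ∃ G : Set ℂ, IsCompact G ∧ G ⊆ D ∩ Metric.ball b (t M) ∧
      ∀ᶠ n in atTop, ∃ N : Finset (ℤ × ℤ),
      (A.X n).β.1 ∈ N ∧ ConnN (A.X n) N ∧ (∀ v ∈ N, pt (A.δ n) v ∈ Metric.ball b (t M)) ∧
      ∃ v ∈ N, pt (A.δ n) v ∈ G := fun M =>
    reach_β hJ.1 hJ.2.2.1 hJ.2.1.nonempty hab hA A (ht0 M)
  choose G hGc hGD hG using h2
  have hanti : ∀ M, ρ (M + 1) ≤ ρ M := by
    intro M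
    simp only [hρ]
    refine mul_le_mul_of_nonneg_left ?_ hr0.le
    refine one_div_le_one_div_of_le (by positivity) ?_
    push_cast; linarith
  have hball : ∀ M, ∀ z ∈ G M ∪ G (M + 1), z ∈ D ∧ dist z b < s M ∧ dist z b < ρ M := by
    intro M z hz
    rcases hz with hz | hz
    · have h3 := hGD M hz
      have h4 : dist z b < t M := h3.2
      exact ⟨h3.1, h4.trans_le (hts M M le_rfl), h4.trans_le (htρ M)⟩
    · have h3 := hGD (M + 1) hz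
      have h4 : dist z b < t (M + 1) := h3.2
      exact ⟨h3.1, h4.trans_le (hts (M + 1) M (by omega)),
        h4.trans_le ((htρ (M + 1)).trans (hanti M))⟩
  refine ⟨ρ, t, G, hρ0, hanti, ?_, ?_, htρ, hGc, ?_, ?_, ?_, hG⟩
  · simp [hρ]
  · have h3 := (tendsto_one_div_add_atTop_nhds_zero_nat (𝕜 := ℝ)).const_mul r0
    rw [mul_zero] at h3
    exact h3
  · intro M
    obtain ⟨n, N, -, -, -, v, -, hv⟩ := (hG M).exists
    exact ⟨_, hv⟩
  · intro M z hz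
    have h3 := hball M z hz
    exact ⟨h3.1, h3.2.2⟩
  · intro M z hz w hw
    have h3 := hball M z hz
    have h4 := hball M w hw
    exact hs M z h3.1 w h4.1 h3.2.1 h4.2.1

/-- Families of cells near `b`. -/
lemma exists_families (hJ : IsJordanDomain D) (hab : a ≠ b) (hA : IsArcs D a b A₁ A₂)
    (A : Approx D a b A₁ A₂) {r0 : ℝ} (hr0 : 0 < r0) (o : ℂ) :
    ∃ (ρ : ℕ → ℝ) (C : ℕ → Finset Cell), (∀ M, 0 < ρ M) ∧ (∀ M, ρ (M + 1) ≤ ρ M) ∧ ρ 0 = r0 ∧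
      Tendsto ρ atTop (𝓝 0) ∧ (∀ M, ∀ q ∈ C M, cfat o q ⊆ D ∩ Metric.ball b (ρ M)) ∧
      (∀ M, (C M).Nonempty) ∧
      (∀ M, ∀ q ∈ C M, ∀ q' ∈ C M,
        Relation.ReflTransGen (fun x y => AdjC o x y ∧ x ∈ C M ∧ y ∈ C M) q q') ∧
      (∀ M, ∃ q ∈ C M, ∃ q' ∈ C (M + 1), AdjC o q q') ∧
      ∀ M, ∀ᶠ n in atTop, ∃ N : Finset (ℤ × ℤ),
        (A.X n).β.1 ∈ N ∧ ConnN (A.X n) N ∧ (∀ v ∈ N, pt (A.δ n) v ∈ Metric.ball b (ρ M)) ∧
        ∃ v ∈ N, v ∈ Vn (A.δ n) o (C M) := by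
  classical
  obtain ⟨ρ, t, G, h1, h2, h3, h4, h5, h6, h7, h8, h9, h10⟩ := exists_radii hJ hab hA A hr0
  have key : ∀ M, ∃ C : Finset Cell, (∀ q ∈ C, cfat o q ⊆ D ∩ Metric.ball b (ρ M)) ∧
      (∀ z ∈ G M ∪ G (M + 1), ∃ q ∈ C, z ∈ fat o q) ∧
      ∀ q ∈ C, ∀ q' ∈ C, Relation.ReflTransGen (fun x y => AdjC o x y ∧ x ∈ C ∧ y ∈ C) q q' := by
    intro M
    obtain ⟨x, hx⟩ := h7 M
    have hx' : x ∈ G M ∪ G (M + 1) := Or.inl hx
    have hop : IsOpen (D ∩ Metric.ball b (ρ M)) := hJ.1.inter Metric.isOpen_ball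
    have hU : IsOpen (connectedComponentIn (D ∩ Metric.ball b (ρ M)) x) :=
      hop.connectedComponentIn
    have hsub : G M ∪ G (M + 1) ⊆ connectedComponentIn (D ∩ Metric.ball b (ρ M)) x := by
      intro z hz
      obtain ⟨γ, hγ⟩ := h9 M x hx' z hz
      have g1 : IsPreconnected (range γ) := isPreconnected_range γ.continuous
      have g2 : range γ ⊆ D ∩ Metric.ball b (ρ M) := range_subset_iff.2 hγ
      exact g1.subset_connectedComponentIn ⟨0, γ.source⟩ g2 ⟨1, γ.target⟩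
    obtain ⟨k1, hk1⟩ := exists_cells hU isPreconnected_connectedComponentIn
      ((h6 M).union (h6 (M + 1))) hsub o
    obtain ⟨C, g1, g2, g3⟩ := hk1 k1 le_rfl
    exact ⟨C, fun q hq => (g1 q hq).2.trans (connectedComponentIn_subset _ _), g2, g3⟩
  choose C g1 g2 g3 using key
  refine ⟨ρ, C, h1, h2, h3, h4, g1, ?_, g3, ?_, ?_⟩
  · intro M
    obtain ⟨x, hx⟩ := h7 M
    obtain ⟨q, hq, -⟩ := g2 M x (Or.inl hx)
    exact ⟨q, hq⟩
  · intro M
    obtain ⟨x, hx⟩ := h7 (M + 1)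
    obtain ⟨q, hq, hxq⟩ := g2 M x (Or.inr hx)
    obtain ⟨q', hq', hxq'⟩ := g2 (M + 1) x (Or.inl hx)
    exact ⟨q, hq, q', hq', x, hxq, hxq'⟩
  · intro M
    filter_upwards [h10 M] with n hn
    obtain ⟨N, e1, e2, e3, v, hv, hvG⟩ := hn
    refine ⟨N, e1, e2, fun w hw => Metric.ball_subset_ball (h5 M) (e3 w hw), v, hv, ?_⟩
    obtain ⟨q, hq, hxq⟩ := g2 M _ (Or.inl hvG)
    exact Finset.mem_biUnion.2 ⟨q, hq, (mem_verts (A.pos n)).2 hxq⟩

/-- The data of a base (the connections inside the barrier use edges of the domain). -/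
theorem exists_data (hJ : IsJordanDomain D) (hab : a ≠ b) (hA : IsArcs D a b A₁ A₂)
    (A : Approx D a b A₁ A₂) {r0 : ℝ} (hr0 : 0 < r0) (o : ℂ) :
    ∃ (qb : Cell) (Q : ℕ → Finset Cell) (r : ℕ → ℝ) (N : ℕ → Finset (ℤ × ℤ)),
      qb ∈ Q 0 ∧ (∀ M, Q M ⊆ Q (M + 1)) ∧
      (∀ M, ∀ q ∈ Q M, ∀ q' ∈ Q M,
        Relation.ReflTransGen (fun x y => AdjC o x y ∧ x ∈ Q M ∧ y ∈ Q M) q q') ∧
      (∀ M, ∀ q ∈ Q M, cfat o q ⊆ D ∩ Metric.ball b r0) ∧ Tendsto r atTop (𝓝 0) ∧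
      (∀ M, 0 < r M) ∧
      (∀ M, ∀ᶠ n in atTop, ∃ N' : Finset (ℤ × ℤ), N n = Vn (A.δ n) o (Q M) ∪ N' ∧
        (∀ v ∈ N', pt (A.δ n) v ∈ Metric.ball b (r M)) ∧ (A.X n).β.1 ∈ N') ∧
      (∀ᶠ n in atTop, ∀ v ∈ N n, pt (A.δ n) v ∈ Metric.ball b r0) ∧
      (∀ᶠ n in atTop, ConnN (A.X n) (N n)) ∧ ∀ᶠ n in atTop, (A.X n).β.1 ∈ N n := by
  classical
  obtain ⟨ρ, C, h1, h2, h3, h4, h5, h6, h7, h8, h9⟩ := exists_families hJ hab hA A hr0 o
  obtain ⟨qb, hqb⟩ := h6 0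
  have hρanti : Antitone ρ := antitone_nat_of_succ_le h2
  set Q : ℕ → Finset Cell := fun M => (Finset.range (M + 1)).biUnion C with hQ
  have hCQ : ∀ {j M : ℕ}, j ≤ M → C j ⊆ Q M := fun {j M} hj =>
    Finset.subset_biUnion_of_mem C (Finset.mem_range.2 (by omega))
  have hQm : ∀ M, Q M ⊆ Q (M + 1) := fun M =>
    Finset.biUnion_subset_biUnion_of_subset_left _ (Finset.range_subset_range.2 (by omega))
  have hQs : ∀ M, Q (M + 1) = Q M ∪ C (M + 1) := by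
    intro M
    ext q
    simp only [hQ, Finset.mem_biUnion, Finset.mem_union, Finset.mem_range]
    constructor
    · rintro ⟨j, hj, hq⟩
      rcases Nat.lt_or_ge j (M + 1) with h | h
      · exact Or.inl ⟨j, h, hq⟩
      · have : j = M + 1 := by omega
        subst this
        exact Or.inr hq
    · rintro (⟨j, hj, hq⟩ | hq)
      · exact ⟨j, by omega, hq⟩
      · exact ⟨M + 1, by omega, hq⟩
  have hQD : ∀ M, ∀ q ∈ Q M, cfat o q ⊆ D ∩ Metric.ball b r0 := by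
    intro M q hq
    obtain ⟨j, -, hj⟩ := Finset.mem_biUnion.1 hq
    refine (h5 j q hj).trans (inter_subset_inter_right _ (Metric.ball_subset_ball ?_))
    rw [← h3]
    exact hρanti (Nat.zero_le j)
  have hsym : ∀ (S : Finset Cell) (q q' : Cell),
      Relation.ReflTransGen (fun x y => AdjC o x y ∧ x ∈ S ∧ y ∈ S) q q' →
      Relation.ReflTransGen (fun x y => AdjC o x y ∧ x ∈ S ∧ y ∈ S) q' q := by
    intro S q q' h
    induction h with
    | refl => exact Relation.ReflTransGen.refl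
    | tail _ h ih =>
      exact Relation.ReflTransGen.head ⟨Pool.Agent.H42.Q1.AdjC.symm h.1, h.2.2, h.2.1⟩ ih
  have hmono : ∀ (S S' : Finset Cell), S ⊆ S' → ∀ q q' : Cell,
      Relation.ReflTransGen (fun x y => AdjC o x y ∧ x ∈ S ∧ y ∈ S) q q' →
      Relation.ReflTransGen (fun x y => AdjC o x y ∧ x ∈ S' ∧ y ∈ S') q q' := by
    intro S S' hSS q q' h
    induction h with
    | refl => exact Relation.ReflTransGen.refl
    | tail _ h ih => exact ih.tail ⟨h.1, hSS h.2.1, hSS h.2.2⟩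
  have hQc : ∀ M, ∀ q ∈ Q M, ∀ q' ∈ Q M,
      Relation.ReflTransGen (fun x y => AdjC o x y ∧ x ∈ Q M ∧ y ∈ Q M) q q' := by
    intro M
    induction M with
    | zero =>
      have e : Q 0 = C 0 := by
        ext q; simp [hQ]
      rw [e]; exact h7 0
    | succ M ih =>
      obtain ⟨p, hp, p', hp', hpp⟩ := h8 M
      have hpQ : p ∈ Q M := hCQ le_rfl hp
      have key : ∀ q ∈ Q (M + 1),
          Relation.ReflTransGen (fun x y => AdjC o x y ∧ x ∈ Q (M + 1) ∧ y ∈ Q (M + 1)) q p := by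
        intro q hq
        have hq2 := hq
        rw [hQs, Finset.mem_union] at hq2
        rcases hq2 with h | h
        · exact hmono _ _ (hQm M) _ _ (ih q h p hpQ)
        · refine (hmono _ _ (hCQ le_rfl) _ _ (h7 (M + 1) q h p' hp')).tail ?_
          exact ⟨Pool.Agent.H42.Q1.AdjC.symm hpp, hCQ le_rfl hp', hQm M hpQ⟩
      intro q hq q' hq'
      exact (key q hq).trans (hsym _ _ _ (key q' hq'))
  -- the diagonal choice
  set P : ℕ → ℕ → Prop := fun M n => ∃ N' : Finset (ℤ × ℤ), (A.X n).β.1 ∈ N' ∧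
    ConnN (A.X n) N' ∧ (∀ v ∈ N', pt (A.δ n) v ∈ Metric.ball b (ρ M)) ∧
    (N' ∩ Vn (A.δ n) o (Q M)).Nonempty ∧ ConnN (A.X n) (Vn (A.δ n) o (Q M)) with hP
  have hPe : ∀ M, ∀ᶠ n in atTop, P M n := by
    intro M
    filter_upwards [h9 M, connN_Vn A (fun q hq => (hQD M q hq).trans inter_subset_left) (hQc M)]
      with n hn hn'
    obtain ⟨N', e1, e2, e3, v, hv, hv'⟩ := hn
    exact ⟨N', e1, e2, e3, ⟨v, Finset.mem_inter.2 ⟨hv, Vn_mono (hCQ le_rfl) hv'⟩⟩, hn'⟩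
  obtain ⟨m, hm, hmP⟩ := diag hPe
  have hex : ∀ n, ∃ N' : Finset (ℤ × ℤ), P (m n) n → (A.X n).β.1 ∈ N' ∧
    ConnN (A.X n) N' ∧ (∀ v ∈ N', pt (A.δ n) v ∈ Metric.ball b (ρ (m n))) ∧
    (N' ∩ Vn (A.δ n) o (Q (m n))).Nonempty ∧ ConnN (A.X n) (Vn (A.δ n) o (Q (m n))) := by
    intro n
    by_cases h : P (m n) n
    · obtain ⟨N', h'⟩ := h
      exact ⟨N', fun _ => h'⟩
    · exact ⟨∅, fun h' => absurd h' h⟩
  choose N' hN' using hex
  refine ⟨qb, Q, ρ, fun n => Vn (A.δ n) o (Q (m n)) ∪ N' n, hCQ le_rfl hqb, hQm, hQc, hQD, h4, h1,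
    ?_, ?_, ?_, ?_⟩
  · intro M
    filter_upwards [hmP, hm.eventually_ge_atTop M] with n hn hMn
    obtain ⟨e1, e2, e3, e4, e5⟩ := hN' n hn
    refine ⟨Vn (A.δ n) o ((Finset.Ioc M (m n)).biUnion C) ∪ N' n, ?_, ?_, ?_⟩
    · rw [← Finset.union_assoc, ← Vn_union]
      congr 2
      ext q
      simp only [hQ, Finset.mem_biUnion, Finset.mem_union, Finset.mem_range, Finset.mem_Ioc]
      constructor
      · rintro ⟨j, hj, hq⟩
        rcases Nat.lt_or_ge j (M + 1) with h | h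
        · exact Or.inl ⟨j, h, hq⟩
        · exact Or.inr ⟨j, ⟨by omega, by omega⟩, hq⟩
      · rintro (⟨j, hj, hq⟩ | ⟨j, hj, hq⟩)
        · exact ⟨j, by omega, hq⟩
        · exact ⟨j, by omega, hq⟩
    · intro v hv
      rcases Finset.mem_union.1 hv with h | h
      · obtain ⟨q, hq, hv'⟩ := Finset.mem_biUnion.1 h
        obtain ⟨j, hj, hqj⟩ := Finset.mem_biUnion.1 hq
        rw [Finset.mem_Ioc] at hj
        have h10 := (h5 j q hqj (fat_sub_cfat o q ((mem_verts (A.pos n)).1 hv'))).2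
        exact Metric.ball_subset_ball (hρanti hj.1.le) h10
      · exact Metric.ball_subset_ball (hρanti hMn) (e3 v h)
    · exact Finset.mem_union_right _ e1
  · filter_upwards [hmP] with n hn
    obtain ⟨e1, e2, e3, e4, e5⟩ := hN' n hn
    intro v hv
    rcases Finset.mem_union.1 hv with h | h
    · obtain ⟨q, hq, hv'⟩ := Finset.mem_biUnion.1 h
      exact (hQD _ q hq (fat_sub_cfat o q ((mem_verts (A.pos n)).1 hv'))).2
    · rw [← h3]
      exact Metric.ball_subset_ball (hρanti (Nat.zero_le _)) (e3 v h)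
  · filter_upwards [hmP] with n hn
    obtain ⟨e1, e2, e3, e4, e5⟩ := hN' n hn
    refine e5.union e2 ?_
    rw [Finset.inter_comm]; exact e4
  · filter_upwards [hmP] with n hn
    obtain ⟨e1, e2, e3, e4, e5⟩ := hN' n hn
    exact Finset.mem_union_right _ e1

end Pool.Agent.H14.NB
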