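import Pool.Agent.H42.MJ.Contour

set_option autoImplicit false
open Set Topology Filter
open Pool.Agent.H81.Q1

/-! # The contour of the part of a discrete domain near `β` -/

namespace Pool.Agent.H14.NB

open Pool.Agent.H42.MJ (orbit_outer dir_add_two outer_iter)

lemma next_mem {E : Set (Sym2 (ℤ × ℤ))} {c : Corner} (h : c.edge ∈ E) :
    next E c = (c.1 + dir c.2, c.2 + 1) := by unfold next; rw [if_pos h]

lemma next_nmem {E : Set (Sym2 (ℤ × ℤ))} {c : Corner} (h : c.edge ∉ E) :
    next E c = (c.1, c.2 - 1) := by unfold next; rw [if_neg h]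

lemma next_congr {E E' : Set (Sym2 (ℤ × ℤ))} {c : Corner} (h : c.edge ∈ E ↔ c.edge ∈ E') :
    next E c = next E' c := by
  by_cases h1 : c.edge ∈ E
  · rw [next_mem h1, next_mem (h.1 h1)]
  · rw [next_nmem h1, next_nmem (fun h2 => h1 (h.2 h2))]

lemma next_inj (E : Set (Sym2 (ℤ × ℤ))) : Function.Injective (next E) := by
  have key : ∀ c c' : Corner, c.edge ∈ E → c'.edge ∉ E → next E c ≠ next E c' := by
    intro c c' h h' he
    rw [next_mem h, next_nmem h', Prod.ext_iff] at he
    obtain ⟨h1, h2⟩ := he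
    simp only at h1 h2
    refine h' ?_
    have h3 : c'.2 = c.2 + 2 := by
      rw [← sub_add_cancel c'.2 1, ← h2]
      ring
    have h4 : c'.edge = c.edge := by
      unfold Corner.edge
      rw [← h1, h3, dir_add_two, add_neg_cancel_right, Sym2.eq_swap]
    rw [h4]; exact h
  intro c c' he
  by_cases h : c.edge ∈ E <;> by_cases h' : c'.edge ∈ E
  · rw [next_mem h, next_mem h', Prod.ext_iff] at he
    obtain ⟨h1, h2⟩ := he
    simp only at h1 h2
    have h3 : c.2 = c'.2 := add_right_cancel h2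
    rw [h3] at h1
    exact Prod.ext (add_right_cancel h1) h3
  · exact absurd he (key c c' h h')
  · exact absurd he.symm (key c' c h' h)
  · rw [next_nmem h, next_nmem h', Prod.ext_iff] at he
    obtain ⟨h1, h2⟩ := he
    exact Prod.ext h1 (sub_left_injective h2)

/-- The vertices of the face of a corner. -/
def Fv (c : Corner) : Set (ℤ × ℤ) :=
  {c.1, c.1 + dir c.2, c.1 + dir (c.2 + 1), c.1 + dir c.2 + dir (c.2 + 1)}

lemma Fv_follow (c : Corner) : Fv (c.1 + dir c.2, c.2 + 1) = Fv c := by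
  obtain ⟨v, q⟩ := c
  have h : dir (q + 1 + 1) = -dir q := by
    rw [add_assoc, show (1 : ZMod 4) + 1 = 2 by decide, dir_add_two]
  have h1 : v + dir q + dir (q + 1) + -dir q = v + dir (q + 1) := by abel
  unfold Fv
  simp only
  rw [h, add_neg_cancel_right, h1]
  ext x
  simp only [mem_insert_iff, mem_singleton_iff]
  tauto

lemma dir_abs (q : ZMod 4) : |(dir q).1| ≤ 1 ∧ |(dir q).2| ≤ 1 := by revert q; decide

lemma dir_abs2 (q : ZMod 4) :
    |(dir q).1 + (dir (q + 1)).1| ≤ 1 ∧ |(dir q).2 + (dir (q + 1)).2| ≤ 1 := by revert q; decide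

lemma Fv_near {c : Corner} {w : ℤ × ℤ} (h : w ∈ Fv c) : |w.1 - c.1.1| ≤ 1 ∧ |w.2 - c.1.2| ≤ 1 := by
  unfold Fv at h
  simp only [mem_insert_iff, mem_singleton_iff] at h
  rcases h with rfl | rfl | rfl | rfl
  · simp
  · simp only [Prod.fst_add, Prod.snd_add, add_sub_cancel_left]; exact dir_abs _
  · simp only [Prod.fst_add, Prod.snd_add, add_sub_cancel_left]; exact dir_abs _
  · simp only [Prod.fst_add, Prod.snd_add, add_assoc, add_sub_cancel_left]; exact dir_abs2 _

section

variable (X : DDomain)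

/-- The corners strictly before `α` on the contour from `β`. -/
def Wc : Set Corner := {c | ∃ i : ℕ, (∀ j ≤ i, (next X.E)^[j] X.β ≠ X.α) ∧ c = (next X.E)^[i] X.β}

/-- The corners strictly before `β` on the contour from `α`. -/
def Dc : Set Corner := {c | ∃ i : ℕ, (∀ j ≤ i, (next X.E)^[j] X.α ≠ X.β) ∧ c = (next X.E)^[i] X.α}

variable {X}

lemma ne' : X.α ≠ X.β := fun h => X.ne (by rw [h])

lemma Wc_wired {c : Corner} (h : c ∈ Wc X) : c ∈ X.wired := by
  obtain ⟨i, h1, h2⟩ := h
  exact ⟨i, fun j hj => h1 j hj.le, h2⟩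

lemma Dc_dual {c : Corner} (h : c ∈ Dc X) : c ∈ X.dual := by
  obtain ⟨i, h1, h2⟩ := h
  exact ⟨i, fun j hj => h1 j hj.le, h2⟩

lemma β_Wc : X.β ∈ Wc X := ⟨0, fun j hj => by
  rw [Nat.le_zero.1 hj]; exact ne'.symm, rfl⟩

lemma Wc_step {c : Corner} (h : c ∈ Wc X) : next X.E c ∈ Wc X ∨ next X.E c = X.α := by
  obtain ⟨i, h1, rfl⟩ := h
  by_cases h2 : next X.E ((next X.E)^[i] X.β) = X.α
  · exact Or.inr h2
  · refine Or.inl ⟨i + 1, fun j hj => ?_, by rw [Function.iterate_succ_apply']⟩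
    rcases Nat.lt_or_ge i j with h3 | h3
    · have : j = i + 1 := by omega
      subst this
      rw [Function.iterate_succ_apply']; exact h2
    · exact h1 j h3

lemma β_nDc : X.β ∉ Dc X := by
  rintro ⟨i, h1, h2⟩
  exact h1 i le_rfl h2.symm

lemma Wc_Dc {c : Corner} (h : c ∈ Wc X) (h' : c ∈ Dc X) : False := by
  obtain ⟨i, h1, h2⟩ := h
  obtain ⟨k, h3, h4⟩ := h'
  have h5 : (next X.E)^[i] X.β = (next X.E)^[k] X.α := by rw [← h2, ← h4]
  have hinj : ∀ n, Function.Injective ((next X.E)^[n]) := fun n => (next_inj _).iterate n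
  rcases le_total i k with h | h
  · have h6 : (next X.E)^[i] X.β = (next X.E)^[i] ((next X.E)^[k - i] X.α) := by
      rw [h5, ← Function.iterate_add_apply]
      congr 2; omega
    exact h3 (k - i) (by omega) (hinj i h6).symm
  · have h6 : (next X.E)^[k] X.α = (next X.E)^[k] ((next X.E)^[i - k] X.β) := by
      rw [← h5, ← Function.iterate_add_apply]
      congr 2; omega
    exact h1 (i - k) (by omega) (hinj k h6).symm

/-- Outer corners are of one of the two types. -/
lemma outer_type {c : Corner} (hc : c.1 ∈ X.V) (h : IsOuter X.E c) : c ∈ Wc X ∨ c ∈ Dc X := by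
  classical
  have hex := orbit_outer X X.memβ hc X.outβ h
  obtain ⟨hi, hmin⟩ : (next X.E)^[Nat.find hex] X.β = c ∧
      ∀ m < Nat.find hex, (next X.E)^[m] X.β ≠ c := ⟨Nat.find_spec hex, fun m hm => Nat.find_min hex hm⟩
  set i := Nat.find hex
  by_cases hW : ∀ j ≤ i, (next X.E)^[j] X.β ≠ X.α
  · exact Or.inl ⟨i, hW, hi.symm⟩
  · push Not at hW
    obtain ⟨j, hj, h1⟩ := hW
    right
    have h2 : ∀ k, (next X.E)^[k] X.α = (next X.E)^[k + j] X.β := by
      intro k; rw [← h1, ← Function.iterate_add_apply]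
    refine ⟨i - j, fun k hk h3 => ?_, ?_⟩
    · rw [h2] at h3
      have h4 : (next X.E)^[i - (k + j)] X.β = c := by
        rw [← h3, ← Function.iterate_add_apply, ← hi]
        congr 2; omega
      rcases Nat.eq_zero_or_pos (k + j) with h5 | h5
      · have h6 : j = 0 := by omega
        subst h6
        exact ne' h1.symm
      · exact hmin _ (by omega) h4
    · rw [h2, ← hi]; congr 2; omega

lemma outer_of_not {c : Corner} (hc : c.1 ∈ X.V) (h : c ∉ Wc X) (h' : c ∉ Dc X) : c.edge ∈ X.E := by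
  by_contra he
  rcases outer_type hc (X.noHole c hc he) with h1 | h1
  · exact h h1
  · exact h' h1

/-- The corner before `β` is of the second type. -/
lemma before_β {c : Corner} (hc : c.1 ∈ X.V) (h : next X.E c = X.β) : c ∈ Dc X := by
  have hout : IsOuter X.E c := by
    obtain ⟨i, hi⟩ := orbit_outer X X.memβ X.memβ X.outβ X.outβ
    -- the orbit of `β` is periodic
    obtain ⟨m, hm⟩ := orbit_outer X X.memβ X.memα X.outβ X.outα
    obtain ⟨k, hk⟩ := orbit_outer X X.memα X.memβ X.outα X.outβ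
    have hk0 : m + k ≠ 0 := by
      intro h0
      have : m = 0 := by omega
      subst this
      exact ne' hm.symm
    have h1 : (next X.E)^[m + k] X.β = X.β := by
      rw [add_comm, Function.iterate_add_apply, hm, hk]
    obtain ⟨p, hp⟩ := Nat.exists_eq_succ_of_ne_zero hk0
    rw [hp, Function.iterate_succ_apply'] at h1
    have h2 : (next X.E)^[p] X.β = c := next_inj _ (h1.trans h.symm)
    rw [← h2]
    exact outer_iter X.outβ p
  rcases outer_type hc hout with h1 | h1
  · exfalso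
    obtain ⟨i, h2, h3⟩ := h1
    obtain ⟨m, hm⟩ := orbit_outer X X.memβ X.memα X.outβ X.outα
    have h4 : (next X.E)^[i + 1] X.β = X.β := by
      rw [Function.iterate_succ_apply', ← h3, h]
    have h5 : (next X.E)^[m % (i + 1)] X.β = X.α := by
      rw [← hm]
      have h6 := Function.IsPeriodicPt.iterate_mod_apply (f := next X.E) (n := i + 1) (x := X.β) h4 m
      exact h6
    exact h2 _ (Nat.lt_succ_iff.1 (Nat.mod_lt _ (Nat.succ_pos _))) h5
  · exact h1

/-- The edges inside `P`. -/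
def EP (X : DDomain) (P : ℤ × ℤ → Prop) : Set (Sym2 (ℤ × ℤ)) := {e | e ∈ X.E ∧ ∀ v ∈ e, P v}

section

variable {P : ℤ × ℤ → Prop}

lemma EP_sub : EP X P ⊆ X.E := fun _ h => h.1

lemma edge_V {c : Corner} (h : c.edge ∈ X.E) : c.1 ∈ X.V ∧ c.1 + dir c.2 ∈ X.V := by
  have h1 := (X.subE h).2
  exact ⟨h1 _ (by simp [Corner.edge]), h1 _ (by simp [Corner.edge])⟩

lemma edge_P {c : Corner} (h : c.edge ∈ EP X P) : P c.1 ∧ P (c.1 + dir c.2) :=
  ⟨h.2 _ (by simp [Corner.edge]), h.2 _ (by simp [Corner.edge])⟩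

lemma iter_VP {c : Corner} (hc : c.1 ∈ X.V ∧ P c.1) (t : ℕ) :
    ((next (EP X P))^[t] c).1 ∈ X.V ∧ P ((next (EP X P))^[t] c).1 := by
  induction t with
  | zero => exact hc
  | succ t ih =>
    rw [Function.iterate_succ_apply']
    set d := (next (EP X P))^[t] c
    by_cases h : d.edge ∈ EP X P
    · rw [next_mem h]; exact ⟨(edge_V h.1).2, (edge_P h).2⟩
    · rw [next_nmem h]; exact ih

lemma iter_step (c : Corner) (t : ℕ) :
    ((next (EP X P))^[t + 1] c).1 = ((next (EP X P))^[t] c).1 ∨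
      s(((next (EP X P))^[t] c).1, ((next (EP X P))^[t + 1] c).1) ∈ X.E := by
  rw [Function.iterate_succ_apply']
  set d := (next (EP X P))^[t] c
  by_cases h : d.edge ∈ EP X P
  · rw [next_mem h]; exact Or.inr h.1
  · rw [next_nmem h]; exact Or.inl rfl

/-- The orbit of `β` is periodic. -/
lemma exists_period (hβ : P X.β.1) : ∃ T, 0 < T ∧ (next (EP X P))^[T] X.β = X.β := by
  have hfin : {c : Corner | c.1 ∈ X.V}.Finite := by
    have h1 : {c : Corner | c.1 ∈ X.V} = X.V ×ˢ (univ : Set (ZMod 4)) := by ext c; simp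
    rw [h1]
    exact X.finV.prod finite_univ
  have hmaps : ∀ t : ℕ, (next (EP X P))^[t] X.β ∈ {c : Corner | c.1 ∈ X.V} := fun t =>
    (iter_VP ⟨X.memβ, hβ⟩ t).1
  obtain ⟨m, n, hmn, he⟩ : ∃ m n : ℕ, m < n ∧
      (next (EP X P))^[m] X.β = (next (EP X P))^[n] X.β := by
    by_contra hcon
    push Not at hcon
    have hinj : Function.Injective (fun t : ℕ => (next (EP X P))^[t] X.β) := by
      intro s t hst
      rcases lt_trichotomy s t with h | h | h
      · exact absurd hst (hcon s t h)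
      · exact h
      · exact absurd hst.symm (hcon t s h)
    exact Set.infinite_range_of_injective hinj (hfin.subset (range_subset_iff.2 hmaps))
  refine ⟨n - m, by omega, ?_⟩
  have h6 : (next (EP X P))^[m] X.β = (next (EP X P))^[m] ((next (EP X P))^[n - m] X.β) := by
    rw [he, ← Function.iterate_add_apply]
    congr 2; omega
  exact ((next_inj _).iterate m h6).symm

/-- **The crossing near the circle.** -/
theorem exists_crossing (hβ : P X.β.1) (hβ' : ∀ q, P (X.β.1 + dir q)) (hα : ¬ P X.α.1) :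
    ∃ (c : ℕ → Corner) (i j : ℕ), i ≤ j ∧ c 0 = X.β ∧ (∀ t, (c t).1 ∈ X.V ∧ P (c t).1) ∧
      (∀ t, (c (t + 1)).1 = (c t).1 ∨ s((c t).1, (c (t + 1)).1) ∈ X.E) ∧ c i ∈ X.wired ∧
      c j ∈ X.dual ∧ ∀ t, i ≤ t → t ≤ j → ∃ w ∈ Fv (c t), ¬ P w := by
  classical
  set g := next (EP X P) with hg
  obtain ⟨T, hT0, hT⟩ := exists_period (X := X) (P := P) hβ
  have hVP : ∀ t, (g^[t] X.β).1 ∈ X.V ∧ P (g^[t] X.β).1 := fun t => iter_VP ⟨X.memβ, hβ⟩ t
  have hgf : ∀ c : Corner, ¬ (c.edge ∈ X.E ∧ c.edge ∉ EP X P) → g c = next X.E c := by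
    intro c h
    refine next_congr ⟨fun h1 => h1.1, fun h1 => ?_⟩
    by_contra h2
    exact h ⟨h1, h2⟩
  have hbd : ∀ c : Corner, P c.1 → c.edge ∈ X.E → c.edge ∉ EP X P → ¬ P (c.1 + dir c.2) := by
    intro c h1 h2 h3 h4
    refine h3 ⟨h2, fun v hv => ?_⟩
    unfold Corner.edge at hv
    rcases Sym2.mem_iff.1 hv with rfl | rfl
    · exact h1
    · exact h4
  -- the last corner of the orbit is of type `Dc`
  have hlast : g^[T - 1] X.β ∈ Dc X := by
    have h1 : g (g^[T - 1] X.β) = X.β := by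
      rw [← Function.iterate_succ_apply' g, show (T - 1).succ = T by omega]; exact hT
    have h5 := hVP (T - 1)
    set d := g^[T - 1] X.β
    refine before_β h5.1 ?_
    rw [← hgf _ ?_]
    · exact h1
    · rintro ⟨h2, h3⟩
      have h4 : d.1 = X.β.1 := by
        rw [hg, next_nmem h3] at h1
        exact (Prod.ext_iff.1 h1).1
      refine hbd _ h5.2 h2 h3 ?_
      rw [h4]
      exact hβ' _
  have hexD : ∃ j, g^[j] X.β ∈ Dc X := ⟨_, hlast⟩
  obtain ⟨hj, hjmin⟩ : g^[Nat.find hexD] X.β ∈ Dc X ∧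
      ∀ m < Nat.find hexD, g^[m] X.β ∉ Dc X :=
    ⟨Nat.find_spec hexD, fun m hm => Nat.find_min hexD hm⟩
  set j := Nat.find hexD
  have hj0 : 0 < j := by
    rcases Nat.eq_zero_or_pos j with h | h
    · rw [h] at hj; exact absurd hj β_nDc
    · exact h
  -- the last corner of type `Wc` before `j`
  obtain ⟨i, hij, hi, himax⟩ : ∃ i < j, g^[i] X.β ∈ Wc X ∧
      ∀ m, i < m → m < j → g^[m] X.β ∉ Wc X := by
    have hne : ((Finset.range j).filter (fun m => g^[m] X.β ∈ Wc X)).Nonempty :=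
      ⟨0, Finset.mem_filter.2 ⟨Finset.mem_range.2 hj0, β_Wc⟩⟩
    obtain ⟨i, hi, hmax⟩ := Finset.exists_max_image _ id hne
    rw [Finset.mem_filter, Finset.mem_range] at hi
    refine ⟨i, hi.1, hi.2, fun m h1 h2 h3 => ?_⟩
    have := hmax m (Finset.mem_filter.2 ⟨Finset.mem_range.2 h2, h3⟩)
    simp only [id] at this
    omega
  -- the step at `i`
  have hstep_i : (g^[i] X.β).edge ∈ X.E ∧ (g^[i] X.β).edge ∉ EP X P := by
    by_contra hcon
    have h1 := hgf _ hcon
    rw [← Function.iterate_succ_apply' g] at h1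
    rcases Wc_step hi with h2 | h2
    · rw [← h1] at h2
      rcases Nat.lt_or_ge (i + 1) j with h3 | h3
      · exact himax (i + 1) (by omega) h3 h2
      · have : i.succ = j := by omega
        rw [this] at h2
        exact Wc_Dc h2 hj
    · rw [← h1] at h2
      apply hα
      rw [← h2]
      exact (hVP _).2
  have hface : ∀ t, i < t → t ≤ j → ∃ w ∈ Fv (g^[t] X.β), ¬ P w := by
    have hturn : ∀ t, (g^[t] X.β).edge ∈ X.E → (g^[t] X.β).edge ∉ EP X P →
        ∃ w ∈ Fv (g^[t + 1] X.β), ¬ P w := by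
      intro t h1 h2
      refine ⟨(g^[t] X.β).1 + dir (g^[t] X.β).2, ?_, hbd _ (hVP t).2 h1 h2⟩
      rw [Function.iterate_succ_apply', hg, next_nmem h2]
      unfold Fv
      simp only [sub_add_cancel, mem_insert_iff, mem_singleton_iff]
      exact Or.inr (Or.inr (Or.inl rfl))
    intro t h1 h2
    obtain ⟨s, rfl⟩ : ∃ s, t = i + 1 + s := ⟨t - (i + 1), by omega⟩
    induction s with
    | zero => exact hturn i hstep_i.1 hstep_i.2
    | succ s ih =>
      obtain ⟨w, hw, hwP⟩ := ih (by omega) (by omega)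
      have h3 := outer_of_not (hVP (i + 1 + s)).1 (himax _ (by omega) (by omega))
        (hjmin _ (by omega))
      by_cases h4 : (g^[i + 1 + s] X.β).edge ∈ EP X P
      · refine ⟨w, ?_, hwP⟩
        have h5 : g^[i + 1 + (s + 1)] X.β = g (g^[i + 1 + s] X.β) := by
          rw [show i + 1 + (s + 1) = (i + 1 + s) + 1 by omega, Function.iterate_succ_apply']
        rw [h5, hg, next_mem h4, Fv_follow]
        exact hw
      · exact hturn _ h3 h4
  refine ⟨fun t => g^[t] X.β, i, j, hij.le, rfl, hVP, fun t => iter_step X.β t, Wc_wired hi,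
    Dc_dual hj, fun t h1 h2 => ?_⟩
  rcases eq_or_lt_of_le h1 with h3 | h3
  · subst h3
    refine ⟨_, ?_, hbd _ (hVP i).2 hstep_i.1 hstep_i.2⟩
    unfold Fv
    simp
  · exact hface t h3 h2

end

end

end Pool.Agent.H14.NB
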