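import Pool.Agent.H14.NB.StNB
import Pool.Agent.H28.Q1.Inv

set_option autoImplicit false
open Set Topology Filter
open Pool.Agent.H81.Q1

/-! # The faces next to missing labels of a discrete domain are on the outer side -/

namespace Pool.Agent.H14.NB

open Pool.Agent.H75.Perc (Co IsUnit4 vx Ad)
open Pool.Agent.H75.TwoArm (plab fi du)
open Pool.Agent.H69.Q1 (vx_cor EL WL fi_cor plab_cor cor_surjective corner_edge_mem lb)
open Pool.Agent.H28.Q1 (ClJ)

/-- The face `f` is joined to infinity off `E`. -/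
def OutF (E : Set (Sym2 (ℤ × ℤ))) (f : ℤ × ℤ) : Prop :=
  ∀ n : ℤ, ∃ g, Relation.ReflTransGen (faceStep E) f g ∧ n ≤ |g.1| + |g.2|

lemma outF_iff {E : Set (Sym2 (ℤ × ℤ))} {c : Corner} : IsOuter E c ↔ OutF E c.face := Iff.rfl

lemma OutF.of_path {E : Set (Sym2 (ℤ × ℤ))} {f g : ℤ × ℤ} (h : OutF E g)
    (hp : Relation.ReflTransGen (faceStep E) f g) : OutF E f := by
  intro n
  obtain ⟨k, h1, h2⟩ := h n
  exact ⟨k, hp.trans h1, h2⟩

lemma OutF.of_step {E : Set (Sym2 (ℤ × ℤ))} {f g : ℤ × ℤ} (h : OutF E g)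
    (hp : faceStep E f g) : OutF E f := h.of_path (Relation.ReflTransGen.single hp)

section

variable {X : DDomain}

lemma not_mem_E {u v : ℤ × ℤ} (h : u ∉ X.V) : s(u, v) ∉ X.E ∧ s(v, u) ∉ X.E :=
  ⟨fun h1 => h ((X.subE h1).2 u (by simp)), fun h1 => h ((X.subE h1).2 u (by simp))⟩

/-- The face to the upper right of a vertex which is not in the domain. -/
lemma outF_of_not_mem {u : ℤ × ℤ} (hu : u ∉ X.V) : OutF X.E u := by
  classical
  obtain ⟨x, y⟩ := u
  by_cases hall : ∀ k : ℕ, ((x + k, y) : ℤ × ℤ) ∉ X.V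
  · intro n
    have key : ∀ k : ℕ, Relation.ReflTransGen (faceStep X.E) (x, y) (x + k, y) := by
      intro k
      induction k with
      | zero => simp only [Nat.cast_zero, add_zero]; exact Relation.ReflTransGen.refl
      | succ k ih =>
        refine ih.tail (Or.inl ⟨?_, ?_⟩)
        · push_cast; rw [add_assoc]
        · have h1 := hall (k + 1)
          push_cast at h1
          rw [← add_assoc] at h1
          exact (not_mem_E h1).1
    refine ⟨_, key (n.toNat + x.natAbs), ?_⟩
    simp only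
    have h1 := abs_nonneg y
    have h2 := le_abs_self (x + ((n.toNat + x.natAbs : ℕ) : ℤ))
    push_cast at h2 ⊢
    have h3 := Int.self_le_toNat n
    have h4 := neg_abs_le x
    omega
  · push Not at hall
    obtain ⟨hk, hmin⟩ : ((x + (Nat.find hall : ℕ), y) : ℤ × ℤ) ∈ X.V ∧
        ∀ m < Nat.find hall, ((x + (m : ℕ), y) : ℤ × ℤ) ∉ X.V :=
      ⟨Nat.find_spec hall, fun m hm => Nat.find_min hall hm⟩
    generalize Nat.find hall = k at hk hmin
    have hk0 : k ≠ 0 := by
      intro h
      rw [h] at hk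
      simp only [Nat.cast_zero, add_zero] at hk
      exact hu hk
    obtain ⟨m, rfl⟩ := Nat.exists_eq_succ_of_ne_zero hk0
    have key : ∀ j : ℕ, j ≤ m → Relation.ReflTransGen (faceStep X.E) (x, y) (x + j, y) := by
      intro j hj
      induction j with
      | zero => simp only [Nat.cast_zero, add_zero]; exact Relation.ReflTransGen.refl
      | succ j ih =>
        refine (ih (by omega)).tail (Or.inl ⟨?_, ?_⟩)
        · push_cast; rw [add_assoc]
        · have h1 := hmin (j + 1) (by omega)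
          push_cast at h1
          rw [← add_assoc] at h1
          exact (not_mem_E h1).1
    have hm : ((x + (m : ℤ), y) : ℤ × ℤ) ∉ X.V := hmin m (by omega)
    -- the corner at the vertex of the domain looking west
    have e1 : dir 2 = (-1, 0) := Pool.Agent.H69.Q1.dir_two
    have hc := X.noHole (((x + ((m.succ : ℕ) : ℤ), y), 2) : Corner) hk (by
      unfold Corner.edge
      simp only [e1]
      have h2 : ((x + ((m.succ : ℕ) : ℤ), y) : ℤ × ℤ) + (-1, 0) = (x + (m : ℤ), y) := by
        simp only [Prod.mk_add_mk, add_zero, Prod.mk.injEq, and_true]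
        push_cast; ring
      rw [h2]
      exact (not_mem_E hm).2)
    rw [outF_iff] at hc
    have e2 : Corner.face (((x + ((m.succ : ℕ) : ℤ), y), 2) : Corner) = (x + (m : ℤ), y - 1) := by
      have d1 : (2 : ZMod 4) ≠ 0 := by decide
      have d2 : (2 : ZMod 4) ≠ 1 := by decide
      simp only [Corner.face, d1, d2, if_false, if_true, Prod.mk.injEq, and_true]
      push_cast; ring
    rw [e2] at hc
    refine (hc.of_step (f := (x + (m : ℤ), y)) (Or.inr (Or.inr (Or.inr ⟨rfl, ?_⟩)))).of_path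
      (key m le_rfl)
    exact (not_mem_E hm).1

/-- **Faces next to a missing label are outside.** -/
theorem outF_corner {c : Corner} (h : c.edge ∉ X.E) : OutF X.E c.face := by
  by_cases hV : c.1 ∈ X.V
  · exact X.noHole c hV h
  · have h0 := outF_of_not_mem hV
    obtain ⟨⟨x, y⟩, q⟩ := c
    simp only at hV h0
    have d1 : (1 : ZMod 4) ≠ 0 := by decide
    have d2 : (2 : ZMod 4) ≠ 0 := by decide
    have d3 : (2 : ZMod 4) ≠ 1 := by decide
    have d4 : (3 : ZMod 4) ≠ 0 := by decide
    have d5 : (3 : ZMod 4) ≠ 1 := by decide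
    have d6 : (3 : ZMod 4) ≠ 2 := by decide
    -- the four faces around the vertex
    have h1 : OutF X.E (x - 1, y) := by
      refine h0.of_step (Or.inl ⟨by simp, ?_⟩)
      simp only [sub_add_cancel]
      exact (not_mem_E hV).1
    have h3 : OutF X.E (x, y - 1) := by
      refine h0.of_step (Or.inr (Or.inr (Or.inl ⟨by simp, ?_⟩)))
      simp only [sub_add_cancel]
      exact (not_mem_E hV).1
    have h2 : OutF X.E (x - 1, y - 1) := by
      refine h3.of_step (Or.inl ⟨by simp, ?_⟩)
      simp only [sub_add_cancel]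
      exact (not_mem_E hV).2
    rcases Pool.Agent.H69.Q1.q_cases q with rfl | rfl | rfl | rfl
    · simpa [Corner.face] using h0
    · simpa [Corner.face, d1] using h1
    · simpa [Corner.face, d2, d3] using h2
    · simpa [Corner.face, d4, d5, d6] using h3

/-- Outer faces are joined off the domain. -/
lemma dCo_of_outF {f g : ℤ × ℤ} (h : OutF X.E f) (h' : OutF X.E g) :
    DCo (LabE X) (f.1 + 1, f.2 + 1) (g.1 + 1, g.2 + 1) := by
  obtain ⟨N, hN⟩ := exists_far (LabE X)
  obtain ⟨g1, h1, h2⟩ := h (N + 2)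
  obtain ⟨g1', h1', h2'⟩ := h' (N + 2)
  have h3 := dCo_of_faceStep X h1
  have h3' := dCo_of_faceStep X h1'
  have key : ∀ g : ℤ × ℤ, N + 2 ≤ |g.1| + |g.2| → N ≤ |g.1 + 1| + |g.2 + 1| := by
    intro g hg
    have e1 : |g.1| ≤ |g.1 + 1| + 1 := by
      have := abs_sub_abs_le_abs_sub g.1 (g.1 + 1)
      have e : |g.1 - (g.1 + 1)| = 1 := by rw [show g.1 - (g.1 + 1) = -1 by ring]; decide
      omega
    have e2 : |g.2| ≤ |g.2 + 1| + 1 := by
      have := abs_sub_abs_le_abs_sub g.2 (g.2 + 1)
      have e : |g.2 - (g.2 + 1)| = 1 := by rw [show g.2 - (g.2 + 1) = -1 by ring]; decide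
      omega
    omega
  exact (h3.trans (hN _ _ (key g1 h2) (key g1' h2'))).trans h3'.symm

/-- **The faces next to labels off the domain are joined to the face of the tip.** -/
theorem clJ_of_not_mem {x : ℤ × ℤ} (h : plab x ∉ X.toDEnv.E ∪ X.toDEnv.W) :
    ClJ X.toDEnv (fi X.toDEnv.α) (fi x) := by
  obtain ⟨c, rfl⟩ := cor_surjective x
  rw [E_union_W, plab_cor, lb_mem_LabE X (corner_edge_mem _)] at h
  have h1 : OutF X.E X.α.face := X.outα
  have h2 := dCo_of_outF h1 (outF_corner h)
  obtain ⟨F, hF⟩ := exists_du_of_dCo h2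
  refine ⟨F, ?_⟩
  rw [E_union_W, toDEnv_α, fi_cor, fi_cor]
  exact hF

end

end Pool.Agent.H14.NB
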