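import Pool.Agent.H14.NB.Std0
import Pool.Agent.Q1.M3.Asm.StDLem
import Pool.Agent.Q1.M3.Asm.BadN
import Pool.Agent.Q1.M3.Asm.Fin
import Pool.Agent.H21.Q1.StE

set_option autoImplicit false
open Finset Filter Topology

/-! # Comparison for the initial state -/

namespace Pool.Agent.H14.NB

open Pool.Agent.H75.Perc Pool.Agent.H75.TwoArm Pool.Agent.H75.Four Pool.Agent.H99.NC
open Pool.Agent.H69.Q1 Pool.Agent.H28.Q1
open Pool.Agent.Q1.M3 Pool.Agent.Q1.M3.Pg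
open Pool.Agent.Q1.M3.Asm (StOne0 Cmp1 stD_of bad_zero rr rr_spec)
open Pool.Agent.H21.Q1 (StD Dcy exists_Dcy)
open Pool.Agent.H81.Q1 (pt DDomain Approx IsJordanDomain IsArcs)

variable {D : Set ℂ} {a b : ℂ} {A₁ A₂ : Set ℂ} {A : Approx D a b A₁ A₂} {r0 : ℝ}

lemma sameRun_asm {d d' : SD} (h : SameRun d d') : Pool.Agent.Q1.M3.Asm.SameRun d d' :=
  ⟨h.h, fun m hm => h.side m hm⟩

/-- **Comparison for the initial state.** -/
theorem stOne0 (hD : IsJordanDomain D) (hab : a ≠ b) (hA : IsArcs D a b A₁ A₂) (B : Base A r0)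
    (hr : r0 < dist a b) (k0 : ℕ) : StOne0 B k0 := by
  classical
  have hDo := hD.1
  have hDb := hD.2.2.1
  obtain ⟨haD, hbD⟩ := not_mem_of_arcs hD.1 hA
  obtain ⟨κ, hκ⟩ := exists_Dcy
  have hκ0 := hκ.1
  have hκ1 := hκ.2.1
  refine ⟨k0, le_rfl, fun k hk ε hε => ?_⟩
  obtain ⟨kk, hkk⟩ := exists_pow_lt_of_lt_one (show 0 < ε / 18 by positivity)
    (show 1 - κ < 1 by linarith)
  have h4 : (1 : ℝ) ≤ 4 ^ kk := one_le_pow₀ (by norm_num)
  obtain ⟨ρK, hρK0, hρK2, hparts⟩ := parts0 hD hab hA B hr k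
  obtain ⟨r', hr'0, hnlem⟩ := nlem0 hD hab hA B (show 0 < ε / 3 by positivity)
  set ρ := min (ρK / (32 * 4 ^ kk)) r' with hρ
  have hρ0 : 0 < ρ := lt_min (by positivity) hr'0
  have hρ1 : 32 * 4 ^ kk * ρ ≤ ρK := by
    have h1 : ρ ≤ ρK / (32 * 4 ^ kk) := min_le_left _ _
    rw [le_div_iff₀ (by positivity)] at h1
    linarith
  have hρ2 : ρ ≤ r' := min_le_right _ _
  have hρ3 : ρ ≤ ρK := by
    have : 1 * ρ ≤ 32 * 4 ^ kk * ρ := mul_le_mul_of_nonneg_right (by linarith) hρ0.le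
    linarith
  obtain ⟨r1, hr10, hr1⟩ := hparts ρ hρ0 hρ3
  obtain ⟨D0, hD00, hcut⟩ := cut0 hD hA A hρ0
  refine ⟨min r1 (ρ / 4), by positivity, fun BB hbB hBB => ?_⟩
  obtain ⟨sb, hsb, hsB⟩ := Metric.isOpen_iff.1 (Pool.Agent.H42.Q1.isOpen_fat B.o BB) b hbB
  filter_upwards [B.rlim.eventually_lt_const hsb] with M hM z hz hzq
  have hball : Metric.ball b (B.r M) ⊆ fat B.o BB := (Metric.ball_subset_ball hM.le).trans hsB
  have hP : Par0 B r1 M BB z := ⟨hz, hzq, hbB, hball,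
    hBB.trans (Metric.ball_subset_ball (min_le_left _ _))⟩
  have hBB4 : cfat B.o BB ⊆ Metric.ball b (ρ / 4) :=
    hBB.trans (Metric.ball_subset_ball (min_le_right _ _))
  obtain ⟨K1, hK1⟩ := hr1 M BB z hP ε hε
  obtain ⟨L, hL⟩ := exists_lev B M
  set ρ' := min ρ (50 * D0) with hρ'
  have hρ'0 : 0 < ρ' := lt_min hρ0 (by positivity)
  obtain ⟨K2, hK2⟩ := exists_mesh (r := ρ' / (1600 * 4 ^ kk)) (by positivity)
  refine ⟨max (max K1 K2) (max (max L (k + 1)) (BB.1 + 1)), fun K hK C hC hLev => ?_⟩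
  have g1 : K1 ≤ K := (le_max_left _ _).trans ((le_max_left _ _).trans hK)
  have g2 : K2 ≤ K := (le_max_right _ _).trans ((le_max_left _ _).trans hK)
  have g3 : max (max L (k + 1)) (BB.1 + 1) ≤ K := (le_max_right _ _).trans hK
  have g4 : L ≤ K := (le_max_left _ _).trans ((le_max_left _ _).trans g3)
  have g5 : k + 1 ≤ K := (le_max_right _ _).trans ((le_max_left _ _).trans g3)
  have g6 : BB.1 + 1 ≤ K := (le_max_right _ _).trans g3
  have hmp := mesh_pos (K + 1)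
  have hm := hK2 K g2
  have hm' : 1600 * (4 ^ kk * mesh (K + 1)) ≤ ρ' := by
    rw [le_div_iff₀ (by positivity)] at hm
    linarith
  have hm1 : 1600 * (4 ^ kk * mesh (K + 1)) ≤ ρ := hm'.trans (min_le_left _ _)
  have hCk : ∀ q ∈ C, q.1 ≤ k ∧ cfat B.o q ⊆ D := fun q hq => ⟨(hC q hq).2.1, (hC q hq).2.2⟩
  obtain ⟨s0, hs0⟩ := hK1 K g1 C hCk hLev
  -- the number of the sides of the run does not depend on `n`
  set H0 : ℝ := ((dC B K C M BB z s0).h : ℝ) + 1 with hH0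
  have hH0p : 0 < H0 := by positivity
  obtain ⟨k2, hk2⟩ := exists_pow_lt_of_lt_one (show 0 < ε / (3 * H0) by positivity)
    (show 1 - κ < 1 by linarith)
  refine ⟨s0, ?_⟩
  have e1 : ∀ᶠ n in atTop, A.δ n < mesh (K + 1) / 5 := A.lim.eventually_lt_const (by positivity)
  have e2 : ∀ᶠ n in atTop, A.δ n < mesh (K + 1) / (2 * 4 ^ k2 + 4) :=
    A.lim.eventually_lt_const (by positivity)
  filter_upwards [hs0, stD_of B hD hA hr hk (M := M) (K := K) (kk := kk) (BB := BB) hρ0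
    (fun q hq => by have := hL q hq; omega) (by omega) (by omega) hball hBB4 hm1 hρ1,
    hnlem, hcut, bad_zero B hD hab hA hr hε, uk_const hDo hDb hA A B.o B.qb K,
    free_cells hDo hA A B.o (fun q hq => (hC q hq).2.2), B.reg_eventually hDb haD hr k0 k, e1, e2]
    with n t1 t2 t3 t4 t5 t6 t7 t8 t9 t10 _
  obtain ⟨s, τ, A', p0, hPt, hok0, hrun, hgg⟩ := t1
  have hδ := A.pos n
  refine ⟨s, ?_, sameRun_asm hrun, hgg⟩
  have hst : star (Vn (A.δ n) B.o C) ⊆ (X0 A n).E := by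
    intro l hl
    obtain ⟨v, hv, h5⟩ := mem_star.1 hl
    obtain ⟨q, hq, h6⟩ := mem_Vn.1 hv
    exact (t7 q hq).2 (star1_sub_star h6 h5)
  have hCU : C ⊆ Ule D (A.δ n) B.o B.qb k0 k (B.X k0 n 0 ∅).E := by
    intro q hq
    rw [mem_Ule hDb]
    refine ⟨(hC q hq).1, (hC q hq).2.1, ?_⟩
    exact (hLev q hq).mono fun x hx => t7 x hx
  have hS := t2 0 ∅ (empty_subset _) t8.nfin C hCU z s (X0 A n) τ A' p0 a (ε / 3) r' hPt.td
    subset_rfl (fun f h => h) (invL0 A n) hρK2 hPt.Kp (by have := hPt.near; exact this.trans (by linarith))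
    (fun v hv => (hPt.hτ v hv).trans (by linarith))
    (fun e he => ⟨(hPt.hA e he).1.trans (by linarith), (hPt.hA e he).2.trans (by linarith)⟩)
    hρ2 t3 (fun c hc => by
      refine t4 (4 ^ kk * rr K (A.δ n)) ?_ c hc
      obtain ⟨-, h5⟩ := rr_spec (K := K) (kk := kk) hδ (by linarith) hm'
      have h6 : ρ' ≤ 50 * D0 := min_le_right _ _
      push_cast
      nlinarith) hPt.ch
  refine ⟨⟨X0 A n, τ, A', p0, hPt.td, subset_rfl⟩, fun j0 t hR y m h5 h6 h7 h8 => ?_, t5 C hst⟩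
  have h9 := hS.cmp hκ hR h5 h6 h7 h8 (k2 := k2) (by
    rw [le_div_iff₀ hδ]
    rw [lt_div_iff₀ (by positivity)] at t10
    change (2 * 4 ^ k2 + 4) * A.δ n ≤ mesh (K + 1)
    linarith)
  refine h9.trans ?_
  have h10 : ((mkSD B K (A.δ n) (X0 A n).E C M BB z s).h : ℝ) + 1 = H0 := by
    rw [hrun.h, mkSD_eq B t6]
  have h11 : ((mkSD B K (A.δ n) (X0 A n).E C M BB z s).h + 1) * (1 - κ) ^ k2 ≤ ε / 3 := by
    rw [h10]
    rw [lt_div_iff₀ (by positivity)] at hk2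
    linarith
  have h12 : 6 * (1 - κ) ^ kk ≤ ε / 3 := by linarith
  change ε / 3 + 6 * (1 - κ) ^ kk +
    ((mkSD B K (A.δ n) (X0 A n).E C M BB z s).h + 1) * (1 - κ) ^ k2 ≤ ε
  linarith

end Pool.Agent.H14.NB
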