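import Pool.Agent.H14.NB.Chan0
import Pool.Agent.H21.Q1.TieX

set_option autoImplicit false
open Finset Filter Topology

/-! # The hypotheses of the comparison for the first step -/

namespace Pool.Agent.H14.NB

open Pool.Agent.H75.Perc Pool.Agent.H75.TwoArm Pool.Agent.H75.Four Pool.Agent.H99.NC
open Pool.Agent.H69.Q1 Pool.Agent.H39.Q1 Pool.Agent.H28.Q1
open Pool.Agent.Q1.M3 Pool.Agent.Q1.M3.Pg
open Pool.Agent.H75.TwoArm.StrandAux hiding vx_nxC
open Pool.Agent.Q1.M4 (Adj4 Conn4 Good IsSide inV inRect nextSide tail head Eqv isSide_iter)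
open Pool.Agent.H21.Q1 (Sol Wt InvL NoCut)
open Pool.Agent.H81.Q1 (pt DDomain Approx IsJordanDomain IsArcs)
open Pool.Agent.H42.Q1 (RB)

/-- The geometric hypotheses of the comparison for a state which is its own history: `p` = the tip,
`b` = the end point. -/
structure Part0 (d : SD) (o : ℂ) (δ : ℝ) (X : DEnv) (Kv τ A : Finset (ℤ × ℤ)) (p0 : ℕ) (p b : ℂ)
    (ρ ρK : ℝ) : Prop where
  td : Tied d o δ X X Kv τ A p0
  n2N : d.n2 < d.N
  Kp : ∀ v ∈ Kv, ρK ≤ dist (pt δ v) p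
  near : dist (gpt o d.K d.s.1) p < ρ / 4
  hτ : ∀ v, Vl τ v → dist (pt δ v) p < ρ / 4
  hA : ∀ e ∈ A, dist (pt δ (eu e)) p < ρ / 4 ∧ dist (pt δ (ev e)) p < ρ / 4
  tip : ∀ j ≤ d.ln o δ 0, dist (pt δ (d.pt' o δ 0 j)) p < ρ
  fr : ∀ s, 0 < s → s < d.N → ¬ (d.n1 ≤ s ∧ s < d.n2) → ∀ j ≤ d.ln o δ s,
    ρ ≤ dist (pt δ (d.pt' o δ s j)) p → ρ ≤ dist (pt δ (d.pt' o δ s j)) b →
    Fr d.K o δ d.P Kv τ A X.E (d.oc' s)
  ch : ∃ (S : Set (ℤ × ℤ)) (n : ℕ), d.n1 ≤ n ∧ n < d.n2 ∧ d.s.1 ∈ S ∧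
    J4 (S ∩ (d.R : Set (ℤ × ℤ))) d.s.1 (d.sid n).1 ∧
    ∀ v, (∃ q ∈ S, |(box δ o d.K v).1 - q.1| ≤ 3 ∧ |(box δ o d.K v).2 - q.2| ≤ 3) →
      ρK ≤ dist (pt δ v) b

section

variable {D : Set ℂ} {a b : ℂ} {A₁ A₂ : Set ℂ} {A : Approx D a b A₁ A₂} {r0 : ℝ}

/-- **No small crosscuts** in the initial domain. -/
theorem cut0 (hD : IsJordanDomain D) (hA : IsArcs D a b A₁ A₂) (A : Approx D a b A₁ A₂) {ρ : ℝ}
    (hρ : 0 < ρ) : ∃ D0 > 0, ∀ᶠ n in atTop, ∀ w : ℤ, 2 * (A.δ n * w) ≤ D0 → ∀ c : ℤ × ℤ,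
      (∀ u, RB (c.1 - w) (c.1 + w) (c.2 - w) (c.2 + w) u →
        ρ ≤ dist (pt (A.δ n) u) a ∧ ρ ≤ dist (pt (A.δ n) u) b) →
      NoCut (X0 A n) (c.1 - w) (c.1 + w) (c.2 - w) (c.2 + w) := by
  obtain ⟨D0, h0, h1⟩ := iso0 hD hA A hρ
  refine ⟨D0, h0, ?_⟩
  filter_upwards [h1] with n h2 w hw c hc
  exact h2 _ _ _ _ (by push_cast; linarith) (by push_cast; linarith) hc

/-- **(DC)** for the initial environments. -/
lemma stDead (hD : IsJordanDomain D) (B : Base A r0) (K : ℕ) : StDead B K := by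
  filter_upwards [dead_cells hD A B K] with n h E hE C hC c c' h1 h2 h3
  exact h E hE C hC c c' h2 h1 h3

/-- The hypotheses of the ties for a side away from the marked points. -/
lemma fr0 {B : Base A r0} {K : ℕ} {C : Finset Cell} {M : ℕ} {BB : Cell} {z : ℂ} {ρ ρ' r1 : ℝ}
    {c0 : ℤ × ℤ} {n : ℕ} {s : (ℤ × ℤ) × ℤ} {τ A' : Finset (ℤ × ℤ)} {p0 : ℕ}
    (hT : TipOk B K C M BB z ρ' c0 n s τ A' p0) (hsm : 5 * A.δ n ≤ mesh (K + 1))
    (hdead : ∀ c c' : ℤ × ℤ, Adj4 c c' → c ∈ flat K (UC D B.o B.qb K) →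
      c' ∉ (dC B K C M BB z s).P →
      DeadAt K B.o (A.δ n) (dC B K C M BB z s).P (X0 A n).E c')
    (hN : ∃ N' : Finset (ℤ × ℤ), B.N n = Vn (A.δ n) B.o (B.Q M) ∪ N' ∧
      ∀ v ∈ N', pt (A.δ n) v ∈ Metric.ball b (B.r M)) (hP : Par0 B r1 M BB z) (hBK : BB.1 ≤ K)
    (h1 : ρ' + 30 * mesh (K + 1) ≤ ρ) (h2 : r1 + 30 * mesh (K + 1) ≤ ρ) {i j : ℕ}
    (hi : i < (dC B K C M BB z s).N)
    (hoff : ¬ ((dC B K C M BB z s).n1 ≤ i ∧ i < (dC B K C M BB z s).n2))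
    (hj : j ≤ (dC B K C M BB z s).ln B.o (A.δ n) i)
    (ha : ρ ≤ dist (pt (A.δ n) ((dC B K C M BB z s).pt' B.o (A.δ n) i j)) a)
    (hb : ρ ≤ dist (pt (A.δ n) ((dC B K C M BB z s).pt' B.o (A.δ n) i j)) b) :
    Fr K B.o (A.δ n) (dC B K C M BB z s).P (KvC B C n) τ A' (X0 A n).E
      ((dC B K C M BB z s).oc' i) := by
  have hmp := mesh_pos (K + 1)
  have hδ := A.pos n
  have ok := hT.tied.ok
  have hgen : Gen2 K B.o (A.δ n) := hT.tied.fine.gen
  have hm3 : 3 * A.δ n ≤ mesh (K + 1) := by linarith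
  set d := dC B K C M BB z s with hd
  have hside : IsSide d.R (d.sid i) := isSide_iter ok.side i
  set p := d.pt' B.o (A.δ n) i j with hp
  have hnear : NB 2 (d.oc' i) (box (A.δ n) B.o K p) :=
    sp_near' hδ hsm hgen ok.typed hside hj
  have hpo := near_dist (δ := A.δ n) B.o K hnear.symm
  push_cast at hpo
  have hlevC : ∀ q ∈ C ∪ B.Q M, q.1 ≤ K := fun q hq => (ok.lev.hC q hq).le
  have hout : d.oc' i ∉ d.P := by
    rcases ok.mark.out ok hi hoff with h | h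
    · exact h
    · exfalso
      have h3 := hP.hs (gpt_mem (o := B.o) hBK h.2)
      rw [Metric.mem_ball] at h3
      have h4 : dist (gpt B.o K (d.oc' i)) b < r1 := h3
      have h5 := dist_triangle_left (pt (A.δ n) p) b (gpt B.o K (d.oc' i))
      linarith
  have key : ∀ v, NB 8 (d.oc' i) (box (A.δ n) B.o K v) →
      dist (pt (A.δ n) p) (pt (A.δ n) v) ≤ 24 * mesh (K + 1) := by
    intro v hv
    have h3 := near_dist (δ := A.δ n) B.o K hv.symm
    push_cast at h3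
    have h4 := dist_triangle_left (pt (A.δ n) p) (pt (A.δ n) v) (gpt B.o K (d.oc' i))
    linarith
  have keya : ∀ v, dist (pt (A.δ n) v) a < ρ' → ¬ NB 8 (d.oc' i) (box (A.δ n) B.o K v) := by
    intro v hv hn
    have h3 := key v hn
    have h4 := dist_triangle (pt (A.δ n) p) (pt (A.δ n) v) a
    linarith
  refine ⟨fun v hv hn => ?_, fun v hv => keya v (hT.hτ v hv), fun e he =>
    ⟨keya _ (hT.hA e he).1, keya _ (hT.hA e he).2⟩, ?_⟩
  · have hfl : ∀ q ∈ C ∪ B.Q M, v ∈ verts (A.δ n) B.o q → box (A.δ n) B.o K v ∈ d.P := by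
      intro q hq hvq
      exact flat_sub_PP (F := C ∪ B.Q M) (C := C ∪ B.Q M) subset_union_right
        (mem_flat.2 ⟨q, hq, (mem_verts_iff hδ hgen (hlevC q hq)).1 hvq⟩)
    obtain ⟨N', hN', hN'b⟩ := hN
    rcases mem_union.1 hv with h | h
    · obtain ⟨q, hq, hvq⟩ := mem_Vn.1 h
      exact hfl q (mem_union_left _ hq) hvq
    · rw [hN'] at h
      rcases mem_union.1 h with h | h
      · obtain ⟨q, hq, hvq⟩ := mem_Vn.1 h
        exact hfl q (mem_union_right _ hq) hvq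
      · exfalso
        have h3 := hP.hs (Pool.Agent.H42.Q1.fat_sub_cfat _ _ (hP.hr (hN'b v h)))
        rw [Metric.mem_ball] at h3
        have h4 := key v hn
        have h5 := dist_triangle (pt (A.δ n) p) (pt (A.δ n) v) b
        linarith
  · obtain ⟨h3, h4⟩ := mem_sdiff.1 (SD.R_sub hside.1)
    have hadj : Adj4 (d.sid i).1 (d.oc' i) := ⟨_, rfl⟩
    obtain ⟨q, hq, h5, -⟩ := exists_O h3 h4 hadj hout
    exact hdead _ _ hadj (mem_flat.2 ⟨q, hq, h5⟩) hout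

/-- The points of the tip side are near the tip. -/
lemma tip0' {B : Base A r0} {K : ℕ} {C : Finset Cell} {M : ℕ} {BB : Cell} {z : ℂ} {ρ ρ' : ℝ}
    {c0 : ℤ × ℤ} {n : ℕ} {s : (ℤ × ℤ) × ℤ} {τ A' : Finset (ℤ × ℤ)} {p0 : ℕ}
    (hT : TipOk B K C M BB z ρ' c0 n s τ A' p0) (hsm : 5 * A.δ n ≤ mesh (K + 1))
    (h1 : ρ' + 30 * mesh (K + 1) ≤ ρ) {j : ℕ}
    (hj : j ≤ (dC B K C M BB z s).ln B.o (A.δ n) 0) :
    dist (pt (A.δ n) ((dC B K C M BB z s).pt' B.o (A.δ n) 0 j)) a < ρ := by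
  have hmp := mesh_pos (K + 1)
  have ok := hT.tied.ok
  have hnear : NB 2 (outc ((dC B K C M BB z s).sid 0))
      (box (A.δ n) B.o K ((dC B K C M BB z s).pt' B.o (A.δ n) 0 j)) :=
    sp_near' (A.pos n) hsm hT.tied.fine.gen ok.typed (isSide_iter ok.side 0) hj
  have hpo := near_dist (δ := A.δ n) B.o K hnear.symm
  push_cast at hpo
  have h2 := gpt_outc B K ((dC B K C M BB z s).sid 0)
  have h3 : ((dC B K C M BB z s).sid 0).1 = s.1 := rfl
  rw [h3] at h2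
  have h4 := hT.near
  set x := gpt B.o K (outc ((dC B K C M BB z s).sid 0)) with hx
  set y := pt (A.δ n) ((dC B K C M BB z s).pt' B.o (A.δ n) 0 j) with hy
  have h5 := dist_triangle y x a
  have h6 := dist_triangle x (gpt B.o K s.1) a
  rw [dist_comm y x] at h5
  rw [dist_comm x (gpt B.o K s.1)] at h6
  linarith

/-- The target is far from `a`, with a distance which does not depend on the barrier. -/
lemma far_data' (hD : IsJordanDomain D) (hab : a ≠ b) (hA : IsArcs D a b A₁ A₂) (B : Base A r0)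
    (hr : r0 < dist a b) (k : ℕ) : ∃ da > 0, ∀ (M : ℕ) (BB : Cell) (z : ℂ),
      Par0 B (dist a b / 4) M BB z → ∃ L, ∀ K, L ≤ K → ∀ C : Finset Cell,
      (∀ q ∈ C, q.1 ≤ k ∧ cfat B.o q ⊆ D) →
      (∀ s, ∀ c ∈ (dC B K C M BB z s).H2, da ≤ dist (gpt B.o K c) a) ∧
      ∀ᶠ n in atTop, ∀ v ∈ KvC B C n, da ≤ dist (pt (A.δ n) v) a := by
  have hab' : 0 < dist a b := dist_pos.2 hab
  have hDb := hD.2.2.1
  obtain ⟨haD, hbD⟩ := not_mem_of_arcs hD.1 hA
  obtain ⟨sa, hsa0, hsa⟩ := exists_dist (cellsLe D B.o 0 k)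
    (fun q hq => ((mem_cellsLe hDb).1 hq).2.2) haD
  have hQ : ∀ M, ∀ q ∈ B.Q M, ∀ w ∈ cfat B.o q, dist a b - r0 ≤ dist w a := by
    intro M q hq w hw
    have h1 := (B.subQ M q hq hw).2
    rw [Metric.mem_ball] at h1
    have h2 := dist_triangle a w b
    rw [dist_comm a w] at h2
    linarith
  refine ⟨min sa (min (dist a b - r0) (dist a b / 2)), lt_min hsa0 (lt_min (by linarith)
    (by positivity)), fun M BB z hP => ?_⟩
  set da := min sa (min (dist a b - r0) (dist a b / 2)) with hda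
  have d1 : da ≤ sa := min_le_left _ _
  have d2 : da ≤ dist a b - r0 := (min_le_right _ _).trans (min_le_left _ _)
  have d3 : da ≤ dist a b / 2 := (min_le_right _ _).trans (min_le_right _ _)
  have hBBa : ∀ w ∈ cfat B.o BB, dist a b / 2 ≤ dist w a := by
    intro w hw
    have h1 := hP.hs hw
    rw [Metric.mem_ball] at h1
    have h2 := dist_triangle a w b
    rw [dist_comm a w] at h2
    linarith
  obtain ⟨L, hL⟩ := exists_lev B M
  refine ⟨max (max L (BB.1 + 1)) (k + 1), fun K hK C hC => ?_⟩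
  have k4 : L ≤ K := (le_max_left _ _).trans ((le_max_left _ _).trans hK)
  have k5 : BB.1 + 1 ≤ K := (le_max_right _ _).trans ((le_max_left _ _).trans hK)
  have k6 : k + 1 ≤ K := (le_max_right _ _).trans hK
  have hall : ∀ q ∈ C ∪ B.Q M, q.1 ≤ K ∧ ∀ w ∈ cfat B.o q, da ≤ dist w a := by
    intro q hq
    rcases mem_union.1 hq with h | h
    · refine ⟨by have := (hC q h).1; omega, fun w hw => d1.trans (hsa q ?_ w hw)⟩
      rw [mem_cellsLe hDb]
      exact ⟨Nat.zero_le _, (hC q h).1, (hC q h).2⟩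
    · exact ⟨by have := hL q h; omega, fun w hw => d2.trans (hQ M q h w hw)⟩
  constructor
  · intro s c hc
    have hc' : c ∈ flat K (C ∪ B.Q M) ∪ (fc K BB ∩ (dC B K C M BB z s).P) := hc
    rcases mem_union.1 hc' with h | h
    · obtain ⟨q, hq, hcq⟩ := mem_flat.1 h
      exact (hall q hq).2 _ (gpt_mem (hall q hq).1 hcq)
    · exact d3.trans (hBBa _ (gpt_mem (by omega) (mem_inter.1 h).1))
  · filter_upwards [B.hN M] with n g3
    obtain ⟨N', hN', hN'b⟩ := g3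
    have hδ := A.pos n
    intro v hv
    have key : ∀ q ∈ C ∪ B.Q M, v ∈ verts (A.δ n) B.o q → da ≤ dist (pt (A.δ n) v) a := by
      intro q hq hvq
      exact (hall q hq).2 _ (Pool.Agent.H42.Q1.fat_sub_cfat _ _ ((mem_verts hδ).1 hvq))
    rcases mem_union.1 hv with h | h
    · obtain ⟨q, hq, hvq⟩ := mem_Vn.1 h
      exact key q (mem_union_left _ hq) hvq
    · rw [hN'] at h
      rcases mem_union.1 h with h | h
      · obtain ⟨q, hq, hvq⟩ := mem_Vn.1 h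
        exact key q (mem_union_right _ hq) hvq
      · exact d3.trans (hBBa _ (Pool.Agent.H42.Q1.fat_sub_cfat _ _ (hP.hr (hN'b v h))))

lemma Par0.mono {B : Base A r0} {r r' : ℝ} {M : ℕ} {BB : Cell} {z : ℂ} (h : Par0 B r M BB z)
    (hrr : r ≤ r') : Par0 B r' M BB z :=
  ⟨h.hz, h.hzq, h.hbB, h.hr, h.hs.trans (Metric.ball_subset_ball hrr)⟩

/-- **The first step: all geometric hypotheses of the comparison.** -/
theorem parts0 (hD : IsJordanDomain D) (hab : a ≠ b) (hA : IsArcs D a b A₁ A₂) (B : Base A r0)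
    (hr : r0 < dist a b) (k : ℕ) : ∃ ρK > 0, 2 * ρK ≤ dist a b ∧ ∀ ρ > 0, ρ ≤ ρK →
      ∃ r1 > 0, ∀ (M : ℕ) (BB : Cell) (z : ℂ), Par0 B r1 M BB z → ∀ ε > 0, ∃ K1, ∀ K, K1 ≤ K →
      ∀ C : Finset Cell, (∀ q ∈ C, q.1 ≤ k ∧ cfat B.o q ⊆ D) → Lev B.o B.qb C →
      ∃ s0 : (ℤ × ℤ) × ℤ, ∀ᶠ n in atTop, ∃ s τ A' p0,
        Part0 (mkSD B K (A.δ n) (X0 A n).E C M BB z s) B.o (A.δ n) (X0 A n)
          (Vn (A.δ n) B.o C ∪ B.N n) τ A' p0 a b ρ ρK ∧
        (mkSD B K (A.δ n) (X0 A n).E C M BB z s0).Ok ∧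
        SameRun (mkSD B K (A.δ n) (X0 A n).E C M BB z s)
          (mkSD B K (A.δ n) (X0 A n).E C M BB z s0) ∧
        ∀ j, |(mkSD B K (A.δ n) (X0 A n).E C M BB z s).gg (LX K B.o.re (A.δ n))
            (LX K B.o.im (A.δ n)) j - (mkSD B K (A.δ n) (X0 A n).E C M BB z s0).gg
            (LX K B.o.re (A.δ n)) (LX K B.o.im (A.δ n)) j| ≤ ε := by
  classical
  have hab' : 0 < dist a b := dist_pos.2 hab
  have hDb := hD.2.2.1
  obtain ⟨ρc, hρc0, hρc2, hch⟩ := chan0 hD hab hA B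
  obtain ⟨da, hda0, hda⟩ := far_data' hD hab hA B hr k
  obtain ⟨s1, hs10, hs14, hj0⟩ := j0_main hD hab hA B (stDead hD B)
  refine ⟨min (min ρc (da / 2)) (dist a b / 8), by positivity, ?_, fun ρ hρ hρK => ?_⟩
  · have := min_le_right (min ρc (da / 2)) (dist a b / 8)
    linarith
  set ρK := min (min ρc (da / 2)) (dist a b / 8) with hρKd
  have e1 : ρK ≤ ρc := (min_le_left _ _).trans (min_le_left _ _)
  have e2 : ρK ≤ da / 2 := (min_le_left _ _).trans (min_le_right _ _)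
  have e3 : ρK ≤ dist a b / 8 := min_le_right _ _
  refine ⟨min (min s1 ρc) (ρ / 4), by positivity, fun M BB z hP ε hε => ?_⟩
  set r1 := min (min s1 ρc) (ρ / 4) with hr1
  have f1 : r1 ≤ s1 := (min_le_left _ _).trans (min_le_left _ _)
  have f2 : r1 ≤ ρc := (min_le_left _ _).trans (min_le_right _ _)
  have f3 : r1 ≤ ρ / 4 := min_le_right _ _
  obtain ⟨K1, hK1⟩ := hch M k
  obtain ⟨K2, hK2⟩ := hda M BB z (hP.mono (f1.trans hs14))
  obtain ⟨K3, hK3⟩ := hj0 M BB z (hP.mono f1) k (ρ / 4) (by positivity) ε hε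
  obtain ⟨K4, hK4⟩ := exists_mesh (r := ρ / 120) (by positivity)
  refine ⟨max (max K1 K2) (max (max K3 K4) (BB.1 + 1)), fun K hK C hC hLev => ?_⟩
  have k1 : K1 ≤ K := (le_max_left _ _).trans ((le_max_left _ _).trans hK)
  have k2 : K2 ≤ K := (le_max_right _ _).trans ((le_max_left _ _).trans hK)
  have k5 : max (max K3 K4) (BB.1 + 1) ≤ K := (le_max_right _ _).trans hK
  have k3 : K3 ≤ K := (le_max_left _ _).trans ((le_max_left _ _).trans k5)
  have k4 : K4 ≤ K := (le_max_right _ _).trans ((le_max_left _ _).trans k5)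
  have k6 : BB.1 + 1 ≤ K := (le_max_right _ _).trans k5
  have hmp := mesh_pos (K + 1)
  have hm := hK4 K k4
  obtain ⟨hfar, hkfar⟩ := hK2 K k2 C hC
  obtain ⟨s0, hs0⟩ := hK3 K k3 C hC hLev
  have hCD : ∀ q ∈ C ∪ B.Q M, cfat B.o q ⊆ D := by
    intro q hq
    rcases mem_union.1 hq with h | h
    · exact (hC q h).2
    · exact (B.subQ M q h).trans Set.inter_subset_left
  refine ⟨s0, ?_⟩
  have g0 : ∀ᶠ n in atTop, A.δ n < mesh (K + 1) / 5 := A.lim.eventually_lt_const (by positivity)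
  filter_upwards [hs0, hkfar, uk_const hD.1 hDb hA A B.o B.qb K, stDead hD B K,
    free_cells hD.1 hA A B.o hCD, B.hN M, g0] with n g1 g2 g3 g4 g5 g6 g7
  obtain ⟨s, τ, A', p0, t1, t2, t3, t4, t5, t6, t7⟩ := g1
  refine ⟨s, τ, A', p0, ?_, t5, t6, t7⟩
  rw [mkSD_eq B g3] at t1 ⊢
  have ok := t1.ok
  have hsm : 5 * A.δ n ≤ mesh (K + 1) := by linarith
  have hT : TipOk B K C M BB z (ρ / 4) s.1 n s τ A' p0 :=
    ⟨self_mem_comp ok.mem, t1, t2, t3, t4⟩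
  refine ⟨t1, ?_, fun v hv => ?_, t4, t2, t3, fun j hj => ?_,
    fun i _ hi hoff j hj h1 h2 => ?_, ?_⟩
  · exact hT.n2_lt (hfar s) (by linarith)
  · have := g2 v hv
    linarith
  · exact tip0' hT hsm (by linarith) hj
  · refine fr0 hT hsm ?_ g6 hP (by omega) (ρ := ρ) (by linarith) (by linarith) hi hoff hj h1 h2
    intro c c' hcc' hc hc'
    have h3 := g4 (X0 A n).E (subset_refl _) (C ∪ B.Q M) (fun q hq =>
      ⟨ok.lev.hC q hq, (g5 q hq).1, (g5 q hq).2⟩) c c' hcc'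
    rw [g3] at h3
    exact h3 hc hc'
  · obtain ⟨S, m, h3, h4, h5, h6, h7⟩ := hK1 K k1 C hC BB z s (by omega)
      (hP.hs.trans (Metric.ball_subset_ball f2)) ok (by linarith)
    exact ⟨S, m, h3, h4, h5, h6, fun v hv => e1.trans (h7 _ v hv)⟩

end

end Pool.Agent.H14.NB
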