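import Pool.Agent.H14.NB.CtxPath
import Pool.Agent.H14.NB.Entry
import Pool.Agent.H14.NB.Tip0
import Pool.Agent.Q1.M3.Pg.Tied
import Pool.Agent.Q1.M3.Pg.Chan

set_option autoImplicit false
open Finset

/-! # The first step: existence of the tip side and of the tip path -/

namespace Pool.Agent.H14.NB

open Pool.Agent.H75.Perc Pool.Agent.H75.TwoArm Pool.Agent.H75.Four Pool.Agent.H99.NC
open Pool.Agent.H69.Q1 Pool.Agent.H39.Q1 Pool.Agent.H28.Q1
open Pool.Agent.Q1.M3 Pool.Agent.Q1.M3.Pg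
open Pool.Agent.H75.TwoArm.StrandAux hiding vx_nxC
open Pool.Agent.H49.Q1 (gcell gs mem_gs)
open Pool.Agent.Q1.M4 (Adj4 Conn4 Good IsSide inV inRect nextSide tail head)
open Pool.Agent.H5.Q1
open Pool.Agent.H21.Q1 (Sol Wt InvL)

lemma comp_eq {A : Finset (ℤ × ℤ)} {c c' : ℤ × ℤ} (hc : c ∈ A) (h : c' ∈ comp A c) :
    comp A c' = comp A c := by
  have h1 := (mem_comp.1 h).2
  have h2 := (mem_comp.1 h).1
  ext z
  rw [mem_comp, mem_comp]
  constructor
  · rintro ⟨h3, h4⟩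
    exact ⟨h3, h1.trans h4⟩
  · rintro ⟨h3, h4⟩
    exact ⟨h3, (h1.symm (by exact_mod_cast hc)).trans h4⟩

section

variable {K : ℕ} {o : ℂ} {δ : ℝ} {P H : Finset (ℤ × ℤ)} {ct : ℤ × ℤ}

/-- The points of a side are near the outer cell. -/
lemma sp_near' (hδ : 0 < δ) (hm : 5 * δ ≤ mesh (K + 1)) (hg : Gen2 K o δ) (hT : Typed lty P H)
    {s : (ℤ × ℤ) × ℤ} (hs : IsSide (comp (P \ H) ct) s) {j : ℕ}
    (hj : j ≤ slen (LX K o.re δ) (LX K o.im δ) s) :
    NB 2 (outc s) (box δ o K (sp (LX K o.re δ) (LX K o.im δ) s j)) := by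
  have hm3 : 3 * δ ≤ mesh (K + 1) := by linarith
  have hl := slen_ge (K := K) (o := o) hδ hm s
  have hs1 : NB 1 (outc s) s.1 := (NB.of_adj ⟨_, rfl⟩).symm
  have hin : ∀ i, 0 < i → i < slen (LX K o.re δ) (LX K o.im δ) s →
      box δ o K (sp (LX K o.re δ) (LX K o.im δ) s i) = s.1 := fun i h1 h2 =>
    (side_box hδ hm3 hg hT hs h1 h2).1
  rcases Nat.eq_zero_or_pos j with h1 | h1
  · subst h1
    have h2 := NB.box_step hδ hm3 hg (sp_unit (LX K o.re δ) (LX K o.im δ) s 0)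
    rw [hin (0 + 1) (by omega) (by omega)] at h2
    exact hs1.trans h2.symm
  · rcases Nat.lt_or_ge j (slen (LX K o.re δ) (LX K o.im δ) s) with h3 | h3
    · rw [hin j h1 h3]; exact hs1.mono (by norm_num)
    · obtain ⟨i, rfl⟩ : ∃ i, j = i + 1 := ⟨j - 1, by omega⟩
      have h2 := NB.box_step hδ hm3 hg (sp_unit (LX K o.re δ) (LX K o.im δ) s i)
      rw [hin i (by omega) (by omega)] at h2
      exact hs1.trans h2

end

/-- the region does not depend on the side -/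
lemma R_eq {d : SD} {c0 : ℤ × ℤ} (hc0 : c0 ∈ d.P \ d.H2) {s : (ℤ × ℤ) × ℤ}
    (hs : s.1 ∈ comp (d.P \ d.H2) c0) : ({d with s := s} : SD).R = comp (d.P \ d.H2) c0 :=
  comp_eq hc0 hs

/-- **The tip side and the tip path of the first step.** -/
theorem tied0 {d : SD} {o : ℂ} {δ : ℝ} {Y : DEnv} {Kv N : Finset (ℤ × ℤ)} {v0 : ℤ × ℤ}
    (hI : Inv Y) (oddE : ∀ e ∈ Y.E, (e.1 + e.2) % 2 = 1) (hL : InvL Y)
    (hα : vx Y.α ∉ Kv) (hβ : vx Y.β ∈ Kv)
    (hconn : ∀ u ∈ Kv, ∀ v ∈ Kv, Co (kap Kv ∩ (Y.E ∪ Y.W)) u v)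
    (hok : ∀ s : (ℤ × ℤ) × ℤ, s.1 ∈ d.P → s.1 ∉ d.H2 → outc s ∉ d.P → ({d with s := s} : SD).Ok)
    (hf : d.Fine o δ) (hfree : ∀ v, box δ o d.K v ∈ d.P → star1 v ⊆ Y.E)
    (hKP : ∀ v ∈ Kv, box δ o d.K v ∈ d.P → box δ o d.K v ∈ d.H2)
    (hKC : ∀ v, box δ o d.K v ∈ flat d.K d.C → v ∈ Kv)
    (hαP : ¬ star1 (vx Y.α) ⊆ Y.E) (hNα : vx Y.α ∈ N)
    (hNc : ∀ u ∈ N, ∀ v ∈ N, Co (kap N ∩ (Y.E ∪ Y.W)) u v)
    (hv0 : v0 ∈ N) (hv0P : box δ o d.K v0 ∈ d.P)
    (hNH : ∀ v ∈ N, ∀ c, NB 3 (box δ o d.K v) c → c ∉ d.H2)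
    (hNK : ∀ v ∈ N, ∀ e ∈ star1 v, e ∉ star Kv)
    (hC : ∃ x ∈ comp (d.P \ d.H2) (box δ o d.K v0), ∃ y ∈ flat d.K d.C, Adj4 x y) :
    ∃ s τ A p0, s.1 ∈ comp (d.P \ d.H2) (box δ o d.K v0) ∧
      Tied ({d with s := s} : SD) o δ Y Y Kv τ A p0 ∧
      (∀ v, Vl τ v → v ∈ N) ∧ (∀ e ∈ A, ∃ v ∈ N, e ∈ star1 v) ∧
      ∃ w ∈ N, NB 2 (outc s) (box δ o d.K w) := by
  classical
  have hm3 : 3 * δ ≤ mesh (d.K + 1) := hf.hm3
  set c0 := box δ o d.K v0 with hc0
  have hc0m : c0 ∈ d.P \ d.H2 := mem_sdiff.2 ⟨hv0P, hNH v0 hv0 c0 (NB.refl (by norm_num) _)⟩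
  set R0 := comp (d.P \ d.H2) c0 with hR0
  have hR0P : ∀ c ∈ R0, c ∈ d.P ∧ c ∉ d.H2 := fun c hc => mem_sdiff.1 (comp_subset _ _ hc)
  -- the entrance
  obtain ⟨T, u, w, hTL, hTV, hTu, huV, hwV, huw, huwL⟩ :=
    enter_path (L := kap N ∩ (Y.E ∪ Y.W)) (V := fun v => box δ o d.K v ∈ R0)
      (x := vx Y.α) (y := v0) (fun h => hαP (hfree _ (hR0P _ h).1))
      (self_mem_comp hc0m) (hNc _ hNα _ hv0)
  obtain ⟨huw1, huw2⟩ := ends_add huw
  have huN : u ∈ N ∧ w ∈ N := by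
    have h1 := kap_ends (mem_inter.1 huwL).1
    rcases huw2 with ⟨h2, h3⟩ | ⟨h2, h3⟩
    · rw [← h2, ← h3] at h1; exact h1
    · rw [← h2, ← h3] at h1; exact ⟨h1.2, h1.1⟩
  -- the side at the entrance
  have hadj : Adj4 (box δ o d.K w) (box δ o d.K u) := by
    have h1 := box_adj (K := d.K) (o := o) hf.hδ hm3 hf.gen huw1
    have hne : box δ o d.K u ≠ box δ o d.K w := fun h => huV (by rw [h]; exact hwV)
    rcases huw2 with ⟨h2, h3⟩ | ⟨h2, h3⟩
    · rw [← h2, ← h3] at h1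
      rcases h1 with h1 | h1
      · exact absurd h1.symm hne
      · exact Pool.Agent.Q1.M3.Pg.adj4_symm h1
    · rw [← h2, ← h3] at h1
      rcases h1 with h1 | h1
      · exact absurd h1 hne
      · exact h1
  have huP : box δ o d.K u ∉ d.P := fun h =>
    huV (comp_adj hwV (mem_sdiff.2 ⟨h, hNH u huN.1 _ (NB.refl (by norm_num) _)⟩) hadj)
  obtain ⟨k, hk⟩ := hadj
  set sw : (ℤ × ℤ) × ℤ := (box δ o d.K w, k + 1) with hsw
  have hosw : outc sw = box δ o d.K u := by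
    unfold outc
    rw [hsw, hk]
    simp
  have hokw : ({d with s := sw} : SD).Ok :=
    hok sw (hR0P _ hwV).1 (hR0P _ hwV).2 (by rw [hosw]; exact huP)
  have hRw : ({d with s := sw} : SD).R = R0 := R_eq hc0m hwV
  have hfw : ({d with s := sw} : SD).Fine o δ := ⟨hf.hδ, hf.hm, hf.gen⟩
  have hfreew : ({d with s := sw} : SD).Free o δ Y Kv := by
    refine ⟨fun v hv => ?_, fun v hv hvR => ?_⟩
    · rw [hRw] at hv
      exact hfree v (hR0P _ hv).1
    · rw [hRw] at hvR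
      exact (hR0P _ hvR).2 (hKP v hv (hR0P _ hvR).1)
  obtain ⟨g1, g2, g3⟩ := SD.G_free hokw hfw hfreew
  have hvl : ∀ v, Vl (({d with s := sw} : SD).G o δ) v ↔ box δ o d.K v ∈ R0 := by
    intro v
    rw [SD.vl_G hokw hfw, hRw]
  -- the side at the family
  obtain ⟨x, hx, y, hy, hxy⟩ := hC
  have hyH : y ∈ d.H2 := mem_union_left _ hy
  obtain ⟨nt, hnt, ht1, ht2⟩ := SD.exists_side hokw (a := x) (b := y) (by rw [hRw]; exact hx)
    (by rw [hRw]; exact fun h => (hR0P _ h).2 hyH) hxy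
  have hl := SD.three_ln hfw nt
  have hperp := SD.perp_of_flat (Kv := Kv) hokw hfw hfreew (n := nt) (j := 1) one_pos
    (lt_of_lt_of_le (by norm_num) hl) (fun v hv => hKC v (by
      have h1 : ({d with s := sw} : SD).oc' nt = y := ht2
      rw [h1] at hv
      have h2 : box δ o d.K v = y := hv
      rw [h2]; exact hy))
  have hpv : Vl (({d with s := sw} : SD).G o δ) (({d with s := sw} : SD).pt' o δ nt 1) := by
    rw [hvl]
    have h1 := (SD.side_box' hokw hfw (n := nt) (j := 1) one_pos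
      (lt_of_lt_of_le (by norm_num) hl)).1
    have h2 : box δ o d.K (({d with s := sw} : SD).pt' o δ nt 1) =
      (({d with s := sw} : SD).sid nt).1 := h1
    rw [h2]
    have h3 : (({d with s := sw} : SD).sid nt).1 = x := ht1
    rw [h3]; exact hx
  have hpend : ∃ z, (z = eu (({d with s := sw} : SD).ol o δ nt 1) ∨
      z = ev (({d with s := sw} : SD).ol o δ nt 1)) ∧ Vl (({d with s := sw} : SD).G o δ) z := by
    refine ⟨_, ?_, hpv⟩
    have hu : IsUnit4 (({d with s := sw} : SD).pt' o δ nt 1 +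
        Pool.Agent.H75.Perc.dir ((({d with s := sw} : SD).sid nt).2 - 1) -
        ({d with s := sw} : SD).pt' o δ nt 1) := by
      rw [add_sub_cancel_left]; exact isUnit4_dir _
    obtain ⟨-, h4⟩ := ends_add hu
    have e : ({d with s := sw} : SD).ol o δ nt 1 = ({d with s := sw} : SD).pt' o δ nt 1 +
        (({d with s := sw} : SD).pt' o δ nt 1 +
        Pool.Agent.H75.Perc.dir ((({d with s := sw} : SD).sid nt).2 - 1)) := outl_eq _ _
    rw [e]
    rcases h4 with ⟨h5, -⟩ | ⟨h5, -⟩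
    · exact Or.inl h5
    · exact Or.inr h5
  have hTN : ∀ v, Vl T v → v ∈ N := by
    rintro v ⟨e, he, hv⟩
    have h1 := kap_ends (mem_inter.1 (hTL he)).1
    rcases hv with rfl | rfl
    · exact h1.1
    · exact h1.2
  -- the context
  obtain ⟨a0, A, hctx, ha1, ha2, hA⟩ := ctx_of_path (Y := Y) (K := Kv)
    (G := ({d with s := sw} : SD).G o δ) (τ1 := T) (u := u) (w := w) hI oddE hα hβ hconn g1 g2 g3
    (fun a b ha hb => SD.G_conn hokw hfw ha hb) hperp hpend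
    (hTL.trans inter_subset_right)
    (by
      rintro v ⟨e, he, hv⟩ h1
      rw [hvl] at h1
      have h2 := hTV e he
      rcases hv with rfl | rfl
      · exact h2.1 h1
      · exact h2.2 h1)
    (by rw [hvl]; exact fun h => hαP (hfree _ (hR0P _ h).1))
    (by
      intro v hv
      refine hNK v ?_
      rcases hv with rfl | hv
      · exact hNα
      · exact hTN v hv)
    hTu ((hvl w).2 hwV) huw
  -- the side of the entrance
  have hgood : Good R0 := by rw [← hRw]; exact hokw.good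
  have hside : IsSide R0 sw := by rw [← hRw]; exact hokw.side
  have hG : ({d with s := sw} : SD).G o δ = gs (LX d.K o.re δ) (LX d.K o.im δ) R0 := by
    unfold SD.G; rw [hRw]
  obtain ⟨n, hn, p0, hp0, hp0', hCC, j, hj, hvj⟩ := exists_entry (Q := R0) (X := LX d.K o.re δ)
    (Y := LX d.K o.im δ) (s := sw) hgood (LX_mono hf.hδ hm3) (LX_mono hf.hδ hm3) hside
    (N := ({d with s := sw} : SD).N) (by have := hokw.mark.walk.period; rwa [hRw] at this)
    (a0 := a0) (by rw [← hG]; exact hctx.a0G) (by rw [← hG]; exact hctx.e1G)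
  set s' : (ℤ × ℤ) × ℤ := sd R0 sw n with hs'
  have hs'side : IsSide R0 s' := Pool.Agent.Q1.M4.isSide_iter hside n
  have hnear : NB 2 (outc s') (box δ o d.K w) := by
    have h1 := sp_near' (K := d.K) (o := o) hf.hδ hf.hm hf.gen hokw.typed (ct := c0) hs'side hj
    rw [← hvj, ha2] at h1
    exact h1
  have hs'P : outc s' ∉ d.P := by
    rcases outc_cases (P := d.P) (H := d.H2) (ct := c0) hs'side with h1 | h1
    · exact h1
    · exact absurd h1 (hNH w huN.2 _ (hnear.symm.mono (by norm_num)))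
  have hok' : ({d with s := s'} : SD).Ok := hok s' (hR0P _ hs'side.1).1 (hR0P _ hs'side.1).2 hs'P
  have hR' : ({d with s := s'} : SD).R = R0 := R_eq hc0m hs'side.1
  have hG' : ({d with s := s'} : SD).G o δ = ({d with s := sw} : SD).G o δ := by
    rw [hG]
    unfold SD.G; rw [hR']
  have hCn : ({d with s := s'} : SD).Cn o δ p0 = a0 := by
    unfold SD.Cn
    rw [hR']
    exact hCC
  refine ⟨s', insert (u + w) T, A, p0, hs'side.1, ?_, ?_, ?_, w, huN.2, hnear⟩
  · refine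
      { ok := hok'
        fine := ⟨hf.hδ, hf.hm, hf.gen⟩
        free := ?_
        ctx := by rw [hCn, hG']; exact hctx
        p0pos := hp0
        p0le := ?_
        out := by rw [hCn, hG']; exact hctx.e1G
        invL := hL
        EY := subset_union_left
        wt := fun _ h => h
        cl := fun _ h => h
        beta := rfl
        kp := rfl
        run := ?_ }
    · refine ⟨fun v hv => ?_, fun v hv hvR => ?_⟩
      · rw [hR'] at hv
        exact hfree v (hR0P _ hv).1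
      · rw [hR'] at hvR
        exact (hR0P _ hvR).2 (hKP v hv (hR0P _ hvR).1)
    · unfold SD.S1
      rw [hR']
      exact hp0'
    · obtain ⟨m, hm, hm1, hm2⟩ := SD.exists_side hok' (a := x) (b := y) (by rw [hR']; exact hx)
        (by rw [hR']; exact fun h => (hR0P _ h).2 hyH) hxy
      obtain ⟨h5, h6⟩ := (hok'.mark.run m hm).1 (by rw [hm2]; exact hok'.flat_sub hy)
      refine ⟨m, h5, h6, fun v hv => hKC v ?_⟩
      have h1 : ({d with s := s'} : SD).oc' m = y := hm2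
      rw [h1] at hv
      have h2 : box δ o d.K v = y := hv
      rw [h2]; exact hy
  · rintro v ⟨e, he, hv⟩
    rcases mem_insert.1 he with rfl | he
    · have h1 := kap_ends (mem_inter.1 huwL).1
      rcases hv with rfl | rfl
      · exact h1.1
      · exact h1.2
    · exact hTN v ⟨e, he, hv⟩
  · intro e he
    obtain ⟨v, hv, h1⟩ := hA e he
    refine ⟨v, ?_, h1⟩
    rcases hv with rfl | hv
    · exact hNα
    · exact hTN v hv

end Pool.Agent.H14.NB
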